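import Pool.Agent.Run7.h970.Model

set_option autoImplicit false

/-!
# Many triples survive
-/

namespace Run7.h970

open Finset

/-- Lower bound for the size of a cap. -/
theorem cap_bound (d m : ℕ) (v0 : Fin d → Bool) :
    d.choose m ≤ (Finset.univ.filter (fun v : Fin d → Bool => (2 * m - d : ℝ) ≤ ip v0 v)).card := by
  classical
  have h0 : d.choose m = (Finset.powersetCard m (Finset.univ : Finset (Fin d))).card := by
    rw [Finset.card_powersetCard, Finset.card_univ, Fintype.card_fin]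
  rw [h0]
  refine Finset.card_le_card_of_injOn (fun (s : Finset (Fin d)) k => if k ∈ s then v0 k else !(v0 k))
    ?_ ?_
  · intro s hs
    have hs' : s ∈ Finset.powersetCard m (Finset.univ : Finset (Fin d)) := hs
    rw [Finset.mem_powersetCard] at hs'
    simp only [Finset.coe_filter, Finset.mem_univ, true_and, Set.mem_ofPred_eq]
    unfold ip
    have h1 : ∀ k, sg (v0 k) * sg (if k ∈ s then v0 k else !(v0 k))
        = 2 * (if k ∈ s then (1 : ℝ) else 0) - 1 := by
      intro k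
      by_cases hk : k ∈ s
      · rw [if_pos hk, if_pos hk, sg_sq]; norm_num
      · rw [if_neg hk, if_neg hk]
        cases v0 k <;> simp [sg]
    rw [Finset.sum_congr rfl (fun k _ => h1 k), Finset.sum_sub_distrib, ← Finset.mul_sum,
      Finset.sum_boole]
    have h2 : (Finset.univ.filter (fun k => k ∈ s)) = s := by
      ext k; simp
    rw [h2, hs'.2]
    simp
  · intro s _ s' _ hss
    ext k
    have := congrFun hss k
    by_cases hk : k ∈ s <;> by_cases hk' : k ∈ s' <;> simp [hk, hk'] at this ⊢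

/-- The number of triples of sign vectors with the two required relations. -/
theorem cherry_bound (d K : ℕ) (a : ℝ)
    (hK : ∀ v0 : Fin d → Bool,
      K ≤ (Finset.univ.filter (fun v : Fin d → Bool => a ≤ ip v0 v)).card) :
    2 ^ d * K ^ 2 ≤ (Finset.univ.filter (fun η : Fin 3 → Fin d → Bool =>
      a ≤ ip (η 0) (η 1) ∧ a ≤ ip (η 0) (η 2))).card := by
  classical
  let T : (Fin d → Bool) → Finset (Fin d → Bool) :=
    fun v0 => Finset.univ.filter (fun v : Fin d → Bool => a ≤ ip v0 v)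
  let S : Finset (Σ _ : Fin d → Bool, (Fin d → Bool) × (Fin d → Bool)) :=
    Finset.univ.sigma (fun v0 => T v0 ×ˢ T v0)
  have h1 : 2 ^ d * K ^ 2 ≤ S.card := by
    rw [Finset.card_sigma]
    calc 2 ^ d * K ^ 2 = ∑ _v0 : Fin d → Bool, K ^ 2 := by
          simp
      _ ≤ ∑ v0 : Fin d → Bool, (T v0 ×ˢ T v0).card := by
          refine Finset.sum_le_sum (fun v0 _ => ?_)
          rw [Finset.card_product, sq]
          exact Nat.mul_le_mul (hK v0) (hK v0)
  refine h1.trans (Finset.card_le_card_of_injOn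
    (fun w => ![w.1, w.2.1, w.2.2]) ?_ ?_)
  · intro w hw
    have hw' : w ∈ S := hw
    simp only [S, T, Finset.mem_sigma, Finset.mem_univ, true_and, Finset.mem_product,
      Finset.mem_filter] at hw'
    simp only [Finset.coe_filter, Finset.mem_univ, true_and, Set.mem_ofPred_eq]
    exact hw'
  · rintro ⟨v0, v1, v2⟩ _ ⟨w0, w1, w2⟩ _ h
    have h0 := congrFun h 0
    have h1 := congrFun h 1
    have h2 := congrFun h 2
    simp at h0 h1 h2
    subst h0 h1 h2
    rfl

/-- Index of a triple. -/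
def tri {N : ℕ} (t : Fin N × Fin N × Fin N) : Fin 3 → Fin 3 × Fin N :=
  ![(0, t.1), (1, t.2.1), (2, t.2.2)]

theorem tri_injective {N : ℕ} (t : Fin N × Fin N × Fin N) : Function.Injective (tri t) := by
  intro i j h
  have := congrArg Prod.fst h
  fin_cases i <;> fin_cases j <;> simp [tri] at this ⊢

/-- The set of triples of a relation. -/
noncomputable def triples {N : ℕ} (R : Fin 3 × Fin N → Fin 3 × Fin N → Prop) :
    Finset (Fin N × Fin N × Fin N) := by
  classical
  exact Finset.univ.filter (fun t => R (0, t.1) (1, t.2.1) ∧ R (0, t.1) (2, t.2.2))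

theorem mem_triples {N : ℕ} (R : Fin 3 × Fin N → Fin 3 × Fin N → Prop)
    (t : Fin N × Fin N × Fin N) :
    t ∈ triples R ↔ R (0, t.1) (1, t.2.1) ∧ R (0, t.1) (2, t.2.2) := by
  classical
  unfold triples
  simp

theorem card_triples_le {N : ℕ} (R : Fin 3 × Fin N → Fin 3 × Fin N → Prop) :
    ((triples R).card : ℝ) ≤ (N : ℝ) ^ 3 := by
  have : (triples R).card ≤ N ^ 3 := by
    refine (Finset.card_le_univ _).trans (le_of_eq ?_)
    simp; ring
  exact_mod_cast this

theorem sum_triples {d N m : ℕ} {b : ℝ} (hm : m ≤ d) (hbm : b * d = 2 * m - d) :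
    (N : ℝ) ^ 3 * ((d.choose m : ℝ) / 2 ^ d) ^ 2 *
      (Fintype.card (Fin d → Bool) : ℝ) ^ (Fintype.card (Fin 3 × Fin N))
      ≤ ∑ ω : Fin 3 × Fin N → Fin d → Bool, ((triples (thr b ω)).card : ℝ) := by
  classical
  have h1 : ∀ ω : Fin 3 × Fin N → Fin d → Bool, ((triples (thr b ω)).card : ℝ)
      = ∑ t : Fin N × Fin N × Fin N,
        if (b * d ≤ ip ((ω ∘ tri t) 0) ((ω ∘ tri t) 1) ∧
            b * d ≤ ip ((ω ∘ tri t) 0) ((ω ∘ tri t) 2)) then (1 : ℝ) else 0 := by
    intro ω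
    rw [Finset.sum_boole]
    congr 2
  simp_rw [h1]
  rw [Finset.sum_comm]
  have h2 : ∀ t : Fin N × Fin N × Fin N,
      ((d.choose m : ℝ) / 2 ^ d) ^ 2 *
        (Fintype.card (Fin d → Bool) : ℝ) ^ (Fintype.card (Fin 3 × Fin N))
      ≤ ∑ ω : Fin 3 × Fin N → Fin d → Bool,
        if (b * d ≤ ip ((ω ∘ tri t) 0) ((ω ∘ tri t) 1) ∧
            b * d ≤ ip ((ω ∘ tri t) 0) ((ω ∘ tri t) 2)) then (1 : ℝ) else 0 := by
    intro t
    rw [Finset.sum_boole]
    have h3 := card_comp_injective (A := Fin d → Bool) (tri t) (tri_injective t)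
      (fun η => b * d ≤ ip (η 0) (η 1) ∧ b * d ≤ ip (η 0) (η 2))
    have h4 := cherry_bound d (d.choose m) (b * d) (fun v0 => by
      rw [hbm]; exact cap_bound d m v0)
    have h4' : (2 : ℝ) ^ d * (d.choose m : ℝ) ^ 2 ≤
        (((Finset.univ.filter (fun η : Fin 3 → Fin d → Bool =>
      b * d ≤ ip (η 0) (η 1) ∧ b * d ≤ ip (η 0) (η 2))).card : ℕ) : ℝ) := by
      exact_mod_cast h4
    rw [Fintype.card_fin, card_signs] at h3
    rw [card_signs]
    have hpos : (0 : ℝ) < (2 ^ d) ^ 3 := by positivity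
    refine le_of_mul_le_mul_left ?_ hpos
    rw [h3]
    have h5 : ((2 : ℝ) ^ d) ^ 3 * (((d.choose m : ℝ) / 2 ^ d) ^ 2 *
        (2 ^ d) ^ (Fintype.card (Fin 3 × Fin N)))
        = (2 ^ d) ^ (Fintype.card (Fin 3 × Fin N)) * (2 ^ d * (d.choose m : ℝ) ^ 2) := by
      have : (2 : ℝ) ^ d ≠ 0 := by positivity
      field_simp
    rw [h5]
    exact mul_le_mul_of_nonneg_left h4' (by positivity)
  calc (N : ℝ) ^ 3 * ((d.choose m : ℝ) / 2 ^ d) ^ 2 *
        (Fintype.card (Fin d → Bool) : ℝ) ^ (Fintype.card (Fin 3 × Fin N))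
      = ∑ _t : Fin N × Fin N × Fin N, ((d.choose m : ℝ) / 2 ^ d) ^ 2 *
        (Fintype.card (Fin d → Bool) : ℝ) ^ (Fintype.card (Fin 3 × Fin N)) := by
        have hc : (Fintype.card (Fin N × Fin N × Fin N) : ℝ) = (N : ℝ) ^ 3 := by
          simp; ring
        rw [Finset.sum_const, Finset.card_univ, nsmul_eq_mul, hc]
        ring
    _ ≤ _ := Finset.sum_le_sum (fun t _ => h2 t)

/-- Some assignment avoids the configuration and has many triples. -/
theorem exists_omega {M : ℕ} {b s c l L : ℝ} (hC : Cond M b s c l L) (d N m : ℕ)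
    (hN0 : 0 < N) (hN : (3 * N : ℝ) ≤ Real.exp (L * d)) (hm : m ≤ d)
    (hbm : b * d = 2 * m - d)
    (hq : 3 * Real.exp (-(2 * L * d)) < ((d.choose m : ℝ) / 2 ^ d) ^ 2) :
    ∃ ω : Fin 3 × Fin N → Fin d → Bool, ¬ Conf M (thr b ω) ∧
      (N : ℝ) ^ 3 * (((d.choose m : ℝ) / 2 ^ d) ^ 2 - 3 * Real.exp (-(2 * L * d)))
        ≤ ((triples (thr b ω)).card : ℝ) := by
  classical
  set q : ℝ := ((d.choose m : ℝ) / 2 ^ d) ^ 2 with hqdef
  set e : ℝ := 3 * Real.exp (-(2 * L * d)) with hedef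
  have hNR : (0 : ℝ) < N := by exact_mod_cast hN0
  let E : Finset (Fin 3 × Fin N → Fin d → Bool) :=
    Finset.univ.filter (fun ω => Conf M (thr b ω))
  have hE := conf_bound hC d (I := Fin 3 × Fin N) (by simpa using hN) E
    (fun ω hω => (Finset.mem_filter.mp hω).2)
  have hS := sum_triples (d := d) (N := N) (m := m) (b := b) hm hbm
  set Ω : ℝ := (Fintype.card (Fin d → Bool) : ℝ) ^ (Fintype.card (Fin 3 × Fin N)) with hΩ
  have hcardΩ : (Fintype.card (Fin 3 × Fin N → Fin d → Bool) : ℝ) = Ω := by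
    rw [Fintype.card_fun]; push_cast; rfl
  have hsum : ∑ _ω : Fin 3 × Fin N → Fin d → Bool, (N : ℝ) ^ 3 * (q - e)
      ≤ ∑ ω : Fin 3 × Fin N → Fin d → Bool, (((triples (thr b ω)).card : ℝ) -
        (N : ℝ) ^ 3 * (if Conf M (thr b ω) then (1 : ℝ) else 0)) := by
    have hA : ∑ ω : Fin 3 × Fin N → Fin d → Bool,
        (N : ℝ) ^ 3 * (if Conf M (thr b ω) then (1 : ℝ) else 0) = (N : ℝ) ^ 3 * (E.card : ℝ) := by
      rw [← Finset.mul_sum, Finset.sum_boole]
    have hB : ∑ _ω : Fin 3 × Fin N → Fin d → Bool, (N : ℝ) ^ 3 * (q - e)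
        = Ω * ((N : ℝ) ^ 3 * (q - e)) := by
      rw [Finset.sum_const, Finset.card_univ, nsmul_eq_mul, hcardΩ]
    rw [Finset.sum_sub_distrib, hA, hB]
    have : (N : ℝ) ^ 3 * (E.card : ℝ) ≤ (N : ℝ) ^ 3 * (e * Ω) :=
      mul_le_mul_of_nonneg_left hE (by positivity)
    linarith
  obtain ⟨ω, -, hω⟩ := Finset.exists_le_of_sum_le (Finset.univ_nonempty) hsum
  have hnot : ¬ Conf M (thr b ω) := by
    intro hcon
    rw [if_pos hcon, mul_one] at hω
    have h1 := card_triples_le (thr b ω)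
    have h2 : 0 < (N : ℝ) ^ 3 * (q - e) := by
      have : 0 < q - e := by linarith
      positivity
    linarith
  refine ⟨ω, hnot, ?_⟩
  rw [if_neg hnot, mul_zero, sub_zero] at hω
  exact hω

end Run7.h970
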