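import Pool.Agent.Run7.h970.Count

set_option autoImplicit false

/-!
# The forbidden configuration is unlikely
-/

namespace Run7.h970

open Finset

/-- The configuration that the random threshold relation avoids: `z i j` is related to `x i` and
`y j`, and for all `p, q` the vertex `r (p, q)` is related to `z p` and `z q`. -/
def Conf {I : Type} (M : ℕ) (R : I → I → Prop) : Prop :=
  ∃ (x y : Fin M → I) (z : Fin M × Fin M → I) (r : (Fin M × Fin M) × (Fin M × Fin M) → I),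
    Function.Injective (Sum.elim (Sum.elim x y) z) ∧ Function.Injective (Sum.elim z r) ∧
    (∀ p, R (z p) (x p.1) ∧ R (z p) (y p.2)) ∧ (∀ q, R (r q) (z q.1) ∧ R (r q) (z q.2))

/-- Numerical side conditions. -/
structure Cond (M : ℕ) (b s c l L : ℝ) : Prop where
  hM : 0 < M
  hb : 0 < b
  hL : 0 ≤ L
  hl0 : 0 ≤ l
  hl : Real.cosh (2 * b) ≤ Real.exp l
  h3 : L * M + Real.log (2 * M + 1) - M * s / 4 ≤ -(2 * L)
  h2 : L * (2 * M + M ^ 2) + Real.log (2 * M ^ 2 + 1) + M ^ 2 * (-b ^ 2 + 5 * b ^ 2 * s - c / 4)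
    ≤ -(2 * L)
  h1 : L * (M ^ 2 + M ^ 4) + M ^ 4 * (-(2 * b ^ 2) + l / 2 * (1 + c)) ≤ -(2 * L)

theorem card_signs (d : ℕ) : (Fintype.card (Fin d → Bool) : ℝ) = 2 ^ d := by
  simp

theorem E3_bound {I : Type} [Fintype I] [DecidableEq I] {M : ℕ} {b s c l L : ℝ}
    (hC : Cond M b s c l L) (d : ℕ) (hI : (Fintype.card I : ℝ) ≤ Real.exp (L * d))
    (E : Finset (I → Fin d → Bool))
    (hE : ∀ ω ∈ E, ∃ κ : Fin M → I, Function.Injective κ ∧
      (M : ℝ) ^ 2 * s * d < sqn (ω ∘ κ)) :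
    (E.card : ℝ) ≤ Real.exp (-(2 * L * d)) *
      (Fintype.card (Fin d → Bool) : ℝ) ^ (Fintype.card I) := by
  classical
  have hU := union_bound (J := Fin M) (I := I) (A := Fin d → Bool)
    (fun x : Fin M → Fin d → Bool => (M : ℝ) ^ 2 * s * d < sqn x)
    ((2 * M + 1) ^ d * Real.exp (-(M * s * d / 4))) ?_ (by positivity) E hE
  · refine hU.trans (mul_le_mul_of_nonneg_right ?_ (by positivity))
    rw [Fintype.card_fin]
    have e1 : ((2 : ℝ) * M + 1) ^ d = Real.exp (Real.log (2 * M + 1) * d) := by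
      rw [mul_comm (Real.log _) (d : ℝ), Real.exp_nat_mul, Real.exp_log (by positivity)]
    calc (Fintype.card I : ℝ) ^ M * ((2 * M + 1) ^ d * Real.exp (-(M * s * d / 4)))
        ≤ (Real.exp (L * d)) ^ M * ((2 * M + 1) ^ d * Real.exp (-(M * s * d / 4))) := by
          gcongr
      _ = Real.exp (d * (L * M + Real.log (2 * M + 1) - M * s / 4)) := by
          rw [e1, ← Real.exp_nat_mul, ← Real.exp_add, ← Real.exp_add]
          congr 1
          ring
      _ ≤ _ := by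
          refine Real.exp_le_exp.mpr ?_
          have := mul_le_mul_of_nonneg_left hC.h3 (Nat.cast_nonneg d : (0 : ℝ) ≤ d)
          linarith
  · refine (bad3 d M hC.hM s).trans (le_of_eq ?_)
    rw [card_signs, Fintype.card_fin, ← pow_mul]
    ring

theorem E2_bound {I : Type} [Fintype I] [DecidableEq I] {M : ℕ} {b s c l L : ℝ}
    (hC : Cond M b s c l L) (d : ℕ) (hI : (Fintype.card I : ℝ) ≤ Real.exp (L * d))
    (E : Finset (I → Fin d → Bool))
    (hE : ∀ ω ∈ E, ∃ κ : (Fin M ⊕ Fin M) ⊕ (Fin M × Fin M) → I, Function.Injective κ ∧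
      (sqn ((ω ∘ κ) ∘ Sum.inl ∘ Sum.inl) ≤ (M : ℝ) ^ 2 * s * d ∧
       sqn ((ω ∘ κ) ∘ Sum.inl ∘ Sum.inr) ≤ (M : ℝ) ^ 2 * s * d ∧
       (∀ p : Fin M × Fin M,
          b * d ≤ ip ((ω ∘ κ) (Sum.inr p)) ((ω ∘ κ) (Sum.inl (Sum.inl p.1))) ∧
          b * d ≤ ip ((ω ∘ κ) (Sum.inr p)) ((ω ∘ κ) (Sum.inl (Sum.inr p.2)))) ∧
       (M : ℝ) ^ 4 * c * d < sqn ((ω ∘ κ) ∘ Sum.inr))) :
    (E.card : ℝ) ≤ Real.exp (-(2 * L * d)) *
      (Fintype.card (Fin d → Bool) : ℝ) ^ (Fintype.card I) := by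
  classical
  have hM : (0 : ℝ) < M := by exact_mod_cast hC.hM
  let B' : ((Fin M ⊕ Fin M) → Fin d → Bool) → ((Fin M × Fin M) → Fin d → Bool) → Prop :=
    fun xy z => sqn (xy ∘ Sum.inl) ≤ (M : ℝ) ^ 2 * s * d ∧
      sqn (xy ∘ Sum.inr) ≤ (M : ℝ) ^ 2 * s * d ∧
      (∀ p : Fin M × Fin M, b * d ≤ ip (z p) (xy (Sum.inl p.1)) ∧
        b * d ≤ ip (z p) (xy (Sum.inr p.2))) ∧
      (M : ℝ) ^ 4 * c * d < sqn z
  have hU := union_bound (J := (Fin M ⊕ Fin M) ⊕ (Fin M × Fin M)) (I := I) (A := Fin d → Bool)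
    (fun η => B' (η ∘ Sum.inl) (η ∘ Sum.inr))
    ((2 * M ^ 2 + 1) ^ d *
      Real.exp ((M : ℝ) ^ 2 * d * (-b ^ 2 + 5 * b ^ 2 * s - c / 4))) ?_ (by positivity) E
    (fun ω hω => hE ω hω)
  · refine hU.trans (mul_le_mul_of_nonneg_right ?_ (by positivity))
    have e0 : Fintype.card ((Fin M ⊕ Fin M) ⊕ (Fin M × Fin M)) = 2 * M + M ^ 2 := by
      simp [sq, two_mul]
    rw [e0]
    have e1 : ((2 : ℝ) * M ^ 2 + 1) ^ d = Real.exp (Real.log (2 * M ^ 2 + 1) * d) := by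
      rw [mul_comm (Real.log _) (d : ℝ), Real.exp_nat_mul, Real.exp_log (by positivity)]
    calc (Fintype.card I : ℝ) ^ (2 * M + M ^ 2) * ((2 * M ^ 2 + 1) ^ d *
          Real.exp ((M : ℝ) ^ 2 * d * (-b ^ 2 + 5 * b ^ 2 * s - c / 4)))
        ≤ (Real.exp (L * d)) ^ (2 * M + M ^ 2) * ((2 * M ^ 2 + 1) ^ d *
          Real.exp ((M : ℝ) ^ 2 * d * (-b ^ 2 + 5 * b ^ 2 * s - c / 4))) := by
          gcongr
      _ = Real.exp (d * (L * (2 * M + M ^ 2) + Real.log (2 * M ^ 2 + 1) +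
            M ^ 2 * (-b ^ 2 + 5 * b ^ 2 * s - c / 4))) := by
          rw [e1, ← Real.exp_nat_mul, ← Real.exp_add, ← Real.exp_add]
          congr 1
          push_cast
          ring
      _ ≤ _ := by
          refine Real.exp_le_exp.mpr ?_
          have := mul_le_mul_of_nonneg_left hC.h2 (Nat.cast_nonneg d : (0 : ℝ) ≤ d)
          linarith
  · have hfib := card_sum_fibre (J := Fin M ⊕ Fin M) (K := Fin M × Fin M)
      (A := Fin d → Bool) B'
      ((2 * M ^ 2 + 1) ^ d * 2 ^ (M ^ 2 * d) *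
        Real.exp ((M : ℝ) ^ 2 * d * (-b ^ 2 + 5 * b ^ 2 * s - c / 4))) ?_
    · refine hfib.trans (le_of_eq ?_)
      rw [card_signs, ← pow_mul, ← pow_mul]
      have e0 : Fintype.card ((Fin M ⊕ Fin M) ⊕ (Fin M × Fin M))
          = Fintype.card (Fin M ⊕ Fin M) + M ^ 2 := by
        rw [Fintype.card_sum]; simp [sq]
      rw [e0, mul_add, pow_add, mul_comm (M ^ 2) d]
      ring
    · intro xy
      by_cases h1 : sqn (xy ∘ Sum.inl) ≤ (M : ℝ) ^ 2 * s * d
      · by_cases h2 : sqn (xy ∘ Sum.inr) ≤ (M : ℝ) ^ 2 * s * d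
        · have := bad2 d M hC.hM b s c hC.hb (xy ∘ Sum.inl) (xy ∘ Sum.inr) h1 h2
          refine le_trans (Nat.cast_le.mpr (Finset.card_le_card (fun z hz => ?_))) this
          simp only [Finset.mem_filter, Finset.mem_univ, true_and] at hz ⊢
          exact ⟨hz.2.2.1, hz.2.2.2⟩
        · have : (Finset.univ.filter (fun z => B' xy z)) = ∅ := by
            refine Finset.filter_eq_empty_iff.mpr (fun z _ hz => h2 hz.2.1)
          rw [this]
          simp only [Finset.card_empty, Nat.cast_zero]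
          positivity
      · have : (Finset.univ.filter (fun z => B' xy z)) = ∅ := by
          refine Finset.filter_eq_empty_iff.mpr (fun z _ hz => h1 hz.1)
        rw [this]
        simp only [Finset.card_empty, Nat.cast_zero]
        positivity

theorem E1_bound {I : Type} [Fintype I] [DecidableEq I] {M : ℕ} {b s c l L : ℝ}
    (hC : Cond M b s c l L) (d : ℕ) (hI : (Fintype.card I : ℝ) ≤ Real.exp (L * d))
    (E : Finset (I → Fin d → Bool))
    (hE : ∀ ω ∈ E, ∃ κ : (Fin M × Fin M) ⊕ ((Fin M × Fin M) × (Fin M × Fin M)) → I,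
      Function.Injective κ ∧
      (sqn ((ω ∘ κ) ∘ Sum.inl) ≤ (M : ℝ) ^ 4 * c * d ∧
       (∀ q : (Fin M × Fin M) × (Fin M × Fin M),
          b * d ≤ ip ((ω ∘ κ) (Sum.inr q)) ((ω ∘ κ) (Sum.inl q.1)) ∧
          b * d ≤ ip ((ω ∘ κ) (Sum.inr q)) ((ω ∘ κ) (Sum.inl q.2))))) :
    (E.card : ℝ) ≤ Real.exp (-(2 * L * d)) *
      (Fintype.card (Fin d → Bool) : ℝ) ^ (Fintype.card I) := by
  classical
  have hM : (0 : ℝ) < M := by exact_mod_cast hC.hM
  let B' : ((Fin M × Fin M) → Fin d → Bool) →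
      (((Fin M × Fin M) × (Fin M × Fin M)) → Fin d → Bool) → Prop :=
    fun z r => sqn z ≤ (M : ℝ) ^ 4 * c * d ∧
      (∀ q : (Fin M × Fin M) × (Fin M × Fin M),
        b * d ≤ ip (r q) (z q.1) ∧ b * d ≤ ip (r q) (z q.2))
  have hU := union_bound (J := (Fin M × Fin M) ⊕ ((Fin M × Fin M) × (Fin M × Fin M))) (I := I)
    (A := Fin d → Bool)
    (fun η => B' (η ∘ Sum.inl) (η ∘ Sum.inr))
    (Real.exp ((M : ℝ) ^ 4 * d * (-(2 * b ^ 2) + l / 2 * (1 + c)))) ?_ (by positivity) E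
    (fun ω hω => hE ω hω)
  · refine hU.trans (mul_le_mul_of_nonneg_right ?_ (by positivity))
    have e0 : Fintype.card ((Fin M × Fin M) ⊕ ((Fin M × Fin M) × (Fin M × Fin M)))
        = M ^ 2 + M ^ 4 := by
      simp; ring
    rw [e0]
    calc (Fintype.card I : ℝ) ^ (M ^ 2 + M ^ 4) *
          Real.exp ((M : ℝ) ^ 4 * d * (-(2 * b ^ 2) + l / 2 * (1 + c)))
        ≤ (Real.exp (L * d)) ^ (M ^ 2 + M ^ 4) *
          Real.exp ((M : ℝ) ^ 4 * d * (-(2 * b ^ 2) + l / 2 * (1 + c))) := by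
          gcongr
      _ = Real.exp (d * (L * (M ^ 2 + M ^ 4) + M ^ 4 * (-(2 * b ^ 2) + l / 2 * (1 + c)))) := by
          rw [← Real.exp_nat_mul, ← Real.exp_add]
          congr 1
          push_cast
          ring
      _ ≤ _ := by
          refine Real.exp_le_exp.mpr ?_
          have := mul_le_mul_of_nonneg_left hC.h1 (Nat.cast_nonneg d : (0 : ℝ) ≤ d)
          linarith
  · have hfib := card_sum_fibre (J := Fin M × Fin M) (K := (Fin M × Fin M) × (Fin M × Fin M))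
      (A := Fin d → Bool) B'
      (2 ^ ((M ^ 2) ^ 2 * d) *
        Real.exp (((M ^ 2 : ℕ) : ℝ) ^ 2 * d * (-(2 * b ^ 2) + l / 2 * (1 + c)))) ?_
    · refine hfib.trans (le_of_eq ?_)
      rw [card_signs]
      have e0 : Fintype.card ((Fin M × Fin M) ⊕ ((Fin M × Fin M) × (Fin M × Fin M)))
          = Fintype.card (Fin M × Fin M) + M ^ 4 := by
        rw [Fintype.card_sum]; simp; ring
      have e1 : (M ^ 2) ^ 2 * d = d * M ^ 4 := by ring
      have e2 : (((M ^ 2 : ℕ) : ℝ)) ^ 2 = (M : ℝ) ^ 4 := by push_cast; ring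
      rw [e0, e1, e2, pow_add, ← pow_mul (2 : ℝ) d (M ^ 4)]
      ring
    · intro z
      by_cases h1 : sqn z ≤ (M : ℝ) ^ 4 * c * d
      · have h1' : sqn z ≤ ((M ^ 2 : ℕ) : ℝ) ^ 2 * c * d := by
          push_cast
          have e2 : ((M : ℝ) ^ 2) ^ 2 = (M : ℝ) ^ 4 := by ring
          rw [e2]; exact h1
        have := bad1 (P := Fin M × Fin M) d (M ^ 2) (by simp [sq]) b l c hC.hb hC.hl hC.hl0 z h1'
        refine le_trans (Nat.cast_le.mpr (Finset.card_le_card (fun r hr => ?_))) this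
        simp only [Finset.mem_filter, Finset.mem_univ, true_and] at hr ⊢
        exact hr.2
      · have : (Finset.univ.filter (fun r => B' z r)) = ∅ := by
          refine Finset.filter_eq_empty_iff.mpr (fun r _ hr => h1 hr.1)
        rw [this]
        simp only [Finset.card_empty, Nat.cast_zero]
        positivity

/-- The relation: inner product at least `b d`. -/
def thr {I : Type} {d : ℕ} (b : ℝ) (ω : I → Fin d → Bool) (i j : I) : Prop :=
  b * d ≤ ip (ω i) (ω j)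

theorem conf_bound {I : Type} [Fintype I] [DecidableEq I] {M : ℕ} {b s c l L : ℝ}
    (hC : Cond M b s c l L) (d : ℕ) (hI : (Fintype.card I : ℝ) ≤ Real.exp (L * d))
    (E : Finset (I → Fin d → Bool)) (hE : ∀ ω ∈ E, Conf M (thr b ω)) :
    (E.card : ℝ) ≤ 3 * Real.exp (-(2 * L * d)) *
      (Fintype.card (Fin d → Bool) : ℝ) ^ (Fintype.card I) := by
  classical
  let Q3 : (I → Fin d → Bool) → Prop := fun ω => ∃ κ : Fin M → I, Function.Injective κ ∧
      (M : ℝ) ^ 2 * s * d < sqn (ω ∘ κ)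
  let Q2 : (I → Fin d → Bool) → Prop := fun ω =>
    ∃ κ : (Fin M ⊕ Fin M) ⊕ (Fin M × Fin M) → I, Function.Injective κ ∧
      (sqn ((ω ∘ κ) ∘ Sum.inl ∘ Sum.inl) ≤ (M : ℝ) ^ 2 * s * d ∧
       sqn ((ω ∘ κ) ∘ Sum.inl ∘ Sum.inr) ≤ (M : ℝ) ^ 2 * s * d ∧
       (∀ p : Fin M × Fin M,
          b * d ≤ ip ((ω ∘ κ) (Sum.inr p)) ((ω ∘ κ) (Sum.inl (Sum.inl p.1))) ∧
          b * d ≤ ip ((ω ∘ κ) (Sum.inr p)) ((ω ∘ κ) (Sum.inl (Sum.inr p.2)))) ∧
       (M : ℝ) ^ 4 * c * d < sqn ((ω ∘ κ) ∘ Sum.inr))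
  let Q1 : (I → Fin d → Bool) → Prop := fun ω =>
    ∃ κ : (Fin M × Fin M) ⊕ ((Fin M × Fin M) × (Fin M × Fin M)) → I,
      Function.Injective κ ∧
      (sqn ((ω ∘ κ) ∘ Sum.inl) ≤ (M : ℝ) ^ 4 * c * d ∧
       (∀ q : (Fin M × Fin M) × (Fin M × Fin M),
          b * d ≤ ip ((ω ∘ κ) (Sum.inr q)) ((ω ∘ κ) (Sum.inl q.1)) ∧
          b * d ≤ ip ((ω ∘ κ) (Sum.inr q)) ((ω ∘ κ) (Sum.inl q.2))))
  have hsub : E ⊆ (E.filter Q3) ∪ ((E.filter Q2) ∪ (E.filter Q1)) := by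
    intro ω hω
    obtain ⟨x, y, z, r, hi1, hi2, hz, hr⟩ := hE ω hω
    simp only [Finset.mem_union, Finset.mem_filter]
    by_cases hx : (M : ℝ) ^ 2 * s * d < sqn (ω ∘ x)
    · refine Or.inl ⟨hω, x, ?_, hx⟩
      intro i j hij
      have : (Sum.inl (Sum.inl i) : (Fin M ⊕ Fin M) ⊕ (Fin M × Fin M)) = Sum.inl (Sum.inl j) :=
        hi1 (by simpa using hij)
      simpa using this
    by_cases hy : (M : ℝ) ^ 2 * s * d < sqn (ω ∘ y)
    · refine Or.inl ⟨hω, y, ?_, hy⟩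
      intro i j hij
      have : (Sum.inl (Sum.inr i) : (Fin M ⊕ Fin M) ⊕ (Fin M × Fin M)) = Sum.inl (Sum.inr j) :=
        hi1 (by simpa using hij)
      simpa using this
    by_cases hzz : (M : ℝ) ^ 4 * c * d < sqn (ω ∘ z)
    · refine Or.inr (Or.inl ⟨hω, Sum.elim (Sum.elim x y) z, hi1, not_lt.mp hx, not_lt.mp hy,
        ?_, hzz⟩)
      intro p
      exact hz p
    · refine Or.inr (Or.inr ⟨hω, Sum.elim z r, hi2, not_lt.mp hzz, ?_⟩)
      intro q
      exact hr q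
  have hcard : (E.card : ℝ) ≤ (E.filter Q3).card + ((E.filter Q2).card + (E.filter Q1).card) := by
    have h := (Finset.card_le_card hsub).trans ((Finset.card_union_le _ _).trans
      (Nat.add_le_add_left (Finset.card_union_le _ _) _))
    exact_mod_cast h
  have b3 := E3_bound hC d hI (E.filter Q3) (fun ω hω => (Finset.mem_filter.mp hω).2)
  have b2 := E2_bound hC d hI (E.filter Q2) (fun ω hω => (Finset.mem_filter.mp hω).2)
  have b1 := E1_bound hC d hI (E.filter Q1) (fun ω hω => (Finset.mem_filter.mp hω).2)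
  linarith

end Run7.h970
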