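import Pool.Agent.Run7.h970.Mgf

set_option autoImplicit false

/-!
# Counting bounds for the three unlikely configurations
-/

namespace Run7.h970

open Finset

/-- The squared length of the sum of a family of sign vectors. -/
def sqn {d : ℕ} {J : Type} [Fintype J] (z : J → Fin d → Bool) : ℝ :=
  ∑ k, (∑ j, sg (z j k)) ^ 2

theorem card_filter_le_sum {α : Type} [Fintype α] (P : α → Prop) [DecidablePred P] (f : α → ℝ)
    (hf : ∀ x, 0 ≤ f x) (h1 : ∀ x, P x → 1 ≤ f x) :
    (((Finset.univ.filter P).card : ℕ) : ℝ) ≤ ∑ x, f x := by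
  calc (((Finset.univ.filter P).card : ℕ) : ℝ) = ∑ x ∈ Finset.univ.filter P, (1 : ℝ) := by simp
    _ ≤ ∑ x ∈ Finset.univ.filter P, f x :=
        Finset.sum_le_sum (fun x hx => h1 x (Finset.mem_filter.mp hx).2)
    _ ≤ ∑ x, f x :=
        Finset.sum_le_sum_of_subset_of_nonneg (Finset.subset_univ _) (fun x _ _ => hf x)

/-- Few families of `M` sign vectors have a long sum. -/
theorem bad3 (d M : ℕ) (hM : 0 < M) (s : ℝ) :
    (((Finset.univ.filter (fun x : Fin M → Fin d → Bool =>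
        (M : ℝ) ^ 2 * s * d < sqn x)).card : ℕ) : ℝ)
      ≤ (2 * M + 1) ^ d * 2 ^ (M * d) * Real.exp (-(M * s * d / 4)) := by
  classical
  have hMR : (0 : ℝ) < M := by exact_mod_cast hM
  have h := sum_exp_vec_le (J := Fin M) d M (by simp) hM (fun _ _ => 0)
  simp only [mul_zero, Finset.sum_const_zero, zero_add, ne_eq, OfNat.ofNat_ne_zero,
    not_false_eq_true, zero_pow, zero_div, add_zero, Real.exp_zero, mul_one] at h
  refine le_trans (card_filter_le_sum _
    (fun x => Real.exp (sqn x / (4 * M)) * Real.exp (-(M * s * d / 4)))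
    (fun x => by positivity) (fun x hx => ?_)) ?_
  · rw [← Real.exp_add]
    refine Real.one_le_exp ?_
    have : (M : ℝ) ^ 2 * s * d / (4 * M) ≤ sqn x / (4 * M) :=
      div_le_div_of_nonneg_right hx.le (by positivity)
    have h2 : (M : ℝ) ^ 2 * s * d / (4 * M) = M * s * d / 4 := by
      field_simp
    linarith
  · rw [← Finset.sum_mul]
    exact mul_le_mul_of_nonneg_right h (Real.exp_pos _).le

/-- Given `x, y` with short sums, few families `z i j` with all the adjacencies have a long sum. -/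
theorem bad2 (d M : ℕ) (hM : 0 < M) (b s c : ℝ) (hb : 0 < b) (x y : Fin M → Fin d → Bool)
    (hx : sqn x ≤ (M : ℝ) ^ 2 * s * d) (hy : sqn y ≤ (M : ℝ) ^ 2 * s * d) :
    (((Finset.univ.filter (fun z : Fin M × Fin M → Fin d → Bool =>
        (∀ p, b * d ≤ ip (z p) (x p.1) ∧ b * d ≤ ip (z p) (y p.2)) ∧
        (M : ℝ) ^ 4 * c * d < sqn z)).card : ℕ) : ℝ)
      ≤ (2 * M ^ 2 + 1) ^ d * 2 ^ (M ^ 2 * d) *
        Real.exp ((M : ℝ) ^ 2 * d * (-b ^ 2 + 5 * b ^ 2 * s - c / 4)) := by
  classical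
  have hMR : (0 : ℝ) < M := by exact_mod_cast hM
  have hQ0 : 0 < M ^ 2 := by positivity
  have h := sum_exp_vec_le (J := Fin M × Fin M) d (M ^ 2) (by simp [sq]) hQ0
    (fun p k => b * (sg (x p.1 k) + sg (y p.2 k)))
  push_cast at h
  have hS1 : ∑ k, (∑ p : Fin M × Fin M, b * (sg (x p.1 k) + sg (y p.2 k))) ^ 2
      ≤ 4 * b ^ 2 * M ^ 4 * s * d := by
    have : ∀ k, (∑ p : Fin M × Fin M, b * (sg (x p.1 k) + sg (y p.2 k)))
        = b * M * ((∑ i, sg (x i k)) + ∑ j, sg (y j k)) := by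
      intro k
      rw [Fintype.sum_prod_type]
      simp only [← Finset.mul_sum, Finset.sum_add_distrib, Finset.sum_const, Finset.card_univ,
        Fintype.card_fin, nsmul_eq_mul]
      ring
    simp_rw [this]
    calc ∑ k, (b * M * ((∑ i, sg (x i k)) + ∑ j, sg (y j k))) ^ 2
        ≤ ∑ k, 2 * b ^ 2 * M ^ 2 * ((∑ i, sg (x i k)) ^ 2 + (∑ j, sg (y j k)) ^ 2) := by
          refine Finset.sum_le_sum (fun k _ => ?_)
          have h0 : 0 ≤ (b * M) ^ 2 * ((∑ i, sg (x i k)) - ∑ j, sg (y j k)) ^ 2 := by positivity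
          nlinarith [h0]
      _ = 2 * b ^ 2 * M ^ 2 * (sqn x + sqn y) := by
          rw [← Finset.mul_sum, Finset.sum_add_distrib]; rfl
      _ ≤ 2 * b ^ 2 * M ^ 2 * ((M : ℝ) ^ 2 * s * d + (M : ℝ) ^ 2 * s * d) := by
          refine mul_le_mul_of_nonneg_left (by linarith) (by positivity)
      _ = _ := by ring
  have hS2 : ∑ p : Fin M × Fin M, ∑ k, (b * (sg (x p.1 k) + sg (y p.2 k))) ^ 2 / 2
      ≤ b ^ 2 * (M ^ 2 * d + M ^ 2 * s * d) := by
    have h1 : ∀ (p : Fin M × Fin M) (k : Fin d), (b * (sg (x p.1 k) + sg (y p.2 k))) ^ 2 / 2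
        = b ^ 2 * (1 + sg (x p.1 k) * sg (y p.2 k)) := by
      intro p k
      have h1 := sg_sq (x p.1 k)
      have h2 := sg_sq (y p.2 k)
      linear_combination (b ^ 2 / 2) * h1 + (b ^ 2 / 2) * h2
    simp_rw [h1]
    rw [Finset.sum_comm]
    simp_rw [← Finset.mul_sum, Finset.sum_add_distrib, Fintype.sum_prod_type]
    have h2 : ∀ k : Fin d, ∑ i, ∑ j, sg (x i k) * sg (y j k)
        = (∑ i, sg (x i k)) * (∑ j, sg (y j k)) := by
      intro k
      rw [Finset.sum_mul_sum]
    simp_rw [h2]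
    refine mul_le_mul_of_nonneg_left ?_ (by positivity)
    have h3 : ∑ k, (∑ i, sg (x i k)) * (∑ j, sg (y j k)) ≤ (sqn x + sqn y) / 2 := by
      unfold sqn
      rw [← Finset.sum_add_distrib, Finset.sum_div]
      refine Finset.sum_le_sum (fun k _ => ?_)
      nlinarith [sq_nonneg ((∑ i, sg (x i k)) - ∑ j, sg (y j k))]
    simp only [Finset.sum_const, Finset.card_univ, Fintype.card_fin, nsmul_eq_mul, mul_one]
    nlinarith [h3]
  refine le_trans (card_filter_le_sum _
    (fun z => Real.exp (∑ p, ∑ k, sg (z p k) * (b * (sg (x p.1 k) + sg (y p.2 k))) +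
      (∑ k, (∑ p, sg (z p k)) ^ 2) / (4 * (M : ℝ) ^ 2)) *
      Real.exp (-(2 * b ^ 2 * (M ^ 2) * d + c * M ^ 2 * d / 4)))
    (fun z => by positivity) (fun z hz => ?_)) ?_
  · obtain ⟨hz1, hz2⟩ := hz
    rw [← Real.exp_add]
    refine Real.one_le_exp ?_
    have e1 : ∑ p, ∑ k, sg (z p k) * (b * (sg (x p.1 k) + sg (y p.2 k)))
        = ∑ p, b * (ip (z p) (x p.1) + ip (z p) (y p.2)) := by
      refine Finset.sum_congr rfl (fun p _ => ?_)
      unfold ip
      rw [← Finset.sum_add_distrib, Finset.mul_sum]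
      exact Finset.sum_congr rfl (fun k _ => by ring)
    have e2 : (M : ℝ) ^ 2 * (2 * b ^ 2 * d)
        ≤ ∑ p, b * (ip (z p) (x p.1) + ip (z p) (y p.2)) := by
      calc (M : ℝ) ^ 2 * (2 * b ^ 2 * d) = ∑ p : Fin M × Fin M, (2 * b ^ 2 * d : ℝ) := by
            simp [sq]
        _ ≤ _ := by
            refine Finset.sum_le_sum (fun p _ => ?_)
            have h1 := (hz1 p).1
            have h2 := (hz1 p).2
            nlinarith
    have e3 : (M : ℝ) ^ 4 * c * d / (4 * M ^ 2) ≤ sqn z / (4 * (M : ℝ) ^ 2) :=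
      div_le_div_of_nonneg_right hz2.le (by positivity)
    have e4 : (M : ℝ) ^ 4 * c * d / (4 * M ^ 2) = c * M ^ 2 * d / 4 := by
      field_simp
    have e5 : (∑ k, (∑ p, sg (z p k)) ^ 2) = sqn z := rfl
    rw [e1, e5]
    linarith
  · rw [← Finset.sum_mul]
    refine le_trans (mul_le_mul_of_nonneg_right h (Real.exp_pos _).le) ?_
    have : ((2 : ℝ) * (M : ℝ) ^ 2 + 1) ^ d * (2 ^ (M ^ 2 * d) *
          Real.exp ((∑ k, (∑ p : Fin M × Fin M, b * (sg (x p.1 k) + sg (y p.2 k))) ^ 2)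
            / (M : ℝ) ^ 2 +
            ∑ p : Fin M × Fin M, ∑ k, (b * (sg (x p.1 k) + sg (y p.2 k))) ^ 2 / 2)) *
          Real.exp (-(2 * b ^ 2 * (M ^ 2) * d + c * M ^ 2 * d / 4))
        = (2 * (M : ℝ) ^ 2 + 1) ^ d * 2 ^ (M ^ 2 * d) *
          Real.exp (((∑ k, (∑ p : Fin M × Fin M, b * (sg (x p.1 k) + sg (y p.2 k))) ^ 2)
            / (M : ℝ) ^ 2 +
            ∑ p : Fin M × Fin M, ∑ k, (b * (sg (x p.1 k) + sg (y p.2 k))) ^ 2 / 2)
            + -(2 * b ^ 2 * (M ^ 2) * d + c * M ^ 2 * d / 4)) := by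
      rw [Real.exp_add _ (-(2 * b ^ 2 * (M ^ 2) * d + c * M ^ 2 * d / 4))]
      simp only [mul_assoc]
    rw [this]
    refine mul_le_mul_of_nonneg_left (Real.exp_le_exp.mpr ?_) (by positivity)
    have f1 : (∑ k, (∑ p : Fin M × Fin M, b * (sg (x p.1 k) + sg (y p.2 k))) ^ 2) / (M : ℝ) ^ 2
        ≤ 4 * b ^ 2 * M ^ 4 * s * d / (M : ℝ) ^ 2 :=
      div_le_div_of_nonneg_right hS1 (by positivity)
    have f2 : 4 * b ^ 2 * M ^ 4 * s * d / (M : ℝ) ^ 2 = 4 * b ^ 2 * M ^ 2 * s * d := by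
      field_simp
    linarith

/-- The pair bound: few sign vectors are adjacent to both of two given ones. -/
theorem pair_bound (d : ℕ) (b l : ℝ) (hb : 0 < b) (hl : Real.cosh (2 * b) ≤ Real.exp l)
    (u v : Fin d → Bool) :
    (((Finset.univ.filter (fun r : Fin d → Bool => b * d ≤ ip r u ∧ b * d ≤ ip r v)).card : ℕ) : ℝ)
      ≤ 2 ^ d * Real.exp (-(2 * b ^ 2 * d) + l / 2 * (d + ip u v)) := by
  classical
  refine le_trans (card_filter_le_sum _
    (fun r => Real.exp (∑ k, sg (r k) * (b * (sg (u k) + sg (v k)))) *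
      Real.exp (-(2 * b ^ 2 * d))) (fun r => by positivity) (fun r hr => ?_)) ?_
  · rw [← Real.exp_add]
    refine Real.one_le_exp ?_
    have e1 : ∑ k, sg (r k) * (b * (sg (u k) + sg (v k))) = b * (ip r u + ip r v) := by
      unfold ip
      rw [← Finset.sum_add_distrib, Finset.mul_sum]
      exact Finset.sum_congr rfl (fun k _ => by ring)
    rw [e1]
    nlinarith [hr.1, hr.2]
  · rw [← Finset.sum_mul, sum_exp_lin, Finset.prod_mul_distrib, Finset.prod_const,
      Finset.card_univ, Fintype.card_fin]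
    have key : ∏ k, Real.cosh (b * (sg (u k) + sg (v k)))
        ≤ Real.exp (l / 2 * (d + ip u v)) := by
      have e2 : l / 2 * (d + ip u v) = ∑ k, l / 2 * (1 + sg (u k) * sg (v k)) := by
        unfold ip
        rw [← Finset.mul_sum, Finset.sum_add_distrib]
        simp
      rw [e2, Real.exp_sum]
      refine Finset.prod_le_prod (fun k _ => (Real.cosh_pos _).le) (fun k _ => ?_)
      have h2b : b * (1 + 1) = 2 * b := by ring
      have hm2b : b * (-1 + -1) = -(2 * b) := by ring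
      cases u k <;> cases v k <;> simp only [sg, if_true, if_false, Bool.false_eq_true]
      · rw [hm2b, Real.cosh_neg]
        refine hl.trans (Real.exp_le_exp.mpr ?_); linarith
      · simp
      · simp
      · rw [h2b]
        refine hl.trans (Real.exp_le_exp.mpr ?_); linarith
    calc 2 ^ d * (∏ k, Real.cosh (b * (sg (u k) + sg (v k)))) * Real.exp (-(2 * b ^ 2 * d))
        ≤ 2 ^ d * Real.exp (l / 2 * (d + ip u v)) * Real.exp (-(2 * b ^ 2 * d)) := by
          refine mul_le_mul_of_nonneg_right ?_ (Real.exp_pos _).le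
          exact mul_le_mul_of_nonneg_left key (by positivity)
      _ = _ := by
          rw [mul_assoc, ← Real.exp_add, add_comm (l / 2 * (d + ip u v))]

/-- Given `z` with a short sum, few families `r` meet all adjacencies with pairs of `z`'s. -/
theorem bad1 {P : Type} [Fintype P] [DecidableEq P] (d Q : ℕ) (hQ : Fintype.card P = Q)
    (b l c : ℝ) (hb : 0 < b) (hl : Real.cosh (2 * b) ≤ Real.exp l) (hl0 : 0 ≤ l)
    (z : P → Fin d → Bool) (hz : sqn z ≤ (Q : ℝ) ^ 2 * c * d) :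
    (((Finset.univ.filter (fun r : P × P → Fin d → Bool =>
        ∀ q, b * d ≤ ip (r q) (z q.1) ∧ b * d ≤ ip (r q) (z q.2))).card : ℕ) : ℝ)
      ≤ 2 ^ (Q ^ 2 * d) *
        Real.exp ((Q : ℝ) ^ 2 * d * (-(2 * b ^ 2) + l / 2 * (1 + c))) := by
  classical
  have h1 : (Finset.univ.filter (fun r : P × P → Fin d → Bool =>
        ∀ q, b * d ≤ ip (r q) (z q.1) ∧ b * d ≤ ip (r q) (z q.2)))
      = Fintype.piFinset (fun q : P × P => Finset.univ.filter
          (fun r : Fin d → Bool => b * d ≤ ip r (z q.1) ∧ b * d ≤ ip r (z q.2))) := by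
    ext r
    simp [Fintype.mem_piFinset]
  rw [h1, Fintype.card_piFinset]
  push_cast
  calc ∏ q : P × P, (((Finset.univ.filter
          (fun r : Fin d → Bool => b * d ≤ ip r (z q.1) ∧ b * d ≤ ip r (z q.2))).card : ℕ) : ℝ)
      ≤ ∏ q : P × P, (2 ^ d * Real.exp (-(2 * b ^ 2 * d) + l / 2 * (d + ip (z q.1) (z q.2)))) := by
        refine Finset.prod_le_prod (fun q _ => by positivity) (fun q _ => ?_)
        exact pair_bound d b l hb hl _ _
    _ = 2 ^ (Q ^ 2 * d) * Real.exp (∑ q : P × P,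
          (-(2 * b ^ 2 * d) + l / 2 * (d + ip (z q.1) (z q.2)))) := by
        rw [Finset.prod_mul_distrib, Finset.prod_const, ← Real.exp_sum, Finset.card_univ,
          Fintype.card_prod, hQ, ← pow_mul]
        congr 2
        ring
    _ ≤ _ := by
        refine mul_le_mul_of_nonneg_left (Real.exp_le_exp.mpr ?_) (by positivity)
        have e1 : ∑ q : P × P, ip (z q.1) (z q.2) = sqn z := by
          unfold ip sqn
          rw [Finset.sum_comm]
          refine Finset.sum_congr rfl (fun k _ => ?_)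
          rw [Fintype.sum_prod_type, sq, Finset.sum_mul_sum]
        have e2 : ∑ q : P × P, (-(2 * b ^ 2 * d) + l / 2 * (d + ip (z q.1) (z q.2)))
            = (Q : ℝ) ^ 2 * (-(2 * b ^ 2 * d) + l / 2 * d) + l / 2 * sqn z := by
          rw [← e1, Finset.mul_sum]
          have : (Q : ℝ) ^ 2 * (-(2 * b ^ 2 * d) + l / 2 * d)
              = ∑ q : P × P, (-(2 * b ^ 2 * d) + l / 2 * d) := by
            rw [Finset.sum_const, Finset.card_univ, Fintype.card_prod, hQ, nsmul_eq_mul]
            push_cast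
            ring
          rw [this, ← Finset.sum_add_distrib]
          exact Finset.sum_congr rfl (fun q _ => by ring)
        rw [e2]
        have e3 : l / 2 * sqn z ≤ l / 2 * ((Q : ℝ) ^ 2 * c * d) :=
          mul_le_mul_of_nonneg_left hz (by linarith)
        nlinarith [e3]

end Run7.h970
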