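import Pool.Agent.Run7.h970.Num

set_option autoImplicit false

/-!
# The two-grid configuration is unlikely
-/

namespace Run7.h970

open Finset

/-- Given `z, z'` with short sums, few families `r` meet all adjacencies with pairs. -/
theorem bad1' {P : Type} [Fintype P] [DecidableEq P] (d Q : ℕ) (hQ : Fintype.card P = Q)
    (b l c : ℝ) (hb : 0 < b) (hl : Real.cosh (2 * b) ≤ Real.exp l) (hl0 : 0 ≤ l)
    (z z' : P → Fin d → Bool) (hz : sqn z ≤ (Q : ℝ) ^ 2 * c * d)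
    (hz' : sqn z' ≤ (Q : ℝ) ^ 2 * c * d) :
    (((Finset.univ.filter (fun r : P × P → Fin d → Bool =>
        ∀ q, b * d ≤ ip (r q) (z q.1) ∧ b * d ≤ ip (r q) (z' q.2))).card : ℕ) : ℝ)
      ≤ 2 ^ (Q ^ 2 * d) *
        Real.exp ((Q : ℝ) ^ 2 * d * (-(2 * b ^ 2) + l / 2 * (1 + c))) := by
  classical
  have h1 : (Finset.univ.filter (fun r : P × P → Fin d → Bool =>
        ∀ q, b * d ≤ ip (r q) (z q.1) ∧ b * d ≤ ip (r q) (z' q.2)))
      = Fintype.piFinset (fun q : P × P => Finset.univ.filter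
          (fun r : Fin d → Bool => b * d ≤ ip r (z q.1) ∧ b * d ≤ ip r (z' q.2))) := by
    ext r
    simp [Fintype.mem_piFinset]
  rw [h1, Fintype.card_piFinset]
  push_cast
  calc ∏ q : P × P, (((Finset.univ.filter
          (fun r : Fin d → Bool => b * d ≤ ip r (z q.1) ∧ b * d ≤ ip r (z' q.2))).card : ℕ) : ℝ)
      ≤ ∏ q : P × P, (2 ^ d * Real.exp (-(2 * b ^ 2 * d) + l / 2 * (d + ip (z q.1) (z' q.2)))) := by
        refine Finset.prod_le_prod (fun q _ => by positivity) (fun q _ => ?_)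
        exact pair_bound d b l hb hl _ _
    _ = 2 ^ (Q ^ 2 * d) * Real.exp (∑ q : P × P,
          (-(2 * b ^ 2 * d) + l / 2 * (d + ip (z q.1) (z' q.2)))) := by
        rw [Finset.prod_mul_distrib, Finset.prod_const, ← Real.exp_sum, Finset.card_univ,
          Fintype.card_prod, hQ, ← pow_mul]
        congr 2
        ring
    _ ≤ _ := by
        refine mul_le_mul_of_nonneg_left (Real.exp_le_exp.mpr ?_) (by positivity)
        have e1 : ∑ q : P × P, ip (z q.1) (z' q.2) ≤ (sqn z + sqn z') / 2 := by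
          unfold ip sqn
          rw [Finset.sum_comm, ← Finset.sum_add_distrib, Finset.sum_div]
          refine Finset.sum_le_sum (fun k _ => ?_)
          rw [Fintype.sum_prod_type]
          have : ∑ x, ∑ y, sg (z (x, y).1 k) * sg (z' (x, y).2 k)
              = (∑ x, sg (z x k)) * ∑ y, sg (z' y k) := by
            rw [Finset.sum_mul_sum]
          rw [this]
          nlinarith [sq_nonneg ((∑ x, sg (z x k)) - ∑ y, sg (z' y k))]
        have e2 : ∑ q : P × P, (-(2 * b ^ 2 * d) + l / 2 * (d + ip (z q.1) (z' q.2)))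
            = (Q : ℝ) ^ 2 * (-(2 * b ^ 2 * d) + l / 2 * d)
              + l / 2 * ∑ q : P × P, ip (z q.1) (z' q.2) := by
          rw [Finset.mul_sum]
          have : (Q : ℝ) ^ 2 * (-(2 * b ^ 2 * d) + l / 2 * d)
              = ∑ q : P × P, (-(2 * b ^ 2 * d) + l / 2 * d) := by
            rw [Finset.sum_const, Finset.card_univ, Fintype.card_prod, hQ, nsmul_eq_mul]
            push_cast
            ring
          rw [this, ← Finset.sum_add_distrib]
          exact Finset.sum_congr rfl (fun q _ => by ring)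
        rw [e2]
        have e3 : l / 2 * ∑ q : P × P, ip (z q.1) (z' q.2) ≤ l / 2 * ((Q : ℝ) ^ 2 * c * d) :=
          mul_le_mul_of_nonneg_left (by linarith) (by linarith)
        linarith [e3]

theorem E1'_bound {I : Type} [Fintype I] [DecidableEq I] {M : ℕ} {b s c l L : ℝ}
    (hC : Cond M b s c l L)
    (h1 : L * (2 * M ^ 2 + M ^ 4) + M ^ 4 * (-(2 * b ^ 2) + l / 2 * (1 + c)) ≤ -(2 * L))
    (d : ℕ) (hI : (Fintype.card I : ℝ) ≤ Real.exp (L * d))
    (E : Finset (I → Fin d → Bool))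
    (hE : ∀ ω ∈ E, ∃ κ : ((Fin M × Fin M) ⊕ (Fin M × Fin M)) ⊕
        ((Fin M × Fin M) × (Fin M × Fin M)) → I,
      Function.Injective κ ∧
      (sqn ((ω ∘ κ) ∘ Sum.inl ∘ Sum.inl) ≤ (M : ℝ) ^ 4 * c * d ∧
       sqn ((ω ∘ κ) ∘ Sum.inl ∘ Sum.inr) ≤ (M : ℝ) ^ 4 * c * d ∧
       (∀ q : (Fin M × Fin M) × (Fin M × Fin M),
          b * d ≤ ip ((ω ∘ κ) (Sum.inr q)) ((ω ∘ κ) (Sum.inl (Sum.inl q.1))) ∧
          b * d ≤ ip ((ω ∘ κ) (Sum.inr q)) ((ω ∘ κ) (Sum.inl (Sum.inr q.2)))))) :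
    (E.card : ℝ) ≤ Real.exp (-(2 * L * d)) *
      (Fintype.card (Fin d → Bool) : ℝ) ^ (Fintype.card I) := by
  classical
  have hM : (0 : ℝ) < M := by exact_mod_cast hC.hM
  let B' : ((Fin M × Fin M) ⊕ (Fin M × Fin M) → Fin d → Bool) →
      (((Fin M × Fin M) × (Fin M × Fin M)) → Fin d → Bool) → Prop :=
    fun z r => sqn (z ∘ Sum.inl) ≤ (M : ℝ) ^ 4 * c * d ∧
      sqn (z ∘ Sum.inr) ≤ (M : ℝ) ^ 4 * c * d ∧
      (∀ q : (Fin M × Fin M) × (Fin M × Fin M),
        b * d ≤ ip (r q) (z (Sum.inl q.1)) ∧ b * d ≤ ip (r q) (z (Sum.inr q.2)))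
  have hU := union_bound (J := ((Fin M × Fin M) ⊕ (Fin M × Fin M)) ⊕
      ((Fin M × Fin M) × (Fin M × Fin M))) (I := I)
    (A := Fin d → Bool)
    (fun η => B' (η ∘ Sum.inl) (η ∘ Sum.inr))
    (Real.exp ((M : ℝ) ^ 4 * d * (-(2 * b ^ 2) + l / 2 * (1 + c)))) ?_ (by positivity) E
    (fun ω hω => hE ω hω)
  · refine hU.trans (mul_le_mul_of_nonneg_right ?_ (by positivity))
    have e0 : Fintype.card (((Fin M × Fin M) ⊕ (Fin M × Fin M)) ⊕
        ((Fin M × Fin M) × (Fin M × Fin M))) = 2 * M ^ 2 + M ^ 4 := by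
      simp; ring
    rw [e0]
    calc (Fintype.card I : ℝ) ^ (2 * M ^ 2 + M ^ 4) *
          Real.exp ((M : ℝ) ^ 4 * d * (-(2 * b ^ 2) + l / 2 * (1 + c)))
        ≤ (Real.exp (L * d)) ^ (2 * M ^ 2 + M ^ 4) *
          Real.exp ((M : ℝ) ^ 4 * d * (-(2 * b ^ 2) + l / 2 * (1 + c))) := by
          gcongr
      _ = Real.exp (d * (L * (2 * M ^ 2 + M ^ 4) +
            M ^ 4 * (-(2 * b ^ 2) + l / 2 * (1 + c)))) := by
          rw [← Real.exp_nat_mul, ← Real.exp_add]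
          congr 1
          push_cast
          ring
      _ ≤ _ := by
          refine Real.exp_le_exp.mpr ?_
          have := mul_le_mul_of_nonneg_left h1 (Nat.cast_nonneg d : (0 : ℝ) ≤ d)
          linarith
  · have hfib := card_sum_fibre (J := (Fin M × Fin M) ⊕ (Fin M × Fin M))
      (K := (Fin M × Fin M) × (Fin M × Fin M))
      (A := Fin d → Bool) B'
      (2 ^ ((M ^ 2) ^ 2 * d) *
        Real.exp (((M ^ 2 : ℕ) : ℝ) ^ 2 * d * (-(2 * b ^ 2) + l / 2 * (1 + c)))) ?_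
    · refine hfib.trans (le_of_eq ?_)
      rw [card_signs]
      have e0 : Fintype.card (((Fin M × Fin M) ⊕ (Fin M × Fin M)) ⊕
          ((Fin M × Fin M) × (Fin M × Fin M)))
          = Fintype.card ((Fin M × Fin M) ⊕ (Fin M × Fin M)) + M ^ 4 := by
        rw [Fintype.card_sum]; simp; ring
      have e1 : (M ^ 2) ^ 2 * d = d * M ^ 4 := by ring
      have e2 : (((M ^ 2 : ℕ) : ℝ)) ^ 2 = (M : ℝ) ^ 4 := by push_cast; ring
      rw [e0, e1, e2, pow_add, ← pow_mul (2 : ℝ) d (M ^ 4)]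
      ring
    · intro z
      have e2 : ((M ^ 2 : ℕ) : ℝ) ^ 2 * c * d = (M : ℝ) ^ 4 * c * d := by push_cast; ring
      by_cases h1 : sqn (z ∘ Sum.inl) ≤ (M : ℝ) ^ 4 * c * d
      · by_cases h2 : sqn (z ∘ Sum.inr) ≤ (M : ℝ) ^ 4 * c * d
        · have := bad1' (P := Fin M × Fin M) d (M ^ 2) (by simp [sq]) b l c hC.hb hC.hl hC.hl0
            (z ∘ Sum.inl) (z ∘ Sum.inr) (by rw [e2]; exact h1) (by rw [e2]; exact h2)
          refine le_trans (Nat.cast_le.mpr (Finset.card_le_card (fun r hr => ?_))) this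
          simp only [Finset.mem_filter, Finset.mem_univ, true_and] at hr ⊢
          exact hr.2.2
        · have : (Finset.univ.filter (fun r => B' z r)) = ∅ := by
            refine Finset.filter_eq_empty_iff.mpr (fun r _ hr => h2 hr.2.1)
          rw [this]
          simp only [Finset.card_empty, Nat.cast_zero]
          positivity
      · have : (Finset.univ.filter (fun r => B' z r)) = ∅ := by
          refine Finset.filter_eq_empty_iff.mpr (fun r _ hr => h1 hr.1)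
        rw [this]
        simp only [Finset.card_empty, Nat.cast_zero]
        positivity

/-- The two-grid configuration. -/
def Conf2 {I : Type} (M : ℕ) (R : I → I → Prop) : Prop :=
  ∃ (x y x' y' : Fin M → I) (z z' : Fin M × Fin M → I)
    (r : (Fin M × Fin M) × (Fin M × Fin M) → I),
    Function.Injective (Sum.elim (Sum.elim x y) z) ∧
    Function.Injective (Sum.elim (Sum.elim x' y') z') ∧
    Function.Injective (Sum.elim (Sum.elim z z') r) ∧
    (∀ p, R (z p) (x p.1) ∧ R (z p) (y p.2)) ∧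
    (∀ p, R (z' p) (x' p.1) ∧ R (z' p) (y' p.2)) ∧
    (∀ q, R (r q) (z q.1) ∧ R (r q) (z' q.2))

theorem conf2_bound {I : Type} [Fintype I] [DecidableEq I] {M : ℕ} {b s c l L : ℝ}
    (hC : Cond M b s c l L)
    (h1 : L * (2 * M ^ 2 + M ^ 4) + M ^ 4 * (-(2 * b ^ 2) + l / 2 * (1 + c)) ≤ -(2 * L))
    (d : ℕ) (hI : (Fintype.card I : ℝ) ≤ Real.exp (L * d))
    (E : Finset (I → Fin d → Bool)) (hE : ∀ ω ∈ E, Conf2 M (thr b ω)) :
    (E.card : ℝ) ≤ 3 * Real.exp (-(2 * L * d)) *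
      (Fintype.card (Fin d → Bool) : ℝ) ^ (Fintype.card I) := by
  classical
  let Q3 : (I → Fin d → Bool) → Prop := fun ω => ∃ κ : Fin M → I, Function.Injective κ ∧
      (M : ℝ) ^ 2 * s * d < sqn (ω ∘ κ)
  let Q2 : (I → Fin d → Bool) → Prop := fun ω =>
    ∃ κ : (Fin M ⊕ Fin M) ⊕ (Fin M × Fin M) → I, Function.Injective κ ∧
      (sqn ((ω ∘ κ) ∘ Sum.inl ∘ Sum.inl) ≤ (M : ℝ) ^ 2 * s * d ∧
       sqn ((ω ∘ κ) ∘ Sum.inl ∘ Sum.inr) ≤ (M : ℝ) ^ 2 * s * d ∧
       (∀ p : Fin M × Fin M,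
          b * d ≤ ip ((ω ∘ κ) (Sum.inr p)) ((ω ∘ κ) (Sum.inl (Sum.inl p.1))) ∧
          b * d ≤ ip ((ω ∘ κ) (Sum.inr p)) ((ω ∘ κ) (Sum.inl (Sum.inr p.2)))) ∧
       (M : ℝ) ^ 4 * c * d < sqn ((ω ∘ κ) ∘ Sum.inr))
  let Q1 : (I → Fin d → Bool) → Prop := fun ω =>
    ∃ κ : ((Fin M × Fin M) ⊕ (Fin M × Fin M)) ⊕ ((Fin M × Fin M) × (Fin M × Fin M)) → I,
      Function.Injective κ ∧
      (sqn ((ω ∘ κ) ∘ Sum.inl ∘ Sum.inl) ≤ (M : ℝ) ^ 4 * c * d ∧
       sqn ((ω ∘ κ) ∘ Sum.inl ∘ Sum.inr) ≤ (M : ℝ) ^ 4 * c * d ∧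
       (∀ q : (Fin M × Fin M) × (Fin M × Fin M),
          b * d ≤ ip ((ω ∘ κ) (Sum.inr q)) ((ω ∘ κ) (Sum.inl (Sum.inl q.1))) ∧
          b * d ≤ ip ((ω ∘ κ) (Sum.inr q)) ((ω ∘ κ) (Sum.inl (Sum.inr q.2)))))
  have hsub : E ⊆ (E.filter Q3) ∪ ((E.filter Q2) ∪ (E.filter Q1)) := by
    intro ω hω
    obtain ⟨x, y, x', y', z, z', r, hi1, hi2, hi3, hz, hz', hr⟩ := hE ω hω
    simp only [Finset.mem_union, Finset.mem_filter]
    by_cases hx : (M : ℝ) ^ 2 * s * d < sqn (ω ∘ x)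
    · refine Or.inl ⟨hω, x, ?_, hx⟩
      intro i j hij
      have : (Sum.inl (Sum.inl i) : (Fin M ⊕ Fin M) ⊕ (Fin M × Fin M)) = Sum.inl (Sum.inl j) :=
        hi1 (by simpa using hij)
      simpa using this
    by_cases hy : (M : ℝ) ^ 2 * s * d < sqn (ω ∘ y)
    · refine Or.inl ⟨hω, y, ?_, hy⟩
      intro i j hij
      have : (Sum.inl (Sum.inr i) : (Fin M ⊕ Fin M) ⊕ (Fin M × Fin M)) = Sum.inl (Sum.inr j) :=
        hi1 (by simpa using hij)
      simpa using this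
    by_cases hx' : (M : ℝ) ^ 2 * s * d < sqn (ω ∘ x')
    · refine Or.inl ⟨hω, x', ?_, hx'⟩
      intro i j hij
      have : (Sum.inl (Sum.inl i) : (Fin M ⊕ Fin M) ⊕ (Fin M × Fin M)) = Sum.inl (Sum.inl j) :=
        hi2 (by simpa using hij)
      simpa using this
    by_cases hy' : (M : ℝ) ^ 2 * s * d < sqn (ω ∘ y')
    · refine Or.inl ⟨hω, y', ?_, hy'⟩
      intro i j hij
      have : (Sum.inl (Sum.inr i) : (Fin M ⊕ Fin M) ⊕ (Fin M × Fin M)) = Sum.inl (Sum.inr j) :=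
        hi2 (by simpa using hij)
      simpa using this
    by_cases hzz : (M : ℝ) ^ 4 * c * d < sqn (ω ∘ z)
    · refine Or.inr (Or.inl ⟨hω, Sum.elim (Sum.elim x y) z, hi1, not_lt.mp hx, not_lt.mp hy,
        ?_, hzz⟩)
      intro p
      exact hz p
    by_cases hzz' : (M : ℝ) ^ 4 * c * d < sqn (ω ∘ z')
    · refine Or.inr (Or.inl ⟨hω, Sum.elim (Sum.elim x' y') z', hi2, not_lt.mp hx', not_lt.mp hy',
        ?_, hzz'⟩)
      intro p
      exact hz' p
    · refine Or.inr (Or.inr ⟨hω, Sum.elim (Sum.elim z z') r, hi3, not_lt.mp hzz, not_lt.mp hzz',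
        ?_⟩)
      intro q
      exact hr q
  have hcard : (E.card : ℝ) ≤ (E.filter Q3).card + ((E.filter Q2).card + (E.filter Q1).card) := by
    have h := (Finset.card_le_card hsub).trans ((Finset.card_union_le _ _).trans
      (Nat.add_le_add_left (Finset.card_union_le _ _) _))
    exact_mod_cast h
  have b3 := E3_bound hC d hI (E.filter Q3) (fun ω hω => (Finset.mem_filter.mp hω).2)
  have b2 := E2_bound hC d hI (E.filter Q2) (fun ω hω => (Finset.mem_filter.mp hω).2)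
  have b1 := E1'_bound hC h1 d hI (E.filter Q1) (fun ω hω => (Finset.mem_filter.mp hω).2)
  linarith

end Run7.h970
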