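import Pool.Agent.Run7.h970.Deg

set_option autoImplicit false

/-!
# Graphs without 4-cycles and with many edges
-/

namespace Run7.h970

open Finset

/-- The 4-cycle in terms of common neighbours. -/
theorem noC4_of_free {V : Type} (Γ : SimpleGraph V)
    (h : ¬ (SimpleGraph.cycleGraph 4).IsContained Γ) : NoC4 Γ.Adj := by
  intro a b c d hab hca hcb hda hdb
  by_contra hcd
  apply h
  refine ⟨⟨⟨![a, c, b, d], ?_⟩, ?_⟩⟩
  · intro i j hij
    have hij' : (SimpleGraph.cycleGraph 4).Adj i j := hij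
    fin_cases i <;> fin_cases j <;>
      first
      | exact absurd hij' (by decide)
      | exact hca | exact hca.symm | exact hcb | exact hcb.symm
      | exact hda | exact hda.symm | exact hdb | exact hdb.symm
  · intro i j hij
    have h1 := hca.ne
    have h2 := hcb.ne
    have h3 := hda.ne
    have h4 := hdb.ne
    have hij' : (![a, c, b, d] : Fin 4 → V) i = (![a, c, b, d] : Fin 4 → V) j := hij
    fin_cases i <;> fin_cases j <;> simp_all

theorem free_of_noC4 {V : Type} (Γ : SimpleGraph V) (h : NoC4 Γ.Adj) :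
    ¬ (SimpleGraph.cycleGraph 4).IsContained Γ := by
  rintro ⟨φ⟩
  have e : ∀ i j : Fin 4, (SimpleGraph.cycleGraph 4).Adj i j → Γ.Adj (φ i) (φ j) :=
    fun i j hij => φ.toHom.map_adj hij
  have hinj : Function.Injective φ := φ.injective
  have h1 := h (φ 0) (φ 2) (φ 1) (φ 3) (fun h => absurd (hinj h) (by decide))
    (e 1 0 (by decide)) (e 1 2 (by decide)) (e 3 0 (by decide)) (e 3 2 (by decide))
  exact absurd (hinj h1) (by decide)

/-- Twice the number of edges. -/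
theorem sum_dg_eq {V : Type} [Fintype V] [DecidableEq V] (Γ : SimpleGraph V)
    [DecidableRel Γ.Adj] : ∑ v, dg Γ.Adj v = 2 * (Γ.edgeSet.ncard : ℝ) := by
  classical
  have h1 : ∀ v, dg Γ.Adj v = (Γ.degree v : ℝ) := by
    intro v
    unfold dg
    rw [sum_ind, ← SimpleGraph.card_neighborFinset_eq_degree, SimpleGraph.neighborFinset_eq_filter]
  simp_rw [h1]
  have h2 := Γ.sum_degrees_eq_twice_card_edges
  have h3 : Γ.edgeSet.ncard = Γ.edgeFinset.card := by
    rw [← SimpleGraph.coe_edgeFinset, Set.ncard_coe_finset]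
  rw [h3]
  exact_mod_cast h2

/-- The incidence relation of points and non-vertical lines. -/
def inc (p : ℕ) (P Q : ZMod p × ZMod p) : Prop := P.2 = Q.1 * P.1 + Q.2

theorem inc_unique (p : ℕ) [Fact p.Prime] (P P' Q Q' : ZMod p × ZMod p)
    (h1 : inc p P Q) (h2 : inc p P Q') (h3 : inc p P' Q) (h4 : inc p P' Q') :
    P = P' ∨ Q = Q' := by
  unfold inc at h1 h2 h3 h4
  have h5 : (Q.1 - Q'.1) * (P.1 - P'.1) = 0 := by
    linear_combination h1 * (-1) + h2 + h3 - h4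
  rcases mul_eq_zero.mp h5 with h | h
  · right
    have hq : Q.1 = Q'.1 := sub_eq_zero.mp h
    refine Prod.ext hq ?_
    rw [hq] at h1
    linear_combination h2 - h1
  · left
    have hp : P.1 = P'.1 := sub_eq_zero.mp h
    refine Prod.ext hp ?_
    rw [h1, h3, hp]

/-- The point-line graph. -/
def PL (p : ℕ) : SimpleGraph ((ZMod p × ZMod p) ⊕ (ZMod p × ZMod p)) where
  Adj u v := (∃ P Q, u = Sum.inl P ∧ v = Sum.inr Q ∧ inc p P Q) ∨
    (∃ P Q, v = Sum.inl P ∧ u = Sum.inr Q ∧ inc p P Q)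
  symm := ⟨fun u v h => h.symm⟩
  loopless := ⟨fun u h => by
    rcases h with ⟨P, Q, h1, h2, -⟩ | ⟨P, Q, h1, h2, -⟩ <;> rw [h1] at h2 <;> simp at h2⟩

theorem PL_noC4 (p : ℕ) [Fact p.Prime] : NoC4 (PL p).Adj := by
  intro a b c d hab hca hcb hda hdb
  rcases hca with ⟨P, Q, rfl, rfl, h1⟩ | ⟨P, Q, rfl, rfl, h1⟩
  · rcases hcb with ⟨P2, Q2, e1, rfl, h2⟩ | ⟨P2, Q2, rfl, e1, h2⟩
    · obtain rfl : P = P2 := by simpa using e1
      rcases hda with ⟨P3, Q3, rfl, e2, h3⟩ | ⟨P3, Q3, e2, rfl, h3⟩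
      · obtain rfl : Q = Q3 := by simpa using e2
        rcases hdb with ⟨P4, Q4, e3, e4, h4⟩ | ⟨P4, Q4, e3, e4, h4⟩
        · obtain rfl : P3 = P4 := by simpa using e3
          obtain rfl : Q2 = Q4 := by simpa using e4
          rcases inc_unique p P P3 Q Q2 h1 h2 h3 h4 with h | h
          · rw [h]
          · exact absurd (by rw [h]) hab
        · simp at e4
      · simp at e2
    · simp at e1
  · rcases hcb with ⟨P2, Q2, e1, rfl, h2⟩ | ⟨P2, Q2, rfl, e1, h2⟩
    · simp at e1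
    · obtain rfl : Q = Q2 := by simpa using e1
      rcases hda with ⟨P3, Q3, rfl, e2, h3⟩ | ⟨P3, Q3, e2, rfl, h3⟩
      · simp at e2
      · obtain rfl : P = P3 := by simpa using e2
        rcases hdb with ⟨P4, Q4, e3, e4, h4⟩ | ⟨P4, Q4, e3, e4, h4⟩
        · simp at e4
        · obtain rfl : P2 = P4 := by simpa using e3
          obtain rfl : Q3 = Q4 := by simpa using e4
          rcases inc_unique p P P2 Q Q3 h1 h3 h2 h4 with h | h
          · exact absurd (by rw [h]) hab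
          · rw [h]

theorem PL_edges (p : ℕ) [Fact p.Prime] : p ^ 3 ≤ (PL p).edgeSet.ncard := by
  classical
  let g : ZMod p × ZMod p × ZMod p → Sym2 ((ZMod p × ZMod p) ⊕ (ZMod p × ZMod p)) :=
    fun t => s(Sum.inl (t.1, t.2.1 * t.1 + t.2.2), Sum.inr (t.2.1, t.2.2))
  have hg : Function.Injective g := by
    rintro ⟨x, a, c⟩ ⟨x', a', c'⟩ h
    simp only [g, Sym2.eq_iff, Sum.inl.injEq, Sum.inr.injEq, Prod.mk.injEq, reduceCtorEq,
      false_and, or_false] at h
    obtain ⟨⟨h1, -⟩, h2, h3⟩ := h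
    rw [h1, h2, h3]
  have hmem : ∀ t, g t ∈ (PL p).edgeSet := by
    intro t
    rw [SimpleGraph.mem_edgeSet]
    exact Or.inl ⟨_, _, rfl, rfl, rfl⟩
  have h1 : (Set.range g).ncard = p ^ 3 := by
    rw [Set.ncard_range_of_injective hg]
    simp
    ring
  rw [← h1]
  refine Set.ncard_le_ncard ?_ (Set.toFinite _)
  rintro e ⟨t, rfl⟩
  exact hmem t

/-- For every `n ≥ 8` there is a graph without 4-cycles and with at least `n^{3/2}/23` edges. -/
theorem c4host (n : ℕ) (hn : 8 ≤ n) : ∃ Γ : SimpleGraph (Fin n),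
    ¬ (SimpleGraph.cycleGraph 4).IsContained Γ ∧
    (n : ℝ) ^ ((3 : ℝ) / 2) ≤ 23 * (Γ.edgeSet.ncard : ℝ) := by
  classical
  set m : ℕ := Nat.sqrt (n / 8) with hm
  have hm0 : m ≠ 0 := by
    have h1 : 1 ≤ n / 8 := by omega
    have h2 : 1 ≤ Nat.sqrt (n / 8) := Nat.sqrt_pos.mpr h1
    omega
  obtain ⟨p, hp, hmp, hp2⟩ := Nat.exists_prime_lt_and_le_two_mul m hm0
  have hfact : Fact p.Prime := ⟨hp⟩
  have hsq : m * m ≤ n / 8 := Nat.sqrt_le _
  have hpn : 2 * p ^ 2 ≤ n := by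
    have h1 : p ^ 2 ≤ (2 * m) ^ 2 := Nat.pow_le_pow_left hp2 2
    have h2 : (2 * m) ^ 2 = 4 * (m * m) := by ring
    have h3 : 8 * (n / 8) ≤ n := Nat.mul_div_le n 8
    omega
  have hnp : n < 8 * p ^ 2 := by
    have h1 : n / 8 < (m + 1) * (m + 1) := Nat.lt_succ_sqrt (n / 8)
    have h2 : (m + 1) * (m + 1) ≤ p ^ 2 := by
      rw [sq]; exact Nat.mul_le_mul hmp hmp
    omega
  have hcard : Fintype.card ((ZMod p × ZMod p) ⊕ (ZMod p × ZMod p)) ≤ Fintype.card (Fin n) := by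
    rw [Fintype.card_sum, Fintype.card_prod, ZMod.card, Fintype.card_fin]
    have : p * p + p * p = 2 * p ^ 2 := by ring
    omega
  obtain ⟨f⟩ := Function.Embedding.nonempty_of_card_le hcard
  refine ⟨(PL p).map f, ?_, ?_⟩
  · apply free_of_noC4
    intro a b c d hab hca hcb hda hdb
    rw [SimpleGraph.map_adj] at hca hcb hda hdb
    obtain ⟨c1, a1, h1, rfl, rfl⟩ := hca
    obtain ⟨c2, b1, h2, e2, rfl⟩ := hcb
    obtain ⟨d1, a2, h3, rfl, e3⟩ := hda
    obtain ⟨d2, b2, h4, e4, e5⟩ := hdb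
    have q1 := f.injective e2
    have q2 := f.injective e3
    have q3 := f.injective e4
    have q4 := f.injective e5
    subst q1 q2 q3 q4
    rw [PL_noC4 p _ _ _ _ (fun h => hab (by rw [h])) h1 h2 h3 h4]
  · have h1 : ((PL p).map f).edgeSet.ncard = (PL p).edgeSet.ncard := by
      rw [SimpleGraph.edgeSet_map]
      exact Set.ncard_image_of_injective _ (f.sym2Map.injective)
    rw [h1]
    have h2 : (p : ℝ) ^ 3 ≤ ((PL p).edgeSet.ncard : ℝ) := by exact_mod_cast PL_edges p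
    have hnR : (n : ℝ) ≤ 8 * (p : ℝ) ^ 2 := by exact_mod_cast hnp.le
    have hp0 : (0 : ℝ) ≤ p := by positivity
    have h3 : (n : ℝ) ^ ((3 : ℝ) / 2) ≤ (8 * (p : ℝ) ^ 2) ^ ((3 : ℝ) / 2) :=
      Real.rpow_le_rpow (by positivity) hnR (by norm_num)
    have h4 : (8 * (p : ℝ) ^ 2) ^ ((3 : ℝ) / 2) = 8 * (p : ℝ) ^ 2 * (Real.sqrt 8 * p) := by
      have e : (3 : ℝ) / 2 = 1 + 1 / 2 := by norm_num
      rw [e]
      rw [Real.rpow_add_of_nonneg (by positivity) (by norm_num) (by norm_num), Real.rpow_one,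
        ← Real.sqrt_eq_rpow, Real.sqrt_mul (by norm_num), Real.sqrt_sq hp0]
    have h5 : Real.sqrt 8 ≤ 23 / 8 := by
      rw [Real.sqrt_le_left (by norm_num)]
      norm_num
    have h6 : 8 * (p : ℝ) ^ 2 * (Real.sqrt 8 * p) ≤ 8 * (p : ℝ) ^ 2 * (23 / 8 * p) := by
      gcongr
    calc (n : ℝ) ^ ((3 : ℝ) / 2) ≤ 8 * (p : ℝ) ^ 2 * (23 / 8 * p) := by
          rw [h4] at h3; exact h3.trans h6
      _ = 23 * (p : ℝ) ^ 3 := by ring
      _ ≤ _ := by linarith

end Run7.h970
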