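import Pool.Agent.Run7.h970.Deg

set_option autoImplicit false

/-!
# Degenerate placements of the base vertices are rare
-/

namespace Run7.h970

open Finset

/-- Counting placements along a skeleton. -/
theorem skeleton_count {S J V : Type} [Fintype J] [DecidableEq J] [Fintype V] [DecidableEq V]
    (T : Finset S) (N : S → J → V → Prop) [∀ s j, DecidablePred (N s j)] (D : J → ℝ)
    (hN : ∀ s ∈ T, ∀ j, ∑ v, ind (N s j v) ≤ D j)
    [DecidablePred (fun η : J → V => ∃ s ∈ T, ∀ j, N s j (η j))] :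
    (((Finset.univ.filter (fun η : J → V => ∃ s ∈ T, ∀ j, N s j (η j))).card : ℕ) : ℝ)
      ≤ T.card * ∏ j, D j := by
  classical
  have hsub : (Finset.univ.filter (fun η : J → V => ∃ s ∈ T, ∀ j, N s j (η j)))
      ⊆ T.biUnion (fun s => Fintype.piFinset (fun j => Finset.univ.filter (N s j))) := by
    intro η hη
    obtain ⟨s, hs, h⟩ := (Finset.mem_filter.mp hη).2
    rw [Finset.mem_biUnion]
    refine ⟨s, hs, ?_⟩
    rw [Fintype.mem_piFinset]
    intro j
    exact Finset.mem_filter.mpr ⟨Finset.mem_univ _, h j⟩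
  have h1 := (Finset.card_le_card hsub).trans Finset.card_biUnion_le
  have h2 : (((Finset.univ.filter (fun η : J → V => ∃ s ∈ T, ∀ j, N s j (η j))).card : ℕ) : ℝ)
      ≤ ∑ s ∈ T, ∏ j, (((Finset.univ.filter (N s j)).card : ℕ) : ℝ) := by
    have h3 : (((∑ s ∈ T, (Fintype.piFinset (fun j => Finset.univ.filter (N s j))).card : ℕ)) : ℝ)
        = ∑ s ∈ T, ∏ j, (((Finset.univ.filter (N s j)).card : ℕ) : ℝ) := by
      push_cast
      refine Finset.sum_congr rfl (fun s _ => ?_)
      rw [Fintype.card_piFinset]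
      push_cast
      rfl
    rw [← h3]
    exact_mod_cast h1
  refine h2.trans ?_
  calc ∑ s ∈ T, ∏ j, (((Finset.univ.filter (N s j)).card : ℕ) : ℝ)
      ≤ ∑ _s ∈ T, ∏ j, D j := by
        refine Finset.sum_le_sum (fun s hs => Finset.prod_le_prod (fun j _ => by positivity)
          (fun j _ => ?_))
        rw [← sum_ind]
        exact hN s hs j
    _ = _ := by rw [Finset.sum_const, nsmul_eq_mul]

/-- Coincident or adjacent. -/
def B2 {V : Type} (R : V → V → Prop) (η : Fin 2 → V) : Prop := η 0 = η 1 ∨ R (η 0) (η 1)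

/-- Three with a common neighbour. -/
def B3 {V : Type} (R : V → V → Prop) (η : Fin 3 → V) : Prop :=
  ∃ w, R w (η 0) ∧ R w (η 1) ∧ R w (η 2)

/-- Two adjacent vertices, each with two neighbours among the four. -/
def B4 {V : Type} (R : V → V → Prop) (η : Fin 4 → V) : Prop :=
  ∃ w w', R w w' ∧ R w (η 0) ∧ R w (η 1) ∧ R w' (η 2) ∧ R w' (η 3)

/-- A vertex with three neighbours, each adjacent to two of the six. -/
def B6 {V : Type} (R : V → V → Prop) (η : Fin 6 → V) : Prop :=
  ∃ r z1 z2 z3, (R r z1 ∧ R r z2 ∧ R r z3) ∧ R z1 (η 0) ∧ R z1 (η 1) ∧ R z2 (η 2) ∧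
    R z2 (η 3) ∧ R z3 (η 4) ∧ R z3 (η 5)

section counts

variable {V : Type} [Fintype V] [DecidableEq V] (R : V → V → Prop) [DecidableRel R]
  (D : ℝ) (hD : ∀ v, dg R v ≤ D) (hD0 : 0 ≤ D)

include hD

theorem B2_count [DecidablePred (B2 R)] :
    (((Finset.univ.filter (fun η : Fin 2 → V => B2 R η)).card : ℕ) : ℝ)
      ≤ (Fintype.card V : ℝ) * (1 + D) := by
  classical
  have h := skeleton_count (S := V) (J := Fin 2) (V := V) Finset.univ
    (fun s j v => (j = 0 ∧ s = v) ∨ (j = 1 ∧ (s = v ∨ R s v))) (![1, 1 + D]) (by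
      intro s _ j
      fin_cases j
      · simp [ind]
      · simp only [Fin.mk_one, Fin.isValue, one_ne_zero, false_and, true_and, false_or,
          Matrix.cons_val_one, Matrix.cons_val_zero, Matrix.cons_val_fin_one]
        have : ∑ v, ind (s = v ∨ R s v) ≤ ∑ v, (ind (s = v) + ind (R s v)) := by
          refine Finset.sum_le_sum (fun v _ => ?_)
          by_cases h1 : s = v
          · rw [ind_true (Or.inl h1), ind_true h1]
            have := ind_nonneg (R s v); linarith
          · by_cases h2 : R s v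
            · rw [ind_true (Or.inr h2), ind_true h2]
              have := ind_nonneg (s = v); linarith
            · rw [ind_false (by tauto), ind_false h1, ind_false h2]; norm_num
        refine this.trans ?_
        rw [Finset.sum_add_distrib]
        have e : ∑ v : V, ind (s = v) = 1 := by simp [ind]
        rw [e]
        have := hD s
        unfold dg at this
        linarith)
  rw [Finset.card_univ, Fin.prod_univ_two] at h
  simp only [Matrix.cons_val_zero, Matrix.cons_val_one, one_mul] at h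
  refine le_trans (Nat.cast_le.mpr (Finset.card_le_card (fun η hη => ?_))) h
  have hη' := (Finset.mem_filter.mp hη).2
  refine Finset.mem_filter.mpr ⟨Finset.mem_univ _, η 0, Finset.mem_univ _, ?_⟩
  intro j
  fin_cases j
  · simp
  · rcases hη' with h | h
    · right; exact ⟨rfl, Or.inl h⟩
    · right; exact ⟨rfl, Or.inr h⟩

theorem B3_count [DecidablePred (B3 R)] :
    (((Finset.univ.filter (fun η : Fin 3 → V => B3 R η)).card : ℕ) : ℝ)
      ≤ (Fintype.card V : ℝ) * D ^ 3 := by
  classical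
  have h := skeleton_count (S := V) (J := Fin 3) (V := V) Finset.univ
    (fun s _ v => R s v) (fun _ => D) (fun s _ j => hD s)
  rw [Finset.card_univ, Finset.prod_const, Finset.card_univ, Fintype.card_fin] at h
  refine le_trans (Nat.cast_le.mpr (Finset.card_le_card (fun η hη => ?_))) h
  obtain ⟨w, h0, h1, h2⟩ := (Finset.mem_filter.mp hη).2
  refine Finset.mem_filter.mpr ⟨Finset.mem_univ _, w, Finset.mem_univ _, ?_⟩
  intro j
  fin_cases j
  · exact h0
  · exact h1
  · exact h2

include hD0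

theorem B4_count [DecidablePred (B4 R)] :
    (((Finset.univ.filter (fun η : Fin 4 → V => B4 R η)).card : ℕ) : ℝ)
      ≤ (Fintype.card V : ℝ) * D ^ 5 := by
  classical
  have hT : (((Finset.univ.filter (fun p : V × V => R p.1 p.2)).card : ℕ) : ℝ)
      ≤ (Fintype.card V : ℝ) * D := by
    rw [← sum_ind, Fintype.sum_prod_type]
    calc ∑ x, ∑ y, ind (R x y) ≤ ∑ _x : V, D := Finset.sum_le_sum (fun x _ => hD x)
      _ = _ := by rw [Finset.sum_const, Finset.card_univ, nsmul_eq_mul]
  have h := skeleton_count (S := V × V) (J := Fin 4) (V := V)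
    (Finset.univ.filter (fun p : V × V => R p.1 p.2))
    (fun s j v => R ((![s.1, s.1, s.2, s.2] : Fin 4 → V) j) v) (fun _ => D) (fun s _ j => hD _)
  rw [Finset.prod_const, Finset.card_univ, Fintype.card_fin] at h
  have h' : ((Finset.univ.filter (fun p : V × V => R p.1 p.2)).card : ℝ) * D ^ 4
      ≤ (Fintype.card V : ℝ) * D ^ 5 := by
    calc ((Finset.univ.filter (fun p : V × V => R p.1 p.2)).card : ℝ) * D ^ 4
        ≤ ((Fintype.card V : ℝ) * D) * D ^ 4 := mul_le_mul_of_nonneg_right hT (by positivity)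
      _ = _ := by ring
  refine le_trans (le_trans (Nat.cast_le.mpr (Finset.card_le_card (fun η hη => ?_))) h) h'
  obtain ⟨w, w', hw, h0, h1, h2, h3⟩ := (Finset.mem_filter.mp hη).2
  refine Finset.mem_filter.mpr ⟨Finset.mem_univ _, (w, w'), ?_, ?_⟩
  · exact Finset.mem_filter.mpr ⟨Finset.mem_univ _, hw⟩
  intro j
  fin_cases j
  · exact h0
  · exact h1
  · exact h2
  · exact h3

theorem B6_count [DecidablePred (B6 R)] :
    (((Finset.univ.filter (fun η : Fin 6 → V => B6 R η)).card : ℕ) : ℝ)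
      ≤ (Fintype.card V : ℝ) * D ^ 9 := by
  classical
  have hT : (((Finset.univ.filter (fun p : V × V × V × V =>
      R p.1 p.2.1 ∧ R p.1 p.2.2.1 ∧ R p.1 p.2.2.2)).card : ℕ) : ℝ)
      ≤ (Fintype.card V : ℝ) * D ^ 3 := by
    rw [← sum_ind, Fintype.sum_prod_type]
    calc ∑ x : V, ∑ y : V × V × V, ind (R x y.1 ∧ R x y.2.1 ∧ R x y.2.2)
        ≤ ∑ _x : V, D ^ 3 := by
          refine Finset.sum_le_sum (fun x _ => ?_)
          have e : ∑ y : V × V × V, ind (R x y.1 ∧ R x y.2.1 ∧ R x y.2.2)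
              = dg R x * (dg R x * dg R x) := by
            rw [Fintype.sum_prod_type]
            unfold dg
            rw [Finset.sum_mul]
            refine Finset.sum_congr rfl (fun y1 _ => ?_)
            rw [Fintype.sum_prod_type, Finset.sum_mul_sum, Finset.mul_sum]
            refine Finset.sum_congr rfl (fun y2 _ => ?_)
            rw [Finset.mul_sum]
            refine Finset.sum_congr rfl (fun y3 _ => ?_)
            rw [ind_and, ind_and]
          rw [e]
          have h1 := hD x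
          have h2 := dg_nonneg R x
          calc dg R x * (dg R x * dg R x) = (dg R x) ^ 3 := by ring
            _ ≤ D ^ 3 := pow_le_pow_left₀ h2 h1 3
      _ = _ := by rw [Finset.sum_const, Finset.card_univ, nsmul_eq_mul]
  have h := skeleton_count (S := V × V × V × V) (J := Fin 6) (V := V)
    (Finset.univ.filter (fun p : V × V × V × V => R p.1 p.2.1 ∧ R p.1 p.2.2.1 ∧ R p.1 p.2.2.2))
    (fun s j v => R ((![s.2.1, s.2.1, s.2.2.1, s.2.2.1, s.2.2.2, s.2.2.2] : Fin 6 → V) j) v)
    (fun _ => D) (fun s _ j => hD _)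
  rw [Finset.prod_const, Finset.card_univ, Fintype.card_fin] at h
  have h' : ((Finset.univ.filter (fun p : V × V × V × V =>
        R p.1 p.2.1 ∧ R p.1 p.2.2.1 ∧ R p.1 p.2.2.2)).card : ℝ) * D ^ 6
      ≤ (Fintype.card V : ℝ) * D ^ 9 := by
    calc ((Finset.univ.filter (fun p : V × V × V × V =>
        R p.1 p.2.1 ∧ R p.1 p.2.2.1 ∧ R p.1 p.2.2.2)).card : ℝ) * D ^ 6
        ≤ ((Fintype.card V : ℝ) * D ^ 3) * D ^ 6 := mul_le_mul_of_nonneg_right hT (by positivity)
      _ = _ := by ring
  refine le_trans (le_trans (Nat.cast_le.mpr (Finset.card_le_card (fun η hη => ?_))) h) h'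
  obtain ⟨r, z1, z2, z3, hw, h0, h1, h2, h3, h4, h5⟩ := (Finset.mem_filter.mp hη).2
  refine Finset.mem_filter.mpr ⟨Finset.mem_univ _, (r, z1, z2, z3), ?_, ?_⟩
  · exact Finset.mem_filter.mpr ⟨Finset.mem_univ _, hw⟩
  intro j
  fin_cases j
  · exact h0
  · exact h1
  · exact h2
  · exact h3
  · exact h4
  · exact h5

end counts

/-- The clean placements. -/
structure CleanAt {V I : Type} (R : V → V → Prop) (ω : I → V) : Prop where
  n2 : ∀ κ : Fin 2 → I, Function.Injective κ → ¬ B2 R (ω ∘ κ)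
  n3 : ∀ κ : Fin 3 → I, Function.Injective κ → ¬ B3 R (ω ∘ κ)
  n4 : ∀ κ : Fin 4 → I, Function.Injective κ → ¬ B4 R (ω ∘ κ)
  n6 : ∀ κ : Fin 6 → I, Function.Injective κ → ¬ B6 R (ω ∘ κ)

/-- If a set of placements has no clean member, then it is small. -/
theorem unclean_bound {V I : Type} [Fintype V] [DecidableEq V] [Nonempty V] [Fintype I]
    [DecidableEq I] (R : V → V → Prop) [DecidableRel R] (D : ℝ) (hD : ∀ v, dg R v ≤ D)
    (hD0 : 0 ≤ D) (E : Finset (I → V)) (hE : ∀ ω ∈ E, ¬ CleanAt R ω) :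
    (E.card : ℝ) ≤ ((Fintype.card I : ℝ) ^ 2 * ((1 + D) / Fintype.card V) +
      (Fintype.card I : ℝ) ^ 3 * (D ^ 3 / (Fintype.card V : ℝ) ^ 2) +
      (Fintype.card I : ℝ) ^ 4 * (D ^ 5 / (Fintype.card V : ℝ) ^ 3) +
      (Fintype.card I : ℝ) ^ 6 * (D ^ 9 / (Fintype.card V : ℝ) ^ 5)) *
      (Fintype.card V : ℝ) ^ (Fintype.card I) := by
  classical
  have hV : (0 : ℝ) < Fintype.card V := by exact_mod_cast Fintype.card_pos
  let E2 := E.filter (fun ω => ∃ κ : Fin 2 → I, Function.Injective κ ∧ B2 R (ω ∘ κ))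
  let E3 := E.filter (fun ω => ∃ κ : Fin 3 → I, Function.Injective κ ∧ B3 R (ω ∘ κ))
  let E4 := E.filter (fun ω => ∃ κ : Fin 4 → I, Function.Injective κ ∧ B4 R (ω ∘ κ))
  let E6 := E.filter (fun ω => ∃ κ : Fin 6 → I, Function.Injective κ ∧ B6 R (ω ∘ κ))
  have hsub : E ⊆ (E2 ∪ E3) ∪ (E4 ∪ E6) := by
    intro ω hω
    have h := hE ω hω
    by_contra hcon
    simp only [Finset.mem_union, not_or, E2, E3, E4, E6, Finset.mem_filter, not_and, not_exists]
      at hcon
    exact h ⟨fun κ hκ hb => hcon.1.1 hω κ hκ hb, fun κ hκ hb => hcon.1.2 hω κ hκ hb,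
      fun κ hκ hb => hcon.2.1 hω κ hκ hb, fun κ hκ hb => hcon.2.2 hω κ hκ hb⟩
  have hcard : (E.card : ℝ) ≤ (E2.card + E3.card) + (E4.card + E6.card) := by
    have h := (Finset.card_le_card hsub).trans ((Finset.card_union_le _ _).trans
      (Nat.add_le_add (Finset.card_union_le _ _) (Finset.card_union_le _ _)))
    exact_mod_cast h
  have u2 := union_bound (J := Fin 2) (I := I) (A := V) (B2 R) ((1 + D) / Fintype.card V)
    (by
      refine (B2_count R D hD).trans (le_of_eq ?_)
      rw [Fintype.card_fin]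
      field_simp)
    (by positivity) E2 (fun ω hω => (Finset.mem_filter.mp hω).2)
  have u3 := union_bound (J := Fin 3) (I := I) (A := V) (B3 R)
    (D ^ 3 / (Fintype.card V : ℝ) ^ 2)
    (by
      refine (B3_count R D hD).trans (le_of_eq ?_)
      rw [Fintype.card_fin]
      field_simp)
    (by positivity) E3 (fun ω hω => (Finset.mem_filter.mp hω).2)
  have u4 := union_bound (J := Fin 4) (I := I) (A := V) (B4 R)
    (D ^ 5 / (Fintype.card V : ℝ) ^ 3)
    (by
      refine (B4_count R D hD hD0).trans (le_of_eq ?_)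
      rw [Fintype.card_fin]
      field_simp)
    (by positivity) E4 (fun ω hω => (Finset.mem_filter.mp hω).2)
  have u6 := union_bound (J := Fin 6) (I := I) (A := V) (B6 R)
    (D ^ 9 / (Fintype.card V : ℝ) ^ 5)
    (by
      refine (B6_count R D hD hD0).trans (le_of_eq ?_)
      rw [Fintype.card_fin]
      field_simp)
    (by positivity) E6 (fun ω hω => (Finset.mem_filter.mp hω).2)
  rw [Fintype.card_fin] at u2 u3 u4 u6
  refine hcard.trans (le_trans (add_le_add (add_le_add u2 u3) (add_le_add u4 u6)) (le_of_eq ?_))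
  ring

end Run7.h970
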