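import Pool.Agent.Run7.h970.Bad

set_option autoImplicit false

/-!
# Transfer of counts along injections, and union bounds
-/

namespace Run7.h970

open Finset

/-- Summing a function of the restriction along an injection. -/
theorem sum_comp_injective {J I A : Type} [Fintype J] [Fintype I] [Fintype A]
    [DecidableEq J] [DecidableEq I]
    (κ : J → I) (hκ : Function.Injective κ) (F : (J → A) → ℝ) :
    (Fintype.card A : ℝ) ^ (Fintype.card J) * ∑ ω : I → A, F (ω ∘ κ)
      = (Fintype.card A : ℝ) ^ (Fintype.card I) * ∑ η : J → A, F η := by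
  classical
  let C : Type := ↥((Set.range κ)ᶜ)
  let e0 : J ⊕ C ≃ I :=
    (Equiv.sumCongr (Equiv.ofInjective κ hκ) (Equiv.refl _)).trans (Equiv.Set.sumCompl (Set.range κ))
  have he0 : ∀ j, e0 (Sum.inl j) = κ j := by
    intro j
    rfl
  have hcard : Fintype.card I = Fintype.card J + Fintype.card C := by
    rw [← Fintype.card_sum]
    exact (Fintype.card_congr e0).symm
  have h1 : ∑ ω : I → A, F (ω ∘ κ) = ∑ w : (J → A) × (C → A), F w.1 := by
    let E : (I → A) ≃ (J → A) × (C → A) :=
      ((Equiv.arrowCongr e0 (Equiv.refl A)).symm).trans (Equiv.sumArrowEquivProdArrow J C A)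
    refine Fintype.sum_equiv E _ _ (fun ω => ?_)
    congr 1
  rw [h1, Fintype.sum_prod_type]
  simp only [Finset.sum_const, Finset.card_univ, nsmul_eq_mul]
  rw [← Finset.mul_sum, hcard, pow_add, Fintype.card_fun]
  push_cast
  ring

/-- Counting version. -/
theorem card_comp_injective {J I A : Type} [Fintype J] [Fintype I] [Fintype A]
    [DecidableEq J] [DecidableEq I]
    (κ : J → I) (hκ : Function.Injective κ) (B : (J → A) → Prop) [DecidablePred B] :
    (Fintype.card A : ℝ) ^ (Fintype.card J) *
        (((Finset.univ.filter (fun ω : I → A => B (ω ∘ κ))).card : ℕ) : ℝ)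
      = (Fintype.card A : ℝ) ^ (Fintype.card I) *
        (((Finset.univ.filter (fun η : J → A => B η)).card : ℕ) : ℝ) := by
  classical
  have h := sum_comp_injective κ hκ (fun η => if B η then (1 : ℝ) else 0)
  simp only [Finset.sum_boole] at h
  exact h

/-- Union bound over all injections. -/
theorem union_bound {J I A : Type} [Fintype J] [Fintype I] [Fintype A] [Nonempty A]
    [DecidableEq J] [DecidableEq I] (B : (J → A) → Prop) [DecidablePred B] (β : ℝ)
    (hβ : (((Finset.univ.filter (fun η : J → A => B η)).card : ℕ) : ℝ)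
      ≤ (Fintype.card A : ℝ) ^ (Fintype.card J) * β)
    (hβ0 : 0 ≤ β)
    (E : Finset (I → A))
    (hE : ∀ ω ∈ E, ∃ κ : J → I, Function.Injective κ ∧ B (ω ∘ κ)) :
    (E.card : ℝ) ≤ (Fintype.card I : ℝ) ^ (Fintype.card J) * β *
      (Fintype.card A : ℝ) ^ (Fintype.card I) := by
  classical
  have hA : (0 : ℝ) < Fintype.card A := by
    exact_mod_cast Fintype.card_pos
  have hsub : E ⊆ (Finset.univ.filter (fun κ : J → I => Function.Injective κ)).biUnion
      (fun κ => Finset.univ.filter (fun ω : I → A => B (ω ∘ κ))) := by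
    intro ω hω
    obtain ⟨κ, hκ, hB⟩ := hE ω hω
    rw [Finset.mem_biUnion]
    exact ⟨κ, by simp [hκ], by simp [hB]⟩
  have h1 : (E.card : ℝ) ≤ ∑ κ ∈ Finset.univ.filter (fun κ : J → I => Function.Injective κ),
      (((Finset.univ.filter (fun ω : I → A => B (ω ∘ κ))).card : ℕ) : ℝ) := by
    have := (Finset.card_le_card hsub).trans Finset.card_biUnion_le
    exact_mod_cast this
  refine h1.trans ?_
  have h2 : ∀ κ ∈ Finset.univ.filter (fun κ : J → I => Function.Injective κ),
      (((Finset.univ.filter (fun ω : I → A => B (ω ∘ κ))).card : ℕ) : ℝ)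
        ≤ β * (Fintype.card A : ℝ) ^ (Fintype.card I) := by
    intro κ hκ
    have hinj := (Finset.mem_filter.mp hκ).2
    have h3 := card_comp_injective κ hinj B
    have hpos : (0 : ℝ) < (Fintype.card A : ℝ) ^ (Fintype.card J) := by positivity
    have h4 : (Fintype.card A : ℝ) ^ (Fintype.card J) *
        (((Finset.univ.filter (fun ω : I → A => B (ω ∘ κ))).card : ℕ) : ℝ)
        ≤ (Fintype.card A : ℝ) ^ (Fintype.card J) *
          (β * (Fintype.card A : ℝ) ^ (Fintype.card I)) := by
      rw [h3]
      calc (Fintype.card A : ℝ) ^ (Fintype.card I) *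
            (((Finset.univ.filter (fun η : J → A => B η)).card : ℕ) : ℝ)
          ≤ (Fintype.card A : ℝ) ^ (Fintype.card I) *
            ((Fintype.card A : ℝ) ^ (Fintype.card J) * β) :=
            mul_le_mul_of_nonneg_left hβ (by positivity)
        _ = _ := by ring
    exact le_of_mul_le_mul_left h4 hpos
  calc ∑ κ ∈ Finset.univ.filter (fun κ : J → I => Function.Injective κ),
      (((Finset.univ.filter (fun ω : I → A => B (ω ∘ κ))).card : ℕ) : ℝ)
      ≤ ∑ κ ∈ Finset.univ.filter (fun κ : J → I => Function.Injective κ),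
          β * (Fintype.card A : ℝ) ^ (Fintype.card I) := Finset.sum_le_sum h2
    _ ≤ ∑ κ : J → I, β * (Fintype.card A : ℝ) ^ (Fintype.card I) :=
        Finset.sum_le_sum_of_subset_of_nonneg (Finset.subset_univ _)
          (fun _ _ _ => by positivity)
    _ = _ := by
        rw [Finset.sum_const, Finset.card_univ, Fintype.card_fun, nsmul_eq_mul]
        push_cast
        ring

/-- Counting functions on a sum type, fibre by fibre. -/
theorem card_sum_fibre {J K A : Type} [Fintype J] [Fintype K] [Fintype A]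
    [DecidableEq J] [DecidableEq K] (B : (J → A) → (K → A) → Prop)
    [∀ x, DecidablePred (B x)] (β : ℝ)
    (hB : ∀ x : J → A, (((Finset.univ.filter (fun z : K → A => B x z)).card : ℕ) : ℝ) ≤ β) :
    (((Finset.univ.filter (fun η : J ⊕ K → A => B (η ∘ Sum.inl) (η ∘ Sum.inr))).card : ℕ) : ℝ)
      ≤ (Fintype.card A : ℝ) ^ (Fintype.card J) * β := by
  classical
  have h1 : (((Finset.univ.filter
        (fun η : J ⊕ K → A => B (η ∘ Sum.inl) (η ∘ Sum.inr))).card : ℕ) : ℝ)
      = ∑ η : J ⊕ K → A, (if B (η ∘ Sum.inl) (η ∘ Sum.inr) then (1 : ℝ) else 0) := by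
    rw [Finset.sum_boole]
  have h2 : ∑ η : J ⊕ K → A, (if B (η ∘ Sum.inl) (η ∘ Sum.inr) then (1 : ℝ) else 0)
      = ∑ w : (J → A) × (K → A), (if B w.1 w.2 then (1 : ℝ) else 0) :=
    Fintype.sum_equiv (Equiv.sumArrowEquivProdArrow J K A) _ _ (fun η => rfl)
  rw [h1, h2, Fintype.sum_prod_type]
  calc ∑ x : J → A, ∑ z : K → A, (if B x z then (1 : ℝ) else 0)
      ≤ ∑ x : J → A, β := by
        refine Finset.sum_le_sum (fun x _ => ?_)
        rw [Finset.sum_boole]
        exact hB x
    _ = _ := by
        rw [Finset.sum_const, Finset.card_univ, Fintype.card_fun, nsmul_eq_mul]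
        push_cast
        ring

end Run7.h970
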