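import Pool.Agent.Run7.h970.Jen

set_option autoImplicit false

/-!
# Degrees in relations without 4-cycles
-/

namespace Run7.h970

open Finset

/-- Real indicator. -/
def ind (p : Prop) [Decidable p] : ℝ := if p then 1 else 0

theorem ind_nonneg (p : Prop) [Decidable p] : 0 ≤ ind p := by
  unfold ind; split_ifs <;> norm_num

theorem ind_le_one (p : Prop) [Decidable p] : ind p ≤ 1 := by
  unfold ind; split_ifs <;> norm_num

theorem ind_true {p : Prop} [Decidable p] (h : p) : ind p = 1 := by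
  unfold ind; rw [if_pos h]

theorem ind_false {p : Prop} [Decidable p] (h : ¬ p) : ind p = 0 := by
  unfold ind; rw [if_neg h]

theorem ind_and (p q : Prop) [Decidable p] [Decidable q] : ind (p ∧ q) = ind p * ind q := by
  by_cases hp : p <;> by_cases hq : q <;> simp [ind, hp, hq]

theorem ind_sq (p : Prop) [Decidable p] : ind p * ind p = ind p := by
  by_cases hp : p <;> simp [ind, hp]

theorem sum_ind {α : Type} [Fintype α] (p : α → Prop) [DecidablePred p] :
    ∑ a, ind (p a) = (((Finset.univ.filter p).card : ℕ) : ℝ) := by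
  unfold ind
  rw [Finset.sum_boole]

/-- Degree in a relation. -/
def dg {V : Type} [Fintype V] (R : V → V → Prop) [DecidableRel R] (v : V) : ℝ :=
  ∑ w, ind (R v w)

/-- No 4-cycle, stated for a relation. -/
def NoC4 {V : Type} (R : V → V → Prop) : Prop :=
  ∀ a b c d, a ≠ b → R c a → R c b → R d a → R d b → c = d

theorem dg_nonneg {V : Type} [Fintype V] (R : V → V → Prop) [DecidableRel R] (v : V) :
    0 ≤ dg R v := Finset.sum_nonneg (fun _ _ => ind_nonneg _)

/-- The second moment of the degrees. -/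
theorem sum_dg_sq_le {V : Type} [Fintype V] [DecidableEq V] (R : V → V → Prop) [DecidableRel R]
    (hC : NoC4 R) : ∑ v, (dg R v) ^ 2 ≤ 2 * (Fintype.card V : ℝ) ^ 2 := by
  classical
  have h1 : ∑ v, (dg R v) ^ 2 = ∑ a, ∑ b, ∑ v, ind (R v a) * ind (R v b) := by
    have : ∀ v, (dg R v) ^ 2 = ∑ a, ∑ b, ind (R v a) * ind (R v b) := by
      intro v
      unfold dg
      rw [sq, Finset.sum_mul_sum]
    simp_rw [this]
    rw [Finset.sum_comm]
    refine Finset.sum_congr rfl (fun a _ => ?_)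
    rw [Finset.sum_comm]
  rw [h1]
  have h2 : ∀ a b : V, ∑ v, ind (R v a) * ind (R v b) ≤ 1 + (Fintype.card V : ℝ) * ind (a = b) := by
    intro a b
    by_cases hab : a = b
    · rw [ind_true hab, mul_one]
      have : ∑ v, ind (R v a) * ind (R v b) ≤ ∑ _v : V, (1 : ℝ) := by
        refine Finset.sum_le_sum (fun v _ => ?_)
        have h1 := ind_nonneg (R v a)
        have h2 := ind_le_one (R v a)
        have h3 := ind_nonneg (R v b)
        have h4 := ind_le_one (R v b)
        nlinarith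
      rw [Finset.sum_const, Finset.card_univ, nsmul_eq_mul, mul_one] at this
      linarith
    · rw [ind_false hab, mul_zero, add_zero]
      by_cases hex : ∃ v, R v a ∧ R v b
      · obtain ⟨v0, h0a, h0b⟩ := hex
        rw [Finset.sum_eq_single v0]
        · have h1 := ind_nonneg (R v0 a)
          have h2 := ind_le_one (R v0 a)
          have h3 := ind_nonneg (R v0 b)
          have h4 := ind_le_one (R v0 b)
          nlinarith
        · intro v _ hv
          rw [← ind_and]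
          refine ind_false (fun hh => hv ?_)
          exact hC a b v v0 hab hh.1 hh.2 h0a h0b
        · intro h; exact absurd (Finset.mem_univ _) h
      · have : ∑ v, ind (R v a) * ind (R v b) = 0 := by
          refine Finset.sum_eq_zero (fun v _ => ?_)
          rw [← ind_and]
          exact ind_false (fun hh => hex ⟨v, hh⟩)
        rw [this]; norm_num
  calc ∑ a, ∑ b, ∑ v, ind (R v a) * ind (R v b)
      ≤ ∑ a : V, ∑ b : V, (1 + (Fintype.card V : ℝ) * ind (a = b)) :=
        Finset.sum_le_sum (fun a _ => Finset.sum_le_sum (fun b _ => h2 a b))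
    _ = 2 * (Fintype.card V : ℝ) ^ 2 := by
        simp only [Finset.sum_add_distrib, ← Finset.mul_sum, Finset.sum_const, Finset.card_univ,
          nsmul_eq_mul, mul_one]
        have : ∀ a : V, ∑ b : V, ind (a = b) = 1 := by
          intro a
          unfold ind
          simp
        simp_rw [this]
        simp only [Finset.sum_const, Finset.card_univ, nsmul_eq_mul, mul_one]
        ring

/-- The relation restricted to vertices of degree at most `D`. -/
def cut {V : Type} [Fintype V] (R : V → V → Prop) [DecidableRel R] (D : ℝ) (u v : V) : Prop :=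
  R u v ∧ dg R u ≤ D ∧ dg R v ≤ D

theorem sum_dg_cut {V : Type} [Fintype V] [DecidableEq V] (R : V → V → Prop) [DecidableRel R]
    (hs : ∀ a b, R a b → R b a) (hC : NoC4 R) (D : ℝ) (hD : 0 < D) [DecidableRel (cut R D)] :
    ∑ v, dg R v - 4 * (Fintype.card V : ℝ) ^ 2 / D ≤ ∑ v, dg (cut R D) v := by
  classical
  have h2 := sum_dg_sq_le R hC
  have hpt : ∀ u v : V, ind (R u v) ≤ ind (cut R D u v) + ind (R u v) * (dg R u / D) +
      ind (R v u) * (dg R v / D) := by
    intro u v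
    by_cases huv : R u v
    · have hvu := hs _ _ huv
      rw [ind_true huv, ind_true hvu]
      have hu0 : 0 ≤ dg R u / D := div_nonneg (dg_nonneg R u) hD.le
      have hv0 : 0 ≤ dg R v / D := div_nonneg (dg_nonneg R v) hD.le
      by_cases h1 : dg R u ≤ D
      · by_cases h2 : dg R v ≤ D
        · rw [ind_true (show cut R D u v from ⟨huv, h1, h2⟩)]
          linarith
        · have : 1 ≤ dg R v / D := by
            rw [le_div_iff₀ hD]; linarith
          have := ind_nonneg (cut R D u v)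
          linarith
      · have : 1 ≤ dg R u / D := by
          rw [le_div_iff₀ hD]; linarith
        have := ind_nonneg (cut R D u v)
        linarith
    · rw [ind_false huv]
      have h1 := ind_nonneg (cut R D u v)
      have h2 := ind_nonneg (R v u)
      have hv0 : 0 ≤ dg R v / D := div_nonneg (dg_nonneg R v) hD.le
      have := mul_nonneg h2 hv0
      linarith
  have hsum : ∑ u, dg R u ≤ ∑ u, dg (cut R D) u + ∑ u, dg R u * (dg R u / D) +
      ∑ v, dg R v * (dg R v / D) := by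
    have e1 : ∑ u, dg R u * (dg R u / D) = ∑ u, ∑ v, ind (R u v) * (dg R u / D) := by
      refine Finset.sum_congr rfl (fun u _ => ?_)
      rw [← Finset.sum_mul]; rfl
    have e2 : ∑ v, dg R v * (dg R v / D) = ∑ u, ∑ v, ind (R v u) * (dg R v / D) := by
      rw [Finset.sum_comm]
      exact e1
    calc ∑ u, dg R u = ∑ u, ∑ v, ind (R u v) := rfl
      _ ≤ ∑ u, ∑ v, (ind (cut R D u v) + ind (R u v) * (dg R u / D) +
            ind (R v u) * (dg R v / D)) :=
          Finset.sum_le_sum (fun u _ => Finset.sum_le_sum (fun v _ => hpt u v))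
      _ = _ := by
          simp only [Finset.sum_add_distrib]
          rw [← e1, ← e2]
          rfl
  have h3 : ∑ u, dg R u * (dg R u / D) ≤ 2 * (Fintype.card V : ℝ) ^ 2 / D := by
    have : ∑ u, dg R u * (dg R u / D) = (∑ u, (dg R u) ^ 2) / D := by
      rw [Finset.sum_div]
      exact Finset.sum_congr rfl (fun u _ => by ring)
    rw [this]
    exact div_le_div_of_nonneg_right h2 hD.le
  have h4 : 4 * (Fintype.card V : ℝ) ^ 2 / D = 2 * (Fintype.card V : ℝ) ^ 2 / D +
      2 * (Fintype.card V : ℝ) ^ 2 / D := by ring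
  linarith

theorem dg_cut_le {V : Type} [Fintype V] (R : V → V → Prop) [DecidableRel R]
    (D : ℝ) (hD : 0 ≤ D) [DecidableRel (cut R D)] (v : V) : dg (cut R D) v ≤ D := by
  classical
  by_cases h : dg R v ≤ D
  · refine le_trans ?_ h
    unfold dg
    refine Finset.sum_le_sum (fun w _ => ?_)
    by_cases hc : cut R D v w
    · rw [ind_true hc, ind_true hc.1]
    · rw [ind_false hc]; exact ind_nonneg _
  · have : dg (cut R D) v = 0 := by
      unfold dg
      exact Finset.sum_eq_zero (fun w _ => ind_false (fun hc => h hc.2.1))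
    rw [this]; exact hD

/-- Good quadruples. -/
def Good {V : Type} (R : V → V → Prop) (a b a' b' : V) : Prop :=
  a ≠ b ∧ a' ≠ b' ∧ ∃ z z' r, z ≠ z' ∧ R r z ∧ R r z' ∧ R z a ∧ R z b ∧ R z' a' ∧ R z' b'

/-- The number of ordered pairs of distinct neighbours. -/
def gg {V : Type} [Fintype V] [DecidableEq V] (R : V → V → Prop) [DecidableRel R] (z : V) : ℝ :=
  ∑ a, ∑ b, ind (a ≠ b) * (ind (R z a) * ind (R z b))

theorem gg_eq {V : Type} [Fintype V] [DecidableEq V] (R : V → V → Prop) [DecidableRel R] (z : V) :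
    gg R z = (dg R z) ^ 2 - dg R z := by
  unfold gg dg
  have h1 : ∀ a b : V, ind (a ≠ b) * (ind (R z a) * ind (R z b))
      = ind (R z a) * ind (R z b) - ind (a = b) * ind (R z a) := by
    intro a b
    by_cases hab : a = b
    · subst hab
      rw [ind_true rfl, ind_false (fun h => h rfl), ind_sq]; ring
    · rw [ind_true hab, ind_false hab]; ring
  simp_rw [h1, Finset.sum_sub_distrib]
  rw [sq, Finset.sum_mul_sum]
  congr 1
  refine Finset.sum_congr rfl (fun a _ => ?_)
  rw [← Finset.sum_mul]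
  have : ∑ b : V, ind (a = b) = 1 := by
    unfold ind; simp
  rw [this, one_mul]

theorem good_ge {V : Type} [Fintype V] [DecidableEq V] (R : V → V → Prop) [DecidableRel R]
    (hC : NoC4 R) [∀ a b a' b', Decidable (Good R a b a' b')] :
    ∑ r, ∑ z, ∑ z', ind (z ≠ z') * (ind (R r z) * ind (R r z')) * (gg R z * gg R z')
      ≤ ∑ a, ∑ b, ∑ a', ∑ b', ind (Good R a b a' b') := by
  classical
  -- the set of seven-tuples
  let P : (V × V × V) × (V × V) × (V × V) → Prop := fun t =>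
    (t.1.2.1 ≠ t.1.2.2 ∧ (R t.1.1 t.1.2.1 ∧ R t.1.1 t.1.2.2)) ∧
      ((t.2.1.1 ≠ t.2.1.2 ∧ (R t.1.2.1 t.2.1.1 ∧ R t.1.2.1 t.2.1.2)) ∧
       (t.2.2.1 ≠ t.2.2.2 ∧ (R t.1.2.2 t.2.2.1 ∧ R t.1.2.2 t.2.2.2)))
  have hL : ∑ r, ∑ z, ∑ z', ind (z ≠ z') * (ind (R r z) * ind (R r z')) * (gg R z * gg R z')
      = (((Finset.univ.filter P).card : ℕ) : ℝ) := by
    rw [← sum_ind, Fintype.sum_prod_type, Fintype.sum_prod_type]
    refine Finset.sum_congr rfl (fun r _ => ?_)
    rw [Fintype.sum_prod_type]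
    refine Finset.sum_congr rfl (fun z _ => Finset.sum_congr rfl (fun z' _ => ?_))
    rw [Fintype.sum_prod_type]
    have hg : ∀ z : V, gg R z = ∑ p : V × V, ind (p.1 ≠ p.2) * (ind (R z p.1) * ind (R z p.2)) := by
      intro z
      unfold gg
      rw [Fintype.sum_prod_type]
    rw [hg z, hg z', Finset.sum_mul_sum, Finset.mul_sum]
    refine Finset.sum_congr rfl (fun p _ => ?_)
    rw [Finset.mul_sum]
    refine Finset.sum_congr rfl (fun p' _ => ?_)
    simp only [P, ind_and]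
  have hR : ∑ a, ∑ b, ∑ a', ∑ b', ind (Good R a b a' b')
      = (((Finset.univ.filter (fun q : (V × V) × (V × V) =>
          Good R q.1.1 q.1.2 q.2.1 q.2.2)).card : ℕ) : ℝ) := by
    rw [← sum_ind, Fintype.sum_prod_type, Fintype.sum_prod_type]
    refine Finset.sum_congr rfl (fun a _ => Finset.sum_congr rfl (fun b _ => ?_))
    rw [Fintype.sum_prod_type]
  rw [hL, hR]
  refine Nat.cast_le.mpr (Finset.card_le_card_of_injOn (fun t => t.2) ?_ ?_)
  · intro t ht
    have ht' := (Finset.mem_filter.mp (Finset.mem_coe.mp ht)).2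
    refine Finset.mem_coe.mpr (Finset.mem_filter.mpr ⟨Finset.mem_univ _, ?_⟩)
    exact ⟨ht'.2.1.1, ht'.2.2.1, t.1.2.1, t.1.2.2, t.1.1, ht'.1.1, ht'.1.2.1, ht'.1.2.2,
      ht'.2.1.2.1, ht'.2.1.2.2, ht'.2.2.2.1, ht'.2.2.2.2⟩
  · rintro ⟨⟨r, z, z'⟩, ⟨a, b⟩, ⟨a', b'⟩⟩ ht ⟨⟨r1, z1, z1'⟩, ⟨a1, b1⟩, ⟨a1', b1'⟩⟩ ht1 heq
    have h := (Finset.mem_filter.mp (Finset.mem_coe.mp ht)).2
    have h1 := (Finset.mem_filter.mp (Finset.mem_coe.mp ht1)).2
    simp only [Prod.mk.injEq] at heq
    obtain ⟨⟨rfl, rfl⟩, ⟨rfl, rfl⟩⟩ := heq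
    have ez : z = z1 := hC a b z z1 h.2.1.1 h.2.1.2.1 h.2.1.2.2 h1.2.1.2.1 h1.2.1.2.2
    have ez' : z' = z1' := hC a' b' z' z1' h.2.2.1 h.2.2.2.1 h.2.2.2.2 h1.2.2.2.1 h1.2.2.2.2
    subst ez ez'
    have er : r = r1 := hC z z' r r1 h.1.1 h.1.2.1 h.1.2.2 h1.1.2.1 h1.1.2.2
    subst er
    rfl

theorem good_ge2 {V : Type} [Fintype V] [DecidableEq V] (R : V → V → Prop) [DecidableRel R]
    (hs : ∀ a b, R a b → R b a) (D : ℝ) (hD1 : 1 ≤ D) (hD : ∀ v, dg R v ≤ D) :
    (∑ z, ((dg R z) ^ 3 - (dg R z) ^ 2)) ^ 2 - (Fintype.card V : ℝ) ^ 2 * D ^ 5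
      ≤ (Fintype.card V : ℝ) *
        ∑ r, ∑ z, ∑ z', ind (z ≠ z') * (ind (R r z) * ind (R r z')) * (gg R z * gg R z') := by
  classical
  have hgn : ∀ z, 0 ≤ gg R z := fun z => Finset.sum_nonneg (fun a _ => Finset.sum_nonneg
    (fun b _ => mul_nonneg (ind_nonneg _) (mul_nonneg (ind_nonneg _) (ind_nonneg _))))
  have hgD : ∀ z, gg R z ≤ D ^ 2 := by
    intro z
    rw [gg_eq]
    have h1 := dg_nonneg R z
    have h2 := hD z
    nlinarith
  have h1 : ∀ r, ∑ z, ∑ z', ind (z ≠ z') * (ind (R r z) * ind (R r z')) * (gg R z * gg R z')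
      = (∑ z, ind (R r z) * gg R z) ^ 2 - ∑ z, ind (R r z) * (gg R z) ^ 2 := by
    intro r
    have e1 : ∀ z z' : V, ind (z ≠ z') * (ind (R r z) * ind (R r z')) * (gg R z * gg R z')
        = (ind (R r z) * gg R z) * (ind (R r z') * gg R z') -
          ind (z = z') * (ind (R r z) * (gg R z) ^ 2) := by
      intro z z'
      by_cases hz : z = z'
      · subst hz
        rw [ind_true rfl, ind_false (fun h => h rfl)]
        have := ind_sq (R r z)
        linear_combination (-(gg R z) ^ 2) * this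
      · rw [ind_true hz, ind_false hz]; ring
    simp_rw [e1, Finset.sum_sub_distrib]
    rw [sq, Finset.sum_mul_sum]
    congr 1
    refine Finset.sum_congr rfl (fun z _ => ?_)
    rw [← Finset.sum_mul]
    have : ∑ b : V, ind (z = b) = 1 := by
      unfold ind; simp
    rw [this, one_mul]
  have h0 : ∑ r, ∑ z, ∑ z', ind (z ≠ z') * (ind (R r z) * ind (R r z')) * (gg R z * gg R z')
      = ∑ r, (∑ z, ind (R r z) * gg R z) ^ 2 - ∑ r, ∑ z, ind (R r z) * (gg R z) ^ 2 := by
    simp_rw [h1, Finset.sum_sub_distrib]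
  rw [h0]
  have h2 : (∑ r, ∑ z, ind (R r z) * gg R z) ^ 2
      ≤ (Fintype.card V : ℝ) * ∑ r, (∑ z, ind (R r z) * gg R z) ^ 2 := by
    have := sq_sum_le_card_mul_sum_sq (s := (Finset.univ : Finset V))
      (f := fun r => ∑ z, ind (R r z) * gg R z)
    rwa [Finset.card_univ] at this
  have hsymm : ∀ r z : V, ind (R r z) = ind (R z r) := by
    intro r z
    by_cases h : R r z
    · rw [ind_true h, ind_true (hs _ _ h)]
    · rw [ind_false h, ind_false (fun h' => h (hs _ _ h'))]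
  have h3 : ∑ r, ∑ z, ind (R r z) * gg R z = ∑ z, ((dg R z) ^ 3 - (dg R z) ^ 2) := by
    rw [Finset.sum_comm]
    refine Finset.sum_congr rfl (fun z _ => ?_)
    rw [← Finset.sum_mul]
    have : ∑ r, ind (R r z) = dg R z := by
      unfold dg
      exact Finset.sum_congr rfl (fun r _ => hsymm r z)
    rw [this, gg_eq]
    ring
  have h4 : ∑ r, ∑ z, ind (R r z) * (gg R z) ^ 2 ≤ (Fintype.card V : ℝ) * D ^ 5 := by
    rw [Finset.sum_comm]
    calc ∑ z, ∑ r, ind (R r z) * (gg R z) ^ 2 ≤ ∑ _z : V, D ^ 5 := by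
          refine Finset.sum_le_sum (fun z _ => ?_)
          rw [← Finset.sum_mul]
          have : ∑ r, ind (R r z) = dg R z := by
            unfold dg
            exact Finset.sum_congr rfl (fun r _ => hsymm r z)
          rw [this]
          calc dg R z * (gg R z) ^ 2 ≤ D * (D ^ 2) ^ 2 := by
                refine mul_le_mul (hD z) ?_ (by positivity) (by linarith)
                exact pow_le_pow_left₀ (hgn z) (hgD z) 2
            _ = D ^ 5 := by ring
      _ = _ := by
          rw [Finset.sum_const, Finset.card_univ, nsmul_eq_mul]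
  rw [h3] at h2
  have hn : (0 : ℝ) ≤ Fintype.card V := by positivity
  have h5 := mul_le_mul_of_nonneg_left h4 hn
  rw [mul_sub]
  nlinarith [h2, h5]

/-- Many good quadruples. -/
theorem good_lower {V : Type} [Fintype V] [DecidableEq V] (R : V → V → Prop) [DecidableRel R]
    (hs : ∀ a b, R a b → R b a) (hC : NoC4 R) [∀ a b a' b', Decidable (Good R a b a' b')]
    (s c : ℝ) (hsn : (Fintype.card V : ℝ) = s ^ 2) (hc : 0 < c) (hc1 : c ≤ 1)
    (hs1 : 8192 ≤ s * c ^ 11)
    (hD : ∀ v, dg R v ≤ 4 / c * s) (hE : c * s ^ 3 ≤ ∑ v, dg R v) :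
    c ^ 6 / 8 * (Fintype.card V : ℝ) ^ 4 ≤ ∑ a, ∑ b, ∑ a', ∑ b', ind (Good R a b a' b') := by
  classical
  have hc11 : 0 < c ^ 11 := by positivity
  have hspos : 0 < s := by
    by_contra h
    have h1 : s ≤ 0 := not_lt.mp h
    have := mul_nonpos_of_nonpos_of_nonneg h1 hc11.le
    linarith
  have hs8192 : 8192 ≤ s := by
    have : s * c ^ 11 ≤ s * 1 := mul_le_mul_of_nonneg_left (pow_le_one₀ hc.le hc1) hspos.le
    linarith
  have hsD : 1 ≤ 4 / c * s := by
    have h1 : 4 ≤ 4 / c := by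
      rw [le_div_iff₀ hc]; nlinarith
    nlinarith
  have k1 := good_ge R hC
  have k2 := good_ge2 R hs (4 / c * s) hsD hD
  rw [hsn] at k2 ⊢
  set N := ∑ r, ∑ z, ∑ z', ind (z ≠ z') * (ind (R r z) * ind (R r z')) * (gg R z * gg R z')
  refine le_trans ?_ k1
  -- third moment
  have k3 : c ^ 3 * s ^ 5 ≤ ∑ z, (dg R z) ^ 3 := by
    have h := pow_sum_le_card_mul_sum_pow (s := (Finset.univ : Finset V))
      (f := fun z => dg R z) (fun z _ => dg_nonneg R z) 2
    rw [Finset.card_univ, hsn] at h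
    norm_num at h
    have h2 : (c * s ^ 3) ^ 3 ≤ (∑ z, dg R z) ^ 3 := pow_le_pow_left₀ (by positivity) hE 3
    have h3 : (s ^ 2) ^ 2 * (c ^ 3 * s ^ 5) ≤ (s ^ 2) ^ 2 * ∑ z, (dg R z) ^ 3 := by
      calc (s ^ 2) ^ 2 * (c ^ 3 * s ^ 5) = (c * s ^ 3) ^ 3 := by ring
        _ ≤ _ := h2.trans h
    exact le_of_mul_le_mul_left h3 (by positivity)
  have k4 : ∑ z, (dg R z) ^ 2 ≤ 16 * s ^ 4 / c ^ 2 := by
    calc ∑ z, (dg R z) ^ 2 ≤ ∑ _z : V, (4 / c * s) ^ 2 :=
          Finset.sum_le_sum (fun z _ => pow_le_pow_left₀ (dg_nonneg R z) (hD z) 2)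
      _ = 16 * s ^ 4 / c ^ 2 := by
          rw [Finset.sum_const, Finset.card_univ, nsmul_eq_mul, hsn]
          field_simp
          norm_num
  have k5 : 16 * s ^ 4 / c ^ 2 ≤ c ^ 3 * s ^ 5 / 2 := by
    rw [div_le_div_iff₀ (by positivity) (by norm_num)]
    have h1 : c ^ 11 ≤ c ^ 5 := pow_le_pow_of_le_one hc.le hc1 (by norm_num)
    have h2 : 32 ≤ s * c ^ 5 := by nlinarith
    calc 16 * s ^ 4 * 2 = s ^ 4 * 32 := by ring
      _ ≤ s ^ 4 * (s * c ^ 5) := mul_le_mul_of_nonneg_left h2 (by positivity)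
      _ = c ^ 3 * s ^ 5 * c ^ 2 := by ring
  have k6 : c ^ 3 * s ^ 5 / 2 ≤ ∑ z, ((dg R z) ^ 3 - (dg R z) ^ 2) := by
    rw [Finset.sum_sub_distrib]; linarith
  have k7 : (c ^ 3 * s ^ 5 / 2) ^ 2 ≤ (∑ z, ((dg R z) ^ 3 - (dg R z) ^ 2)) ^ 2 :=
    pow_le_pow_left₀ (by positivity) k6 2
  have k8 : (s ^ 2) ^ 2 * (4 / c * s) ^ 5 ≤ c ^ 6 * s ^ 10 / 8 := by
    have e : (s ^ 2) ^ 2 * (4 / c * s) ^ 5 = 1024 * s ^ 9 / c ^ 5 := by
      field_simp
      norm_num
    rw [e, div_le_div_iff₀ (by positivity) (by norm_num)]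
    calc 1024 * s ^ 9 * 8 = s ^ 9 * 8192 := by ring
      _ ≤ s ^ 9 * (s * c ^ 11) := mul_le_mul_of_nonneg_left hs1 (by positivity)
      _ = c ^ 6 * s ^ 10 * c ^ 5 := by ring
  have k9 : s ^ 2 * (c ^ 6 / 8 * (s ^ 2) ^ 4) ≤ s ^ 2 * N := by
    have e1 : s ^ 2 * (c ^ 6 / 8 * (s ^ 2) ^ 4) = (c ^ 3 * s ^ 5 / 2) ^ 2 - c ^ 6 * s ^ 10 / 8 := by
      ring
    rw [e1]
    linarith
  exact le_of_mul_le_mul_left k9 (by positivity)

end Run7.h970
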