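import Pool.Agent.Run7.h970.Embed

set_option autoImplicit false

/-!
# Dense relations without 4-cycles contain the two-grid graph
-/

namespace Run7.h970

open Finset

/-- Splitting a placement of the base vertices into its four rows. -/
def rows (M : ℕ) (V : Type) : (Bool × Bool × Fin M → V) ≃
    (Fin M → V) × (Fin M → V) × (Fin M → V) × (Fin M → V) where
  toFun ω := (fun i => ω (false, false, i), fun i => ω (false, true, i),
    fun i => ω (true, false, i), fun i => ω (true, true, i))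
  invFun t := fun u => match u with
    | (false, false, i) => t.1 i
    | (false, true, i) => t.2.1 i
    | (true, false, i) => t.2.2.1 i
    | (true, true, i) => t.2.2.2 i
  left_inv := by
    intro ω
    funext u
    obtain ⟨s, t, i⟩ := u
    cases s <;> cases t <;> rfl
  right_inv := by
    intro t
    rfl

theorem allgood_count {V : Type} [Fintype V] [DecidableEq V] (M : ℕ) (R : V → V → Prop)
    [∀ a b a' b', Decidable (Good R a b a' b')]
    [DecidablePred (fun ω : Bool × Bool × Fin M → V => AllGood R ω)] :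
    (((Finset.univ.filter (fun ω : Bool × Bool × Fin M → V => AllGood R ω)).card : ℕ) : ℝ)
      = ∑ x : Fin M → V, ∑ y : Fin M → V, ∑ x' : Fin M → V, ∑ y' : Fin M → V,
        (if (∀ i j i' j', Good R (x i) (y j) (x' i') (y' j')) then (1 : ℝ) else 0) := by
  classical
  rw [← sum_ind]
  have h := Fintype.sum_equiv (rows M V) (fun ω => ind (AllGood R ω))
    (fun t => if (∀ i j i' j', Good R (t.1 i) (t.2.1 j) (t.2.2.1 i') (t.2.2.2 j'))
      then (1 : ℝ) else 0) (fun ω => by
        unfold ind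
        by_cases hω : AllGood R ω
        · rw [if_pos hω, if_pos]
          exact hω
        · rw [if_neg hω, if_neg]
          exact hω)
  rw [h, Fintype.sum_prod_type]
  refine Finset.sum_congr rfl (fun x _ => ?_)
  rw [Fintype.sum_prod_type]
  refine Finset.sum_congr rfl (fun y _ => ?_)
  rw [Fintype.sum_prod_type]

/-- Dense relations without 4-cycles contain the two-grid graph. -/
theorem dense_embed (M : ℕ) (hM : 0 < M) : ∃ (B : ℝ) (m : ℕ), 0 < B ∧ ∀ (V : Type) [Fintype V]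
    [DecidableEq V] (R : V → V → Prop) [DecidableRel R], (∀ a b, R a b → R b a) →
    (∀ a, ¬ R a a) → NoC4 R → ∀ s c : ℝ, (Fintype.card V : ℝ) = s ^ 2 → 0 < s → 0 < c → c ≤ 1 →
    2 * c * s ^ 3 ≤ ∑ v, dg R v → B ≤ s * c ^ m →
    ∃ f : V2 M → V, Function.Injective f ∧ ∀ v w, par2 v w → R (f v) (f w) := by
  classical
  refine ⟨(4 * M) ^ 6 * 4 ^ 10 * 8 ^ (M ^ 4) + 1, 9 + 6 * M ^ 4, by positivity, ?_⟩
  intro V _ _ R _ hsym hirr hC s c hn hs hc hc1 hE hB
  have hMR : (1 : ℝ) ≤ M := by exact_mod_cast hM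
  set D : ℝ := 4 / c * s with hD
  have hDpos : 0 < D := by positivity
  let R0 : V → V → Prop := cut R D
  have hs0 : ∀ a b, R0 a b → R0 b a := fun a b h => ⟨hsym _ _ h.1, h.2.2, h.2.1⟩
  have hirr0 : ∀ a, ¬ R0 a a := fun a h => hirr a h.1
  have hC0 : NoC4 R0 := fun a b c d hab h1 h2 h3 h4 => hC a b c d hab h1.1 h2.1 h3.1 h4.1
  have hdeg : ∀ v, dg R0 v ≤ D := fun v => dg_cut_le R D hDpos.le v
  have hE0 : c * s ^ 3 ≤ ∑ v, dg R0 v := by
    have h := sum_dg_cut R hsym hC D hDpos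
    have e : 4 * (Fintype.card V : ℝ) ^ 2 / D = c * s ^ 3 := by
      rw [hn, hD]
      field_simp
    rw [e] at h
    linarith
  -- the size condition
  have hcpow : c ^ (9 + 6 * M ^ 4) ≤ c ^ 11 := by
    refine pow_le_pow_of_le_one hc.le hc1 ?_
    have : 1 ≤ M ^ 4 := Nat.one_le_pow _ _ hM
    omega
  have hbig : (8192 : ℝ) ≤ (4 * M) ^ 6 * 4 ^ 10 * 8 ^ (M ^ 4) := by
    have h1 : (1 : ℝ) ≤ (M : ℝ) ^ 6 := one_le_pow₀ hMR
    have h2 : (1 : ℝ) ≤ (8 : ℝ) ^ (M ^ 4) := one_le_pow₀ (by norm_num)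
    have h3 : ((4 : ℝ) * M) ^ 6 = 4096 * (M : ℝ) ^ 6 := by ring
    rw [h3]
    have h4 : (4096 : ℝ) ≤ 4096 * (M : ℝ) ^ 6 := by linarith
    nlinarith
  have hs11 : 8192 ≤ s * c ^ 11 := by
    have := mul_le_mul_of_nonneg_left hcpow hs.le
    linarith
  have hgood := good_lower R0 hs0 hC0 s c hn hc hc1 hs11 hdeg hE0
  have hκ : (0 : ℝ) ≤ c ^ 6 / 8 := by positivity
  have hj := jensen_four M hM (Good R0) (c ^ 6 / 8) hκ (by
    refine hgood.trans (le_of_eq ?_)
    rfl)
  rw [← allgood_count M R0] at hj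
  -- find a clean one
  by_contra hno
  have hVpos : (0 : ℝ) < Fintype.card V := by rw [hn]; positivity
  have hne : Nonempty V := by
    rw [← Fintype.card_pos_iff]
    exact_mod_cast hVpos
  have hun := unclean_bound (I := Bool × Bool × Fin M) R0 D hdeg hDpos.le
    (Finset.univ.filter (fun ω : Bool × Bool × Fin M → V => AllGood R0 ω)) (by
      intro ω hω hcl
      have hg := (Finset.mem_filter.mp hω).2
      obtain ⟨f, hf, hfR⟩ := embed hM R0 hs0 hirr0 hC0 ω hg hcl
      exact hno ⟨f, hf, fun v w h => (hfR v w h).1⟩)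
  have hcardI : Fintype.card (Bool × Bool × Fin M) = 4 * M := by
    simp [Fintype.card_prod]
    ring
  rw [hcardI] at hun
  have hpow : (0 : ℝ) < (Fintype.card V : ℝ) ^ (4 * M) := by positivity
  have hmain := le_of_mul_le_mul_right (hj.trans hun) hpow
  rw [hn] at hmain
  push_cast at hmain
  -- numerical contradiction
  have hD1 : 1 ≤ D := by
    have h1 : 4 ≤ 4 / c := by
      rw [le_div_iff₀ hc]; nlinarith
    have h2 : 1 ≤ s := by
      have h3 : s * c ^ 11 ≤ s * 1 := mul_le_mul_of_nonneg_left (pow_le_one₀ hc.le hc1) hs.le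
      linarith
    rw [hD]
    nlinarith
  have hM1 : (1 : ℝ) ≤ 4 * M := by linarith
  set T : ℝ := 4 ^ 9 / (c ^ 9 * s) with hT
  have hTpos : 0 < T := by positivity
  have t2 : (4 * (M : ℝ)) ^ 2 * ((1 + D) / s ^ 2) ≤ (4 * M) ^ 6 * T := by
    refine mul_le_mul (pow_le_pow_right₀ hM1 (by norm_num)) ?_ (by positivity) (by positivity)
    calc (1 + D) / s ^ 2 ≤ (2 * D) / s ^ 2 := by
          refine div_le_div_of_nonneg_right ?_ (by positivity); linarith
      _ = 8 / (c * s) := by rw [hD]; field_simp; norm_num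
      _ ≤ T := by
          rw [hT, div_le_div_iff₀ (by positivity) (by positivity)]
          have : c ^ 9 ≤ c := by
            calc c ^ 9 ≤ c ^ 1 := pow_le_pow_of_le_one hc.le hc1 (by norm_num)
              _ = c := pow_one c
          have h1 : c ^ 9 * s ≤ c * s := mul_le_mul_of_nonneg_right this hs.le
          have h2 : 0 ≤ c * s := by positivity
          norm_num
          linarith
  have t3 : (4 * (M : ℝ)) ^ 3 * (D ^ 3 / (s ^ 2) ^ 2) ≤ (4 * M) ^ 6 * T := by
    refine mul_le_mul (pow_le_pow_right₀ hM1 (by norm_num)) ?_ (by positivity) (by positivity)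
    calc D ^ 3 / (s ^ 2) ^ 2 = 64 / (c ^ 3 * s) := by rw [hD]; field_simp; norm_num
      _ ≤ T := by
          rw [hT, div_le_div_iff₀ (by positivity) (by positivity)]
          have : c ^ 9 ≤ c ^ 3 := pow_le_pow_of_le_one hc.le hc1 (by norm_num)
          have h1 : c ^ 9 * s ≤ c ^ 3 * s := mul_le_mul_of_nonneg_right this hs.le
          have h2 : 0 ≤ c ^ 3 * s := by positivity
          norm_num
          linarith
  have t4 : (4 * (M : ℝ)) ^ 4 * (D ^ 5 / (s ^ 2) ^ 3) ≤ (4 * M) ^ 6 * T := by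
    refine mul_le_mul (pow_le_pow_right₀ hM1 (by norm_num)) ?_ (by positivity) (by positivity)
    calc D ^ 5 / (s ^ 2) ^ 3 = 1024 / (c ^ 5 * s) := by rw [hD]; field_simp; norm_num
      _ ≤ T := by
          rw [hT, div_le_div_iff₀ (by positivity) (by positivity)]
          have : c ^ 9 ≤ c ^ 5 := pow_le_pow_of_le_one hc.le hc1 (by norm_num)
          have h1 : c ^ 9 * s ≤ c ^ 5 * s := mul_le_mul_of_nonneg_right this hs.le
          have h2 : 0 ≤ c ^ 5 * s := by positivity
          norm_num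
          linarith
  have t6 : (4 * (M : ℝ)) ^ 6 * (D ^ 9 / (s ^ 2) ^ 5) ≤ (4 * M) ^ 6 * T := by
    refine mul_le_mul le_rfl ?_ (by positivity) (by positivity)
    refine le_of_eq ?_
    rw [hT, hD]
    field_simp
  have hsum : (c ^ 6 / 8) ^ (M ^ 4) ≤ 4 * ((4 * (M : ℝ)) ^ 6 * T) := by linarith
  have hfin : (4 * (M : ℝ)) ^ 6 * 4 ^ 10 * 8 ^ (M ^ 4) ≥ s * c ^ (9 + 6 * M ^ 4) := by
    have e1 : (c ^ 6 / 8) ^ (M ^ 4) = c ^ (6 * M ^ 4) / 8 ^ (M ^ 4) := by
      rw [div_pow, ← pow_mul]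
    have e2 : 4 * ((4 * (M : ℝ)) ^ 6 * T) = (4 * (M : ℝ)) ^ 6 * 4 ^ 10 / (c ^ 9 * s) := by
      rw [hT]; ring
    rw [e1, e2, div_le_div_iff₀ (by positivity) (by positivity)] at hsum
    calc s * c ^ (9 + 6 * M ^ 4) = c ^ (6 * M ^ 4) * (c ^ 9 * s) := by
          rw [pow_add]; ring
      _ ≤ _ := hsum
  linarith

end Run7.h970
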