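import Pool.Agent.Run7.h970.Clean

set_option autoImplicit false

/-!
# The two-grid graph and its embedding
-/

namespace Run7.h970

open Finset

/-- Vertices of the two-grid graph. The base vertex `b (s, false, i)` is the `i`-th vertex of the
first side of grid `s`, and `b (s, true, j)` the `j`-th vertex of the second side. -/
inductive V2 (M : ℕ) : Type
  | b (u : Bool × Bool × Fin M) : V2 M
  | z (s : Bool) (p : Fin M × Fin M) : V2 M
  | r (q : (Fin M × Fin M) × (Fin M × Fin M)) : V2 M

/-- One of the two components of a pair. -/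
def cmp {M : ℕ} (q : (Fin M × Fin M) × (Fin M × Fin M)) (s : Bool) : Fin M × Fin M :=
  if s then q.2 else q.1

/-- `par2 v w`: `w` is one of the two parents of `v`. -/
def par2 {M : ℕ} : V2 M → V2 M → Prop
  | V2.z s p, V2.b u => u = (s, false, p.1) ∨ u = (s, true, p.2)
  | V2.r q, V2.z s p => p = cmp q s
  | _, _ => False

theorem inj2 {I : Type} {a b : I} (h : a ≠ b) : Function.Injective (![a, b] : Fin 2 → I) := by
  intro i j hij
  fin_cases i <;> fin_cases j <;> simp_all

theorem inj3 {I : Type} {a b c : I} (h1 : a ≠ b) (h2 : a ≠ c) (h3 : b ≠ c) :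
    Function.Injective (![a, b, c] : Fin 3 → I) := by
  intro i j hij
  fin_cases i <;> fin_cases j <;> simp_all

/-- Six pairwise distinct indices of two grids. -/
theorem inj6 {M : ℕ} (s t : Bool) (hst : s ≠ t) (p p' p2 : Fin M × Fin M)
    (h1 : p.1 ≠ p'.1) (h2 : p.2 ≠ p'.2) :
    Function.Injective (![(s, false, p.1), (s, true, p.2), (s, false, p'.1), (s, true, p'.2),
      (t, false, p2.1), (t, true, p2.2)] : Fin 6 → Bool × Bool × Fin M) := by
  intro i j hij
  fin_cases i <;> fin_cases j <;> simp_all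

theorem inj4 {M : ℕ} (s t : Bool) (hst : s ≠ t) (p p2 : Fin M × Fin M) :
    Function.Injective (![(s, false, p.1), (s, true, p.2),
      (t, false, p2.1), (t, true, p2.2)] : Fin 4 → Bool × Bool × Fin M) := by
  intro i j hij
  fin_cases i <;> fin_cases j <;> simp_all

/-- Every quadruple of base vertices, one from each side of each grid, is good. -/
def AllGood {V : Type} {M : ℕ} (R : V → V → Prop) (ω : Bool × Bool × Fin M → V) : Prop :=
  ∀ i j i' j', Good R (ω (false, false, i)) (ω (false, true, j)) (ω (true, false, i'))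
    (ω (true, true, j'))

/-- A clean good placement extends to an embedding. -/
theorem embed {V : Type} {M : ℕ} (hM : 0 < M) (R : V → V → Prop)
    (hs : ∀ a b, R a b → R b a) (hirr : ∀ a, ¬ R a a) (hC : NoC4 R)
    (ω : Bool × Bool × Fin M → V) (hg : AllGood R ω) (hcl : CleanAt R ω) :
    ∃ f : V2 M → V, Function.Injective f ∧ ∀ v w, par2 v w → R (f v) (f w) := by
  classical
  -- distinctness facts
  have f1 : ∀ u u', u ≠ u' → ω u ≠ ω u' ∧ ¬ R (ω u) (ω u') := by
    intro u u' h
    have := hcl.n2 ![u, u'] (inj2 h)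
    unfold B2 at this
    push Not at this
    exact ⟨this.1, this.2⟩
  have f3 : ∀ w u1 u2 u3, u1 ≠ u2 → u1 ≠ u3 → u2 ≠ u3 → R w (ω u1) → R w (ω u2) →
      R w (ω u3) → False := by
    intro w u1 u2 u3 h12 h13 h23 r1 r2 r3
    exact hcl.n3 ![u1, u2, u3] (inj3 h12 h13 h23) ⟨w, r1, r2, r3⟩
  have f4 : ∀ w w' (s t : Bool) (p p2 : Fin M × Fin M), s ≠ t → R w w' →
      R w (ω (s, false, p.1)) → R w (ω (s, true, p.2)) → R w' (ω (t, false, p2.1)) →
      R w' (ω (t, true, p2.2)) → False := by
    intro w w' s t p p2 hst h0 h1 h2 h3 h4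
    exact hcl.n4 _ (inj4 s t hst p p2) ⟨w, w', h0, h1, h2, h3, h4⟩
  have f6 : ∀ w z1 z2 z3 (s t : Bool) (p p' p2 : Fin M × Fin M), s ≠ t → p.1 ≠ p'.1 →
      p.2 ≠ p'.2 → R w z1 → R w z2 → R w z3 →
      R z1 (ω (s, false, p.1)) → R z1 (ω (s, true, p.2)) →
      R z2 (ω (s, false, p'.1)) → R z2 (ω (s, true, p'.2)) →
      R z3 (ω (t, false, p2.1)) → R z3 (ω (t, true, p2.2)) → False := by
    intro w z1 z2 z3 s t p p' p2 hst hp1 hp2 w1 w2 w3 h1 h2 h3 h4 h5 h6
    exact hcl.n6 _ (inj6 s t hst p p' p2 hp1 hp2) ⟨w, z1, z2, z3, ⟨w1, w2, w3⟩, h1, h2, h3, h4,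
      h5, h6⟩
  -- the middle vertices
  have hz : ∀ (s : Bool) (p : Fin M × Fin M), ∃ z, R z (ω (s, false, p.1)) ∧
      R z (ω (s, true, p.2)) := by
    intro s p
    cases s with
    | false =>
      obtain ⟨-, -, z, z', r, -, -, -, h1, h2, -, -⟩ := hg p.1 p.2 ⟨0, hM⟩ ⟨0, hM⟩
      exact ⟨z, h1, h2⟩
    | true =>
      obtain ⟨-, -, z, z', r, -, -, -, -, -, h1, h2⟩ := hg ⟨0, hM⟩ ⟨0, hM⟩ p.1 p.2
      exact ⟨z', h1, h2⟩
  choose zf hzf1 hzf2 using hz
  have hne : ∀ s i j, ω (s, false, i) ≠ ω (s, true, j) := by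
    intro s i j
    exact (f1 _ _ (by simp)).1
  have hzu : ∀ s p z, R z (ω (s, false, p.1)) → R z (ω (s, true, p.2)) → z = zf s p := by
    intro s p z h1 h2
    exact hC _ _ z (zf s p) (hne s p.1 p.2) h1 h2 (hzf1 s p) (hzf2 s p)
  have hr : ∀ q : (Fin M × Fin M) × (Fin M × Fin M), ∃ r, ∀ s, R r (zf s (cmp q s)) := by
    intro q
    obtain ⟨-, -, z, z', r, -, hr1, hr2, h1, h2, h3, h4⟩ := hg q.1.1 q.1.2 q.2.1 q.2.2
    refine ⟨r, fun s => ?_⟩
    cases s with
    | false =>
      have : z = zf false q.1 := hzu false q.1 z h1 h2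
      simp only [cmp, Bool.false_eq_true, if_false]
      rw [← this]; exact hr1
    | true =>
      have : z' = zf true q.2 := hzu true q.2 z' h3 h4
      simp only [cmp, if_true]
      rw [← this]; exact hr2
  choose rf hrf using hr
  -- injectivity, case by case
  have izb : ∀ s p u, zf s p ≠ ω u := by
    intro s p u h
    have h1 := hzf1 s p
    rw [h] at h1
    by_cases hu : u = (s, false, p.1)
    · rw [hu] at h1; exact hirr _ h1
    · exact (f1 _ _ hu).2 h1
  have izz : ∀ s p s' p', zf s p = zf s' p' → s = s' ∧ p = p' := by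
    intro s p s' p' h
    have a1 := hzf1 s p
    have a2 := hzf2 s p
    have b1 := hzf1 s' p'
    have b2 := hzf2 s' p'
    rw [← h] at b1 b2
    by_cases hss : s = s'
    · subst hss
      refine ⟨rfl, ?_⟩
      by_contra hpp
      by_cases h1 : p.1 = p'.1
      · have h2 : p.2 ≠ p'.2 := fun h2 => hpp (Prod.ext h1 h2)
        exact f3 _ (s, false, p.1) (s, true, p.2) (s, true, p'.2) (by simp) (by simp)
          (by simpa using h2) a1 a2 b2
      · exact f3 _ (s, false, p.1) (s, true, p.2) (s, false, p'.1) (by simp)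
          (by simpa using h1) (by simp) a1 a2 b1
    · exfalso
      exact f3 _ (s, false, p.1) (s, true, p.2) (s', false, p'.1) (by simp)
          (by simp [hss]) (by simp [hss]) a1 a2 b1
  have irb : ∀ q u, rf q ≠ ω u := by
    intro q u h
    have h1 := hs _ _ (hrf q (!u.1))
    rw [h] at h1
    have hu : (!u.1) ≠ u.1 := by cases u.1 <;> simp
    refine f3 _ u (!u.1, false, (cmp q (!u.1)).1) (!u.1, true, (cmp q (!u.1)).2) ?_ ?_ ?_
      h1 (hzf1 _ _) (hzf2 _ _)
    · intro h2
      exact hu (congrArg Prod.fst h2).symm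
    · intro h2
      exact hu (congrArg Prod.fst h2).symm
    · simp
  have irz : ∀ q s p, rf q ≠ zf s p := by
    intro q s p h
    have h1 := hrf q (!s)
    rw [h] at h1
    exact f4 _ _ s (!s) p (cmp q (!s)) (by cases s <;> simp) h1 (hzf1 _ _) (hzf2 _ _)
      (hzf1 _ _) (hzf2 _ _)
  have irr : ∀ q q', rf q = rf q' → q = q' := by
    intro q q' h
    have key : ∀ s, cmp q s = cmp q' s := by
      intro s
      by_contra hpp
      have w1 := hrf q s
      have w2 := hrf q' s
      have w3 := hrf q (!s)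
      rw [← h] at w2
      have hzne : zf s (cmp q s) ≠ zf s (cmp q' s) := fun h' => hpp (izz _ _ _ _ h').2
      by_cases h1 : (cmp q s).1 = (cmp q' s).1
      · have e1 := hzf1 s (cmp q s)
        have e2 := hzf1 s (cmp q' s)
        rw [← h1] at e2
        exact irb q _ (hC _ _ _ _ hzne w1 w2 (hs _ _ e1) (hs _ _ e2))
      · by_cases h2 : (cmp q s).2 = (cmp q' s).2
        · have e1 := hzf2 s (cmp q s)
          have e2 := hzf2 s (cmp q' s)
          rw [← h2] at e2
          exact irb q _ (hC _ _ _ _ hzne w1 w2 (hs _ _ e1) (hs _ _ e2))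
        · exact f6 _ _ _ _ s (!s) (cmp q s) (cmp q' s) (cmp q (!s)) (by cases s <;> simp) h1 h2
            w1 w2 w3 (hzf1 _ _) (hzf2 _ _) (hzf1 _ _) (hzf2 _ _) (hzf1 _ _) (hzf2 _ _)
    have k1 := key false
    have k2 := key true
    simp only [cmp, Bool.false_eq_true, if_false] at k1
    simp only [cmp, if_true] at k2
    exact Prod.ext k1 k2
  let f : V2 M → V := fun v => match v with
    | V2.b u => ω u
    | V2.z s p => zf s p
    | V2.r q => rf q
  refine ⟨f, ?_, ?_⟩
  · intro v w h
    cases v with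
    | b u =>
      cases w with
      | b u' =>
        by_contra hne'
        exact (f1 u u' (fun h' => hne' (by rw [h']))).1 h
      | z s p => exact absurd h.symm (izb s p u)
      | r q => exact absurd h.symm (irb q u)
    | z s p =>
      cases w with
      | b u => exact absurd h (izb s p u)
      | z s' p' =>
        obtain ⟨h1, h2⟩ := izz s p s' p' h
        rw [h1, h2]
      | r q => exact absurd h.symm (irz q s p)
    | r q =>
      cases w with
      | b u => exact absurd h (irb q u)
      | z s p => exact absurd h (irz q s p)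
      | r q' => rw [irr q q' h]
  · intro v w h
    cases v with
    | b u => exact h.elim
    | z s p =>
      cases w with
      | b u =>
        rcases h with h | h
        · rw [h]; exact hzf1 s p
        · rw [h]; exact hzf2 s p
      | z s' p' => exact h.elim
      | r q => exact h.elim
    | r q =>
      cases w with
      | b u => exact h.elim
      | z s p =>
        have h' : p = cmp q s := h
        rw [h']; exact hrf q s
      | r q' => exact h.elim

end Run7.h970
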