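import Pool.Agent.Run7.h970.Exist

set_option autoImplicit false

/-!
# Characters of the cube and supersaturation of the threshold graph
-/

namespace Run7.h970

open Finset

/-- Elementary symmetric sums. -/
def es {ι : Type} (v : ι → ℝ) (j : ℕ) (S : Finset ι) : ℝ :=
  ∑ B ∈ S.powersetCard j, ∏ i ∈ B, v i

theorem es_zero {ι : Type} (v : ι → ℝ) (S : Finset ι) : es v 0 S = 1 := by
  simp [es]

theorem es_empty {ι : Type} (v : ι → ℝ) (j : ℕ) : es v (j + 1) (∅ : Finset ι) = 0 := by
  unfold es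
  rw [Finset.powersetCard_eq_empty.mpr (by simp), Finset.sum_empty]

theorem es_insert {ι : Type} [DecidableEq ι] (v : ι → ℝ) (j : ℕ) (S : Finset ι) (a : ι)
    (h : a ∉ S) : es v (j + 1) (insert a S) = es v (j + 1) S + v a * es v j S := by
  unfold es
  rw [Finset.powersetCard_succ_insert h, Finset.sum_union, Finset.sum_image, Finset.mul_sum]
  · congr 1
    refine Finset.sum_congr rfl (fun B hB => ?_)
    have hB' := (Finset.mem_powersetCard.mp hB).1
    rw [Finset.prod_insert (fun ha => h (hB' ha))]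
  · intro B hB C hC hBC
    have hB' := (Finset.mem_powersetCard.mp hB).1
    have hC' := (Finset.mem_powersetCard.mp hC).1
    have e1 : (insert a B).erase a = B := Finset.erase_insert (fun ha => h (hB' ha))
    have e2 : (insert a C).erase a = C := Finset.erase_insert (fun ha => h (hC' ha))
    rw [← e1, ← e2]
    exact congrArg (fun X => Finset.erase X a) hBC
  · rw [Finset.disjoint_left]
    intro B hB hB2
    obtain ⟨C, _, rfl⟩ := Finset.mem_image.mp hB2
    exact h ((Finset.mem_powersetCard.mp hB).1 (Finset.mem_insert_self _ _))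

theorem es_one {ι : Type} [DecidableEq ι] (v : ι → ℝ) (S : Finset ι) :
    es v 1 S = ∑ i ∈ S, v i := by
  induction S using Finset.induction_on with
  | empty => simpa using es_empty v 0
  | insert a S h ih =>
    rw [es_insert v 0 S a h, ih, es_zero, Finset.sum_insert h]
    ring

/-- The three-term recurrence. -/
theorem es_rec {ι : Type} [DecidableEq ι] (v : ι → ℝ) (hv : ∀ i, v i * v i = 1) (S : Finset ι) :
    ∀ j : ℕ, (∑ i ∈ S, v i) * es v (j + 1) S
      = ((j : ℝ) + 2) * es v (j + 2) S + ((S.card : ℝ) - j) * es v j S := by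
  induction S using Finset.induction_on with
  | empty =>
    intro j
    rw [es_empty, es_empty]
    cases j with
    | zero => simp
    | succ j => rw [es_empty]; ring
  | insert a S h ih =>
    intro j
    rw [Finset.sum_insert h, es_insert v j S a h, es_insert v (j + 1) S a h,
      Finset.card_insert_of_notMem h]
    have hva := hv a
    cases j with
    | zero =>
      have h0 := ih 0
      have h1 := es_one v S
      have h2 := es_zero v S
      simp only [Nat.cast_zero, zero_add, sub_zero, es_zero] at h0 ⊢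
      rw [h1] at h0 ⊢
      push_cast
      linear_combination h0 + hva
    | succ j =>
      have h0 := ih (j + 1)
      have h1 := ih j
      rw [es_insert v j S a h]
      push_cast at h0 h1 ⊢
      have e1 : j + 1 + 2 = j + 2 + 1 := by ring
      have e2 : j + 1 + 1 = j + 2 := by ring
      simp only [e1, e2] at h0 h1 ⊢
      linear_combination h0 + (v a) * h1 + (es v (j + 1) S) * hva

/-- Positivity of the elementary symmetric sums of a sign vector with a large sum. -/
theorem es_pos {ι : Type} [DecidableEq ι] (v : ι → ℝ) (hv : ∀ i, v i * v i = 1) (S : Finset ι)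
    (hT : 0 < ∑ i ∈ S, v i) :
    ∀ j : ℕ, 4 * (j : ℝ) * S.card ≤ (∑ i ∈ S, v i) ^ 2 →
      0 < es v j S ∧ (∑ i ∈ S, v i) * es v j S ≤ 2 * ((j : ℝ) + 1) * es v (j + 1) S := by
  intro j
  set T := ∑ i ∈ S, v i with hTdef
  induction j with
  | zero =>
    intro _
    rw [es_zero, zero_add, es_one]
    refine ⟨one_pos, ?_⟩
    push_cast
    rw [← hTdef]
    linarith
  | succ j ih =>
    intro hj
    have hs : (0 : ℝ) ≤ S.card := Nat.cast_nonneg _
    push_cast at hj
    obtain ⟨h1, h2⟩ := ih (by nlinarith)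
    have hj0 : (0 : ℝ) ≤ j := Nat.cast_nonneg _
    have h3 : 0 < es v (j + 1) S := by
      have h4 : 0 < T * es v j S := mul_pos hT h1
      have h5 : 0 < 2 * ((j : ℝ) + 1) * es v (j + 1) S := lt_of_lt_of_le h4 h2
      exact (pos_iff_pos_of_mul_pos h5).mp (by positivity)
    refine ⟨h3, ?_⟩
    have hrec := es_rec v hv S j
    rw [← hTdef] at hrec
    push_cast
    have e2 : j + 1 + 1 = j + 2 := by ring
    rw [e2]
    refine le_of_mul_le_mul_left ?_ hT
    have k1 : T * (((S.card : ℝ) - j) * es v j S) ≤ (S.card : ℝ) * (T * es v j S) := by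
      have : 0 ≤ (j : ℝ) * (T * es v j S) := by positivity
      nlinarith
    have k2 : (S.card : ℝ) * (T * es v j S)
        ≤ (S.card : ℝ) * (2 * ((j : ℝ) + 1) * es v (j + 1) S) :=
      mul_le_mul_of_nonneg_left h2 hs
    have k3 : (S.card : ℝ) * (2 * ((j : ℝ) + 1) * es v (j + 1) S)
        ≤ T ^ 2 / 2 * es v (j + 1) S := by
      have : (S.card : ℝ) * (2 * ((j : ℝ) + 1) * es v (j + 1) S)
          = (4 * ((j : ℝ) + 1) * S.card) / 2 * es v (j + 1) S := by ring
      rw [this]
      refine mul_le_mul_of_nonneg_right ?_ h3.le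
      linarith
    have k4 : T * (T * es v (j + 1) S)
        = T * (((j : ℝ) + 2) * es v (j + 2) S) + T * (((S.card : ℝ) - j) * es v j S) := by
      rw [hrec]; ring
    have k5 : T * (2 * ((j : ℝ) + 1 + 1) * es v (j + 2) S)
        = 2 * (T * (((j : ℝ) + 2) * es v (j + 2) S)) := by ring
    rw [k5]
    nlinarith

/-- Characters. -/
def chi {d : ℕ} (A : Finset (Fin d)) (z : Fin d → Bool) : ℝ := ∏ i ∈ A, sg (z i)

/-- Coordinatewise product. -/
def xn {d : ℕ} (x y : Fin d → Bool) : Fin d → Bool := fun i => x i == y i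

theorem sg_beq (a b : Bool) : sg (a == b) = sg a * sg b := by
  cases a <;> cases b <;> simp [sg]

theorem chi_xn {d : ℕ} (A : Finset (Fin d)) (x y : Fin d → Bool) :
    chi A (xn x y) = chi A x * chi A y := by
  unfold chi xn
  simp only [sg_beq, Finset.prod_mul_distrib]

theorem ip_eq {d : ℕ} (x y : Fin d → Bool) : ip x y = ∑ i, sg (xn x y i) := by
  unfold ip xn
  simp only [sg_beq]

theorem sum_chi {d : ℕ} (v : Fin d → Bool) :
    ∑ A : Finset (Fin d), chi A v = if (∀ i, v i = true) then (2 : ℝ) ^ d else 0 := by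
  have h := Finset.prod_one_add (f := fun i => sg (v i)) (Finset.univ : Finset (Fin d))
  rw [Finset.powerset_univ] at h
  unfold chi
  rw [← h]
  split_ifs with hv
  · have : ∀ i ∈ (Finset.univ : Finset (Fin d)), 1 + sg (v i) = 2 := by
      intro i _
      rw [hv i]; norm_num [sg]
    rw [Finset.prod_congr rfl this]
    simp
  · push Not at hv
    obtain ⟨i, hi⟩ := hv
    refine Finset.prod_eq_zero (Finset.mem_univ i) ?_
    have : v i = false := by simpa using hi
    rw [this]; norm_num [sg]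

theorem sum_chi_xn {d : ℕ} (x y : Fin d → Bool) :
    ∑ A : Finset (Fin d), chi A (xn x y) = if x = y then (2 : ℝ) ^ d else 0 := by
  rw [sum_chi]
  have : (∀ i, xn x y i = true) ↔ x = y := by
    unfold xn
    simp only [beq_iff_eq]
    exact ⟨fun h => funext h, fun h i => by rw [h]⟩
  simp only [this]

/-- Unnormalised coefficient. -/
def Gc {d : ℕ} (g : (Fin d → Bool) → ℝ) (A : Finset (Fin d)) : ℝ := ∑ z, g z * chi A z

theorem parseval {d : ℕ} (g : (Fin d → Bool) → ℝ) :
    ∑ A, (Gc g A) ^ 2 = 2 ^ d * ∑ z, (g z) ^ 2 := by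
  have h1 : ∀ A : Finset (Fin d), (Gc g A) ^ 2 = ∑ z, ∑ u, g z * g u * chi A (xn z u) := by
    intro A
    unfold Gc
    rw [sq, Finset.sum_mul_sum]
    refine Finset.sum_congr rfl (fun z _ => Finset.sum_congr rfl (fun u _ => ?_))
    rw [chi_xn]; ring
  simp_rw [h1]
  rw [Finset.sum_comm, Finset.mul_sum]
  refine Finset.sum_congr rfl (fun z _ => ?_)
  rw [Finset.sum_comm]
  simp_rw [← Finset.mul_sum, sum_chi_xn]
  simp only [mul_ite, mul_zero, Finset.sum_ite_eq, Finset.mem_univ, if_true]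
  ring

theorem inversion {d : ℕ} (g : (Fin d → Bool) → ℝ) (v : Fin d → Bool) :
    ∑ A, Gc g A * chi A v = 2 ^ d * g v := by
  have h1 : ∀ A : Finset (Fin d), Gc g A * chi A v = ∑ z, g z * chi A (xn z v) := by
    intro A
    unfold Gc
    rw [Finset.sum_mul]
    refine Finset.sum_congr rfl (fun z _ => ?_)
    rw [chi_xn]; ring
  simp_rw [h1]
  rw [Finset.sum_comm]
  simp_rw [← Finset.mul_sum, sum_chi_xn]
  simp only [mul_ite, mul_zero, Finset.sum_ite_eq', Finset.mem_univ, if_true]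
  ring

theorem sum_sq_chi {d : ℕ} (S : Finset (Fin d → Bool)) :
    ∑ A : Finset (Fin d), (∑ x ∈ S, chi A x) ^ 2 = 2 ^ d * S.card := by
  classical
  have h1 : ∀ A : Finset (Fin d), (∑ x ∈ S, chi A x) ^ 2
      = ∑ x ∈ S, ∑ y ∈ S, chi A (xn x y) := by
    intro A
    rw [sq, Finset.sum_mul_sum]
    refine Finset.sum_congr rfl (fun x _ => Finset.sum_congr rfl (fun y _ => ?_))
    rw [chi_xn]
  simp_rw [h1]
  rw [Finset.sum_comm]
  have h2 : ∀ x ∈ S, ∑ A : Finset (Fin d), ∑ y ∈ S, chi A (xn x y) = (2 : ℝ) ^ d := by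
    intro x hx
    rw [Finset.sum_comm]
    simp_rw [sum_chi_xn]
    rw [Finset.sum_ite_eq]
    simp [hx]
  rw [Finset.sum_congr rfl h2, Finset.sum_const, nsmul_eq_mul]
  ring

theorem pair_sum {d : ℕ} (g : (Fin d → Bool) → ℝ) (S : Finset (Fin d → Bool)) :
    (2 : ℝ) ^ d * ∑ x ∈ S, ∑ y ∈ S, g (xn x y) = ∑ A, Gc g A * (∑ x ∈ S, chi A x) ^ 2 := by
  have h1 : ∀ A : Finset (Fin d), Gc g A * (∑ x ∈ S, chi A x) ^ 2
      = ∑ x ∈ S, ∑ y ∈ S, Gc g A * chi A (xn x y) := by
    intro A
    rw [sq, Finset.sum_mul_sum, Finset.mul_sum]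
    refine Finset.sum_congr rfl (fun x _ => ?_)
    rw [Finset.mul_sum]
    refine Finset.sum_congr rfl (fun y _ => ?_)
    rw [chi_xn]
  simp_rw [h1]
  have h2 : ∑ A : Finset (Fin d), ∑ x ∈ S, ∑ y ∈ S, Gc g A * chi A (xn x y)
      = ∑ x ∈ S, ∑ y ∈ S, ∑ A : Finset (Fin d), Gc g A * chi A (xn x y) := by
    rw [Finset.sum_comm]
    refine Finset.sum_congr rfl (fun x _ => ?_)
    rw [Finset.sum_comm]
  rw [h2, Finset.mul_sum]
  refine Finset.sum_congr rfl (fun x _ => ?_)
  rw [Finset.mul_sum]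
  refine Finset.sum_congr rfl (fun y _ => ?_)
  rw [inversion]

theorem Gc_perm {d : ℕ} (g : (Fin d → Bool) → ℝ)
    (hsym : ∀ (σ : Equiv.Perm (Fin d)) (z : Fin d → Bool), g (z ∘ σ) = g z)
    (A B : Finset (Fin d)) (h : A.card = B.card) : Gc g A = Gc g B := by
  classical
  let e : {x // x ∈ A} ≃ {x // x ∈ B} := Finset.equivOfCardEq h
  let σ : Equiv.Perm (Fin d) := e.extendSubtype
  have hσ : A.map σ.toEmbedding = B := by
    refine Finset.eq_of_subset_of_card_le ?_ ?_
    · intro y hy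
      obtain ⟨x, hx, rfl⟩ := Finset.mem_map.mp hy
      exact Equiv.extendSubtype_mem e x hx
    · rw [Finset.card_map, h]
  unfold Gc
  have h1 : ∑ z, g z * chi A z
      = ∑ z : Fin d → Bool, g (z ∘ σ) * chi A (z ∘ σ) := by
    refine (Fintype.sum_equiv (Equiv.arrowCongr σ.symm (Equiv.refl Bool)) _ _ (fun z => ?_)).symm
    rfl
  rw [h1]
  refine Finset.sum_congr rfl (fun z _ => ?_)
  rw [hsym]
  congr 1
  unfold chi
  rw [← hσ, Finset.prod_map]
  rfl

theorem choose_mul_Gc {d : ℕ} (g : (Fin d → Bool) → ℝ)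
    (hsym : ∀ (σ : Equiv.Perm (Fin d)) (z : Fin d → Bool), g (z ∘ σ) = g z)
    (A : Finset (Fin d)) :
    (d.choose A.card : ℝ) * Gc g A = ∑ z, g z * es (fun i => sg (z i)) A.card Finset.univ := by
  have h1 : ∑ B ∈ (Finset.univ : Finset (Fin d)).powersetCard A.card, Gc g B
      = (d.choose A.card : ℝ) * Gc g A := by
    have h0 : ∀ B ∈ (Finset.univ : Finset (Fin d)).powersetCard A.card, Gc g B = Gc g A :=
      fun B hB => Gc_perm g hsym B A (Finset.mem_powersetCard.mp hB).2
    rw [Finset.sum_congr rfl h0,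
      Finset.sum_const, Finset.card_powersetCard, Finset.card_univ, Fintype.card_fin, nsmul_eq_mul]
  rw [← h1]
  unfold Gc
  rw [Finset.sum_comm]
  refine Finset.sum_congr rfl (fun z _ => ?_)
  rw [← Finset.mul_sum]
  rfl

theorem Gc_low {d : ℕ} (g : (Fin d → Bool) → ℝ)
    (hsym : ∀ (σ : Equiv.Perm (Fin d)) (z : Fin d → Bool), g (z ∘ σ) = g z)
    (hg0 : ∀ z, 0 ≤ g z) (a : ℝ) (ha : 0 < a) (hsup : ∀ z, g z ≠ 0 → a ≤ ∑ i, sg (z i))
    (A : Finset (Fin d)) (hA : 4 * (A.card : ℝ) * d ≤ a ^ 2) : 0 ≤ Gc g A := by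
  have h1 := choose_mul_Gc g hsym A
  have h2 : 0 ≤ ∑ z, g z * es (fun i => sg (z i)) A.card Finset.univ := by
    refine Finset.sum_nonneg (fun z _ => ?_)
    by_cases hz : g z = 0
    · rw [hz, zero_mul]
    · have hT := hsup z hz
      have h3 := (es_pos (fun i => sg (z i)) (fun i => sg_sq _) Finset.univ
        (lt_of_lt_of_le ha hT) A.card (by
          rw [Finset.card_univ, Fintype.card_fin]
          refine hA.trans ?_
          exact pow_le_pow_left₀ ha.le hT 2)).1
      exact mul_nonneg (hg0 z) h3.le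
  have h3 : 0 < (d.choose A.card : ℝ) := by
    have : A.card ≤ d := by simpa using Finset.card_le_univ A
    exact_mod_cast Nat.choose_pos this
  rw [← h1] at h2
  exact nonneg_of_mul_nonneg_right h2 h3

theorem Gc_compl {d : ℕ} (g : (Fin d → Bool) → ℝ)
    (hsup : ∀ z, g z ≠ 0 → chi Finset.univ z = 1) (A : Finset (Fin d)) :
    Gc g Aᶜ = Gc g A := by
  unfold Gc
  refine Finset.sum_congr rfl (fun z _ => ?_)
  by_cases hz : g z = 0
  · rw [hz, zero_mul, zero_mul]
  · have h1 := hsup z hz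
    have h2 : chi A z * chi Aᶜ z = 1 := by
      unfold chi at h1 ⊢
      rw [Finset.prod_mul_prod_compl]
      exact h1
    have h3 : chi A z * chi A z = 1 := by
      unfold chi
      rw [← Finset.prod_mul_distrib]
      exact Finset.prod_eq_one (fun i _ => sg_sq _)
    congr 1
    calc chi Aᶜ z = (chi A z * chi A z) * chi Aᶜ z := by rw [h3, one_mul]
      _ = chi A z * (chi A z * chi Aᶜ z) := by ring
      _ = chi A z := by rw [h2, mul_one]

theorem Gc_mid {d : ℕ} (g : (Fin d → Bool) → ℝ)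
    (hsym : ∀ (σ : Equiv.Perm (Fin d)) (z : Fin d → Bool), g (z ∘ σ) = g z)
    (A : Finset (Fin d)) :
    (d.choose A.card : ℝ) * (Gc g A) ^ 2 ≤ 2 ^ d * ∑ z, (g z) ^ 2 := by
  rw [← parseval]
  have h1 : ∑ B ∈ (Finset.univ : Finset (Fin d)).powersetCard A.card, (Gc g B) ^ 2
      = (d.choose A.card : ℝ) * (Gc g A) ^ 2 := by
    have h0 : ∀ B ∈ (Finset.univ : Finset (Fin d)).powersetCard A.card,
        (Gc g B) ^ 2 = (Gc g A) ^ 2 :=
      fun B hB => by rw [Gc_perm g hsym B A (Finset.mem_powersetCard.mp hB).2]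
    rw [Finset.sum_congr rfl h0,
      Finset.sum_const, Finset.card_powersetCard, Finset.card_univ, Fintype.card_fin, nsmul_eq_mul]
  rw [← h1]
  exact Finset.sum_le_sum_of_subset_of_nonneg (Finset.subset_univ _) (fun B _ _ => sq_nonneg _)

theorem choose_ge_low (d w j : ℕ) (hw : w ≤ j) (hj : j ≤ d / 2) : d.choose w ≤ d.choose j := by
  induction j with
  | zero =>
    have : w = 0 := by omega
    rw [this]
  | succ j ih =>
    rcases Nat.lt_or_ge j w with h | h
    · have : w = j + 1 := by omega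
      rw [this]
    · exact (ih h (by omega)).trans (Nat.choose_le_succ_of_lt_half_left (by omega))

theorem choose_ge (d w j : ℕ) (hw : w ≤ j) (hj : j ≤ d - w) (hwd : w ≤ d) :
    d.choose w ≤ d.choose j := by
  rcases Nat.lt_or_ge (d / 2) j with h | h
  · have h1 : j ≤ d := by omega
    rw [← Nat.choose_symm h1]
    exact choose_ge_low d w (d - j) (by omega) (by omega)
  · exact choose_ge_low d w j hw h

/-- The even part of the cap. -/
noncomputable def gcap {d : ℕ} (a : ℝ) (z : Fin d → Bool) : ℝ := by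
  classical
  exact if a ≤ ∑ i, sg (z i) ∧ chi Finset.univ z = 1 then 1 else 0

theorem gcap_sym {d : ℕ} (a : ℝ) (σ : Equiv.Perm (Fin d)) (z : Fin d → Bool) :
    gcap a (z ∘ σ) = gcap a z := by
  classical
  unfold gcap chi
  have h1 : ∑ i, sg ((z ∘ σ) i) = ∑ i, sg (z i) := Equiv.sum_comp σ (fun i => sg (z i))
  have h2 : ∏ i, sg ((z ∘ σ) i) = ∏ i, sg (z i) := Equiv.prod_comp σ (fun i => sg (z i))
  rw [h1, h2]

theorem gcap_nonneg {d : ℕ} (a : ℝ) (z : Fin d → Bool) : 0 ≤ gcap a z := by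
  classical
  unfold gcap
  split_ifs <;> norm_num

theorem gcap_sq {d : ℕ} (a : ℝ) (z : Fin d → Bool) : (gcap a z) ^ 2 = gcap a z := by
  classical
  unfold gcap
  split_ifs <;> norm_num

theorem gcap_sup {d : ℕ} (a : ℝ) (z : Fin d → Bool) (h : gcap a z ≠ 0) :
    a ≤ ∑ i, sg (z i) ∧ chi Finset.univ z = 1 := by
  classical
  unfold gcap at h
  by_contra hc
  rw [if_neg hc] at h
  exact h rfl

theorem supersat {d w : ℕ} (a : ℝ) (ha : 0 < a) (haw : 4 * (w : ℝ) * d ≤ a ^ 2) (hw : w ≤ d)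
    (S : Finset (Fin d → Bool)) :
    (∑ z : Fin d → Bool, gcap a z) * (S.card : ℝ) ^ 2
      - Real.sqrt (2 ^ d * (∑ z : Fin d → Bool, gcap a z) / (d.choose w : ℝ)) * (2 ^ d * S.card)
      ≤ 2 ^ d * ∑ x ∈ S, ∑ y ∈ S, gcap a (xn x y) := by
  classical
  set P : ℝ := ∑ z : Fin d → Bool, gcap a z with hP
  have hP0 : 0 ≤ P := Finset.sum_nonneg (fun z _ => gcap_nonneg a z)
  have hD : (0 : ℝ) < (d.choose w : ℝ) := by exact_mod_cast Nat.choose_pos hw
  set τ : ℝ := Real.sqrt (2 ^ d * P / (d.choose w : ℝ)) with hτ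
  have hτ0 : 0 ≤ τ := Real.sqrt_nonneg _
  rw [pair_sum, ← sum_sq_chi]
  -- lower bound for the coefficients
  have hcoef : ∀ A : Finset (Fin d), -τ ≤ Gc (gcap a) A := by
    intro A
    have hAd : A.card ≤ d := by simpa using Finset.card_le_univ A
    rcases Nat.lt_or_ge A.card w with h1 | h1
    · refine le_trans (neg_nonpos.mpr hτ0) (Gc_low _ (gcap_sym a) (gcap_nonneg a) a ha
        (fun z hz => (gcap_sup a z hz).1) A ?_)
      refine le_trans ?_ haw
      have : (A.card : ℝ) ≤ w := by exact_mod_cast h1.le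
      gcongr
    · rcases Nat.lt_or_ge (d - w) A.card with h2 | h2
      · rw [← Gc_compl _ (fun z hz => (gcap_sup a z hz).2)]
        refine le_trans (neg_nonpos.mpr hτ0) (Gc_low _ (gcap_sym a) (gcap_nonneg a) a ha
          (fun z hz => (gcap_sup a z hz).1) Aᶜ ?_)
        refine le_trans ?_ haw
        have h3 : Aᶜ.card ≤ w := by
          rw [Finset.card_compl, Fintype.card_fin]; omega
        have : (Aᶜ.card : ℝ) ≤ w := by exact_mod_cast h3
        gcongr
      · have h3 := Gc_mid (gcap a) (gcap_sym a) A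
        simp_rw [gcap_sq] at h3
        rw [← hP] at h3
        have h4 : (d.choose w : ℝ) ≤ (d.choose A.card : ℝ) := by
          exact_mod_cast choose_ge d w A.card h1 h2 hw
        have h5 : (d.choose w : ℝ) * (Gc (gcap a) A) ^ 2 ≤ 2 ^ d * P :=
          le_trans (mul_le_mul_of_nonneg_right h4 (sq_nonneg _)) h3
        have h6 : (Gc (gcap a) A) ^ 2 ≤ 2 ^ d * P / (d.choose w : ℝ) := by
          rw [le_div_iff₀ hD]; linarith
        have h7 := Real.abs_le_sqrt h6
        exact (abs_le.mp h7).1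
  have hempty : Gc (gcap a) (∅ : Finset (Fin d)) = P := by
    unfold Gc chi
    simp [hP]
  have hempty2 : (∑ x ∈ S, chi (∅ : Finset (Fin d)) x) = S.card := by
    unfold chi
    simp
  have hsplit : ∑ A : Finset (Fin d), Gc (gcap a) A * (∑ x ∈ S, chi A x) ^ 2
      = P * (S.card : ℝ) ^ 2 + ∑ A ∈ (Finset.univ : Finset (Finset (Fin d))).erase ∅,
        Gc (gcap a) A * (∑ x ∈ S, chi A x) ^ 2 := by
    rw [← Finset.add_sum_erase _ (fun A => Gc (gcap a) A * (∑ x ∈ S, chi A x) ^ 2)
      (Finset.mem_univ (∅ : Finset (Fin d))), hempty, hempty2]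
  rw [hsplit]
  have h8 : -τ * ∑ A : Finset (Fin d), (∑ x ∈ S, chi A x) ^ 2
      ≤ ∑ A ∈ (Finset.univ : Finset (Finset (Fin d))).erase ∅,
        Gc (gcap a) A * (∑ x ∈ S, chi A x) ^ 2 := by
    calc -τ * ∑ A : Finset (Fin d), (∑ x ∈ S, chi A x) ^ 2
        ≤ -τ * ∑ A ∈ (Finset.univ : Finset (Finset (Fin d))).erase ∅,
            (∑ x ∈ S, chi A x) ^ 2 := by
          have : ∑ A ∈ (Finset.univ : Finset (Finset (Fin d))).erase ∅,
            (∑ x ∈ S, chi A x) ^ 2 ≤ ∑ A : Finset (Fin d), (∑ x ∈ S, chi A x) ^ 2 :=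
            Finset.sum_le_sum_of_subset_of_nonneg (Finset.erase_subset _ _)
              (fun B _ _ => sq_nonneg _)
          nlinarith
      _ = ∑ A ∈ (Finset.univ : Finset (Finset (Fin d))).erase ∅,
            -τ * (∑ x ∈ S, chi A x) ^ 2 := by rw [Finset.mul_sum]
      _ ≤ _ := Finset.sum_le_sum (fun A _ =>
          mul_le_mul_of_nonneg_right (hcoef A) (sq_nonneg _))
  linarith

end Run7.h970
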