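import Pool.Agent.Run7.h970.Num

set_option autoImplicit false

/-!
# The 2-degenerate graph and the hypergraph
-/

namespace Run7.h970

open Finset

/-- Vertices of the forbidden graph. -/
inductive W (M : ℕ) : Type
  | t (c : Fin 3) : W M
  | a (c : Fin 3) (i : Fin M) : W M
  | s (c : Fin 3) (p : Fin M × Fin M) : W M
  | r (c : Fin 3) (q : (Fin M × Fin M) × (Fin M × Fin M)) : W M

/-- `par v w`: `w` is one of the (at most two) parents of `v`. -/
def par {M : ℕ} : W M → W M → Prop
  | W.t c, W.t c' => c' < c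
  | W.a c _, W.t c' => c' = c + 1 ∨ c' = c + 2
  | W.s c p, W.a c' k => (c' = c + 1 ∧ k = p.1) ∨ (c' = c + 2 ∧ k = p.2)
  | W.r c q, W.s c' p => c' = c ∧ (p = q.1 ∨ p = q.2)
  | _, _ => False

/-- A rank: parents have smaller rank. -/
def rk {M : ℕ} : W M → ℕ
  | W.t c => c.val
  | W.a _ _ => 3
  | W.s _ _ => 4
  | W.r _ _ => 5

theorem rk_lt {M : ℕ} (v w : W M) (h : par v w) : rk w < rk v := by
  cases v <;> cases w <;> simp only [par, rk] at h ⊢ <;> omega

/-- The forbidden graph. -/
def Gr (M : ℕ) : SimpleGraph (W M) where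
  Adj v w := par v w ∨ par w v
  symm := ⟨fun v w h => h.symm⟩
  loopless := ⟨fun v h => by
    rcases h with h | h <;> exact absurd (rk_lt v v h) (lt_irrefl _)⟩

theorem adj_of_par {M : ℕ} {v w : W M} (h : par v w) : (Gr M).Adj v w := Or.inl h

theorem par_two {M : ℕ} (v : W M) : ∃ w1 w2 : W M, ∀ w, par v w → w = w1 ∨ w = w2 := by
  cases v with
  | t c =>
    refine ⟨W.t 0, W.t 1, fun w h => ?_⟩
    cases w with
    | t c' =>
      simp only [par] at h
      have h1 : c'.val < 2 := by omega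
      rcases Nat.lt_or_ge c'.val 1 with h2 | h2
      · left
        congr 1
        apply Fin.ext
        simp; omega
      · right
        congr 1
        apply Fin.ext
        simp; omega
    | a c' i => exact h.elim
    | s c' p => exact h.elim
    | r c' q => exact h.elim
  | a c i =>
    refine ⟨W.t (c + 1), W.t (c + 2), fun w h => ?_⟩
    cases w with
    | t c' =>
      rcases h with h | h
      · left; rw [h]
      · right; rw [h]
    | a c' i => exact h.elim
    | s c' p => exact h.elim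
    | r c' q => exact h.elim
  | s c p =>
    refine ⟨W.a (c + 1) p.1, W.a (c + 2) p.2, fun w h => ?_⟩
    cases w with
    | t c' => exact h.elim
    | a c' i =>
      rcases h with ⟨h, h'⟩ | ⟨h, h'⟩
      · left; rw [h, h']
      · right; rw [h, h']
    | s c' p => exact h.elim
    | r c' q => exact h.elim
  | r c q =>
    refine ⟨W.s c q.1, W.s c q.2, fun w h => ?_⟩
    cases w with
    | t c' => exact h.elim
    | a c' i => exact h.elim
    | s c' p =>
      rcases h with ⟨h, h' | h'⟩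
      · left; rw [h, h']
      · right; rw [h, h']
    | r c' q => exact h.elim

instance {M : ℕ} : Finite (W M) := by
  let F : W M → (Fin 3 ⊕ (Fin 3 × Fin M)) ⊕ ((Fin 3 × (Fin M × Fin M)) ⊕
      (Fin 3 × ((Fin M × Fin M) × (Fin M × Fin M)))) := fun v =>
    match v with
    | W.t c => Sum.inl (Sum.inl c)
    | W.a c i => Sum.inl (Sum.inr (c, i))
    | W.s c p => Sum.inr (Sum.inl (c, p))
    | W.r c q => Sum.inr (Sum.inr (c, q))
  have hF : Function.Injective F := by
    intro v w h
    cases v <;> cases w <;> simp [F] at h <;> simp [h]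
  exact Finite.of_injective F hF

/-- The graph is 2-degenerate. -/
theorem Gr_degenerate (M : ℕ) : ∀ S : Set (W M), S.Nonempty →
    ∃ v ∈ S, ({w : W M | w ∈ S ∧ (Gr M).Adj v w} : Set (W M)).ncard ≤ 2 := by
  intro S hS
  obtain ⟨v, hv, hmax⟩ := Set.exists_max_image S rk (Set.toFinite S) hS
  refine ⟨v, hv, ?_⟩
  obtain ⟨w1, w2, hw⟩ := par_two v
  have hsub : ({w : W M | w ∈ S ∧ (Gr M).Adj v w} : Set (W M)) ⊆ {w1, w2} := by
    intro w hwS
    obtain ⟨hw1, hadj⟩ := hwS
    rcases hadj with h | h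
    · rcases hw w h with h' | h'
      · exact Or.inl h'
      · exact Or.inr h'
    · exact absurd (rk_lt w v h) (not_lt.mpr (hmax w hw1))
  refine (Set.ncard_le_ncard hsub (Set.toFinite _)).trans ?_
  refine (Set.ncard_insert_le _ _).trans ?_
  rw [Set.ncard_singleton]

/-- Identification of the vertex set. -/
def ee (N : ℕ) : Fin 3 × Fin N ≃ Fin (3 * N) := finProdFinEquiv

/-- The triple attached to three indices. -/
def trip {N : ℕ} (t : Fin N × Fin N × Fin N) : Finset (Fin (3 * N)) :=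
  {ee N (0, t.1), ee N (1, t.2.1), ee N (2, t.2.2)}

theorem mem_trip {N : ℕ} (t : Fin N × Fin N × Fin N) (u : Fin (3 * N)) (h : u ∈ trip t) :
    (ee N).symm u = (0, t.1) ∨ (ee N).symm u = (1, t.2.1) ∨ (ee N).symm u = (2, t.2.2) := by
  unfold trip at h
  simp only [Finset.mem_insert, Finset.mem_singleton] at h
  rcases h with h | h | h <;> rw [h, Equiv.symm_apply_apply] <;> simp

theorem trip_injective {N : ℕ} : Function.Injective (trip (N := N)) := by
  intro t t' h
  have h0 : ee N (0, t.1) ∈ trip t' := by rw [← h]; simp [trip]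
  have h1 : ee N (1, t.2.1) ∈ trip t' := by rw [← h]; simp [trip]
  have h2 : ee N (2, t.2.2) ∈ trip t' := by rw [← h]; simp [trip]
  have e0 := mem_trip _ _ h0
  have e1 := mem_trip _ _ h1
  have e2 := mem_trip _ _ h2
  rw [Equiv.symm_apply_apply] at e0 e1 e2
  simp at e0 e1 e2
  exact Prod.ext e0 (Prod.ext e1 e2)

theorem trip_card {N : ℕ} (t : Fin N × Fin N × Fin N) : (trip t).card = 3 := by
  unfold trip
  refine Finset.card_eq_three.mpr ⟨_, _, _, ?_, ?_, ?_, rfl⟩ <;>
  · intro h
    have := (ee N).injective h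
    simp at this

/-- The hypergraph of a relation. -/
noncomputable def HH {N : ℕ} (R : Fin 3 × Fin N → Fin 3 × Fin N → Prop) :
    Finset (Finset (Fin (3 * N))) :=
  (triples R).map ⟨trip, trip_injective⟩

theorem HH_card {N : ℕ} (R : Fin 3 × Fin N → Fin 3 × Fin N → Prop) :
    (HH R).card = (triples R).card := Finset.card_map _

theorem HH_uniform {N : ℕ} (R : Fin 3 × Fin N → Fin 3 × Fin N → Prop) :
    ∀ e ∈ HH R, e.card = 3 := by
  intro e he
  obtain ⟨t, -, rfl⟩ := Finset.mem_map.mp he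
  exact trip_card t

/-- What membership of an expanded edge says. -/
theorem edge_info {N : ℕ} (R : Fin 3 × Fin N → Fin 3 × Fin N → Prop)
    (u v w : Fin (3 * N)) (huv : u ≠ v) (h : ({u, v, w} : Finset (Fin (3 * N))) ∈ HH R) :
    ((ee N).symm u).1 ≠ ((ee N).symm v).1 ∧
      (((ee N).symm u).1 = 0 → R ((ee N).symm u) ((ee N).symm v)) := by
  obtain ⟨t, ht, hte⟩ := Finset.mem_map.mp h
  rw [mem_triples] at ht
  have hte' : trip t = {u, v, w} := hte
  have hu : u ∈ trip t := by rw [hte']; simp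
  have hv : v ∈ trip t := by rw [hte']; simp
  have hne : (ee N).symm u ≠ (ee N).symm v := fun h => huv ((ee N).symm.injective h)
  have eu := mem_trip _ _ hu
  have ev := mem_trip _ _ hv
  rcases eu with eu | eu | eu <;> rcases ev with ev | ev | ev <;> rw [eu, ev] at hne ⊢ <;>
    simp at hne ⊢
  · exact ht.1
  · exact ht.2

theorem fin3_third (x y z w : Fin 3) (hxy : x ≠ y) (hyz : y ≠ z) (hxz : x ≠ z)
    (h1 : w ≠ y) (h2 : w ≠ z) : w = x := by
  omega

theorem fin3_a (c : Fin 3) : c + 1 + 1 = c + 2 := by revert c; decide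
theorem fin3_b (c : Fin 3) : c + 1 + 2 = c := by revert c; decide
theorem fin3_c (c : Fin 3) : c + 2 + 1 = c := by revert c; decide
theorem fin3_d (c : Fin 3) : c + 2 + 2 = c + 1 := by revert c; decide
theorem fin3_e (c : Fin 3) : c + 1 ≠ c + 2 := by revert c; decide
theorem fin3_f (c : Fin 3) : c + 1 ≠ c := by revert c; decide
theorem fin3_g (c : Fin 3) : c + 2 ≠ c := by revert c; decide

/-- An embedded expansion gives the configuration. -/
theorem conf_of_copy {M N : ℕ} (R : Fin 3 × Fin N → Fin 3 × Fin N → Prop)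
    (hR : ∀ i j, R i j → R j i)
    (f : W M → Fin (3 * N)) (g : W M → W M → Fin (3 * N))
    (hf : Function.Injective f)
    (hg : ∀ u v, (Gr M).Adj u v → ({f u, f v, g u v} : Finset (Fin (3 * N))) ∈ HH R) :
    Conf M R := by
  let F : W M → Fin 3 × Fin N := fun u => (ee N).symm (f u)
  have hF : Function.Injective F := (ee N).symm.injective.comp hf
  have hedge : ∀ u v, (Gr M).Adj u v → (F u).1 ≠ (F v).1 ∧ ((F u).1 = 0 → R (F u) (F v)) := by
    intro u v huv
    exact edge_info R (f u) (f v) (g u v) (fun h => huv.ne (hf h)) (hg u v huv)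
  have htt : ∀ c c' : Fin 3, c' < c → (F (W.t c)).1 ≠ (F (W.t c')).1 := by
    intro c c' h
    exact (hedge _ _ (adj_of_par (v := W.t c) (w := W.t c') h)).1
  have htinj : Function.Injective (fun c : Fin 3 => (F (W.t c : W M)).1) := by
    intro c c' h
    rcases lt_trichotomy c c' with h1 | h1 | h1
    · exact absurd h.symm (htt c' c h1)
    · exact h1
    · exact absurd h (htt c c' h1)
  obtain ⟨c, hc⟩ := (Finite.injective_iff_surjective.mp htinj) 0
  have hc0 : (F (W.t c : W M)).1 = 0 := hc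
  have d1 := fin3_a c
  have d2 := fin3_b c
  have d3 := fin3_c c
  have d4 := fin3_d c
  have d5 := fin3_e c
  have d6 := fin3_f c
  have d7 := fin3_g c
  have n12 : (F (W.t (c + 1) : W M)).1 ≠ (F (W.t (c + 2) : W M)).1 := fun h => d5 (htinj h)
  have n10 : (F (W.t (c + 1) : W M)).1 ≠ (F (W.t c : W M)).1 := fun h => d6 (htinj h)
  have n20 : (F (W.t (c + 2) : W M)).1 ≠ (F (W.t c : W M)).1 := fun h => d7 (htinj h)
  -- first level
  have ha1 : ∀ i : Fin M, (F (W.a (c + 1) i)).1 = (F (W.t (c + 1) : W M)).1 := by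
    intro i
    have e1 := (hedge (W.a (c + 1) i) (W.t (c + 2)) (adj_of_par (Or.inl d1.symm))).1
    have e2 := (hedge (W.a (c + 1) i) (W.t c) (adj_of_par (Or.inr d2.symm))).1
    exact fin3_third _ _ _ _ n12 n20 n10 e1 e2
  have ha2 : ∀ i : Fin M, (F (W.a (c + 2) i)).1 = (F (W.t (c + 2) : W M)).1 := by
    intro i
    have e1 := (hedge (W.a (c + 2) i) (W.t c) (adj_of_par (Or.inl d3.symm))).1
    have e2 := (hedge (W.a (c + 2) i) (W.t (c + 1)) (adj_of_par (Or.inr d4.symm))).1
    exact fin3_third _ _ _ _ n12.symm n10 n20 e2 e1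
  -- second level
  have hs : ∀ p : Fin M × Fin M, (F (W.s c p)).1 = 0 := by
    intro p
    have e1 := (hedge (W.s c p) (W.a (c + 1) p.1) (adj_of_par (Or.inl ⟨rfl, rfl⟩))).1
    have e2 := (hedge (W.s c p) (W.a (c + 2) p.2) (adj_of_par (Or.inr ⟨rfl, rfl⟩))).1
    rw [ha1] at e1
    rw [ha2] at e2
    rw [← hc0]
    exact fin3_third _ _ _ _ n10.symm n12 n20.symm e1 e2
  refine ⟨fun i => F (W.a (c + 1) i), fun j => F (W.a (c + 2) j), fun p => F (W.s c p),
    fun q => F (W.r c q), ?_, ?_, ?_, ?_⟩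
  · rintro ((i | i) | i) ((j | j) | j) h <;> simp only [Sum.elim_inl, Sum.elim_inr] at h <;>
      have h' := hF h <;> simp at h' <;> simp [h']
  · rintro (i | i) (j | j) h <;> simp only [Sum.elim_inl, Sum.elim_inr] at h <;>
      have h' := hF h <;> simp at h' <;> simp [h']
  · intro p
    refine ⟨?_, ?_⟩
    · exact (hedge (W.s c p) (W.a (c + 1) p.1) (adj_of_par (Or.inl ⟨rfl, rfl⟩))).2 (hs p)
    · exact (hedge (W.s c p) (W.a (c + 2) p.2) (adj_of_par (Or.inr ⟨rfl, rfl⟩))).2 (hs p)
  · intro q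
    refine ⟨?_, ?_⟩
    · exact hR _ _ ((hedge (W.s c q.1) (W.r c q)
        (adj_of_par (v := W.r c q) (w := W.s c q.1) ⟨rfl, Or.inl rfl⟩).symm).2 (hs q.1))
    · exact hR _ _ ((hedge (W.s c q.2) (W.r c q)
        (adj_of_par (v := W.r c q) (w := W.s c q.2) ⟨rfl, Or.inr rfl⟩).symm).2 (hs q.2))

end Run7.h970
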