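import Pool.Agent.Run7.h970.Bad2
import Pool.Agent.Run7.h970.Dense

set_option autoImplicit false

/-!
# Dense hosts without the two-grid graph
-/

namespace Run7.h970

open Finset

/-- The number of ordered pairs related under a random assignment. -/
theorem pair_sum {d n m : ℕ} {b : ℝ} (hbm : b * d = 2 * m - d) :
    (d.choose m : ℝ) / 2 ^ d * ((n : ℝ) ^ 2 - n) *
      (Fintype.card (Fin d → Bool) : ℝ) ^ (Fintype.card (Fin n))
    ≤ ∑ ω : Fin n → Fin d → Bool, ∑ u : Fin n, ∑ v : Fin n,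
        (if u ≠ v ∧ b * d ≤ ip (ω u) (ω v) then (1 : ℝ) else 0) := by
  classical
  have hcard2 : (2 : ℝ) ^ d * (d.choose m : ℝ) ≤
      (((Finset.univ.filter (fun η : Fin 2 → Fin d → Bool =>
        b * d ≤ ip (η 0) (η 1))).card : ℕ) : ℝ) := by
    have h1 : 2 ^ d * d.choose m ≤ (Finset.univ.filter (fun η : Fin 2 → Fin d → Bool =>
        b * d ≤ ip (η 0) (η 1))).card := by
      let T : (Fin d → Bool) → Finset (Fin d → Bool) :=
        fun v0 => Finset.univ.filter (fun v : Fin d → Bool => b * d ≤ ip v0 v)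
      let S : Finset (Σ _ : Fin d → Bool, (Fin d → Bool)) := Finset.univ.sigma (fun v0 => T v0)
      have h1 : 2 ^ d * d.choose m ≤ S.card := by
        rw [Finset.card_sigma]
        calc 2 ^ d * d.choose m = ∑ _v0 : Fin d → Bool, d.choose m := by simp
          _ ≤ ∑ v0 : Fin d → Bool, (T v0).card := by
              refine Finset.sum_le_sum (fun v0 _ => ?_)
              have := cap_bound d m v0
              rw [← hbm] at this
              exact this
      refine h1.trans (Finset.card_le_card_of_injOn (fun w => ![w.1, w.2]) ?_ ?_)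
      · intro w hw
        have hw' := (Finset.mem_sigma.mp (Finset.mem_coe.mp hw)).2
        refine Finset.mem_coe.mpr (Finset.mem_filter.mpr ⟨Finset.mem_univ _, ?_⟩)
        exact (Finset.mem_filter.mp hw').2
      · intro w _ w' _ h
        have h0 := congrFun h 0
        have h1 := congrFun h 1
        simp only [Matrix.cons_val_zero, Matrix.cons_val_one] at h0 h1
        obtain ⟨a, c⟩ := w
        obtain ⟨a', c'⟩ := w'
        simp only at h0 h1
        rw [h0, h1]
    exact_mod_cast h1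
  have h2 : ∑ ω : Fin n → Fin d → Bool, ∑ u : Fin n, ∑ v : Fin n,
        (if u ≠ v ∧ b * d ≤ ip (ω u) (ω v) then (1 : ℝ) else 0)
      = ∑ u : Fin n, ∑ v : Fin n, ∑ ω : Fin n → Fin d → Bool,
        (if u ≠ v ∧ b * d ≤ ip (ω u) (ω v) then (1 : ℝ) else 0) := by
    rw [Finset.sum_comm]
    refine Finset.sum_congr rfl (fun u _ => ?_)
    rw [Finset.sum_comm]
  rw [h2]
  set Ω : ℝ := (Fintype.card (Fin d → Bool) : ℝ) ^ (Fintype.card (Fin n)) with hΩ
  set p : ℝ := (d.choose m : ℝ) / 2 ^ d with hp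
  have h3 : ∀ u v : Fin n, p * Ω * (1 - ind (u = v)) ≤ ∑ ω : Fin n → Fin d → Bool,
        (if u ≠ v ∧ b * d ≤ ip (ω u) (ω v) then (1 : ℝ) else 0) := by
    intro u v
    by_cases huv : u = v
    · rw [ind_true huv, sub_self, mul_zero]
      exact Finset.sum_nonneg (fun ω _ => by split_ifs <;> norm_num)
    · rw [ind_false huv, sub_zero, mul_one]
      have e1 : ∑ ω : Fin n → Fin d → Bool,
          (if u ≠ v ∧ b * d ≤ ip (ω u) (ω v) then (1 : ℝ) else 0)
          = (((Finset.univ.filter (fun ω : Fin n → Fin d → Bool =>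
              b * d ≤ ip ((ω ∘ ![u, v]) 0) ((ω ∘ ![u, v]) 1))).card : ℕ) : ℝ) := by
        rw [← Finset.sum_boole]
        refine Finset.sum_congr rfl (fun ω _ => ?_)
        simp [huv]
      rw [e1]
      have h4 := card_comp_injective (A := Fin d → Bool) (![u, v] : Fin 2 → Fin n)
        (inj2 huv) (fun η => b * d ≤ ip (η 0) (η 1))
      rw [Fintype.card_fin] at h4
      have hpos : (0 : ℝ) < (Fintype.card (Fin d → Bool) : ℝ) ^ 2 := by
        rw [card_signs]; positivity
      refine le_of_mul_le_mul_left ?_ hpos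
      rw [h4]
      calc (Fintype.card (Fin d → Bool) : ℝ) ^ 2 * (p * Ω)
          = Ω * ((2 : ℝ) ^ d * (d.choose m : ℝ)) := by
            rw [hp, card_signs]
            have : (2 : ℝ) ^ d ≠ 0 := by positivity
            field_simp
        _ ≤ _ := mul_le_mul_of_nonneg_left hcard2 (by positivity)
  calc p * ((n : ℝ) ^ 2 - n) * Ω = ∑ u : Fin n, ∑ v : Fin n, p * Ω * (1 - ind (u = v)) := by
        simp_rw [← Finset.mul_sum, Finset.sum_sub_distrib]
        have : ∀ a : Fin n, ∑ b : Fin n, ind (a = b) = 1 := by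
          intro a
          unfold ind
          simp
        simp_rw [this]
        simp only [Finset.sum_const, Finset.card_univ, Fintype.card_fin, nsmul_eq_mul, mul_one]
        ring
    _ ≤ _ := Finset.sum_le_sum (fun u _ => Finset.sum_le_sum (fun v _ => h3 u v))

/-- Some assignment avoids the configuration and has many related pairs. -/
theorem exists_omega2 {M : ℕ} {b s c l L : ℝ} (hC : Cond M b s c l L)
    (h1 : L * (2 * M ^ 2 + M ^ 4) + M ^ 4 * (-(2 * b ^ 2) + l / 2 * (1 + c)) ≤ -(2 * L))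
    (d n m : ℕ) (hN : (n : ℝ) ≤ Real.exp (L * d))
    (hbm : b * d = 2 * m - d)
    (hq : 3 < (d.choose m : ℝ) / 2 ^ d * ((n : ℝ) ^ 2 - n)) :
    ∃ ω : Fin n → Fin d → Bool, ¬ Conf2 M (thr b ω) ∧
      (d.choose m : ℝ) / 2 ^ d * ((n : ℝ) ^ 2 - n) - 3
        ≤ ∑ u : Fin n, ∑ v : Fin n, (if u ≠ v ∧ b * d ≤ ip (ω u) (ω v) then (1 : ℝ) else 0) := by
  classical
  set q : ℝ := (d.choose m : ℝ) / 2 ^ d * ((n : ℝ) ^ 2 - n) with hqdef
  let E : Finset (Fin n → Fin d → Bool) :=
    Finset.univ.filter (fun ω => Conf2 M (thr b ω))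
  have hE := conf2_bound hC h1 d (I := Fin n) (by simpa using hN) E
    (fun ω hω => (Finset.mem_filter.mp hω).2)
  have hS := pair_sum (d := d) (n := n) (m := m) (b := b) hbm
  set Ω : ℝ := (Fintype.card (Fin d → Bool) : ℝ) ^ (Fintype.card (Fin n)) with hΩ
  have hcardΩ : (Fintype.card (Fin n → Fin d → Bool) : ℝ) = Ω := by
    rw [Fintype.card_fun]; push_cast; rfl
  have hΩ0 : 0 ≤ Ω := by positivity
  have hne : (n : ℝ) ^ 2 * (3 * Real.exp (-(2 * L * d))) ≤ 3 := by
    have h2 : (n : ℝ) ^ 2 ≤ Real.exp (L * d) ^ 2 := pow_le_pow_left₀ (by positivity) hN 2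
    have h3 : Real.exp (L * d) ^ 2 * Real.exp (-(2 * L * d)) = 1 := by
      rw [← Real.exp_nat_mul, ← Real.exp_add]
      rw [Real.exp_eq_one_iff]
      push_cast
      ring
    have h4 := mul_le_mul_of_nonneg_right h2 (Real.exp_pos (-(2 * L * d))).le
    rw [h3] at h4
    linarith
  have hsum : ∑ _ω : Fin n → Fin d → Bool, (q - 3)
      ≤ ∑ ω : Fin n → Fin d → Bool, ((∑ u : Fin n, ∑ v : Fin n,
        (if u ≠ v ∧ b * d ≤ ip (ω u) (ω v) then (1 : ℝ) else 0)) -
        (n : ℝ) ^ 2 * (if Conf2 M (thr b ω) then (1 : ℝ) else 0)) := by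
    have hA : ∑ ω : Fin n → Fin d → Bool,
        (n : ℝ) ^ 2 * (if Conf2 M (thr b ω) then (1 : ℝ) else 0) = (n : ℝ) ^ 2 * (E.card : ℝ) := by
      rw [← Finset.mul_sum, Finset.sum_boole]
    have hB : ∑ _ω : Fin n → Fin d → Bool, (q - 3) = Ω * (q - 3) := by
      rw [Finset.sum_const, Finset.card_univ, nsmul_eq_mul, hcardΩ]
    rw [hB, Finset.sum_sub_distrib, hA]
    have h5 : (n : ℝ) ^ 2 * (E.card : ℝ) ≤ (n : ℝ) ^ 2 * (3 * Real.exp (-(2 * L * d)) * Ω) :=
      mul_le_mul_of_nonneg_left hE (by positivity)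
    have h6 : (n : ℝ) ^ 2 * (3 * Real.exp (-(2 * L * d)) * Ω) ≤ 3 * Ω := by
      have := mul_le_mul_of_nonneg_right hne hΩ0
      linarith
    linarith
  obtain ⟨ω, -, hω⟩ := Finset.exists_le_of_sum_le (Finset.univ_nonempty) hsum
  have hnot : ¬ Conf2 M (thr b ω) := by
    intro hcon
    rw [if_pos hcon, mul_one] at hω
    have h2 : (∑ u : Fin n, ∑ v : Fin n,
        (if u ≠ v ∧ b * d ≤ ip (ω u) (ω v) then (1 : ℝ) else 0)) ≤ (n : ℝ) ^ 2 := by
      calc (∑ u : Fin n, ∑ v : Fin n,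
          (if u ≠ v ∧ b * d ≤ ip (ω u) (ω v) then (1 : ℝ) else 0))
          ≤ ∑ u : Fin n, ∑ v : Fin n, (1 : ℝ) := by
            refine Finset.sum_le_sum (fun u _ => Finset.sum_le_sum (fun v _ => ?_))
            split_ifs <;> norm_num
        _ = (n : ℝ) ^ 2 := by simp; ring
    linarith
  refine ⟨ω, hnot, ?_⟩
  rw [if_neg hnot, mul_zero, sub_zero] at hω
  exact hω

/-- The extra numerical condition. -/
theorem exists_cond2 : ∃ M : ℕ, 2 ≤ M ∧ Cond M (1 / 32) (5 / 1024) (27 / 262144) lc LL ∧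
    LL * (2 * M ^ 2 + M ^ 4) + M ^ 4 * (-(2 * (1 / 32) ^ 2) + lc / 2 * (1 + 27 / 262144))
      ≤ -(2 * LL) := by
  have hlog2 : Real.log 2 ≤ 0.7 := by
    have := Real.log_two_lt_d9
    linarith
  refine ⟨2 ^ 20, by norm_num, ⟨by norm_num, by norm_num, by unfold LL; norm_num,
    by unfold lc; norm_num, cosh_bound, ?_, ?_, ?_⟩, ?_⟩
  · have h1 : Real.log (2 * ((2 ^ 20 : ℕ) : ℝ) + 1) ≤ 22 * Real.log 2 := by
      have : (22 : ℝ) * Real.log 2 = Real.log (2 ^ 22) := by
        rw [Real.log_pow]; norm_num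
      rw [this]
      refine Real.log_le_log (by positivity) (by norm_num)
    unfold LL
    norm_num at h1 ⊢
    linarith
  · have h1 : Real.log (2 * ((2 ^ 20 : ℕ) : ℝ) ^ 2 + 1) ≤ 42 * Real.log 2 := by
      have : (42 : ℝ) * Real.log 2 = Real.log (2 ^ 42) := by
        rw [Real.log_pow]; norm_num
      rw [this]
      refine Real.log_le_log (by positivity) (by norm_num)
    unfold LL
    norm_num at h1 ⊢
    linarith
  · unfold LL lc
    norm_num
  · unfold LL lc
    norm_num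

/-- Dense relations without the two-grid configuration, for every large number of vertices. -/
theorem exists_rel2 : ∃ M : ℕ, 2 ≤ M ∧ ∃ n0 : ℕ, ∀ n : ℕ, n0 ≤ n →
    ∃ R : Fin n → Fin n → Prop, (∀ i j, R i j → R j i) ∧ ¬ Conf2 M R ∧
      2 * (n : ℝ) ^ ((3 : ℝ) / 2 + 1 / 100000)
        ≤ ∑ u : Fin n, ∑ v : Fin n, (open Classical in if u ≠ v ∧ R u v then (1 : ℝ) else 0) := by
  classical
  obtain ⟨M, hM2, hC, hC1⟩ := exists_cond2
  refine ⟨M, hM2, ⌈Real.exp (10 ^ 15)⌉₊, fun n hn => ?_⟩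
  have hnR : Real.exp (10 ^ 15) ≤ n := (Nat.le_ceil _).trans (by exact_mod_cast hn)
  have hnpos : (0 : ℝ) < n := lt_of_lt_of_le (Real.exp_pos _) hnR
  have hlog : (10 : ℝ) ^ 15 ≤ Real.log n := by
    rw [Real.le_log_iff_exp_le hnpos]; exact hnR
  have hLpos : (0 : ℝ) < 64 * LL := by unfold LL; norm_num
  have hLval : 64 * LL = 3073 / 49152 := by unfold LL; norm_num
  let t : ℕ := ⌈Real.log n / (64 * LL)⌉₊
  have ht1 : Real.log n / (64 * LL) ≤ t := Nat.le_ceil _
  have ht2 : (t : ℝ) < Real.log n / (64 * LL) + 1 :=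
    Nat.ceil_lt_add_one (div_nonneg (by linarith [show (0 : ℝ) ≤ 10 ^ 15 by norm_num]) hLpos.le)
  have hlt1 : Real.log n ≤ 64 * LL * t := by
    rw [div_le_iff₀ hLpos] at ht1; linarith
  have hlt2 : 64 * LL * t < Real.log n + 64 * LL := by
    have := mul_lt_mul_of_pos_left ht2 hLpos
    have e : 64 * LL * (Real.log n / (64 * LL) + 1) = Real.log n + 64 * LL := by
      rw [mul_add, mul_div_cancel₀ _ hLpos.ne', mul_one]
    linarith
  have htbig : (10 : ℝ) ^ 15 ≤ t := by
    rw [hLval] at hlt1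
    have : (3073 / 49152 : ℝ) * t ≤ t := by
      have : (0 : ℝ) ≤ t := by positivity
      linarith
    linarith
  have htpos : (0 : ℝ) < t := by linarith [show (0 : ℝ) < 10 ^ 15 by norm_num]
  have hd : ((64 * t : ℕ) : ℝ) = 64 * t := by push_cast; ring
  -- the size of `X`
  set X : ℝ := Real.exp (LL * (64 * t)) with hX
  have hnX : (n : ℝ) ≤ X := by
    rw [hX, ← Real.log_le_iff_le_exp hnpos]
    linarith
  have hXn : X ≤ 2 * n := by
    have h1 : X ≤ Real.exp (Real.log n + 64 * LL) := by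
      rw [hX]; refine Real.exp_le_exp.mpr ?_; linarith
    rw [Real.exp_add, Real.exp_log hnpos] at h1
    have h2 : Real.exp (64 * LL) ≤ 2 := by
      rw [hLval]
      have h3 : Real.exp (3073 / 49152 : ℝ) ≤ Real.exp (Real.log 2) := by
        refine Real.exp_le_exp.mpr ?_
        have := Real.log_two_gt_d9
        linarith
      rwa [Real.exp_log (by norm_num)] at h3
    nlinarith
  set p : ℝ := ((64 * t).choose (33 * t) : ℝ) / 2 ^ (64 * t) with hp
  have hp0 : 0 ≤ p := by positivity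
  -- lower bound for `p`
  have hqlow := q_lower t
  rw [← hp] at hqlow
  set Y : ℝ := Real.exp ((t : ℝ) / 800000) with hY
  have hYpos : 0 < Y := Real.exp_pos _
  have hYbig : 8 * (64 * (t : ℝ) + 1) ≤ Y := by
    have h1 : ((t : ℝ) / 800000) ^ 2 / 2 ≤ Y := by
      have := Real.pow_div_factorial_le_exp ((t : ℝ) / 800000) (by positivity) 2
      simpa [Nat.factorial] using this
    refine le_trans ?_ h1
    have h2 : ((t : ℝ) / 800000) ^ 2 / 2 = t * (t / 1280000000000) := by ring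
    rw [h2]
    have h3 : (600 : ℝ) ≤ t / 1280000000000 := by
      rw [le_div_iff₀ (by norm_num)]
      linarith [show (600 * 1280000000000 : ℝ) ≤ 10 ^ 15 by norm_num]
    nlinarith
  have hpY : 8 * Y ≤ p * Real.sqrt (2 * n) := by
    have h1 : (8 * Y) ^ 2 ≤ (p * Real.sqrt (2 * n)) ^ 2 := by
      rw [mul_pow p, Real.sq_sqrt (by positivity)]
      have h2 : Real.exp (-(LL * (64 * t)) + t / 200000) / (64 * t + 1) ^ 2 * (2 * n)
          ≤ p ^ 2 * (2 * n) := mul_le_mul_of_nonneg_right hqlow (by positivity)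
      refine le_trans ?_ h2
      have h3 : Real.exp (-(LL * (64 * t)) + t / 200000) = Y ^ 4 / X := by
        rw [Real.exp_add, Real.exp_neg, ← hX, hY, ← Real.exp_nat_mul]
        have : ((4 : ℕ) : ℝ) * ((t : ℝ) / 800000) = t / 200000 := by push_cast; ring
        rw [this]
        field_simp
      rw [h3]
      have hXpos : 0 < X := Real.exp_pos _
      have h4 : Y ^ 4 / X / (64 * t + 1) ^ 2 * (2 * n)
          = (Y ^ 2 / (64 * t + 1) ^ 2) * (2 * n / X) * Y ^ 2 := by
        field_simp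
      rw [h4]
      have h5 : (1 : ℝ) ≤ 2 * n / X := by
        rw [le_div_iff₀ hXpos]; linarith
      have h6 : (64 : ℝ) ≤ Y ^ 2 / (64 * t + 1) ^ 2 := by
        rw [le_div_iff₀ (by positivity)]
        calc (64 : ℝ) * (64 * t + 1) ^ 2 = (8 * (64 * (t : ℝ) + 1)) ^ 2 := by ring
          _ ≤ Y ^ 2 := pow_le_pow_left₀ (by positivity) hYbig 2
      calc (8 * Y) ^ 2 = 64 * 1 * Y ^ 2 := by ring
        _ ≤ _ := by
          refine mul_le_mul_of_nonneg_right ?_ (by positivity)
          exact mul_le_mul h6 h5 (by norm_num) (by positivity)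
    exact le_of_sq_le_sq h1 (by positivity)
  -- power of `n`
  have hnY : (n : ℝ) ^ ((1 : ℝ) / 100000) ≤ Y := by
    rw [Real.rpow_def_of_pos hnpos, hY]
    refine Real.exp_le_exp.mpr ?_
    rw [hLval] at hlt1
    linarith
  have hsqrt : Real.sqrt (2 * n) ≤ 2 * Real.sqrt n := by
    rw [Real.sqrt_mul (by norm_num)]
    refine mul_le_mul_of_nonneg_right ?_ (Real.sqrt_nonneg _)
    rw [Real.sqrt_le_left (by norm_num)]
    norm_num
  have hsn : 0 < Real.sqrt n := Real.sqrt_pos.mpr hnpos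
  have hp4 : 4 * Y ≤ p * Real.sqrt n := by
    have : p * Real.sqrt (2 * n) ≤ p * (2 * Real.sqrt n) := mul_le_mul_of_nonneg_left hsqrt hp0
    linarith
  have hn8 : (8 : ℝ) ≤ n := by
    have := Real.add_one_le_exp ((10 : ℝ) ^ 15)
    linarith [show (8 : ℝ) ≤ 10 ^ 15 + 1 by norm_num]
  have hY1 : 1 ≤ Y := by
    linarith
  have hmain : 2 * (n : ℝ) ^ ((3 : ℝ) / 2 + 1 / 100000) + 3 < p * ((n : ℝ) ^ 2 - n) := by
    have e1 : (n : ℝ) ^ ((3 : ℝ) / 2 + 1 / 100000)
        = n * Real.sqrt n * (n : ℝ) ^ ((1 : ℝ) / 100000) := by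
      have : (3 : ℝ) / 2 + 1 / 100000 = 1 + 1 / 2 + 1 / 100000 := by norm_num
      rw [this, Real.rpow_add hnpos, Real.rpow_add hnpos, Real.rpow_one, ← Real.sqrt_eq_rpow]
    rw [e1]
    have e2 : p * ((n : ℝ) ^ 2 - n) = (p * Real.sqrt n) * Real.sqrt n * (n - 1) := by
      have := Real.mul_self_sqrt hnpos.le
      calc p * ((n : ℝ) ^ 2 - n) = p * (n * (n - 1)) := by ring
        _ = p * ((Real.sqrt n * Real.sqrt n) * (n - 1)) := by rw [this]
        _ = _ := by ring
    rw [e2]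
    have h7 : 4 * Y * Real.sqrt n * (n - 1) ≤ (p * Real.sqrt n) * Real.sqrt n * (n - 1) := by
      refine mul_le_mul_of_nonneg_right ?_ (by linarith)
      exact mul_le_mul_of_nonneg_right hp4 hsn.le
    refine lt_of_lt_of_le ?_ h7
    have h8 : n * Real.sqrt n * (n : ℝ) ^ ((1 : ℝ) / 100000) ≤ n * Real.sqrt n * Y :=
      mul_le_mul_of_nonneg_left hnY (by positivity)
    have h9 : (1 : ℝ) ≤ Real.sqrt n := by
      rw [Real.one_le_sqrt]; linarith
    have h10 : 1 ≤ Real.sqrt n * Y := one_le_mul_of_one_le_of_one_le h9 hY1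
    nlinarith
  obtain ⟨ω, hω1, hω2⟩ := exists_omega2 hC hC1 (64 * t) n (33 * t)
    (by rw [hd]; exact hnX) (by push_cast; ring) (by
      have : 0 ≤ 2 * (n : ℝ) ^ ((3 : ℝ) / 2 + 1 / 100000) := by positivity
      linarith)
  refine ⟨thr (1 / 32) ω, ?_, hω1, ?_⟩
  · intro i j hij
    unfold thr at hij ⊢
    rw [ip_comm]; exact hij
  · refine le_trans ?_ (le_trans hω2 (le_of_eq ?_))
    · linarith
    · refine Finset.sum_congr rfl (fun u _ => Finset.sum_congr rfl (fun v _ => ?_))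
      unfold thr
      congr

end Run7.h970
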