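import Pool.Agent.Run7.h970.Host2
import Pool.Agent.Run7.h970.C4

set_option autoImplicit false

/-!
# The two-grid graph and the 4-cycle
-/

namespace Run7.h970

open Finset

/-- The two-grid graph. -/
def H2 (M : ℕ) : SimpleGraph (V2 M) where
  Adj v w := par2 v w ∨ par2 w v
  symm := ⟨fun v w h => h.symm⟩
  loopless := ⟨fun v h => by
    cases v <;> rcases h with h | h <;> exact h⟩

theorem H2_adj_of_par {M : ℕ} {v w : V2 M} (h : par2 v w) : (H2 M).Adj v w := Or.inl h

noncomputable instance {M : ℕ} : Fintype (V2 M) := by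
  let F : V2 M → (Bool × Bool × Fin M) ⊕ (Bool × (Fin M × Fin M)) ⊕
      ((Fin M × Fin M) × (Fin M × Fin M)) := fun v =>
    match v with
    | V2.b u => Sum.inl u
    | V2.z s p => Sum.inr (Sum.inl (s, p))
    | V2.r q => Sum.inr (Sum.inr q)
  have hF : Function.Injective F := by
    intro v w h
    cases v <;> cases w <;> simp [F] at h <;> simp [h]
  exact Fintype.ofInjective F hF

theorem H2_connected (M : ℕ) (hM : 0 < M) : (H2 M).Connected := by
  let o : Fin M := ⟨0, hM⟩
  have hxy : ∀ s i j, (H2 M).Reachable (V2.b (s, false, i)) (V2.b (s, true, j)) := by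
    intro s i j
    have h1 : (H2 M).Adj (V2.z s (i, j)) (V2.b (s, false, i)) := H2_adj_of_par (Or.inl rfl)
    have h2 : (H2 M).Adj (V2.z s (i, j)) (V2.b (s, true, j)) := H2_adj_of_par (Or.inr rfl)
    exact h1.symm.reachable.trans h2.reachable
  have hb : ∀ s t i, (H2 M).Reachable (V2.b (s, false, o)) (V2.b (s, t, i)) := by
    intro s t i
    cases t
    · exact (hxy s o o).trans (hxy s i o).symm
    · exact hxy s o i
  have hz : ∀ s p, (H2 M).Reachable (V2.b (s, false, o)) (V2.z s p) := by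
    intro s p
    have h1 : (H2 M).Adj (V2.z s p) (V2.b (s, false, p.1)) := H2_adj_of_par (Or.inl rfl)
    exact (hb s false p.1).trans h1.symm.reachable
  have hr : ∀ q, (H2 M).Reachable (V2.b (false, false, o)) (V2.r q) := by
    intro q
    have h1 : (H2 M).Adj (V2.r q) (V2.z false q.1) := H2_adj_of_par (v := V2.r q)
      (w := V2.z false q.1) rfl
    exact (hz false q.1).trans h1.symm.reachable
  have hft : (H2 M).Reachable (V2.b (false, false, o)) (V2.b (true, false, o)) := by
    have h1 : (H2 M).Adj (V2.r ((o, o), (o, o))) (V2.z true (o, o)) :=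
      H2_adj_of_par (v := V2.r ((o, o), (o, o))) (w := V2.z true (o, o)) rfl
    exact ((hr ((o, o), (o, o))).trans h1.reachable).trans (hz true (o, o)).symm
  have hall : ∀ v, (H2 M).Reachable (V2.b (false, false, o)) v := by
    intro v
    cases v with
    | b u =>
      obtain ⟨s, t, i⟩ := u
      cases s
      · exact hb false t i
      · exact hft.trans (hb true t i)
    | z s p =>
      cases s
      · exact hz false p
      · exact hft.trans (hz true p)
    | r q => exact hr q
  haveI : Nonempty (V2 M) := ⟨V2.b (false, false, o)⟩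
  exact ⟨fun v w => (hall v).symm.trans (hall w)⟩

theorem H2_not_acyclic (M : ℕ) (hM : 2 ≤ M) : ¬ (H2 M).IsAcyclic := by
  rw [SimpleGraph.isAcyclic_iff_free_cycleGraph]
  intro h
  refine h 6 (by norm_num) ?_
  let o : Fin M := ⟨0, by omega⟩
  let e : Fin M := ⟨1, by omega⟩
  have hoe : o ≠ e := by
    intro h
    have := congrArg Fin.val h
    simp [o, e] at this
  let f : Fin 6 → V2 M := ![V2.z false (o, o), V2.r ((o, o), (o, o)), V2.z true (o, o),
    V2.r ((o, e), (o, o)), V2.z false (o, e), V2.b (false, false, o)]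
  have a0 : (H2 M).Adj (f 1) (f 0) := H2_adj_of_par (v := f 1) (w := f 0) rfl
  have a1 : (H2 M).Adj (f 1) (f 2) := H2_adj_of_par (v := f 1) (w := f 2) rfl
  have a2 : (H2 M).Adj (f 3) (f 2) := H2_adj_of_par (v := f 3) (w := f 2) rfl
  have a3 : (H2 M).Adj (f 3) (f 4) := H2_adj_of_par (v := f 3) (w := f 4) rfl
  have a4 : (H2 M).Adj (f 4) (f 5) := H2_adj_of_par (v := f 4) (w := f 5) (Or.inl rfl)
  have a5 : (H2 M).Adj (f 0) (f 5) := H2_adj_of_par (v := f 0) (w := f 5) (Or.inl rfl)
  refine ⟨⟨⟨f, ?_⟩, ?_⟩⟩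
  · intro i j hij
    have hij' : (SimpleGraph.cycleGraph 6).Adj i j := hij
    fin_cases i <;> fin_cases j <;>
      first
      | exact absurd hij' (by decide)
      | exact a0 | exact a0.symm | exact a1 | exact a1.symm
      | exact a2 | exact a2.symm | exact a3 | exact a3.symm
      | exact a4 | exact a4.symm | exact a5 | exact a5.symm
  · intro i j hij
    have hij' : f i = f j := hij
    fin_cases i <;> fin_cases j <;> simp [f, hoe, hoe.symm] at hij' ⊢

/-- Copies of the finite version of the two-grid graph. -/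
theorem contained_iff {M k : ℕ} (hk : Fintype.card (V2 M) = k) {V : Type} (Γ : SimpleGraph V) :
    ((H2 M).overFin hk).IsContained Γ ↔
      ∃ f : V2 M → V, Function.Injective f ∧ ∀ v w, par2 v w → Γ.Adj (f v) (f w) := by
  constructor
  · rintro ⟨φ⟩
    refine ⟨fun v => φ ((H2 M).overFinIso hk v), ?_, ?_⟩
    · intro v w h
      exact ((H2 M).overFinIso hk).injective (φ.injective h)
    · intro v w h
      exact φ.toHom.map_adj (((H2 M).overFinIso hk).map_adj_iff.mpr (H2_adj_of_par h))
  · rintro ⟨f, hf, hpar⟩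
    refine ⟨⟨⟨fun i => f (((H2 M).overFinIso hk).symm i), ?_⟩, ?_⟩⟩
    · intro i j hij
      have h1 : (H2 M).Adj (((H2 M).overFinIso hk).symm i) (((H2 M).overFinIso hk).symm j) :=
        ((H2 M).overFinIso hk).symm.map_adj_iff.mpr hij
      rcases h1 with h1 | h1
      · exact hpar _ _ h1
      · exact (hpar _ _ h1).symm
    · intro i j hij
      exact ((H2 M).overFinIso hk).symm.injective (hf hij)

/-- Everything about the pair, in terms of graphs on `Fin n`. -/
theorem pair_facts : ∃ (k : ℕ) (H : SimpleGraph (Fin k)) (γ : ℝ), 0 < γ ∧ H.Connected ∧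
    ¬ H.IsAcyclic ∧
    ∃ n0 : ℕ, ∀ n : ℕ, n0 ≤ n →
      (∃ Γ : SimpleGraph (Fin n), ¬ H.IsContained Γ ∧
        (n : ℝ) ^ ((3 : ℝ) / 2 + 1 / 100000) ≤ (Γ.edgeSet.ncard : ℝ)) ∧
      (∃ Γ : SimpleGraph (Fin n), ¬ (SimpleGraph.cycleGraph 4).IsContained Γ ∧
        (n : ℝ) ^ ((3 : ℝ) / 2) ≤ 23 * (Γ.edgeSet.ncard : ℝ)) ∧
      (∀ Γ : SimpleGraph (Fin n), ¬ (SimpleGraph.cycleGraph 4).IsContained Γ →
        ¬ H.IsContained Γ → (Γ.edgeSet.ncard : ℝ) ≤ (n : ℝ) ^ ((3 : ℝ) / 2 - γ)) := by
  classical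
  obtain ⟨M, hM2, n1, hn1⟩ := exists_rel2
  obtain ⟨B, m, hB, hdense⟩ := dense_embed M (by omega)
  set γ : ℝ := 1 / (4 * (m + 1)) with hγ
  have hγpos : 0 < γ := by positivity
  obtain ⟨n2, hn2⟩ : ∃ n2 : ℕ, ∀ n : ℕ, n2 ≤ n → B ≤ (n : ℝ) ^ ((1 : ℝ) / 4) := by
    have h := (tendsto_rpow_atTop (y := (1 : ℝ) / 4) (by norm_num)).comp
      tendsto_natCast_atTop_atTop
    have h2 := h.eventually_ge_atTop B
    obtain ⟨n2, h3⟩ := Filter.eventually_atTop.mp h2
    exact ⟨n2, fun n hn => h3 n hn⟩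
  refine ⟨Fintype.card (V2 M), (H2 M).overFin rfl, γ, hγpos, ?_, ?_, max (max n1 n2) 8, ?_⟩
  · exact ((H2 M).overFinIso rfl).connected_iff.mp (H2_connected M (by omega))
  · intro h
    exact H2_not_acyclic M hM2 (((H2 M).overFinIso rfl).isAcyclic_iff.mpr h)
  intro n hn
  have hn1' : n1 ≤ n := (le_max_left _ _).trans ((le_max_left _ _).trans hn)
  have hn2' : n2 ≤ n := (le_max_right _ _).trans ((le_max_left _ _).trans hn)
  have hn8 : 8 ≤ n := (le_max_right _ _).trans hn
  have hnR : (8 : ℝ) ≤ n := by exact_mod_cast hn8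
  have hnpos : (0 : ℝ) < n := by linarith
  refine ⟨?_, c4host n hn8, ?_⟩
  · obtain ⟨R, hsym, hconf, hcount⟩ := hn1 n hn1'
    let Γ : SimpleGraph (Fin n) :=
      { Adj := fun u v => u ≠ v ∧ R u v
        symm := ⟨fun u v h => ⟨h.1.symm, hsym _ _ h.2⟩⟩
        loopless := ⟨fun u h => h.1 rfl⟩ }
    refine ⟨Γ, ?_, ?_⟩
    · rw [contained_iff]
      rintro ⟨f, hf, hpar⟩
      apply hconf
      refine ⟨fun i => f (V2.b (false, false, i)), fun i => f (V2.b (false, true, i)),
        fun i => f (V2.b (true, false, i)), fun i => f (V2.b (true, true, i)),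
        fun p => f (V2.z false p), fun p => f (V2.z true p), fun q => f (V2.r q),
        ?_, ?_, ?_, ?_, ?_, ?_⟩
      · rintro ((i | i) | i) ((j | j) | j) h <;> simp only [Sum.elim_inl, Sum.elim_inr] at h <;>
          have h' := hf h <;> simp at h' <;> simp [h']
      · rintro ((i | i) | i) ((j | j) | j) h <;> simp only [Sum.elim_inl, Sum.elim_inr] at h <;>
          have h' := hf h <;> simp at h' <;> simp [h']
      · rintro ((i | i) | i) ((j | j) | j) h <;> simp only [Sum.elim_inl, Sum.elim_inr] at h <;>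
          have h' := hf h <;> simp at h' <;> simp [h']
      · intro p
        exact ⟨(hpar _ _ (show par2 (V2.z false p) (V2.b (false, false, p.1)) from
          Or.inl rfl)).2, (hpar _ _ (show par2 (V2.z false p) (V2.b (false, true, p.2)) from
          Or.inr rfl)).2⟩
      · intro p
        exact ⟨(hpar _ _ (show par2 (V2.z true p) (V2.b (true, false, p.1)) from
          Or.inl rfl)).2, (hpar _ _ (show par2 (V2.z true p) (V2.b (true, true, p.2)) from
          Or.inr rfl)).2⟩
      · intro q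
        exact ⟨(hpar _ _ (show par2 (V2.r q) (V2.z false q.1) from rfl)).2,
          (hpar _ _ (show par2 (V2.r q) (V2.z true q.2) from rfl)).2⟩
    · have h1 := sum_dg_eq Γ
      have h2 : ∑ v, dg Γ.Adj v = ∑ u : Fin n, ∑ v : Fin n,
          (if u ≠ v ∧ R u v then (1 : ℝ) else 0) := by
        unfold dg ind
        refine Finset.sum_congr rfl (fun u _ => Finset.sum_congr rfl (fun v _ => ?_))
        congr
      linarith
  · intro Γ hC4 hH
    by_contra hcon
    have hcon' : (n : ℝ) ^ ((3 : ℝ) / 2 - γ) < (Γ.edgeSet.ncard : ℝ) := not_le.mp hcon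
    apply hH
    rw [contained_iff]
    set s : ℝ := Real.sqrt n with hs
    have hspos : 0 < s := Real.sqrt_pos.mpr hnpos
    have hs2 : (n : ℝ) = s ^ 2 := (Real.sq_sqrt hnpos.le).symm
    set c : ℝ := (n : ℝ) ^ (-γ) with hc
    have hcpos : 0 < c := Real.rpow_pos_of_pos hnpos _
    have hc1 : c ≤ 1 := by
      rw [hc]
      exact Real.rpow_le_one_of_one_le_of_nonpos (by linarith) (by linarith)
    have hs3 : s ^ 3 = (n : ℝ) ^ ((3 : ℝ) / 2) := by
      rw [hs, Real.sqrt_eq_rpow, ← Real.rpow_natCast, ← Real.rpow_mul hnpos.le]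
      norm_num
    have hcs : 2 * c * s ^ 3 ≤ ∑ v, dg Γ.Adj v := by
      rw [sum_dg_eq Γ, hs3, hc]
      have e : (n : ℝ) ^ ((3 : ℝ) / 2 - γ) = (n : ℝ) ^ (-γ) * (n : ℝ) ^ ((3 : ℝ) / 2) := by
        rw [← Real.rpow_add hnpos]
        congr 1
        ring
      rw [e] at hcon'
      linarith
    have hBs : B ≤ s * c ^ m := by
      refine (hn2 n hn2').trans ?_
      rw [hs, hc, Real.sqrt_eq_rpow, ← Real.rpow_natCast, ← Real.rpow_mul hnpos.le,
        ← Real.rpow_add hnpos]
      refine Real.rpow_le_rpow_of_exponent_le (by linarith) ?_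
      have h1 : γ * m ≤ 1 / 4 := by
        rw [hγ, div_mul_eq_mul_div, div_le_div_iff₀ (by positivity) (by norm_num)]
        have : (0 : ℝ) ≤ m := by positivity
        linarith
      linarith
    exact hdense (Fin n) Γ.Adj (fun a b h => h.symm) (fun a h => Γ.irrefl h)
      (noC4_of_free Γ hC4) s c (by rw [Fintype.card_fin]; exact hs2) hspos hcpos hc1 hcs hBs

end Run7.h970
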