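import Pool.Agent.Run7.h970.Inter

set_option autoImplicit false

/-!
# The two-grid graph and the 4-cycle, with the graph named
-/

namespace Run7.h970

open Finset

theorem H2_colorable (M : ℕ) : (H2 M).Colorable 2 := by
  let c : V2 M → Fin 2 := fun v =>
    match v with
    | V2.b _ => 0
    | V2.z _ _ => 1
    | V2.r _ => 0
  refine ⟨SimpleGraph.Coloring.mk c ?_⟩
  intro v w h
  have key : ∀ v w : V2 M, par2 v w → c v ≠ c w := by
    intro v w h
    cases v <;> cases w <;> simp [par2, c] at h ⊢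
  rcases h with h | h
  · exact key v w h
  · exact (key w v h).symm

/-- Everything about the pair, in terms of graphs on `Fin n`. -/
theorem pair_facts2 : ∃ (k : ℕ) (H : SimpleGraph (Fin k)) (γ : ℝ), 0 < γ ∧ H.Connected ∧
    ¬ H.IsAcyclic ∧ H.Colorable 2 ∧
    ∃ n0 : ℕ, ∀ n : ℕ, n0 ≤ n →
      (∃ Γ : SimpleGraph (Fin n), ¬ H.IsContained Γ ∧
        (n : ℝ) ^ ((3 : ℝ) / 2 + 1 / 100000) ≤ (Γ.edgeSet.ncard : ℝ)) ∧
      (∃ Γ : SimpleGraph (Fin n), ¬ (SimpleGraph.cycleGraph 4).IsContained Γ ∧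
        (n : ℝ) ^ ((3 : ℝ) / 2) ≤ 23 * (Γ.edgeSet.ncard : ℝ)) ∧
      (∀ Γ : SimpleGraph (Fin n), ¬ (SimpleGraph.cycleGraph 4).IsContained Γ →
        ¬ H.IsContained Γ → (Γ.edgeSet.ncard : ℝ) ≤ (n : ℝ) ^ ((3 : ℝ) / 2 - γ)) := by
  classical
  obtain ⟨M, hM2, n1, hn1⟩ := exists_rel2
  obtain ⟨B, m, hB, hdense⟩ := dense_embed M (by omega)
  set γ : ℝ := 1 / (4 * (m + 1)) with hγ
  have hγpos : 0 < γ := by positivity
  obtain ⟨n2, hn2⟩ : ∃ n2 : ℕ, ∀ n : ℕ, n2 ≤ n → B ≤ (n : ℝ) ^ ((1 : ℝ) / 4) := by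
    have h := (tendsto_rpow_atTop (y := (1 : ℝ) / 4) (by norm_num)).comp
      tendsto_natCast_atTop_atTop
    have h2 := h.eventually_ge_atTop B
    obtain ⟨n2, h3⟩ := Filter.eventually_atTop.mp h2
    exact ⟨n2, fun n hn => h3 n hn⟩
  refine ⟨Fintype.card (V2 M), (H2 M).overFin rfl, γ, hγpos, ?_, ?_, ?_, max (max n1 n2) 8, ?_⟩
  · exact ((H2 M).overFinIso rfl).connected_iff.mp (H2_connected M (by omega))
  · intro h
    exact H2_not_acyclic M hM2 (((H2 M).overFinIso rfl).isAcyclic_iff.mpr h)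
  · obtain ⟨C⟩ := H2_colorable M
    exact ⟨C.comp ((H2 M).overFinIso rfl).symm.toHom⟩
  intro n hn
  have hn1' : n1 ≤ n := (le_max_left _ _).trans ((le_max_left _ _).trans hn)
  have hn2' : n2 ≤ n := (le_max_right _ _).trans ((le_max_left _ _).trans hn)
  have hn8 : 8 ≤ n := (le_max_right _ _).trans hn
  have hnR : (8 : ℝ) ≤ n := by exact_mod_cast hn8
  have hnpos : (0 : ℝ) < n := by linarith
  refine ⟨?_, c4host n hn8, ?_⟩
  · obtain ⟨R, hsym, hconf, hcount⟩ := hn1 n hn1'
    let Γ : SimpleGraph (Fin n) :=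
      { Adj := fun u v => u ≠ v ∧ R u v
        symm := ⟨fun u v h => ⟨h.1.symm, hsym _ _ h.2⟩⟩
        loopless := ⟨fun u h => h.1 rfl⟩ }
    refine ⟨Γ, ?_, ?_⟩
    · rw [contained_iff]
      rintro ⟨f, hf, hpar⟩
      apply hconf
      refine ⟨fun i => f (V2.b (false, false, i)), fun i => f (V2.b (false, true, i)),
        fun i => f (V2.b (true, false, i)), fun i => f (V2.b (true, true, i)),
        fun p => f (V2.z false p), fun p => f (V2.z true p), fun q => f (V2.r q),
        ?_, ?_, ?_, ?_, ?_, ?_⟩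
      · rintro ((i | i) | i) ((j | j) | j) h <;> simp only [Sum.elim_inl, Sum.elim_inr] at h <;>
          have h' := hf h <;> simp at h' <;> simp [h']
      · rintro ((i | i) | i) ((j | j) | j) h <;> simp only [Sum.elim_inl, Sum.elim_inr] at h <;>
          have h' := hf h <;> simp at h' <;> simp [h']
      · rintro ((i | i) | i) ((j | j) | j) h <;> simp only [Sum.elim_inl, Sum.elim_inr] at h <;>
          have h' := hf h <;> simp at h' <;> simp [h']
      · intro p
        exact ⟨(hpar _ _ (show par2 (V2.z false p) (V2.b (false, false, p.1)) from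
          Or.inl rfl)).2, (hpar _ _ (show par2 (V2.z false p) (V2.b (false, true, p.2)) from
          Or.inr rfl)).2⟩
      · intro p
        exact ⟨(hpar _ _ (show par2 (V2.z true p) (V2.b (true, false, p.1)) from
          Or.inl rfl)).2, (hpar _ _ (show par2 (V2.z true p) (V2.b (true, true, p.2)) from
          Or.inr rfl)).2⟩
      · intro q
        exact ⟨(hpar _ _ (show par2 (V2.r q) (V2.z false q.1) from rfl)).2,
          (hpar _ _ (show par2 (V2.r q) (V2.z true q.2) from rfl)).2⟩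
    · have h1 := sum_dg_eq Γ
      have h2 : ∑ v, dg Γ.Adj v = ∑ u : Fin n, ∑ v : Fin n,
          (if u ≠ v ∧ R u v then (1 : ℝ) else 0) := by
        unfold dg ind
        refine Finset.sum_congr rfl (fun u _ => Finset.sum_congr rfl (fun v _ => ?_))
        congr
      linarith
  · intro Γ hC4 hH
    by_contra hcon
    have hcon' : (n : ℝ) ^ ((3 : ℝ) / 2 - γ) < (Γ.edgeSet.ncard : ℝ) := not_le.mp hcon
    apply hH
    rw [contained_iff]
    set s : ℝ := Real.sqrt n with hs
    have hspos : 0 < s := Real.sqrt_pos.mpr hnpos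
    have hs2 : (n : ℝ) = s ^ 2 := (Real.sq_sqrt hnpos.le).symm
    set c : ℝ := (n : ℝ) ^ (-γ) with hc
    have hcpos : 0 < c := Real.rpow_pos_of_pos hnpos _
    have hc1 : c ≤ 1 := by
      rw [hc]
      exact Real.rpow_le_one_of_one_le_of_nonpos (by linarith) (by linarith)
    have hs3 : s ^ 3 = (n : ℝ) ^ ((3 : ℝ) / 2) := by
      rw [hs, Real.sqrt_eq_rpow, ← Real.rpow_natCast, ← Real.rpow_mul hnpos.le]
      norm_num
    have hcs : 2 * c * s ^ 3 ≤ ∑ v, dg Γ.Adj v := by
      rw [sum_dg_eq Γ, hs3, hc]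
      have e : (n : ℝ) ^ ((3 : ℝ) / 2 - γ) = (n : ℝ) ^ (-γ) * (n : ℝ) ^ ((3 : ℝ) / 2) := by
        rw [← Real.rpow_add hnpos]
        congr 1
        ring
      rw [e] at hcon'
      linarith
    have hBs : B ≤ s * c ^ m := by
      refine (hn2 n hn2').trans ?_
      rw [hs, hc, Real.sqrt_eq_rpow, ← Real.rpow_natCast, ← Real.rpow_mul hnpos.le,
        ← Real.rpow_add hnpos]
      refine Real.rpow_le_rpow_of_exponent_le (by linarith) ?_
      have h1 : γ * m ≤ 1 / 4 := by
        rw [hγ, div_mul_eq_mul_div, div_le_div_iff₀ (by positivity) (by norm_num)]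
        have : (0 : ℝ) ≤ m := by positivity
        linarith
      linarith
    exact hdense (Fin n) Γ.Adj (fun a b h => h.symm) (fun a h => Γ.irrefl h)
      (noC4_of_free Γ hC4) s c (by rw [Fintype.card_fin]; exact hs2) hspos hcpos hc1 hcs hBs

end Run7.h970
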