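import Pool.Agent.Run7.h970.Count

set_option autoImplicit false

/-!
# Repeated convexity: blow-ups of a dense 4-ary relation
-/

namespace Run7.h970

open Finset

theorem jensen_step {A B : Type} [Fintype A] [Fintype B] [DecidableEq B] (M : ℕ) (hM : 0 < M)
    (h : A → B → ℝ) (h0 : ∀ a b, 0 ≤ h a b) (κ : ℝ) (hκ : 0 ≤ κ)
    (H : κ * ((Fintype.card A : ℝ) * Fintype.card B) ≤ ∑ a, ∑ b, h a b) :
    κ ^ M * ((Fintype.card A : ℝ) * (Fintype.card B : ℝ) ^ M)
      ≤ ∑ a, ∑ b : Fin M → B, ∏ j, h a (b j) := by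
  classical
  have h1 : ∀ a, ∑ b : Fin M → B, ∏ j, h a (b j) = (∑ b, h a b) ^ M := by
    intro a
    rw [Fintype.sum_pow]
  simp_rw [h1]
  obtain ⟨m, rfl⟩ : ∃ m, M = m + 1 := ⟨M - 1, by omega⟩
  have h2 := pow_sum_le_card_mul_sum_pow (s := (Finset.univ : Finset A))
    (f := fun a => ∑ b, h a b) (fun a _ => Finset.sum_nonneg (fun b _ => h0 a b)) m
  rw [Finset.card_univ] at h2
  rcases Nat.eq_zero_or_pos (Fintype.card A) with hA | hA
  · rw [hA]
    simp only [Nat.cast_zero, zero_mul, mul_zero]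
    exact Finset.sum_nonneg (fun a _ => pow_nonneg (Finset.sum_nonneg (fun b _ => h0 a b)) _)
  · have hAR : (0 : ℝ) < Fintype.card A := by exact_mod_cast hA
    have hpos : (0 : ℝ) < (Fintype.card A : ℝ) ^ m := by positivity
    refine le_of_mul_le_mul_left ?_ hpos
    refine le_trans ?_ h2
    calc (Fintype.card A : ℝ) ^ m * (κ ^ (m + 1) *
          ((Fintype.card A : ℝ) * (Fintype.card B : ℝ) ^ (m + 1)))
        = (κ * ((Fintype.card A : ℝ) * Fintype.card B)) ^ (m + 1) := by ring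
      _ ≤ _ := by
        refine pow_le_pow_left₀ (by positivity) H _

theorem jensen3 {A1 A2 A3 B : Type} [Fintype A1] [Fintype A2] [Fintype A3] [Fintype B]
    [DecidableEq B] (M : ℕ) (hM : 0 < M)
    (h : A1 → A2 → A3 → B → ℝ) (h0 : ∀ a1 a2 a3 b, 0 ≤ h a1 a2 a3 b) (κ : ℝ) (hκ : 0 ≤ κ)
    (H : κ * ((Fintype.card A1 : ℝ) * Fintype.card A2 * Fintype.card A3 * Fintype.card B)
      ≤ ∑ a1, ∑ a2, ∑ a3, ∑ b, h a1 a2 a3 b) :
    κ ^ M * ((Fintype.card (Fin M → B) : ℝ) * Fintype.card A1 * Fintype.card A2 *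
        Fintype.card A3)
      ≤ ∑ b : Fin M → B, ∑ a1, ∑ a2, ∑ a3, ∏ j, h a1 a2 a3 (b j) := by
  classical
  have key := jensen_step (A := A1 × A2 × A3) (B := B) M hM
    (fun a b => h a.1 a.2.1 a.2.2 b) (fun a b => h0 _ _ _ _) κ hκ (by
      rw [Fintype.card_prod, Fintype.card_prod]
      push_cast
      rw [Fintype.sum_prod_type]
      simp_rw [Fintype.sum_prod_type]
      refine le_trans (le_of_eq ?_) H
      ring)
  have e1 : ∑ b : Fin M → B, ∑ a1, ∑ a2, ∑ a3, ∏ j, h a1 a2 a3 (b j)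
      = ∑ a : A1 × A2 × A3, ∑ b : Fin M → B, ∏ j, h a.1 a.2.1 a.2.2 (b j) := by
    rw [Finset.sum_comm]
    rw [Fintype.sum_prod_type]
    refine Finset.sum_congr rfl (fun a1 _ => ?_)
    rw [Finset.sum_comm]
    rw [Fintype.sum_prod_type]
    refine Finset.sum_congr rfl (fun a2 _ => ?_)
    rw [Finset.sum_comm]
  rw [e1]
  refine le_trans (le_of_eq ?_) key
  rw [Fintype.card_prod, Fintype.card_prod, Fintype.card_fun, Fintype.card_fin]
  push_cast
  ring

/-- The blow-up count. -/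
theorem jensen_four {V : Type} [Fintype V] [DecidableEq V] (M : ℕ) (hM : 0 < M)
    (G : V → V → V → V → Prop) [∀ a b c d, Decidable (G a b c d)] (κ : ℝ) (hκ : 0 ≤ κ)
    (H : κ * (Fintype.card V : ℝ) ^ 4
      ≤ ∑ a, ∑ b, ∑ a', ∑ b', (if G a b a' b' then (1 : ℝ) else 0)) :
    κ ^ (M ^ 4) * (Fintype.card V : ℝ) ^ (4 * M)
      ≤ ∑ x : Fin M → V, ∑ y : Fin M → V, ∑ x' : Fin M → V, ∑ y' : Fin M → V,
        (if (∀ i j i' j', G (x i) (y j) (x' i') (y' j')) then (1 : ℝ) else 0) := by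
  classical
  let g0 : V → V → V → V → ℝ := fun a b a' b' => if G a b a' b' then (1 : ℝ) else 0
  have g0n : ∀ a b a' b', 0 ≤ g0 a b a' b' := by
    intro a b a' b'
    simp only [g0]
    split_ifs <;> norm_num
  have s1 := jensen3 M hM g0 g0n κ hκ (by
    refine le_trans (le_of_eq ?_) H
    ring)
  let g1 : (Fin M → V) → V → V → V → ℝ := fun y' a b a' => ∏ j', g0 a b a' (y' j')
  have g1n : ∀ y' a b a', 0 ≤ g1 y' a b a' := fun y' a b a' =>
    Finset.prod_nonneg (fun j _ => g0n _ _ _ _)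
  have s2 := jensen3 M hM g1 g1n (κ ^ M) (by positivity) s1
  let g2 : (Fin M → V) → (Fin M → V) → V → V → ℝ := fun x' y' a b => ∏ i', g1 y' a b (x' i')
  have g2n : ∀ x' y' a b, 0 ≤ g2 x' y' a b := fun x' y' a b =>
    Finset.prod_nonneg (fun j _ => g1n _ _ _ _)
  have s3 := jensen3 M hM g2 g2n ((κ ^ M) ^ M) (by positivity) s2
  let g3 : (Fin M → V) → (Fin M → V) → (Fin M → V) → V → ℝ :=
    fun y x' y' a => ∏ j, g2 x' y' a (y j)
  have g3n : ∀ y x' y' a, 0 ≤ g3 y x' y' a := fun y x' y' a =>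
    Finset.prod_nonneg (fun j _ => g2n _ _ _ _)
  have s4 := jensen3 M hM g3 g3n (((κ ^ M) ^ M) ^ M) (by positivity) s3
  refine le_trans (le_of_eq ?_) (le_trans s4 (le_of_eq ?_))
  · rw [Fintype.card_fun, Fintype.card_fin]
    push_cast
    ring
  · refine Finset.sum_congr rfl (fun x _ => Finset.sum_congr rfl (fun y _ =>
      Finset.sum_congr rfl (fun x' _ => Finset.sum_congr rfl (fun y' _ => ?_))))
    simp only [g3, g2, g1, g0]
    by_cases hall : ∀ i j i' j', G (x i) (y j) (x' i') (y' j')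
    · rw [if_pos hall]
      refine Finset.prod_eq_one (fun i _ => Finset.prod_eq_one (fun j _ =>
        Finset.prod_eq_one (fun i' _ => Finset.prod_eq_one (fun j' _ => ?_))))
      rw [if_pos (hall i j i' j')]
    · rw [if_neg hall]
      push Not at hall
      obtain ⟨i, j, i', j', hn⟩ := hall
      refine Finset.prod_eq_zero (Finset.mem_univ i) (Finset.prod_eq_zero (Finset.mem_univ j)
        (Finset.prod_eq_zero (Finset.mem_univ i') (Finset.prod_eq_zero (Finset.mem_univ j') ?_)))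
      rw [if_neg hn]

end Run7.h970
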