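import Pool.Agent.Run7.h970.Count

set_option autoImplicit false

/-!
# Counting independent sets in a graph with supersaturation
-/

namespace Run7.h970

open Finset

/-- Independent sets of size `k` inside `S`. -/
noncomputable def ind {V : Type} (adj : V → V → Prop) (k : ℕ) (S : Finset V) :
    Finset (Finset V) := by
  classical
  exact (S.powersetCard k).filter (fun I => ∀ x ∈ I, ∀ y ∈ I, x ≠ y → ¬ adj x y)

theorem mem_ind {V : Type} (adj : V → V → Prop) (k : ℕ) (S I : Finset V) :
    I ∈ ind adj k S ↔ (I ⊆ S ∧ I.card = k) ∧ ∀ x ∈ I, ∀ y ∈ I, x ≠ y → ¬ adj x y := by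
  classical
  unfold ind
  rw [Finset.mem_filter, Finset.mem_powersetCard]

theorem ind_card_le {V : Type} (adj : V → V → Prop) (k : ℕ) (S : Finset V) :
    (ind adj k S).card ≤ S.card.choose k := by
  classical
  unfold ind
  rw [← Finset.card_powersetCard]
  exact Finset.card_filter_le _ _

/-- The part of `S` not related to `x`. -/
noncomputable def nonnb {V : Type} (adj : V → V → Prop) (x : V) (S : Finset V) : Finset V := by
  classical
  exact S.filter (fun y => ¬ adj x y)

theorem mem_nonnb {V : Type} (adj : V → V → Prop) (x : V) (S : Finset V) (y : V) :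
    y ∈ nonnb adj x S ↔ y ∈ S ∧ ¬ adj x y := by
  classical
  unfold nonnb
  rw [Finset.mem_filter]

theorem ind_rec {V : Type} [DecidableEq V] (adj : V → V → Prop) (k : ℕ) (S : Finset V) (x : V) :
    (ind adj (k + 1) S).card ≤ (ind adj (k + 1) (S.erase x)).card
      + (ind adj k (nonnb adj x S)).card := by
  classical
  have hsub : ind adj (k + 1) S ⊆ ind adj (k + 1) (S.erase x) ∪
      (ind adj k (nonnb adj x S)).image (insert x) := by
    intro I hI
    rw [mem_ind] at hI
    obtain ⟨⟨h1, h2⟩, h3⟩ := hI
    rw [Finset.mem_union]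
    by_cases hx : x ∈ I
    · right
      rw [Finset.mem_image]
      refine ⟨I.erase x, ?_, Finset.insert_erase hx⟩
      rw [mem_ind]
      refine ⟨⟨?_, ?_⟩, ?_⟩
      · intro y hy
        rw [Finset.mem_erase] at hy
        rw [mem_nonnb]
        exact ⟨h1 hy.2, h3 x hx y hy.2 (fun h => hy.1 h.symm)⟩
      · rw [Finset.card_erase_of_mem hx, h2]; rfl
      · intro y hy z hz hyz
        exact h3 y (Finset.mem_of_mem_erase hy) z (Finset.mem_of_mem_erase hz) hyz
    · left
      rw [mem_ind]
      refine ⟨⟨?_, h2⟩, h3⟩
      intro y hy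
      rw [Finset.mem_erase]
      exact ⟨fun h => hx (h ▸ hy), h1 hy⟩
  refine (Finset.card_le_card hsub).trans ((Finset.card_union_le _ _).trans ?_)
  exact Nat.add_le_add_left Finset.card_image_le _

/-- The Kleitman and Winston bound. -/
theorem kw {V : Type} [DecidableEq V] (adj : V → V → Prop) (hrefl : ∀ x, adj x x)
    (β : ℝ) (hβ1 : β ≤ 1) (M0 : ℕ)
    (hss : ∀ S : Finset V, M0 < S.card → ∃ x ∈ S,
      ((nonnb adj x S).card : ℝ) ≤ (1 - β) * S.card) :
    ∀ (S : Finset V) (r k : ℕ), (1 - β) ^ r * (S.card : ℝ) < M0 + 1 →
      (ind adj k S).card ≤ ∑ j ∈ Finset.range (r + 1), S.card.choose j * M0.choose (k - j) := by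
  classical
  intro S
  induction S using Finset.strongInduction with
  | H S ih =>
    intro r k hr
    rcases Nat.lt_or_ge M0 S.card with hS | hS
    · obtain ⟨x, hxS, hx⟩ := hss S hS
      have hr0 : r ≠ 0 := by
        rintro rfl
        rw [pow_zero, one_mul] at hr
        have h1 : (M0 : ℝ) + 1 ≤ S.card := by exact_mod_cast hS
        linarith
      obtain ⟨r', rfl⟩ := Nat.exists_eq_succ_of_ne_zero hr0
      cases k with
      | zero =>
        have h1 := ind_card_le adj 0 S
        rw [Nat.choose_zero_right] at h1
        refine h1.trans ?_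
        have h2 := Finset.single_le_sum (f := fun j => S.card.choose j * M0.choose (0 - j))
          (s := Finset.range (r'.succ + 1)) (fun j _ => Nat.zero_le _)
          (Finset.mem_range.mpr (Nat.succ_pos r'.succ))
        simpa using h2
      | succ k =>
        have hpos : 0 < S.card := Finset.card_pos.mpr ⟨x, hxS⟩
        obtain ⟨t, ht⟩ := Nat.exists_eq_succ_of_ne_zero hpos.ne'
        have hc1 : (S.erase x).card = t := by
          rw [Finset.card_erase_of_mem hxS, ht]; rfl
        have hsub2 : nonnb adj x S ⊆ S.erase x := by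
          intro y hy
          rw [mem_nonnb] at hy
          rw [Finset.mem_erase]
          refine ⟨?_, hy.1⟩
          rintro rfl
          exact hy.2 (hrefl y)
        have hc2 : (nonnb adj x S).card ≤ t := hc1 ▸ Finset.card_le_card hsub2
        have h1β : 0 ≤ 1 - β := by linarith
        have ih1 := ih (S.erase x) (Finset.erase_ssubset hxS) r'.succ (k + 1) (by
          refine lt_of_le_of_lt ?_ hr
          refine mul_le_mul_of_nonneg_left ?_ (by positivity)
          exact_mod_cast Finset.card_erase_le)
        have ih2 := ih (nonnb adj x S) (lt_of_le_of_lt hsub2 (Finset.erase_ssubset hxS)) r' k (by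
          refine lt_of_le_of_lt ?_ hr
          calc (1 - β) ^ r' * ((nonnb adj x S).card : ℝ)
              ≤ (1 - β) ^ r' * ((1 - β) * S.card) :=
                mul_le_mul_of_nonneg_left hx (by positivity)
            _ = (1 - β) ^ r'.succ * S.card := by rw [pow_succ]; ring)
        refine (ind_rec adj k S x).trans ?_
        rw [hc1] at ih1
        have ih2' : (ind adj k (nonnb adj x S)).card
            ≤ ∑ j ∈ Finset.range (r' + 1), t.choose j * M0.choose (k - j) := by
          refine ih2.trans (Finset.sum_le_sum (fun j _ => ?_))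
          exact Nat.mul_le_mul_right _ (Nat.choose_le_choose j hc2)
        refine (Nat.add_le_add ih1 ih2').trans (le_of_eq ?_)
        rw [ht]
        rw [Finset.sum_range_succ' (fun j => t.choose j * M0.choose (k + 1 - j)) (r' + 1),
          Finset.sum_range_succ' (fun j => t.succ.choose j * M0.choose (k + 1 - j)) (r' + 1)]
        simp only [Nat.choose_zero_right, one_mul]
        have : ∀ j ∈ Finset.range (r' + 1), t.succ.choose (j + 1) * M0.choose (k + 1 - (j + 1))
            = t.choose (j + 1) * M0.choose (k + 1 - (j + 1)) + t.choose j * M0.choose (k - j) := by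
          intro j _
          have e : k + 1 - (j + 1) = k - j := by omega
          rw [e, Nat.choose_succ_succ]
          ring
        rw [Finset.sum_congr rfl this, Finset.sum_add_distrib]
        ring
    · refine (ind_card_le adj k S).trans ((Nat.choose_le_choose k hS).trans ?_)
      have h2 := Finset.single_le_sum (f := fun j => S.card.choose j * M0.choose (k - j))
          (s := Finset.range (r + 1)) (fun j _ => Nat.zero_le _)
          (Finset.mem_range.mpr (Nat.succ_pos r))
      simpa using h2

/-- Tuples with pairwise unrelated entries. -/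
theorem tuples_le {V : Type} [Fintype V] [DecidableEq V] (adj : V → V → Prop)
    (hrefl : ∀ x, adj x x) (n : ℕ) (T : Finset (Fin n → V))
    (hT : ∀ η ∈ T, ∀ i j, i ≠ j → ¬ adj (η i) (η j)) :
    T.card ≤ n.factorial * (ind adj n Finset.univ).card := by
  classical
  have hinj : ∀ η ∈ T, Function.Injective η := by
    intro η hη i j hij
    by_contra hne
    refine hT η hη i j hne ?_
    rw [hij]
    exact hrefl _
  have h1 := Finset.card_le_mul_card_image (f := fun η : Fin n → V => Finset.univ.image η)
    T n.factorial (by
      intro I hI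
      obtain ⟨η0, hη0, rfl⟩ := Finset.mem_image.mp hI
      have hcardI : (Finset.univ.image η0).card = n := by
        rw [Finset.card_image_of_injective _ (hinj η0 hη0), Finset.card_univ, Fintype.card_fin]
      set I := Finset.univ.image η0 with hIdef
      have hmem : ∀ η ∈ T.filter (fun η => Finset.univ.image η = I), ∀ i, η i ∈ I := by
        intro η hη i
        rw [← (Finset.mem_filter.mp hη).2]
        exact Finset.mem_image_of_mem _ (Finset.mem_univ _)
      let Φ : {η // η ∈ T.filter (fun η => Finset.univ.image η = I)} → (Fin n ↪ {x // x ∈ I}) :=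
        fun η => ⟨fun i => ⟨η.1 i, hmem η.1 η.2 i⟩, by
          intro i j hij
          exact hinj η.1 (Finset.mem_filter.mp η.2).1 (congrArg Subtype.val hij)⟩
      have hΦ : Function.Injective Φ := by
        intro η ζ h
        apply Subtype.ext
        funext i
        have := congrArg (fun e : Fin n ↪ {x // x ∈ I} => (e i).1) h
        exact this
      have h2 := Fintype.card_le_of_injective Φ hΦ
      rw [Fintype.card_coe, Fintype.card_embedding_eq, Fintype.card_coe, hcardI,
        Fintype.card_fin, Nat.descFactorial_self] at h2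
      exact h2)
  refine h1.trans (Nat.mul_le_mul_left _ (Finset.card_le_card ?_))
  intro I hI
  obtain ⟨η, hη, rfl⟩ := Finset.mem_image.mp hI
  rw [mem_ind]
  refine ⟨⟨Finset.subset_univ _, ?_⟩, ?_⟩
  · rw [Finset.card_image_of_injective _ (hinj η hη), Finset.card_univ, Fintype.card_fin]
  · intro x hx y hy hxy
    obtain ⟨i, _, rfl⟩ := Finset.mem_image.mp hx
    obtain ⟨j, _, rfl⟩ := Finset.mem_image.mp hy
    exact hT η hη i j (fun h => hxy (by rw [h]))

theorem factorial_mul_choose_le (a j : ℕ) : j.factorial * a.choose j ≤ a ^ j := by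
  rw [← Nat.descFactorial_eq_factorial_mul_choose]
  exact Nat.descFactorial_le_pow a j

/-- Few tuples are pairwise unrelated. -/
theorem tuples_bound {V : Type} [Fintype V] [DecidableEq V] (adj : V → V → Prop)
    (hrefl : ∀ x, adj x x) (β : ℝ) (hβ1 : β ≤ 1) (M0 : ℕ)
    (hss : ∀ S : Finset V, M0 < S.card → ∃ x ∈ S,
      ((nonnb adj x S).card : ℝ) ≤ (1 - β) * S.card)
    (hM0 : M0 ≤ Fintype.card V)
    (r n : ℕ) (hrn : r ≤ n) (hr : (1 - β) ^ r * (Fintype.card V : ℝ) < M0 + 1)
    (T : Finset (Fin n → V)) (hT : ∀ η ∈ T, ∀ i j, i ≠ j → ¬ adj (η i) (η j)) :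
    T.card ≤ 2 ^ n * ((Fintype.card V) ^ r * M0 ^ (n - r)) := by
  classical
  have h1 := tuples_le adj hrefl n T hT
  have h2 := kw adj hrefl β hβ1 M0 hss Finset.univ r n (by rw [Finset.card_univ]; exact hr)
  rw [Finset.card_univ] at h2
  refine h1.trans ((Nat.mul_le_mul_left _ h2).trans ?_)
  rw [Finset.mul_sum]
  have h3 : ∀ j ∈ Finset.range (r + 1),
      n.factorial * ((Fintype.card V).choose j * M0.choose (n - j))
        ≤ n.choose j * ((Fintype.card V) ^ r * M0 ^ (n - r)) := by
    intro j hj
    have hj' : j ≤ r := Nat.lt_succ_iff.mp (Finset.mem_range.mp hj)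
    have hjn : j ≤ n := hj'.trans hrn
    rw [← Nat.choose_mul_factorial_mul_factorial hjn]
    calc n.choose j * j.factorial * (n - j).factorial *
          ((Fintype.card V).choose j * M0.choose (n - j))
        = n.choose j * ((j.factorial * (Fintype.card V).choose j) *
            ((n - j).factorial * M0.choose (n - j))) := by ring
      _ ≤ n.choose j * ((Fintype.card V) ^ j * M0 ^ (n - j)) := by
          refine Nat.mul_le_mul_left _ (Nat.mul_le_mul ?_ ?_)
          · exact factorial_mul_choose_le _ _
          · exact factorial_mul_choose_le _ _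
      _ ≤ _ := by
          refine Nat.mul_le_mul_left _ ?_
          have e1 : n - j = (r - j) + (n - r) := by omega
          have e2 : (Fintype.card V) ^ r = (Fintype.card V) ^ j * (Fintype.card V) ^ (r - j) := by
            rw [← pow_add]; congr 1; omega
          rw [e1, pow_add, e2, mul_assoc]
          exact Nat.mul_le_mul_left _ (Nat.mul_le_mul_right _ (Nat.pow_le_pow_left hM0 _))
  refine (Finset.sum_le_sum h3).trans ?_
  rw [← Finset.sum_mul]
  refine Nat.mul_le_mul_right _ ?_
  rw [← Nat.sum_range_choose]
  exact Finset.sum_le_sum_of_subset (Finset.range_subset_range.mpr (by omega))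

end Run7.h970
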