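import Pool.Agent.Run7.h970.Pow3
import Pool.Agent.Run7.h970.Graph

set_option autoImplicit false

/-!
# The lift to uniformity `k + 3`
-/

namespace Run7.h970

open Finset

/-- The host set of a triple and a vector of further indices. -/
def hx {k N : ℕ} (t : Fin N × Fin N × Fin N) (w : Fin k → Fin N) : Fin (k + 3) → Fin N :=
  Fin.cons t.1 (Fin.cons t.2.1 (Fin.cons t.2.2 w))

theorem hx_inj {k N : ℕ} (t t' : Fin N × Fin N × Fin N) (w w' : Fin k → Fin N)
    (h : hx t w = hx t' w') : t = t' ∧ w = w' := by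
  unfold hx at h
  obtain ⟨h1, h2⟩ := Fin.cons_injective2 h
  obtain ⟨h3, h4⟩ := Fin.cons_injective2 h2
  obtain ⟨h5, h6⟩ := Fin.cons_injective2 h4
  exact ⟨Prod.ext h1 (Prod.ext h3 h5), h6⟩

theorem hx_zero {k N : ℕ} (t : Fin N × Fin N × Fin N) (w : Fin k → Fin N) :
    hx t w 0 = t.1 := rfl

theorem hx_one {k N : ℕ} (t : Fin N × Fin N × Fin N) (w : Fin k → Fin N) :
    hx t w 1 = t.2.1 := rfl

theorem hx_two {k N : ℕ} (t : Fin N × Fin N × Fin N) (w : Fin k → Fin N) :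
    hx t w 2 = t.2.2 := rfl

/-- The edge of a choice of one vertex per part. -/
def ed {r N n : ℕ} (ι : Fin r × Fin N ↪ Fin n) (x : Fin r → Fin N) : Finset (Fin n) :=
  Finset.univ.map ⟨fun j => ι (j, x j), fun i j h => by
    have := ι.injective h
    exact congrArg Prod.fst this⟩

theorem mem_ed {r N n : ℕ} (ι : Fin r × Fin N ↪ Fin n) (x : Fin r → Fin N) (u : Fin n) :
    u ∈ ed ι x ↔ ∃ j, ι (j, x j) = u := by
  unfold ed
  rw [Finset.mem_map]
  constructor
  · rintro ⟨j, -, hj⟩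
    exact ⟨j, hj⟩
  · rintro ⟨j, hj⟩
    exact ⟨j, Finset.mem_univ _, hj⟩

theorem ed_card {r N n : ℕ} (ι : Fin r × Fin N ↪ Fin n) (x : Fin r → Fin N) :
    (ed ι x).card = r := by
  unfold ed
  rw [Finset.card_map, Finset.card_univ, Fintype.card_fin]

theorem ed_inj {r N n : ℕ} (ι : Fin r × Fin N ↪ Fin n) (x x' : Fin r → Fin N)
    (h : ed ι x = ed ι x') : x = x' := by
  funext j
  have h1 : ι (j, x j) ∈ ed ι x' := by rw [← h, mem_ed]; exact ⟨j, rfl⟩
  rw [mem_ed] at h1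
  obtain ⟨i, hi⟩ := h1
  have h2 := ι.injective hi
  have h3 : i = j := congrArg Prod.fst h2
  have h4 : x' i = x j := congrArg Prod.snd h2
  rw [← h4, h3]

/-- The host hypergraph. -/
noncomputable def HR {k N n : ℕ} (ι : Fin (k + 3) × Fin N ↪ Fin n)
    (R : Fin 3 × Fin N → Fin 3 × Fin N → Prop) : Finset (Finset (Fin n)) :=
  (triples R ×ˢ (Finset.univ : Finset (Fin k → Fin N))).map
    ⟨fun tw => ed ι (hx tw.1 tw.2), fun a b h => by
      obtain ⟨h1, h2⟩ := hx_inj _ _ _ _ (ed_inj ι _ _ h)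
      exact Prod.ext h1 h2⟩

theorem HR_card {k N n : ℕ} (ι : Fin (k + 3) × Fin N ↪ Fin n)
    (R : Fin 3 × Fin N → Fin 3 × Fin N → Prop) :
    (HR ι R).card = (triples R).card * N ^ k := by
  unfold HR
  rw [Finset.card_map, Finset.card_product, Finset.card_univ, Fintype.card_fun, Fintype.card_fin,
    Fintype.card_fin]

theorem HR_uniform {k N n : ℕ} (ι : Fin (k + 3) × Fin N ↪ Fin n)
    (R : Fin 3 × Fin N → Fin 3 × Fin N → Prop) : ∀ e ∈ HR ι R, e.card = k + 3 := by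
  intro e he
  obtain ⟨tw, -, rfl⟩ := Finset.mem_map.mp he
  exact ed_card _ _

/-- What it means for two vertices to lie in a common edge of the host. -/
theorem HR_info {k N n : ℕ} (ι : Fin (k + 3) × Fin N ↪ Fin n)
    (R : Fin 3 × Fin N → Fin 3 × Fin N → Prop) (e : Finset (Fin n)) (he : e ∈ HR ι R) :
    (∀ u ∈ e, ∃ a, ι a = u) ∧
    (∀ a b, ι a ∈ e → ι b ∈ e → a ≠ b → a.1 ≠ b.1) ∧
    (∀ a b, ι a ∈ e → ι b ∈ e → a.1 = 0 → b.1 = 1 → R (0, a.2) (1, b.2)) ∧
    (∀ a b, ι a ∈ e → ι b ∈ e → a.1 = 0 → b.1 = 2 → R (0, a.2) (2, b.2)) := by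
  obtain ⟨tw, htw, rfl⟩ := Finset.mem_map.mp he
  have ht : tw.1 ∈ triples R := (Finset.mem_product.mp htw).1
  rw [mem_triples] at ht
  have key : ∀ a : Fin (k + 3) × Fin N, ι a ∈ ed ι (hx tw.1 tw.2) → a.2 = hx tw.1 tw.2 a.1 := by
    intro a ha
    rw [mem_ed] at ha
    obtain ⟨j, hj⟩ := ha
    have h1 := ι.injective hj
    rw [← h1]
  refine ⟨?_, ?_, ?_, ?_⟩
  · intro u hu
    have hu' : u ∈ ed ι (hx tw.1 tw.2) := hu
    rw [mem_ed] at hu'
    obtain ⟨j, hj⟩ := hu'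
    exact ⟨_, hj⟩
  · intro a b ha hb hab h1
    apply hab
    have h2 := key a ha
    have h3 := key b hb
    rw [← h1, ← h2] at h3
    exact Prod.ext h1 h3.symm
  · intro a b ha hb h0 h1
    have h2 := key a ha
    have h3 := key b hb
    rw [h0, hx_zero] at h2
    rw [h1, hx_one] at h3
    rw [h2, h3]
    exact ht.1
  · intro a b ha hb h0 h1
    have h2 := key a ha
    have h3 := key b hb
    rw [h0, hx_zero] at h2
    rw [h1, hx_two] at h3
    rw [h2, h3]
    exact ht.2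

/-! ### The graph -/

/-- Vertices of the graph. -/
inductive WW (r M : ℕ) : Type
  | t (c : Fin r) : WW r M
  | a (c : Fin r) (i : Fin M) : WW r M
  | s (c c1 c2 : Fin r) (p : Fin M × Fin M) : WW r M
  | u (c c1 c2 : Fin r) (q : (Fin M × Fin M) × (Fin M × Fin M)) : WW r M

/-- Three distinct colours. -/
def D3 {r : ℕ} (c c1 c2 : Fin r) : Prop := c ≠ c1 ∧ c ≠ c2 ∧ c1 ≠ c2

/-- `pa v w`: `w` is a parent of `v`. -/
def pa {r M : ℕ} : WW r M → WW r M → Prop
  | WW.t c, WW.t c' => c' < c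
  | WW.a c _, WW.t c' => c' ≠ c
  | WW.s c c1 c2 _, WW.t j => D3 c c1 c2 ∧ j ≠ c ∧ j ≠ c1 ∧ j ≠ c2
  | WW.s c c1 c2 p, WW.a j i => D3 c c1 c2 ∧ ((j = c1 ∧ i = p.1) ∨ (j = c2 ∧ i = p.2))
  | WW.u c c1 c2 _, WW.t j => D3 c c1 c2 ∧ j ≠ c ∧ j ≠ c1 ∧ j ≠ c2
  | WW.u c c1 c2 q, WW.s c' c1' c2' p =>
      D3 c c1 c2 ∧ (c' = c ∧ c1' = c1 ∧ c2' = c2) ∧ (p = q.1 ∨ p = q.2)
  | _, _ => False

/-- The rank. -/
def rw' {r M : ℕ} : WW r M → ℕ
  | WW.t c => c.val
  | WW.a _ _ => r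
  | WW.s _ _ _ _ => r + 1
  | WW.u _ _ _ _ => r + 2

theorem rw'_lt {r M : ℕ} (v w : WW r M) (h : pa v w) : rw' w < rw' v := by
  cases v <;> cases w <;> simp only [pa, rw'] at h ⊢ <;> omega

/-- The graph. -/
def GG (r M : ℕ) : SimpleGraph (WW r M) where
  Adj v w := pa v w ∨ pa w v
  symm := ⟨fun v w h => h.symm⟩
  loopless := ⟨fun v h => by
    rcases h with h | h <;> exact absurd (rw'_lt v v h) (lt_irrefl _)⟩

instance {r M : ℕ} : Finite (WW r M) := by
  let F : WW r M → (Fin r ⊕ (Fin r × Fin M)) ⊕ (((Fin r × Fin r × Fin r) × (Fin M × Fin M)) ⊕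
      ((Fin r × Fin r × Fin r) × ((Fin M × Fin M) × (Fin M × Fin M)))) := fun v =>
    match v with
    | WW.t c => Sum.inl (Sum.inl c)
    | WW.a c i => Sum.inl (Sum.inr (c, i))
    | WW.s c c1 c2 p => Sum.inr (Sum.inl ((c, c1, c2), p))
    | WW.u c c1 c2 q => Sum.inr (Sum.inr ((c, c1, c2), q))
  have hF : Function.Injective F := by
    intro v w h
    cases v <;> cases w <;> simp [F] at h <;> simp [h]
  exact Finite.of_injective F hF

/-- Colours other than three given distinct ones. -/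
theorem card_other {k : ℕ} (c c1 c2 : Fin (k + 3)) (h : D3 c c1 c2) :
    (Finset.univ.filter (fun j : Fin (k + 3) => j ≠ c ∧ j ≠ c1 ∧ j ≠ c2)).card = k := by
  obtain ⟨h1, h2, h3⟩ := h
  have e : (Finset.univ.filter (fun j : Fin (k + 3) => j ≠ c ∧ j ≠ c1 ∧ j ≠ c2))
      = ({c, c1, c2} : Finset (Fin (k + 3)))ᶜ := by
    ext j
    simp
  rw [e, Finset.card_compl, Fintype.card_fin]
  have : ({c, c1, c2} : Finset (Fin (k + 3))).card = 3 :=
    Finset.card_eq_three.mpr ⟨c, c1, c2, h1, h2, h3, rfl⟩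
  omega

theorem parents_card {k M : ℕ} (v : WW (k + 3) M) :
    ({w : WW (k + 3) M | pa v w} : Set (WW (k + 3) M)).ncard ≤ k + 2 := by
  classical
  have hcore : ∀ (S : Finset (Fin (k + 3))) (x y : WW (k + 3) M) (P : Set (WW (k + 3) M)),
      P ⊆ (insert x (insert y ((fun j => (WW.t j : WW (k + 3) M)) '' (S : Set (Fin (k + 3)))))) →
      S.card ≤ k → P.ncard ≤ k + 2 := by
    intro S x y P hP hS
    refine (Set.ncard_le_ncard hP (Set.toFinite _)).trans ?_
    refine (Set.ncard_insert_le _ _).trans ?_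
    refine Nat.succ_le_succ ?_
    refine (Set.ncard_insert_le _ _).trans ?_
    refine Nat.succ_le_succ ?_
    refine (Set.ncard_image_le (Set.toFinite _)).trans ?_
    rw [Set.ncard_coe_finset]
    exact hS
  have himg : ∀ (S : Finset (Fin (k + 3))) (P : Set (WW (k + 3) M)),
      P ⊆ ((fun j => (WW.t j : WW (k + 3) M)) '' (S : Set (Fin (k + 3)))) →
      S.card ≤ k + 2 → P.ncard ≤ k + 2 := by
    intro S P hP hS
    refine (Set.ncard_le_ncard hP (Set.toFinite _)).trans ?_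
    refine (Set.ncard_image_le (Set.toFinite _)).trans ?_
    rw [Set.ncard_coe_finset]
    exact hS
  cases v with
  | t c =>
    refine himg (Finset.Iio c) _ ?_ ?_
    · intro w hw
      cases w with
      | t c' =>
        have hw' : c' < c := hw
        exact ⟨c', by simpa using hw', rfl⟩
      | a c' i => exact hw.elim
      | s c' c1 c2 p => exact hw.elim
      | u c' c1 c2 q => exact hw.elim
    · rw [Fin.card_Iio]
      have := c.isLt
      omega
  | a c i =>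
    refine himg (Finset.univ.erase c) _ ?_ ?_
    · intro w hw
      cases w with
      | t c' =>
        have hw' : c' ≠ c := hw
        exact ⟨c', by simp [hw'], rfl⟩
      | a c' i => exact hw.elim
      | s c' c1 c2 p => exact hw.elim
      | u c' c1 c2 q => exact hw.elim
    · rw [Finset.card_erase_of_mem (Finset.mem_univ _), Finset.card_univ, Fintype.card_fin]
      omega
  | s c c1 c2 p =>
    by_cases hD : D3 c c1 c2
    · refine hcore (Finset.univ.filter (fun j : Fin (k + 3) => j ≠ c ∧ j ≠ c1 ∧ j ≠ c2))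
        (WW.a c1 p.1) (WW.a c2 p.2) _ ?_ (card_other c c1 c2 hD).le
      intro w hw
      cases w with
      | t j =>
        have hw' : D3 c c1 c2 ∧ j ≠ c ∧ j ≠ c1 ∧ j ≠ c2 := hw
        exact Or.inr (Or.inr ⟨j, by simp [hw'.2], rfl⟩)
      | a j i =>
        have hw' : D3 c c1 c2 ∧ ((j = c1 ∧ i = p.1) ∨ (j = c2 ∧ i = p.2)) := hw
        rcases hw'.2 with ⟨h1, h2⟩ | ⟨h1, h2⟩
        · left; rw [h1, h2]
        · right; left; rw [h1, h2]
      | s c' c1 c2 p => exact hw.elim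
      | u c' c1 c2 q => exact hw.elim
    · have : ({w : WW (k + 3) M | pa (WW.s c c1 c2 p) w} : Set (WW (k + 3) M)) = ∅ := by
        ext w
        constructor
        · intro hw
          cases w with
          | t j => exact absurd (And.left (show D3 c c1 c2 ∧ _ from hw)) hD
          | a j i => exact absurd (And.left (show D3 c c1 c2 ∧ _ from hw)) hD
          | s c' c1 c2 p => exact hw.elim
          | u c' c1 c2 q => exact hw.elim
        · intro hw
          exact hw.elim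
      rw [this, Set.ncard_empty]
      omega
  | u c c1 c2 q =>
    by_cases hD : D3 c c1 c2
    · refine hcore (Finset.univ.filter (fun j : Fin (k + 3) => j ≠ c ∧ j ≠ c1 ∧ j ≠ c2))
        (WW.s c c1 c2 q.1) (WW.s c c1 c2 q.2) _ ?_ (card_other c c1 c2 hD).le
      intro w hw
      cases w with
      | t j =>
        have hw' : D3 c c1 c2 ∧ j ≠ c ∧ j ≠ c1 ∧ j ≠ c2 := hw
        exact Or.inr (Or.inr ⟨j, by simp [hw'.2], rfl⟩)
      | a j i => exact hw.elim
      | s c' c1' c2' p =>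
        have hw' : D3 c c1 c2 ∧ (c' = c ∧ c1' = c1 ∧ c2' = c2) ∧ (p = q.1 ∨ p = q.2) := hw
        obtain ⟨-, ⟨h1, h2, h3⟩, h4 | h4⟩ := hw'
        · left; rw [h1, h2, h3, h4]
        · right; left; rw [h1, h2, h3, h4]
      | u c' c1 c2 q => exact hw.elim
    · have : ({w : WW (k + 3) M | pa (WW.u c c1 c2 q) w} : Set (WW (k + 3) M)) = ∅ := by
        ext w
        constructor
        · intro hw
          cases w with
          | t j => exact absurd (And.left (show D3 c c1 c2 ∧ _ from hw)) hD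
          | a j i => exact hw.elim
          | s c' c1' c2' p => exact absurd (And.left (show D3 c c1 c2 ∧ _ from hw)) hD
          | u c' c1 c2 q => exact hw.elim
        · intro hw
          exact hw.elim
      rw [this, Set.ncard_empty]
      omega

/-- The graph is `(k + 2)`-degenerate. -/
theorem GG_degenerate (k M : ℕ) : ∀ S : Set (WW (k + 3) M), S.Nonempty →
    ∃ v ∈ S, ({w : WW (k + 3) M | w ∈ S ∧ (GG (k + 3) M).Adj v w} :
      Set (WW (k + 3) M)).ncard ≤ k + 2 := by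
  intro S hS
  obtain ⟨v, hv, hmax⟩ := Set.exists_max_image S rw' (Set.toFinite S) hS
  refine ⟨v, hv, ?_⟩
  refine (Set.ncard_le_ncard ?_ (Set.toFinite _)).trans (parents_card v)
  rintro w ⟨hw1, hadj⟩
  rcases hadj with h | h
  · exact h
  · exact absurd (rw'_lt w v h) (not_lt.mpr (hmax w hw1))

/-- An embedded expansion gives the configuration. -/
theorem conf_of_copyR {k M N n : ℕ} (ι : Fin (k + 3) × Fin N ↪ Fin n)
    (R : Fin 3 × Fin N → Fin 3 × Fin N → Prop)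
    (hR : ∀ i j, R i j → R j i)
    (f : WW (k + 3) M → Fin n) (hf : Function.Injective f)
    (hg : ∀ u v, (GG (k + 3) M).Adj u v → ∃ e ∈ HR ι R, f u ∈ e ∧ f v ∈ e) :
    Conf M R := by
  classical
  -- positions in the host, for vertices with a neighbour
  have hpos : ∀ u v, (GG (k + 3) M).Adj u v → ∃ a, ι a = f u := by
    intro u v huv
    obtain ⟨e, he, hu, -⟩ := hg u v huv
    exact (HR_info ι R e he).1 _ hu
  let F : WW (k + 3) M → Fin (k + 3) × Fin N := fun u =>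
    if h : ∃ a, ι a = f u then h.choose else (0, (hpos (WW.t 0) (WW.t 1)
      (Or.inr (show (0 : Fin (k + 3)) < 1 from by
        rw [Fin.lt_def]; simp))).choose.2)
  have hF : ∀ u v, (GG (k + 3) M).Adj u v → ι (F u) = f u := by
    intro u v huv
    have h := hpos u v huv
    show ι (if h : ∃ a, ι a = f u then h.choose else _) = f u
    rw [dif_pos h]
    exact h.choose_spec
  have hedge : ∀ u v, (GG (k + 3) M).Adj u v → (F u).1 ≠ (F v).1 ∧
      ((F u).1 = 0 → (F v).1 = 1 → R (0, (F u).2) (1, (F v).2)) ∧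
      ((F u).1 = 0 → (F v).1 = 2 → R (0, (F u).2) (2, (F v).2)) := by
    intro u v huv
    obtain ⟨e, he, hu, hv⟩ := hg u v huv
    obtain ⟨-, h1, h2, h3⟩ := HR_info ι R e he
    have e1 := hF u v huv
    have e2 := hF v u huv.symm
    rw [← e1] at hu
    rw [← e2] at hv
    refine ⟨h1 _ _ hu hv ?_, h2 _ _ hu hv, h3 _ _ hu hv⟩
    intro h
    rw [h, e2] at e1
    exact huv.ne (hf e1.symm)
  have htt : ∀ c c' : Fin (k + 3), c' < c →
      (F (WW.t c : WW (k + 3) M)).1 ≠ (F (WW.t c' : WW (k + 3) M)).1 := by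
    intro c c' h
    exact (hedge (WW.t c) (WW.t c') (Or.inl h)).1
  have htinj : Function.Injective (fun c : Fin (k + 3) => (F (WW.t c : WW (k + 3) M)).1) := by
    intro c c' h
    rcases lt_trichotomy c c' with h1 | h1 | h1
    · exact absurd h.symm (htt c' c h1)
    · exact h1
    · exact absurd h (htt c c' h1)
  have htsur := Finite.injective_iff_surjective.mp htinj
  obtain ⟨c, hc⟩ := htsur 0
  obtain ⟨c1, hc1⟩ := htsur 1
  obtain ⟨c2, hc2⟩ := htsur 2
  have hc' : (F (WW.t c : WW (k + 3) M)).1 = 0 := hc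
  have hc1' : (F (WW.t c1 : WW (k + 3) M)).1 = 1 := hc1
  have hc2' : (F (WW.t c2 : WW (k + 3) M)).1 = 2 := hc2
  have n01 : (0 : Fin (k + 3)) ≠ 1 := by
    intro h
    have := congrArg Fin.val h
    simp at this
  have n02 : (0 : Fin (k + 3)) ≠ 2 := by
    intro h
    have := congrArg Fin.val h
    simp at this
    rw [Nat.mod_eq_of_lt (by omega)] at this
    omega
  have n12 : (1 : Fin (k + 3)) ≠ 2 := by
    intro h
    have := congrArg Fin.val h
    simp at this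
    rw [Nat.mod_eq_of_lt (by omega)] at this
    omega
  have hD : D3 c c1 c2 := by
    refine ⟨?_, ?_, ?_⟩
    · intro h; rw [h, hc1'] at hc'; exact n01 hc'.symm
    · intro h; rw [h, hc2'] at hc'; exact n02 hc'.symm
    · intro h; rw [h, hc2'] at hc1'; exact n12 hc1'.symm
  -- classes of the `a` vertices
  have ha : ∀ (j : Fin (k + 3)) (i : Fin M),
      (F (WW.a j i)).1 = (F (WW.t j : WW (k + 3) M)).1 := by
    intro j i
    obtain ⟨j', hj'⟩ := htsur (F (WW.a j i)).1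
    have hj'' : (F (WW.t j' : WW (k + 3) M)).1 = (F (WW.a j i)).1 := hj'
    by_cases h : j' = j
    · rw [← hj'', h]
    · exact absurd hj''.symm (hedge (WW.a j i) (WW.t j') (Or.inl h)).1
  -- classes of the `s` vertices
  have hs : ∀ p : Fin M × Fin M, (F (WW.s c c1 c2 p)).1 = 0 := by
    intro p
    obtain ⟨j', hj'⟩ := htsur (F (WW.s c c1 c2 p)).1
    have hj'' : (F (WW.t j' : WW (k + 3) M)).1 = (F (WW.s c c1 c2 p)).1 := hj'
    by_cases h0 : j' = c
    · rw [← hj'', h0, hc']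
    by_cases h1 : j' = c1
    · have e1 := (hedge (WW.s c c1 c2 p) (WW.a c1 p.1) (Or.inl ⟨hD, Or.inl ⟨rfl, rfl⟩⟩)).1
      have e2 : (F (WW.a c1 p.1)).1 = (F (WW.t j' : WW (k + 3) M)).1 := by rw [ha, h1]
      exact absurd (hj''.symm.trans e2.symm) e1
    by_cases h2 : j' = c2
    · have e1 := (hedge (WW.s c c1 c2 p) (WW.a c2 p.2) (Or.inl ⟨hD, Or.inr ⟨rfl, rfl⟩⟩)).1
      have e2 : (F (WW.a c2 p.2)).1 = (F (WW.t j' : WW (k + 3) M)).1 := by rw [ha, h2]
      exact absurd (hj''.symm.trans e2.symm) e1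
    · exact absurd hj''.symm (hedge (WW.s c c1 c2 p) (WW.t j') (Or.inl ⟨hD, h0, h1, h2⟩)).1
  -- classes of the `u` vertices
  have hu : ∀ q : (Fin M × Fin M) × (Fin M × Fin M),
      (F (WW.u c c1 c2 q)).1 = 1 ∨ (F (WW.u c c1 c2 q)).1 = 2 := by
    intro q
    obtain ⟨j', hj'⟩ := htsur (F (WW.u c c1 c2 q)).1
    have hj'' : (F (WW.t j' : WW (k + 3) M)).1 = (F (WW.u c c1 c2 q)).1 := hj'
    by_cases h0 : j' = c
    · have e1 := (hedge (WW.u c c1 c2 q) (WW.s c c1 c2 q.1)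
        (Or.inl ⟨hD, ⟨rfl, rfl, rfl⟩, Or.inl rfl⟩)).1
      rw [hs, ← hj'', h0, hc'] at e1
      exact absurd rfl e1
    by_cases h1 : j' = c1
    · left; rw [← hj'', h1, hc1']
    by_cases h2 : j' = c2
    · right; rw [← hj'', h2, hc2']
    · exact absurd hj''.symm (hedge (WW.u c c1 c2 q) (WW.t j') (Or.inl ⟨hD, h0, h1, h2⟩)).1
  -- the positions are injective on the relevant vertices
  have hFinj : ∀ u v u' v', (GG (k + 3) M).Adj u u' → (GG (k + 3) M).Adj v v' →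
      F u = F v → u = v := by
    intro u v u' v' h1 h2 h
    have e1 := hF u u' h1
    have e2 := hF v v' h2
    rw [h, e2] at e1
    exact hf e1.symm
  have nba1 : ∀ i : Fin M, (GG (k + 3) M).Adj (WW.a c1 i) (WW.t c) := fun i => Or.inl hD.1
  have nba2 : ∀ i : Fin M, (GG (k + 3) M).Adj (WW.a c2 i) (WW.t c) := fun i => Or.inl hD.2.1
  have nbs1 : ∀ p : Fin M × Fin M, (GG (k + 3) M).Adj (WW.s c c1 c2 p) (WW.a c1 p.1) :=
    fun p => Or.inl ⟨hD, Or.inl ⟨rfl, rfl⟩⟩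
  have nbs2 : ∀ p : Fin M × Fin M, (GG (k + 3) M).Adj (WW.s c c1 c2 p) (WW.a c2 p.2) :=
    fun p => Or.inl ⟨hD, Or.inr ⟨rfl, rfl⟩⟩
  have nbu1 : ∀ q : (Fin M × Fin M) × (Fin M × Fin M),
      (GG (k + 3) M).Adj (WW.u c c1 c2 q) (WW.s c c1 c2 q.1) :=
    fun q => Or.inl ⟨hD, ⟨rfl, rfl, rfl⟩, Or.inl rfl⟩
  have nbu2 : ∀ q : (Fin M × Fin M) × (Fin M × Fin M),
      (GG (k + 3) M).Adj (WW.u c c1 c2 q) (WW.s c c1 c2 q.2) :=
    fun q => Or.inl ⟨hD, ⟨rfl, rfl, rfl⟩, Or.inr rfl⟩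
  let κ : Fin (k + 3) × Fin N → Fin 3 × Fin N := fun a =>
    (if a.1 = 0 then 0 else if a.1 = 1 then 1 else 2, a.2)
  have κ0 : ∀ a : Fin (k + 3) × Fin N, a.1 = 0 → κ a = (0, a.2) := by
    intro a h; simp [κ, h]
  have κ1 : ∀ a : Fin (k + 3) × Fin N, a.1 = 1 → κ a = (1, a.2) := by
    intro a h; simp [κ, h, n01.symm]
  have κ2 : ∀ a : Fin (k + 3) × Fin N, a.1 = 2 → κ a = (2, a.2) := by
    intro a h; simp [κ, h, n02.symm, n12.symm]
  have κinj : ∀ a b : Fin (k + 3) × Fin N, (a.1 = 0 ∨ a.1 = 1 ∨ a.1 = 2) →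
      (b.1 = 0 ∨ b.1 = 1 ∨ b.1 = 2) → κ a = κ b → a = b := by
    intro a b ha hb h
    rcases ha with h1 | h1 | h1 <;> rcases hb with h2 | h2 | h2 <;>
      simp only [κ0 a, κ1 a, κ2 a, κ0 b, κ1 b, κ2 b, h1, h2, Prod.mk.injEq] at h <;>
      first
      | exact Prod.ext (h1.trans h2.symm) h.2
      | exact absurd h.1 (by decide)
  have ca1 : ∀ i, (F (WW.a c1 i)).1 = 1 := fun i => by rw [ha, hc1']
  have ca2 : ∀ i, (F (WW.a c2 i)).1 = 2 := fun i => by rw [ha, hc2']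
  refine ⟨fun i => κ (F (WW.a c1 i)), fun j => κ (F (WW.a c2 j)),
    fun p => κ (F (WW.s c c1 c2 p)), fun q => κ (F (WW.u c c1 c2 q)), ?_, ?_, ?_, ?_⟩
  · rintro ((i | i) | i) ((j | j) | j) h <;> simp only [Sum.elim_inl, Sum.elim_inr] at h
    · have h' := hFinj _ _ _ _ (nba1 i) (nba1 j)
        (κinj _ _ (Or.inr (Or.inl (ca1 _))) (Or.inr (Or.inl (ca1 _))) h)
      simp at h'; simp [h']
    · have h' := hFinj _ _ _ _ (nba1 i) (nba2 j)
        (κinj _ _ (Or.inr (Or.inl (ca1 _))) (Or.inr (Or.inr (ca2 _))) h)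
      simp [hD.2.2] at h'
    · have h' := hFinj _ _ _ _ (nba1 i) (nbs1 j)
        (κinj _ _ (Or.inr (Or.inl (ca1 _))) (Or.inl (hs _)) h)
      simp at h'
    · have h' := hFinj _ _ _ _ (nba2 i) (nba1 j)
        (κinj _ _ (Or.inr (Or.inr (ca2 _))) (Or.inr (Or.inl (ca1 _))) h)
      simp [hD.2.2.symm] at h'
    · have h' := hFinj _ _ _ _ (nba2 i) (nba2 j)
        (κinj _ _ (Or.inr (Or.inr (ca2 _))) (Or.inr (Or.inr (ca2 _))) h)
      simp at h'; simp [h']
    · have h' := hFinj _ _ _ _ (nba2 i) (nbs1 j)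
        (κinj _ _ (Or.inr (Or.inr (ca2 _))) (Or.inl (hs _)) h)
      simp at h'
    · have h' := hFinj _ _ _ _ (nbs1 i) (nba1 j)
        (κinj _ _ (Or.inl (hs _)) (Or.inr (Or.inl (ca1 _))) h)
      simp at h'
    · have h' := hFinj _ _ _ _ (nbs1 i) (nba2 j)
        (κinj _ _ (Or.inl (hs _)) (Or.inr (Or.inr (ca2 _))) h)
      simp at h'
    · have h' := hFinj _ _ _ _ (nbs1 i) (nbs1 j) (κinj _ _ (Or.inl (hs _)) (Or.inl (hs _)) h)
      simp at h'; simp [h']
  · rintro (i | i) (j | j) h <;> simp only [Sum.elim_inl, Sum.elim_inr] at h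
    · have h' := hFinj _ _ _ _ (nbs1 i) (nbs1 j) (κinj _ _ (Or.inl (hs _)) (Or.inl (hs _)) h)
      simp at h'; simp [h']
    · have h' := hFinj _ _ _ _ (nbs1 i) (nbu1 j) (κinj _ _ (Or.inl (hs _)) (Or.inr (hu _)) h)
      simp at h'
    · have h' := hFinj _ _ _ _ (nbu1 i) (nbs1 j) (κinj _ _ (Or.inr (hu _)) (Or.inl (hs _)) h)
      simp at h'
    · have h' := hFinj _ _ _ _ (nbu1 i) (nbu1 j) (κinj _ _ (Or.inr (hu _)) (Or.inr (hu _)) h)
      simp at h'; simp [h']
  · intro p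
    constructor
    · show R (κ (F (WW.s c c1 c2 p))) (κ (F (WW.a c1 p.1)))
      rw [κ0 _ (hs p), κ1 _ (ca1 p.1)]
      exact (hedge _ _ (nbs1 p)).2.1 (hs p) (ca1 p.1)
    · show R (κ (F (WW.s c c1 c2 p))) (κ (F (WW.a c2 p.2)))
      rw [κ0 _ (hs p), κ2 _ (ca2 p.2)]
      exact (hedge _ _ (nbs2 p)).2.2 (hs p) (ca2 p.2)
  · intro q
    have key : ∀ p, (GG (k + 3) M).Adj (WW.u c c1 c2 q) (WW.s c c1 c2 p) →
        R (κ (F (WW.u c c1 c2 q))) (κ (F (WW.s c c1 c2 p))) := by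
      intro p hp
      rcases hu q with h | h
      · rw [κ0 _ (hs p), κ1 _ h]
        exact hR _ _ ((hedge _ _ hp.symm).2.1 (hs p) h)
      · rw [κ0 _ (hs p), κ2 _ h]
        exact hR _ _ ((hedge _ _ hp.symm).2.2 (hs p) h)
    exact ⟨key _ (nbu1 q), key _ (nbu2 q)⟩

end Run7.h970
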