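import Pool.Agent.Run7.h970.Lift

set_option autoImplicit false

/-!
# Expansions of degenerate graphs in every uniformity
-/

namespace Run7.h970

open Filter

/-- The `r`-graph `H` on `Fin n` contains a copy of the `r`-uniform expansion of `G`: every edge
`uv` of `G` is enlarged by a set `g(uv)` of `r - 2` new vertices, these sets being disjoint from the
vertices of `G` and from each other. -/
def ContainsExpansion {V : Type} {n : ℕ} (r : ℕ) (G : SimpleGraph V)
    (H : Finset (Finset (Fin n))) : Prop :=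
  ∃ (f : V → Fin n) (g : Sym2 V → Finset (Fin n)), Function.Injective f ∧
    (∀ e ∈ G.edgeSet, (g e).card = r - 2 ∧ ∀ v, f v ∉ g e) ∧
    (∀ e ∈ G.edgeSet, ∀ e' ∈ G.edgeSet, e ≠ e' → Disjoint (g e) (g e')) ∧
    ∀ u v, G.Adj u v → insert (f u) (insert (f v) (g s(u, v))) ∈ H

/-- `ex_r(n, G⁺)`: the largest number of edges of an `r`-graph on `n` vertices that contains no copy
of the `r`-uniform expansion of `G`. -/
noncomputable def exR {V : Type} (r : ℕ) (G : SimpleGraph V) (n : ℕ) : ℕ :=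
  sSup {m | ∃ H : Finset (Finset (Fin n)), (∀ e ∈ H, e.card = r) ∧ ¬ ContainsExpansion r G H ∧
    H.card = m}

/-- Every nonempty set of vertices has a vertex with at most `d` neighbours inside the set. -/
def Degen {V : Type} (d : ℕ) (G : SimpleGraph V) : Prop :=
  ∀ S : Set V, S.Nonempty → ∃ v ∈ S, ({w : V | w ∈ S ∧ G.Adj v w}).ncard ≤ d

theorem le_exR {V : Type} (r : ℕ) (G : SimpleGraph V) (n : ℕ) (H : Finset (Finset (Fin n)))
    (h1 : ∀ e ∈ H, e.card = r) (h2 : ¬ ContainsExpansion r G H) : H.card ≤ exR r G n := by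
  refine le_csSup ⟨Fintype.card (Finset (Fin n)), ?_⟩ ⟨H, h1, h2, rfl⟩
  rintro m ⟨H', -, -, rfl⟩
  exact Finset.card_le_univ _

theorem power_gap (k : ℕ) : ∃ (V : Type) (_ : Finite V) (G : SimpleGraph V),
    Degen (k + 2) G ∧ ∀ᶠ n : ℕ in atTop,
      (n : ℝ) ^ ((k : ℝ) + 2 + 1 / 200000) ≤ (exR (k + 3) G n : ℝ) := by
  obtain ⟨M, n0, hM⟩ := exists_rel3
  refine ⟨WW (k + 3) M, inferInstance, GG (k + 3) M, GG_degenerate k M, ?_⟩
  set K : ℝ := 2 * ((k : ℝ) + 3) with hK
  have hKpos : 0 < K := by positivity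
  have hpow : Tendsto (fun n : ℕ => (n : ℝ) ^ ((1 : ℝ) / 200000)) atTop atTop :=
    (tendsto_rpow_atTop (by norm_num)).comp tendsto_natCast_atTop_atTop
  filter_upwards [eventually_ge_atTop ((k + 3) * (n0 + 2)),
    hpow.eventually_ge_atTop (K ^ ((k : ℝ) + 2 + 1 / 100000))] with n hn hn2
  set N : ℕ := n / (k + 3) with hN
  have hN1 : n0 + 2 ≤ N := by
    rw [hN, Nat.le_div_iff_mul_le (by omega)]
    linarith
  have hN2 : (k + 3) * N ≤ n := Nat.mul_div_le n (k + 3)
  have hN3 : n < (k + 3) * (N + 1) := by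
    rw [hN]
    exact Nat.lt_mul_div_succ n (by omega)
  obtain ⟨R, hsym, hconf, hcount⟩ := hM N (by omega)
  let ι : Fin (k + 3) × Fin N ↪ Fin n :=
    finProdFinEquiv.toEmbedding.trans (Fin.castLEEmb hN2)
  have hfree : ¬ ContainsExpansion (k + 3) (GG (k + 3) M) (HR ι R) := by
    rintro ⟨f, g, hf, -, -, hg⟩
    refine hconf (conf_of_copyR ι R hsym f hf (fun u v huv => ?_))
    exact ⟨_, hg u v huv, Finset.mem_insert_self _ _,
      Finset.mem_insert_of_mem (Finset.mem_insert_self _ _)⟩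
  have h1 := le_exR (k + 3) (GG (k + 3) M) n (HR ι R) (HR_uniform ι R) hfree
  rw [HR_card] at h1
  have hNpos : (0 : ℝ) < N := by
    have : 0 < N := by omega
    exact_mod_cast this
  have hnpos : (0 : ℝ) < n := by
    have : 0 < n := lt_of_lt_of_le (by positivity) hn
    exact_mod_cast this
  have h2 : (N : ℝ) ^ ((k : ℝ) + 2 + 1 / 100000) ≤ (exR (k + 3) (GG (k + 3) M) n : ℝ) := by
    have h3 : (((triples R).card * N ^ k : ℕ) : ℝ) ≤ (exR (k + 3) (GG (k + 3) M) n : ℝ) :=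
      Nat.cast_le.mpr h1
    refine le_trans ?_ h3
    push_cast
    have e : (N : ℝ) ^ ((k : ℝ) + 2 + 1 / 100000)
        = (N : ℝ) ^ ((2 : ℝ) + 1 / 100000) * (N : ℝ) ^ k := by
      rw [← Real.rpow_natCast (N : ℝ) k, ← Real.rpow_add hNpos]
      congr 1
      ring
    rw [e]
    exact mul_le_mul_of_nonneg_right hcount (by positivity)
  refine le_trans ?_ h2
  have h4 : (n : ℝ) / K ≤ N := by
    rw [div_le_iff₀ hKpos, hK]
    have h5 : (n : ℝ) ≤ ((k : ℝ) + 3) * (N + 1) := by exact_mod_cast hN3.le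
    have h6 : (1 : ℝ) ≤ N := by
      have : 1 ≤ N := by omega
      exact_mod_cast this
    have h7 : ((k : ℝ) + 3) * (N + 1) ≤ ((k : ℝ) + 3) * (N + N) :=
      mul_le_mul_of_nonneg_left (by linarith) (by positivity)
    linarith
  have h8 : ((n : ℝ) / K) ^ ((k : ℝ) + 2 + 1 / 100000) ≤ (N : ℝ) ^ ((k : ℝ) + 2 + 1 / 100000) :=
    Real.rpow_le_rpow (by positivity) h4 (by positivity)
  refine le_trans ?_ h8
  rw [Real.div_rpow hnpos.le hKpos.le, le_div_iff₀ (Real.rpow_pos_of_pos hKpos _)]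
  have e : (n : ℝ) ^ ((k : ℝ) + 2 + 1 / 100000)
      = (n : ℝ) ^ ((k : ℝ) + 2 + 1 / 200000) * (n : ℝ) ^ ((1 : ℝ) / 200000) := by
    rw [← Real.rpow_add hnpos]
    congr 1
    ring
  rw [e]
  exact mul_le_mul_of_nonneg_left hn2 (by positivity)

end Run7.h970
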