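import Mathlib

set_option autoImplicit false

/-!
# Exponential moment bounds for uniform sign vectors
-/

namespace Run7.h970

open Finset

/-- The sign of a boolean. -/
def sg (b : Bool) : ℝ := if b then 1 else -1

/-- The sign of a boolean, as an integer. -/
def sgz (b : Bool) : ℤ := if b then 1 else -1

/-- Inner product of two sign vectors. -/
def ip {d : ℕ} (u v : Fin d → Bool) : ℝ := ∑ k, sg (u k) * sg (v k)

theorem sg_sq (b : Bool) : sg b * sg b = 1 := by
  cases b <;> simp [sg]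

theorem sg_eq_sgz (b : Bool) : sg b = (sgz b : ℝ) := by
  cases b <;> simp [sg, sgz]

theorem abs_sgz (b : Bool) : |sgz b| = 1 := by
  cases b <;> simp [sgz]

theorem ip_comm {d : ℕ} (u v : Fin d → Bool) : ip u v = ip v u := by
  unfold ip
  exact Finset.sum_congr rfl (fun k _ => mul_comm _ _)

theorem ip_self {d : ℕ} (u : Fin d → Bool) : ip u u = d := by
  unfold ip
  simp [sg_sq]

/-- The factorised exponential moment of a linear form in signs. -/
theorem sum_exp_lin {J : Type} [Fintype J] [DecidableEq J] (a : J → ℝ) :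
    ∑ e : J → Bool, Real.exp (∑ j, sg (e j) * a j) = ∏ j, (2 * Real.cosh (a j)) := by
  have h1 : ∀ e : J → Bool, Real.exp (∑ j, sg (e j) * a j) = ∏ j, Real.exp (sg (e j) * a j) := by
    intro e
    rw [Real.exp_sum]
  simp_rw [h1]
  have h2 := Finset.prod_univ_sum (fun _ : J => (Finset.univ : Finset Bool))
    (fun j b => Real.exp (sg b * a j))
  rw [Fintype.piFinset_univ] at h2
  rw [← h2]
  refine Finset.prod_congr rfl (fun j _ => ?_)
  rw [Fintype.sum_bool]
  simp only [sg]
  rw [Real.cosh_eq]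
  simp
  ring

theorem sum_exp_lin_le {J : Type} [Fintype J] [DecidableEq J] (a : J → ℝ) :
    ∑ e : J → Bool, Real.exp (∑ j, sg (e j) * a j)
      ≤ 2 ^ (Fintype.card J) * Real.exp (∑ j, (a j) ^ 2 / 2) := by
  rw [sum_exp_lin, Real.exp_sum]
  have : (2 : ℝ) ^ (Fintype.card J) * ∏ j, Real.exp ((a j) ^ 2 / 2)
      = ∏ j, (2 * Real.exp ((a j) ^ 2 / 2)) := by
    rw [Finset.prod_mul_distrib, Finset.prod_const, Finset.card_univ]
  rw [this]
  refine Finset.prod_le_prod (fun j _ => ?_) (fun j _ => ?_)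
  · have := Real.cosh_pos (a j); positivity
  · have := Real.cosh_le_exp_half_sq (a j)
    linarith

/-- One-coordinate bound: a linear form plus a multiple of the squared sum. -/
theorem sum_exp_quad_le {J : Type} [Fintype J] [DecidableEq J] (n : ℕ) (hn : Fintype.card J = n)
    (hn0 : 0 < n) (a : J → ℝ) :
    ∑ e : J → Bool, Real.exp (∑ j, sg (e j) * a j + (∑ j, sg (e j)) ^ 2 / (4 * n))
      ≤ (2 * n + 1) * (2 ^ n * Real.exp ((∑ j, a j) ^ 2 / n + ∑ j, (a j) ^ 2 / 2)) := by
  have hnR : (0 : ℝ) < n := by exact_mod_cast hn0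
  -- pointwise bound
  have hpt : ∀ e : J → Bool,
      Real.exp (∑ j, sg (e j) * a j + (∑ j, sg (e j)) ^ 2 / (4 * n)) ≤
        ∑ m ∈ Finset.Icc (-(n : ℤ)) n, Real.exp (-(3 * (m : ℝ) ^ 2) / (4 * n)) *
          Real.exp (∑ j, sg (e j) * (a j + (m : ℝ) / n)) := by
    intro e
    set w : ℤ := ∑ j, sgz (e j) with hw
    have hwR : (∑ j, sg (e j)) = (w : ℝ) := by
      rw [hw]; push_cast
      exact Finset.sum_congr rfl (fun j _ => sg_eq_sgz _)
    have habs : |w| ≤ n := by
      calc |w| ≤ ∑ j, |sgz (e j)| := Finset.abs_sum_le_sum_abs _ _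
        _ = ∑ j : J, (1 : ℤ) := Finset.sum_congr rfl (fun j _ => abs_sgz _)
        _ = n := by simp [hn]
    have hmem : w ∈ Finset.Icc (-(n : ℤ)) n := by
      rw [Finset.mem_Icc]; exact abs_le.mp habs
    refine le_trans (le_of_eq ?_) (Finset.single_le_sum (f := fun m : ℤ =>
      Real.exp (-(3 * (m : ℝ) ^ 2) / (4 * n)) *
          Real.exp (∑ j, sg (e j) * (a j + (m : ℝ) / n))) (fun m _ => by positivity) hmem)
    rw [← Real.exp_add]
    congr 1
    have : ∑ j, sg (e j) * (a j + (w : ℝ) / n) = ∑ j, sg (e j) * a j + (w : ℝ) * (w / n) := by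
      rw [← hwR, Finset.sum_mul, ← Finset.sum_add_distrib]
      exact Finset.sum_congr rfl (fun j _ => by ring)
    rw [this, hwR]
    field_simp
    ring
  calc ∑ e : J → Bool, Real.exp (∑ j, sg (e j) * a j + (∑ j, sg (e j)) ^ 2 / (4 * n))
      ≤ ∑ e : J → Bool, ∑ m ∈ Finset.Icc (-(n : ℤ)) n,
          Real.exp (-(3 * (m : ℝ) ^ 2) / (4 * n)) *
          Real.exp (∑ j, sg (e j) * (a j + (m : ℝ) / n)) := Finset.sum_le_sum (fun e _ => hpt e)
    _ = ∑ m ∈ Finset.Icc (-(n : ℤ)) n, Real.exp (-(3 * (m : ℝ) ^ 2) / (4 * n)) *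
          ∑ e : J → Bool, Real.exp (∑ j, sg (e j) * (a j + (m : ℝ) / n)) := by
        rw [Finset.sum_comm]
        exact Finset.sum_congr rfl (fun m _ => by rw [Finset.mul_sum])
    _ ≤ ∑ m ∈ Finset.Icc (-(n : ℤ)) n,
          (2 ^ n * Real.exp ((∑ j, a j) ^ 2 / n + ∑ j, (a j) ^ 2 / 2)) := by
        refine Finset.sum_le_sum (fun m _ => ?_)
        have h1 := sum_exp_lin_le (fun j => a j + (m : ℝ) / n)
        rw [hn] at h1
        calc Real.exp (-(3 * (m : ℝ) ^ 2) / (4 * n)) *
              ∑ e : J → Bool, Real.exp (∑ j, sg (e j) * (a j + (m : ℝ) / n))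
            ≤ Real.exp (-(3 * (m : ℝ) ^ 2) / (4 * n)) *
              (2 ^ n * Real.exp (∑ j, (a j + (m : ℝ) / n) ^ 2 / 2)) :=
              mul_le_mul_of_nonneg_left h1 (Real.exp_pos _).le
          _ = 2 ^ n * Real.exp (-(3 * (m : ℝ) ^ 2) / (4 * n) +
                ∑ j, (a j + (m : ℝ) / n) ^ 2 / 2) := by rw [Real.exp_add]; ring
          _ ≤ _ := by
            refine mul_le_mul_of_nonneg_left (Real.exp_le_exp.mpr ?_) (by positivity)
            have hexp : ∑ j, (a j + (m : ℝ) / n) ^ 2 / 2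
                = ∑ j, (a j) ^ 2 / 2 + (∑ j, a j) * (m / n) + (m : ℝ) ^ 2 / (2 * n) := by
              have h2 : ∑ j : J, ((m : ℝ) / n) ^ 2 / 2 = (m : ℝ) ^ 2 / (2 * n) := by
                rw [Finset.sum_const, Finset.card_univ, hn, nsmul_eq_mul]
                field_simp
              rw [← h2, Finset.sum_mul, ← Finset.sum_add_distrib, ← Finset.sum_add_distrib]
              exact Finset.sum_congr rfl (fun j _ => by ring)
            rw [hexp]
            set A := ∑ j, a j
            have hsq : 0 ≤ (A - (m : ℝ) / 2) ^ 2 / n := by positivity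
            have : (A - (m : ℝ) / 2) ^ 2 / n = A ^ 2 / n - A * (m / n) + (m : ℝ) ^ 2 / (4 * n) := by
              field_simp
              ring
            have h3 : -(3 * (m : ℝ) ^ 2) / (4 * n) + (m : ℝ) ^ 2 / (2 * n)
                = - ((m : ℝ) ^ 2 / (4 * n)) := by
              field_simp
              ring
            linarith
    _ = (2 * n + 1) * (2 ^ n * Real.exp ((∑ j, a j) ^ 2 / n + ∑ j, (a j) ^ 2 / 2)) := by
        rw [Finset.sum_const, nsmul_eq_mul]
        congr 1
        rw [Int.card_Icc]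
        have : ((n : ℤ) + 1 - -(n : ℤ)).toNat = 2 * n + 1 := by omega
        rw [this]
        push_cast
        ring

/-- Multi-coordinate version. -/
theorem sum_exp_vec_le {J : Type} [Fintype J] [DecidableEq J] (d n : ℕ)
    (hn : Fintype.card J = n) (hn0 : 0 < n) (a : J → Fin d → ℝ) :
    ∑ e : J → Fin d → Bool,
        Real.exp (∑ j, ∑ k, sg (e j k) * a j k + (∑ k, (∑ j, sg (e j k)) ^ 2) / (4 * n))
      ≤ (2 * n + 1) ^ d * (2 ^ (n * d) *
        Real.exp ((∑ k, (∑ j, a j k) ^ 2) / n + ∑ j, ∑ k, (a j k) ^ 2 / 2)) := by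
  classical
  have h1 : ∑ e : J → Fin d → Bool,
        Real.exp (∑ j, ∑ k, sg (e j k) * a j k + (∑ k, (∑ j, sg (e j k)) ^ 2) / (4 * n))
      = ∑ e : Fin d → J → Bool,
        ∏ k, Real.exp (∑ j, sg (e k j) * a j k + (∑ j, sg (e k j)) ^ 2 / (4 * n)) := by
    refine Fintype.sum_equiv (Equiv.piComm (fun _ _ => Bool)) _ _ (fun e => ?_)
    rw [← Real.exp_sum]
    congr 1
    rw [Finset.sum_comm, Finset.sum_div, ← Finset.sum_add_distrib]
    rfl
  rw [h1]
  have h2 := Finset.prod_univ_sum (fun _ : Fin d => (Finset.univ : Finset (J → Bool)))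
    (fun k e => Real.exp (∑ j, sg (e j) * a j k + (∑ j, sg (e j)) ^ 2 / (4 * n)))
  rw [Fintype.piFinset_univ] at h2
  rw [← h2]
  calc ∏ k : Fin d, ∑ e : J → Bool,
          Real.exp (∑ j, sg (e j) * a j k + (∑ j, sg (e j)) ^ 2 / (4 * n))
      ≤ ∏ k : Fin d, ((2 * n + 1) *
          (2 ^ n * Real.exp ((∑ j, a j k) ^ 2 / n + ∑ j, (a j k) ^ 2 / 2))) := by
        refine Finset.prod_le_prod (fun k _ => ?_) (fun k _ => ?_)
        · exact Finset.sum_nonneg (fun e _ => (Real.exp_pos _).le)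
        · exact sum_exp_quad_le n hn hn0 (fun j => a j k)
    _ = _ := by
        rw [Finset.prod_mul_distrib, Finset.prod_mul_distrib, Finset.prod_const,
          Finset.prod_const, Finset.card_univ, Fintype.card_fin, ← Real.exp_sum, ← pow_mul]
        congr 3
        rw [Finset.sum_add_distrib, Finset.sum_div]
        congr 1
        rw [Finset.sum_comm]

end Run7.h970
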