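import Pool.Agent.Run7.h970.Exist

set_option autoImplicit false

/-!
# Numerical part
-/

namespace Run7.h970

open Finset

/-- The binomial term `C(n,k) 33^k 31^(n-k)`. -/
def bt (n k : ℕ) : ℕ := n.choose k * 33 ^ k * 31 ^ (n - k)

theorem bt_step (n k : ℕ) (hk : k < n) : bt n (k + 1) * (31 * (k + 1)) = bt n k * (33 * (n - k)) := by
  unfold bt
  have h := Nat.choose_succ_right_eq n k
  have h1 : n - k = (n - (k + 1)) + 1 := by omega
  calc n.choose (k + 1) * 33 ^ (k + 1) * 31 ^ (n - (k + 1)) * (31 * (k + 1))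
      = (n.choose (k + 1) * (k + 1)) * 33 ^ (k + 1) * 31 ^ ((n - (k + 1)) + 1) := by
        rw [pow_succ 31]; ring
    _ = (n.choose k * (n - k)) * 33 ^ (k + 1) * 31 ^ (n - k) := by rw [h, ← h1]
    _ = _ := by rw [pow_succ 33]; ring

theorem bt_up (t k : ℕ) (hk : k < 33 * t) : bt (64 * t) k ≤ bt (64 * t) (k + 1) := by
  have h := bt_step (64 * t) k (by omega)
  have h1 : 31 * (k + 1) ≤ 33 * (64 * t - k) := by omega
  have h2 : bt (64 * t) k * (31 * (k + 1)) ≤ bt (64 * t) (k + 1) * (31 * (k + 1)) := by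
    rw [h]; exact Nat.mul_le_mul_left _ h1
  exact Nat.le_of_mul_le_mul_right h2 (by positivity)

theorem bt_down (t k : ℕ) (hk : 33 * t ≤ k) (hk2 : k < 64 * t) :
    bt (64 * t) (k + 1) ≤ bt (64 * t) k := by
  have h := bt_step (64 * t) k hk2
  have h1 : 33 * (64 * t - k) ≤ 31 * (k + 1) := by omega
  have h2 : bt (64 * t) (k + 1) * (31 * (k + 1)) ≤ bt (64 * t) k * (31 * (k + 1)) := by
    rw [h]; exact Nat.mul_le_mul_left _ h1
  exact Nat.le_of_mul_le_mul_right h2 (by positivity)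

theorem bt_max (t k : ℕ) (hk : k ≤ 64 * t) : bt (64 * t) k ≤ bt (64 * t) (33 * t) := by
  rcases le_total k (33 * t) with h | h
  · have key : ∀ j, j ≤ 33 * t → bt (64 * t) (33 * t - j) ≤ bt (64 * t) (33 * t) := by
      intro j
      induction j with
      | zero => intro _; simp
      | succ j ih =>
        intro hj
        refine le_trans ?_ (ih (by omega))
        have := bt_up t (33 * t - (j + 1)) (by omega)
        have e : 33 * t - (j + 1) + 1 = 33 * t - j := by omega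
        rwa [e] at this
    have := key (33 * t - k) (by omega)
    have e : 33 * t - (33 * t - k) = k := by omega
    rwa [e] at this
  · have key : ∀ j, 33 * t + j ≤ 64 * t → bt (64 * t) (33 * t + j) ≤ bt (64 * t) (33 * t) := by
      intro j
      induction j with
      | zero => intro _; simp
      | succ j ih =>
        intro hj
        refine le_trans ?_ (ih (by omega))
        exact bt_down t (33 * t + j) (by omega) (by omega)
    have := key (k - 33 * t) (by omega)
    have e : 33 * t + (k - 33 * t) = k := by omega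
    rwa [e] at this

theorem choose_lower (t : ℕ) :
    64 ^ (64 * t) ≤ (64 * t + 1) * ((64 * t).choose (33 * t) * 33 ^ (33 * t) * 31 ^ (31 * t)) := by
  have h1 : (64 : ℕ) ^ (64 * t) = ∑ k ∈ Finset.range (64 * t + 1), bt (64 * t) k := by
    have h := add_pow (33 : ℕ) 31 (64 * t)
    have h0 : (33 : ℕ) + 31 = 64 := by norm_num
    rw [h0] at h
    rw [h]
    refine Finset.sum_congr rfl (fun k _ => ?_)
    unfold bt
    rw [Nat.cast_id]
    ring
  rw [h1]
  calc ∑ k ∈ Finset.range (64 * t + 1), bt (64 * t) k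
      ≤ ∑ _k ∈ Finset.range (64 * t + 1), bt (64 * t) (33 * t) := by
        refine Finset.sum_le_sum (fun k hk => bt_max t k ?_)
        have := Finset.mem_range.mp hk
        omega
    _ = _ := by
        rw [Finset.sum_const, Finset.card_range, smul_eq_mul]
        unfold bt
        have e : 64 * t - 33 * t = 31 * t := by omega
        rw [e]

/-- The exponent `L`. -/
noncomputable def LL : ℝ := 3073 / 3145728

theorem rho_bound : Real.exp (-(64 * LL) + 1 / 200000)
    ≤ (((64 : ℝ) ^ 64 / (33 ^ 33 * 31 ^ 31 * 2 ^ 64))) ^ 2 := by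
  have h0 : Real.exp (-(64 * LL) + 1 / 200000) = (Real.exp (64 * LL - 1 / 200000))⁻¹ := by
    rw [← Real.exp_neg]; congr 1; ring
  rw [h0]
  have h1 : (0 : ℝ) ≤ 64 * LL - 1 / 200000 := by unfold LL; norm_num
  have h2 := Real.sum_le_exp_of_nonneg h1 5
  have h3 : ((((64 : ℝ) ^ 64 / (33 ^ 33 * 31 ^ 31 * 2 ^ 64))) ^ 2)⁻¹
      ≤ Real.exp (64 * LL - 1 / 200000) := by
    refine le_trans ?_ h2
    rw [Finset.sum_range_succ, Finset.sum_range_succ, Finset.sum_range_succ,
      Finset.sum_range_succ, Finset.sum_range_one]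
    unfold LL
    norm_num [Nat.factorial]
  exact inv_le_of_inv_le₀ (by positivity) h3

/-- The exponent bounding `log (cosh (1/16))`. -/
noncomputable def lc : ℝ := 1048065 / 536870912

theorem cosh_bound : Real.cosh (2 * (1 / 32)) ≤ Real.exp lc := by
  have h1 : Real.cosh (2 * (1 / 32 : ℝ)) = 2 * Real.cosh (1 / 32) ^ 2 - 1 := by
    rw [Real.cosh_two_mul, Real.sinh_sq]
    ring
  have h2 : Real.cosh (1 / 32 : ℝ) ≤ Real.exp ((1 / 32) ^ 2 / 2) := Real.cosh_le_exp_half_sq _
  have h3 : Real.cosh (1 / 32 : ℝ) ^ 2 ≤ Real.exp ((1 / 32) ^ 2) := by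
    calc Real.cosh (1 / 32 : ℝ) ^ 2 ≤ (Real.exp ((1 / 32) ^ 2 / 2)) ^ 2 := by
          gcongr
      _ = _ := by rw [← Real.exp_nat_mul]; congr 1; push_cast; ring
  have h4 := Real.exp_bound' (x := ((1 / 32 : ℝ)) ^ 2) (by norm_num) (by norm_num) (n := 3)
    (by norm_num)
  have h5 := Real.sum_le_exp_of_nonneg (x := lc) (by unfold lc; norm_num) 4
  rw [h1]
  have h6 : 2 * (∑ m ∈ Finset.range 3, ((1 / 32 : ℝ) ^ 2) ^ m / m.factorial +
      ((1 / 32 : ℝ) ^ 2) ^ 3 * (3 + 1) / ((3 : ℕ).factorial * 3)) - 1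
      ≤ ∑ i ∈ Finset.range 4, lc ^ i / i.factorial := by
    rw [Finset.sum_range_succ, Finset.sum_range_succ, Finset.sum_range_one,
      Finset.sum_range_succ, Finset.sum_range_succ, Finset.sum_range_succ, Finset.sum_range_one]
    unfold lc
    norm_num [Nat.factorial]
  have h7 : Real.exp ((1 / 32) ^ 2) ≤ ∑ m ∈ Finset.range 3, ((1 / 32 : ℝ) ^ 2) ^ m / m.factorial +
      ((1 / 32 : ℝ) ^ 2) ^ 3 * (3 + 1) / ((3 : ℕ).factorial * 3) := by
    exact_mod_cast h4
  linarith

theorem exists_cond : ∃ M : ℕ, Cond M (1 / 32) (5 / 1024) (27 / 262144) lc LL := by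
  have hlog2 : Real.log 2 ≤ 0.7 := by
    have := Real.log_two_lt_d9
    linarith
  refine ⟨2 ^ 20, ⟨by norm_num, by norm_num, by unfold LL; norm_num, by unfold lc; norm_num,
    cosh_bound, ?_, ?_, ?_⟩⟩
  · have h1 : Real.log (2 * ((2 ^ 20 : ℕ) : ℝ) + 1) ≤ 22 * Real.log 2 := by
      have : (22 : ℝ) * Real.log 2 = Real.log (2 ^ 22) := by
        rw [Real.log_pow]; norm_num
      rw [this]
      refine Real.log_le_log (by positivity) (by norm_num)
    unfold LL
    norm_num at h1 ⊢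
    linarith
  · have h1 : Real.log (2 * ((2 ^ 20 : ℕ) : ℝ) ^ 2 + 1) ≤ 42 * Real.log 2 := by
      have : (42 : ℝ) * Real.log 2 = Real.log (2 ^ 42) := by
        rw [Real.log_pow]; norm_num
      rw [this]
      refine Real.log_le_log (by positivity) (by norm_num)
    unfold LL
    norm_num at h1 ⊢
    linarith
  · unfold LL lc
    norm_num

/-- The probability of a relation is large enough. -/
theorem q_lower (t : ℕ) :
    Real.exp (-(LL * (64 * t)) + t / 200000) / (64 * t + 1) ^ 2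
      ≤ (((64 * t).choose (33 * t) : ℝ) / 2 ^ (64 * t)) ^ 2 := by
  have h1 : (64 : ℝ) ^ (64 * t) ≤ (64 * t + 1) *
      ((64 * t).choose (33 * t) * 33 ^ (33 * t) * 31 ^ (31 * t)) := by
    exact_mod_cast choose_lower t
  have hpos : (0 : ℝ) < 64 * t + 1 := by positivity
  have h2 : ((64 : ℝ) ^ 64 / (33 ^ 33 * 31 ^ 31 * 2 ^ 64)) ^ t / (64 * t + 1)
      ≤ ((64 * t).choose (33 * t) : ℝ) / 2 ^ (64 * t) := by
    rw [div_pow, mul_pow, mul_pow, ← pow_mul, ← pow_mul, ← pow_mul, ← pow_mul,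
      div_div, div_le_div_iff₀ (by positivity) (by positivity)]
    calc (64 : ℝ) ^ (64 * t) * 2 ^ (64 * t)
        ≤ ((64 * t + 1) *
          ((64 * t).choose (33 * t) * 33 ^ (33 * t) * 31 ^ (31 * t))) * 2 ^ (64 * t) :=
          mul_le_mul_of_nonneg_right h1 (by positivity)
      _ = _ := by ring
  have h3 : (((64 : ℝ) ^ 64 / (33 ^ 33 * 31 ^ 31 * 2 ^ 64)) ^ t / (64 * t + 1)) ^ 2
      ≤ (((64 * t).choose (33 * t) : ℝ) / 2 ^ (64 * t)) ^ 2 := by
    gcongr
  refine le_trans ?_ h3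
  rw [div_pow, ← pow_mul, mul_comm t 2, pow_mul]
  refine div_le_div_of_nonneg_right ?_ (by positivity)
  have h4 : Real.exp (-(LL * (64 * t)) + t / 200000) = Real.exp (-(64 * LL) + 1 / 200000) ^ t := by
    rw [← Real.exp_nat_mul]
    congr 1
    ring
  rw [h4]
  exact pow_le_pow_left₀ (Real.exp_pos _).le rho_bound t

/-- For every constant there is a relation without the configuration and with many triples. -/
theorem exists_rel : ∃ M : ℕ, ∀ C : ℝ, ∃ (N : ℕ) (R : Fin 3 × Fin N → Fin 3 × Fin N → Prop),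
    (∀ i j, R i j → R j i) ∧ ¬ Conf M R ∧ C * (N : ℝ) ^ 2 < ((triples R).card : ℝ) := by
  obtain ⟨M, hC⟩ := exists_cond
  refine ⟨M, fun C => ?_⟩
  obtain ⟨t, ht⟩ := exists_nat_gt (max 100 (152100 * 200000 ^ 3 * (|C| + 1)))
  have ht100 : (100 : ℝ) < t := lt_of_le_of_lt (le_max_left _ _) ht
  have htC : 152100 * 200000 ^ 3 * (|C| + 1) < (t : ℝ) := lt_of_le_of_lt (le_max_right _ _) ht
  set X : ℝ := Real.exp (LL * (64 * t)) with hX
  have hXpos : 0 < X := Real.exp_pos _
  have hX6 : 6 ≤ X := by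
    have h1 : (6 : ℝ) ≤ LL * (64 * t) := by unfold LL; linarith
    have h2 := Real.add_one_le_exp (LL * (64 * t))
    linarith
  have hd : ((64 * t : ℕ) : ℝ) = 64 * t := by push_cast; ring
  let N : ℕ := ⌊X / 3⌋₊
  have hN1 : (N : ℝ) ≤ X / 3 := Nat.floor_le (by positivity)
  have hN2 : X / 3 - 1 < (N : ℝ) := by
    have := Nat.lt_floor_add_one (X / 3)
    linarith
  have hN3 : X / 6 ≤ (N : ℝ) := by linarith
  have hN0R : (0 : ℝ) < N := by linarith
  have hN0 : 0 < N := by exact_mod_cast hN0R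
  set q : ℝ := (((64 * t).choose (33 * t) : ℝ) / 2 ^ (64 * t)) ^ 2 with hq
  set e : ℝ := 3 * Real.exp (-(2 * LL * ((64 * t : ℕ) : ℝ))) with he
  have heX : e = 3 / X ^ 2 := by
    have : Real.exp (-(2 * LL * ((64 * t : ℕ) : ℝ))) = (X ^ 2)⁻¹ := by
      rw [hX, hd, ← Real.exp_nat_mul, ← Real.exp_neg]
      congr 1
      push_cast
      ring
    rw [he, this]
    rfl
  have hNe : (N : ℝ) * e ≤ 1 := by
    rw [heX]
    calc (N : ℝ) * (3 / X ^ 2) ≤ X / 3 * (3 / X ^ 2) :=
          mul_le_mul_of_nonneg_right hN1 (by positivity)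
      _ = 1 / X := by field_simp
      _ ≤ 1 := by
          rw [div_le_one hXpos]; linarith
  have hqlow := q_lower t
  rw [← hq] at hqlow
  have hqX : Real.exp ((t : ℝ) / 200000) / (X * (64 * t + 1) ^ 2) ≤ q := by
    refine le_trans (le_of_eq ?_) hqlow
    rw [Real.exp_add, Real.exp_neg, ← hX]
    field_simp
  have hexp : ((t : ℝ) / 200000) ^ 3 / 6 ≤ Real.exp ((t : ℝ) / 200000) := by
    have := Real.pow_div_factorial_le_exp ((t : ℝ) / 200000) (by positivity) 3
    simpa [Nat.factorial] using this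
  have hNq : |C| + 1 < (N : ℝ) * q := by
    have h1 : (N : ℝ) * q ≥ X / 6 * (Real.exp ((t : ℝ) / 200000) / (X * (64 * t + 1) ^ 2)) := by
      gcongr
    have h2 : X / 6 * (Real.exp ((t : ℝ) / 200000) / (X * (64 * t + 1) ^ 2))
        = Real.exp ((t : ℝ) / 200000) / (6 * (64 * t + 1) ^ 2) := by
      field_simp
    have h3 : Real.exp ((t : ℝ) / 200000) / (6 * (64 * t + 1) ^ 2)
        ≥ (((t : ℝ) / 200000) ^ 3 / 6) / (6 * (65 * t) ^ 2) := by
      have htp : (0 : ℝ) < t := by linarith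
      have : (64 * (t : ℝ) + 1) ≤ 65 * t := by linarith
      gcongr
    have h4 : (((t : ℝ) / 200000) ^ 3 / 6) / (6 * (65 * t) ^ 2)
        = t / (152100 * 200000 ^ 3) := by
      have htp : (0 : ℝ) < t := by linarith
      field_simp
      norm_num
    have h5 : |C| + 1 < t / (152100 * 200000 ^ 3) := by
      rw [lt_div_iff₀ (by positivity)]
      linarith
    linarith
  have hmain : |C| < (N : ℝ) * (q - e) := by
    rw [mul_sub]; linarith
  have hqe : e < q := by
    have h0 : 0 < (N : ℝ) * (q - e) := lt_of_le_of_lt (abs_nonneg C) hmain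
    have := (pos_iff_pos_of_mul_pos h0).mp hN0R
    linarith
  obtain ⟨ω, hω1, hω2⟩ := exists_omega hC (64 * t) N (33 * t) hN0
    (by rw [hd]; linarith) (by omega) (by push_cast; ring) hqe
  refine ⟨N, thr (1 / 32) ω, ?_, hω1, ?_⟩
  · intro i j hij
    unfold thr at hij ⊢
    rw [ip_comm]; exact hij
  · refine lt_of_lt_of_le ?_ hω2
    have h1 : C * (N : ℝ) ^ 2 ≤ |C| * (N : ℝ) ^ 2 :=
      mul_le_mul_of_nonneg_right (le_abs_self C) (by positivity)
    have h2 : |C| * (N : ℝ) ^ 2 < (N : ℝ) * (q - e) * (N : ℝ) ^ 2 :=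
      mul_lt_mul_of_pos_right hmain (by positivity)
    calc C * (N : ℝ) ^ 2 ≤ |C| * (N : ℝ) ^ 2 := h1
      _ < (N : ℝ) * (q - e) * (N : ℝ) ^ 2 := h2
      _ = (N : ℝ) ^ 3 * (q - e) := by ring

end Run7.h970
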