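import Pool.Agent.Run7.h970.RHost

set_option autoImplicit false

/-!
# Numerical part for the Ramsey host
-/

namespace Run7.h970

open Finset

/-- The threshold. -/
noncomputable def bR : ℝ := 1 / 32768

/-- The exponent of the number of vertices. -/
noncomputable def LR : ℝ := bR ^ 2 + bR ^ 4 / 3

/-- The exponent bounding `log (cosh (2 b))`. -/
noncomputable def lR : ℝ := 2 * bR ^ 2 - bR ^ 4 + 2 * bR ^ 6

theorem cosh_boundR : Real.cosh (2 * bR) ≤ Real.exp lR := by
  have h1 : Real.cosh (2 * bR) = 2 * Real.cosh bR ^ 2 - 1 := by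
    rw [Real.cosh_two_mul, Real.sinh_sq]
    ring
  have h2 : Real.cosh bR ≤ Real.exp (bR ^ 2 / 2) := Real.cosh_le_exp_half_sq _
  have h3 : Real.cosh bR ^ 2 ≤ Real.exp (bR ^ 2) := by
    calc Real.cosh bR ^ 2 ≤ (Real.exp (bR ^ 2 / 2)) ^ 2 := by
          gcongr
      _ = _ := by rw [← Real.exp_nat_mul]; congr 1; push_cast; ring
  have h4 := Real.exp_bound' (x := bR ^ 2) (by unfold bR; norm_num) (by unfold bR; norm_num)
    (n := 3) (by norm_num)
  have h5 := Real.sum_le_exp_of_nonneg (x := lR) (by unfold lR bR; norm_num) 4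
  rw [h1]
  have h6 : 2 * (∑ m ∈ Finset.range 3, (bR ^ 2) ^ m / m.factorial +
      (bR ^ 2) ^ 3 * (3 + 1) / ((3 : ℕ).factorial * 3)) - 1
      ≤ ∑ i ∈ Finset.range 4, lR ^ i / i.factorial := by
    rw [Finset.sum_range_succ, Finset.sum_range_succ, Finset.sum_range_one,
      Finset.sum_range_succ, Finset.sum_range_succ, Finset.sum_range_succ, Finset.sum_range_one]
    unfold lR bR
    norm_num [Nat.factorial]
  have h7 : Real.exp (bR ^ 2) ≤ ∑ m ∈ Finset.range 3, (bR ^ 2) ^ m / m.factorial +
      (bR ^ 2) ^ 3 * (3 + 1) / ((3 : ℕ).factorial * 3) := by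
    exact_mod_cast h4
  linarith

theorem exists_condR : ∃ M : ℕ, Cond M bR (5 * bR ^ 2) (108 * bR ^ 4) lR LR := by
  have hlog2 : Real.log 2 ≤ 0.7 := by
    have := Real.log_two_lt_d9
    linarith
  refine ⟨2 ^ 40, ⟨by norm_num, by unfold bR; norm_num, by unfold LR bR; norm_num,
    by unfold lR bR; norm_num, cosh_boundR, ?_, ?_, ?_⟩⟩
  · have h1 : Real.log (2 * ((2 ^ 40 : ℕ) : ℝ) + 1) ≤ 42 * Real.log 2 := by
      have : (42 : ℝ) * Real.log 2 = Real.log (2 ^ 42) := by
        rw [Real.log_pow]; norm_num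
      rw [this]
      refine Real.log_le_log (by positivity) (by norm_num)
    unfold LR bR
    norm_num at h1 ⊢
    linarith
  · have h1 : Real.log (2 * ((2 ^ 40 : ℕ) : ℝ) ^ 2 + 1) ≤ 82 * Real.log 2 := by
      have : (82 : ℝ) * Real.log 2 = Real.log (2 ^ 82) := by
        rw [Real.log_pow]; norm_num
      rw [this]
      refine Real.log_le_log (by positivity) (by norm_num)
    unfold LR bR
    norm_num at h1 ⊢
    linarith
  · unfold LR lR bR
    norm_num

/-- The even cap contains all vectors with exactly `m` positive entries. -/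
theorem P_lower (d m : ℕ) (heven : Even (d - m)) (a : ℝ) (ha : a ≤ 2 * m - d) :
    (d.choose m : ℝ) ≤ ∑ z : Fin d → Bool, gcap a z := by
  classical
  let f : Finset (Fin d) → (Fin d → Bool) := fun s i => decide (i ∈ s)
  have hf : Function.Injective f := by
    intro s t h
    ext i
    have := congrFun h i
    simpa [f] using this
  have hval : ∀ s ∈ (Finset.univ : Finset (Fin d)).powersetCard m, gcap a (f s) = 1 := by
    intro s hs
    have hs' := (Finset.mem_powersetCard.mp hs).2
    have h1 : ∑ i, sg (f s i) = 2 * m - d := by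
      have h2 : ∀ i, sg (f s i) = 2 * (if i ∈ s then (1 : ℝ) else 0) - 1 := by
        intro i
        by_cases hi : i ∈ s <;> simp [f, sg, hi]; norm_num
      rw [Finset.sum_congr rfl (fun i _ => h2 i), Finset.sum_sub_distrib, ← Finset.mul_sum,
        Finset.sum_boole]
      have h3 : (Finset.univ.filter (fun k => k ∈ s)) = s := by
        ext k; simp
      rw [h3, hs']
      simp
    have h4 : chi Finset.univ (f s) = 1 := by
      unfold chi
      have h5 : ∀ i ∈ (Finset.univ : Finset (Fin d)), sg (f s i)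
          = if i ∈ s then (1 : ℝ) else -1 := by
        intro i _
        by_cases hi : i ∈ s <;> simp [f, sg, hi]
      rw [Finset.prod_congr rfl h5, Finset.prod_ite, Finset.prod_const_one, one_mul,
        Finset.prod_const]
      have h6 : (Finset.univ.filter (fun k => k ∉ s)).card = d - m := by
        have : (Finset.univ.filter (fun k => k ∉ s)) = sᶜ := by
          ext k; simp
        rw [this, Finset.card_compl, Fintype.card_fin, hs']
      rw [h6]
      exact heven.neg_one_pow
    unfold gcap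
    rw [if_pos ⟨by rw [h1]; exact ha, h4⟩]
  calc (d.choose m : ℝ) = ∑ s ∈ (Finset.univ : Finset (Fin d)).powersetCard m, gcap a (f s) := by
        rw [Finset.sum_congr rfl hval, Finset.sum_const, Finset.card_powersetCard,
          Finset.card_univ, Fintype.card_fin]
        simp
    _ = ∑ z ∈ ((Finset.univ : Finset (Fin d)).powersetCard m).image f, gcap a z := by
        rw [Finset.sum_image (fun s _ t _ h => hf h)]
    _ ≤ _ := Finset.sum_le_sum_of_subset_of_nonneg (Finset.subset_univ _)
        (fun z _ _ => gcap_nonneg a z)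

/-- The binomial terms. -/
def bu (n m k : ℕ) : ℕ := n.choose k * m ^ k * (n - m) ^ (n - k)

theorem bu_step (n m k : ℕ) (hk : k < n) :
    bu n m (k + 1) * ((n - m) * (k + 1)) = bu n m k * (m * (n - k)) := by
  unfold bu
  have h := Nat.choose_succ_right_eq n k
  have h1 : n - k = (n - (k + 1)) + 1 := by omega
  calc n.choose (k + 1) * m ^ (k + 1) * (n - m) ^ (n - (k + 1)) * ((n - m) * (k + 1))
      = (n.choose (k + 1) * (k + 1)) * m ^ (k + 1) * (n - m) ^ ((n - (k + 1)) + 1) := by
        rw [pow_succ (n - m)]; ring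
    _ = (n.choose k * (n - k)) * m ^ (k + 1) * (n - m) ^ (n - k) := by rw [h, ← h1]
    _ = _ := by rw [pow_succ m]; ring

theorem bu_up (n m k : ℕ) (hm : m < n) (hk : k < m) : bu n m k ≤ bu n m (k + 1) := by
  have h := bu_step n m k (by omega)
  have h1 : (n - m) * (k + 1) ≤ m * (n - k) := by
    have e1 : n - m + m = n := by omega
    have e2 : n - k + k = n := by omega
    zify [hm.le, (show k ≤ n by omega)]
    have : (k : ℤ) + 1 ≤ m := by exact_mod_cast hk
    have hn : (m : ℤ) < n := by exact_mod_cast hm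
    nlinarith
  have h2 : bu n m k * ((n - m) * (k + 1)) ≤ bu n m (k + 1) * ((n - m) * (k + 1)) := by
    rw [h]; exact Nat.mul_le_mul_left _ h1
  have h3 : 0 < (n - m) * (k + 1) := Nat.mul_pos (by omega) (by omega)
  exact Nat.le_of_mul_le_mul_right h2 h3

theorem bu_down (n m k : ℕ) (hm : m < n) (hk : m ≤ k) (hk2 : k < n) :
    bu n m (k + 1) ≤ bu n m k := by
  have h := bu_step n m k hk2
  have h1 : m * (n - k) ≤ (n - m) * (k + 1) := by
    zify [hm.le, hk2.le]
    have : (m : ℤ) ≤ k := by exact_mod_cast hk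
    have hn : (m : ℤ) < n := by exact_mod_cast hm
    nlinarith
  have h2 : bu n m (k + 1) * ((n - m) * (k + 1)) ≤ bu n m k * ((n - m) * (k + 1)) := by
    rw [h]; exact Nat.mul_le_mul_left _ h1
  have h3 : 0 < (n - m) * (k + 1) := Nat.mul_pos (by omega) (by omega)
  exact Nat.le_of_mul_le_mul_right h2 h3

theorem bu_max (n m k : ℕ) (hm : m < n) (hk : k ≤ n) : bu n m k ≤ bu n m m := by
  rcases le_total k m with h | h
  · have key : ∀ j, j ≤ m → bu n m (m - j) ≤ bu n m m := by
      intro j
      induction j with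
      | zero => intro _; simp
      | succ j ih =>
        intro hj
        refine le_trans ?_ (ih (by omega))
        have := bu_up n m (m - (j + 1)) hm (by omega)
        have e : m - (j + 1) + 1 = m - j := by omega
        rwa [e] at this
    have := key (m - k) (by omega)
    have e : m - (m - k) = k := by omega
    rwa [e] at this
  · have key : ∀ j, m + j ≤ n → bu n m (m + j) ≤ bu n m m := by
      intro j
      induction j with
      | zero => intro _; simp
      | succ j ih =>
        intro hj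
        refine le_trans ?_ (ih (by omega))
        exact bu_down n m (m + j) hm (by omega) (by omega)
    have := key (k - m) (by omega)
    have e : m + (k - m) = k := by omega
    rwa [e] at this

theorem choose_lowerR (n m : ℕ) (hm : m < n) :
    n ^ n ≤ (n + 1) * (n.choose m * m ^ m * (n - m) ^ (n - m)) := by
  have h1 : n ^ n = ∑ k ∈ Finset.range (n + 1), bu n m k := by
    have h := add_pow m (n - m) n
    have h0 : m + (n - m) = n := by omega
    rw [h0] at h
    rw [h]
    refine Finset.sum_congr rfl (fun k _ => ?_)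
    unfold bu
    rw [Nat.cast_id]
    ring
  rw [h1]
  calc ∑ k ∈ Finset.range (n + 1), bu n m k
      ≤ ∑ _k ∈ Finset.range (n + 1), bu n m m := by
        refine Finset.sum_le_sum (fun k hk => bu_max n m k hm ?_)
        have := Finset.mem_range.mp hk
        omega
    _ = _ := by
        rw [Finset.sum_const, Finset.card_range, smul_eq_mul]
        rfl

theorem choose_pow_lower (k w : ℕ) (hk : 1 ≤ k) : k ^ w ≤ (k * w).choose w := by
  have h1 : k ^ w * w.factorial ≤ (k * w).choose w * w.factorial := by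
    have h2 : (k * w).choose w * w.factorial = (k * w).descFactorial w := by
      rw [Nat.descFactorial_eq_factorial_mul_choose]; ring
    rw [h2, ← Nat.descFactorial_self w, Nat.descFactorial_eq_prod_range,
      Nat.descFactorial_eq_prod_range]
    have h3 : k ^ w = ∏ _i ∈ Finset.range w, k := by
      rw [Finset.prod_const, Finset.card_range]
    rw [h3, ← Finset.prod_mul_distrib]
    refine Finset.prod_le_prod' (fun i hi => ?_)
    have hi' := Finset.mem_range.mp hi
    rw [Nat.mul_sub]
    have : i ≤ k * i := Nat.le_mul_of_pos_left i hk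
    omega
  exact Nat.le_of_mul_le_mul_right h1 (Nat.factorial_pos w)

/-- The exponent of the density. -/
noncomputable def aR : ℝ := (bR ^ 2 + bR ^ 4 / 5) / 2

theorem log_bounds : (1 + bR) * Real.log (1 + bR) + (1 - bR) * Real.log (1 - bR)
    ≤ bR ^ 2 + bR ^ 4 / 5 := by
  have h1 := Real.abs_log_sub_add_sum_range_le (x := bR) (by unfold bR; norm_num) 4
  have h2 := Real.abs_log_sub_add_sum_range_le (x := -bR) (by unfold bR; norm_num) 4
  have h1' := (abs_le.mp h1).2
  have h2' := (abs_le.mp h2).2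
  rw [Finset.sum_range_succ, Finset.sum_range_succ, Finset.sum_range_succ,
    Finset.sum_range_one] at h1' h2'
  rw [sub_neg_eq_add] at h2'
  have hb : |bR| = bR := abs_of_pos (by unfold bR; norm_num)
  rw [abs_neg, hb] at h2'
  rw [hb] at h1'
  set A := Real.log (1 + bR)
  set B := Real.log (1 - bR)
  unfold bR at h1' h2' ⊢
  norm_num at h1' h2' ⊢
  linarith

theorem choose_real (w : ℕ) (hw : 1 ≤ w) :
    (2 : ℝ) ^ (4294967296 * w) / ((4294967296 * w + 1) *
      Real.exp (aR * (4294967296 * w)))
      ≤ ((4294967296 * w).choose (2147549184 * w) : ℝ) := by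
  set d : ℕ := 4294967296 * w with hd
  set m : ℕ := 2147549184 * w with hm
  have hwR : (1 : ℝ) ≤ w := by exact_mod_cast hw
  have hdR : (d : ℝ) = 4294967296 * w := by rw [hd]; push_cast; ring
  have hmR : (m : ℝ) = (1 + bR) * (d / 2) := by
    rw [hm, hdR]; unfold bR; push_cast; ring
  have hsub : d - m = 2147418112 * w := by omega
  have hmR2 : ((d - m : ℕ) : ℝ) = (1 - bR) * (d / 2) := by
    rw [hsub, hdR]; unfold bR; push_cast; ring
  have hdpos : (0 : ℝ) < d := by rw [hdR]; positivity
  have h1 := choose_lowerR d m (by omega)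
  have h1R : (d : ℝ) ^ d ≤ (d + 1) * ((d.choose m : ℝ) * (m : ℝ) ^ m *
      ((d - m : ℕ) : ℝ) ^ (d - m)) := by
    exact_mod_cast h1
  have hb1 : (0 : ℝ) < 1 + bR := by unfold bR; norm_num
  have hb2 : (0 : ℝ) < 1 - bR := by unfold bR; norm_num
  have h2 : (m : ℝ) ^ m * ((d - m : ℕ) : ℝ) ^ (d - m)
      = (d / 2 : ℝ) ^ d * ((1 + bR) ^ m * (1 - bR) ^ (d - m)) := by
    rw [hmR2]
    nth_rewrite 1 [hmR]
    rw [mul_pow, mul_pow]
    have e : (d / 2 : ℝ) ^ d = (d / 2 : ℝ) ^ m * (d / 2 : ℝ) ^ (d - m) := by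
      rw [← pow_add]; congr 1; omega
    rw [e]; ring
  have h3 : (1 + bR) ^ m * (1 - bR) ^ (d - m) ≤ Real.exp (aR * d) := by
    have e1 : (1 + bR) ^ m = Real.exp (m * Real.log (1 + bR)) := by
      rw [Real.exp_nat_mul, Real.exp_log hb1]
    have e2 : (1 - bR) ^ (d - m) = Real.exp (((d - m : ℕ) : ℝ) * Real.log (1 - bR)) := by
      rw [Real.exp_nat_mul, Real.exp_log hb2]
    rw [e1, e2, ← Real.exp_add]
    refine Real.exp_le_exp.mpr ?_
    rw [hmR, hmR2]
    have h4 := mul_le_mul_of_nonneg_left log_bounds (by positivity : (0 : ℝ) ≤ d / 2)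
    unfold aR
    linarith
  have h5 : (d : ℝ) ^ d ≤ (d + 1) * ((d.choose m : ℝ) * ((d / 2 : ℝ) ^ d * Real.exp (aR * d))) := by
    refine h1R.trans ?_
    rw [mul_assoc (d.choose m : ℝ), h2]
    gcongr
  have h6 : (d : ℝ) ^ d = 2 ^ d * (d / 2 : ℝ) ^ d := by
    rw [← mul_pow]; congr 1; ring
  rw [h6] at h5
  have hpos : (0 : ℝ) < (d / 2 : ℝ) ^ d := by positivity
  have h7 : (2 : ℝ) ^ d ≤ (d.choose m : ℝ) * ((d + 1) * Real.exp (aR * d)) := by
    refine le_of_mul_le_mul_right ?_ hpos
    calc (2 : ℝ) ^ d * (d / 2 : ℝ) ^ d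
        ≤ (d + 1) * ((d.choose m : ℝ) * ((d / 2 : ℝ) ^ d * Real.exp (aR * d))) := h5
      _ = _ := by ring
  rw [← hdR]
  rw [div_le_iff₀ (by positivity)]
  exact h7

end Run7.h970
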