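import Pool.Agent.Run7.h970.Num

set_option autoImplicit false

/-!
# Triples: a power gain for every large number of vertices
-/

namespace Run7.h970

open Finset

/-- Relations without the configuration and with more than `n ^ (2 + 1/100000)` triples. -/
theorem exists_rel3 : ∃ M : ℕ, ∃ n0 : ℕ, ∀ n : ℕ, n0 ≤ n →
    ∃ R : Fin 3 × Fin n → Fin 3 × Fin n → Prop, (∀ i j, R i j → R j i) ∧ ¬ Conf M R ∧
      (n : ℝ) ^ ((2 : ℝ) + 1 / 100000) ≤ ((triples R).card : ℝ) := by
  classical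
  obtain ⟨M, hC⟩ := exists_cond
  refine ⟨M, ⌈Real.exp (10 ^ 15)⌉₊, fun n hn => ?_⟩
  have hnR : Real.exp (10 ^ 15) ≤ n := (Nat.le_ceil _).trans (by exact_mod_cast hn)
  have hnpos : (0 : ℝ) < n := lt_of_lt_of_le (Real.exp_pos _) hnR
  have hn1 : (1 : ℝ) ≤ n := (Real.one_le_exp (by norm_num)).trans hnR
  have h3n : (0 : ℝ) < 3 * n := by linarith
  have hlog : (10 : ℝ) ^ 15 ≤ Real.log (3 * n) := by
    rw [Real.le_log_iff_exp_le h3n]; linarith
  have hlogn : Real.log n ≤ Real.log (3 * n) := Real.log_le_log hnpos (by linarith)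
  have hLpos : (0 : ℝ) < 64 * LL := by unfold LL; norm_num
  have hLval : 64 * LL = 3073 / 49152 := by unfold LL; norm_num
  let t : ℕ := ⌈Real.log (3 * n) / (64 * LL)⌉₊
  have ht1 : Real.log (3 * n) / (64 * LL) ≤ t := Nat.le_ceil _
  have ht2 : (t : ℝ) < Real.log (3 * n) / (64 * LL) + 1 :=
    Nat.ceil_lt_add_one (div_nonneg (by linarith [show (0 : ℝ) ≤ 10 ^ 15 by norm_num]) hLpos.le)
  have hlt1 : Real.log (3 * n) ≤ 64 * LL * t := by
    rw [div_le_iff₀ hLpos] at ht1; linarith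
  have hlt2 : 64 * LL * t < Real.log (3 * n) + 64 * LL := by
    have := mul_lt_mul_of_pos_left ht2 hLpos
    have e : 64 * LL * (Real.log (3 * n) / (64 * LL) + 1) = Real.log (3 * n) + 64 * LL := by
      rw [mul_add, mul_div_cancel₀ _ hLpos.ne', mul_one]
    linarith
  have htbig : (10 : ℝ) ^ 15 ≤ t := by
    rw [hLval] at hlt1
    have : (3073 / 49152 : ℝ) * t ≤ t := by
      have : (0 : ℝ) ≤ t := by positivity
      linarith
    linarith
  have htpos : (0 : ℝ) < t := by linarith [show (0 : ℝ) < 10 ^ 15 by norm_num]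
  have hd : ((64 * t : ℕ) : ℝ) = 64 * t := by push_cast; ring
  set X : ℝ := Real.exp (LL * (64 * t)) with hX
  have hXpos : 0 < X := Real.exp_pos _
  have hnX : 3 * (n : ℝ) ≤ X := by
    rw [hX, ← Real.log_le_iff_le_exp h3n]
    linarith
  have hXn : X ≤ 6 * n := by
    have h1 : X ≤ Real.exp (Real.log (3 * n) + 64 * LL) := by
      rw [hX]; refine Real.exp_le_exp.mpr ?_; linarith
    rw [Real.exp_add, Real.exp_log h3n] at h1
    have h2 : Real.exp (64 * LL) ≤ 2 := by
      rw [hLval]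
      have h3 : Real.exp (3073 / 49152 : ℝ) ≤ Real.exp (Real.log 2) := by
        refine Real.exp_le_exp.mpr ?_
        have := Real.log_two_gt_d9
        linarith
      rwa [Real.exp_log (by norm_num)] at h3
    nlinarith
  set q : ℝ := (((64 * t).choose (33 * t) : ℝ) / 2 ^ (64 * t)) ^ 2 with hq
  have hqlow := q_lower t
  rw [← hq] at hqlow
  set Y : ℝ := Real.exp ((t : ℝ) / 800000) with hY
  have hYpos : 0 < Y := Real.exp_pos _
  have hYbig : 8 * (64 * (t : ℝ) + 1) ≤ Y := by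
    have h1 : ((t : ℝ) / 800000) ^ 2 / 2 ≤ Y := by
      have := Real.pow_div_factorial_le_exp ((t : ℝ) / 800000) (by positivity) 2
      simpa [Nat.factorial] using this
    refine le_trans ?_ h1
    have h2 : ((t : ℝ) / 800000) ^ 2 / 2 = t * (t / 1280000000000) := by ring
    rw [h2]
    have h3 : (600 : ℝ) ≤ t / 1280000000000 := by
      rw [le_div_iff₀ (by norm_num)]
      linarith [show (600 * 1280000000000 : ℝ) ≤ 10 ^ 15 by norm_num]
    nlinarith
  have hY1 : 1 ≤ Y := by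
    linarith
  -- lower bound for `n q`
  have hnq : 8 * Y ≤ (n : ℝ) * q := by
    have h2 : (n : ℝ) * (Real.exp (-(LL * (64 * t)) + t / 200000) / (64 * t + 1) ^ 2)
        ≤ n * q := mul_le_mul_of_nonneg_left hqlow hnpos.le
    refine le_trans ?_ h2
    have h3 : Real.exp (-(LL * (64 * t)) + t / 200000) = Y ^ 4 / X := by
      rw [Real.exp_add, Real.exp_neg, ← hX, hY, ← Real.exp_nat_mul]
      have : ((4 : ℕ) : ℝ) * ((t : ℝ) / 800000) = t / 200000 := by push_cast; ring
      rw [this]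
      field_simp
    rw [h3]
    have h4 : (n : ℝ) * (Y ^ 4 / X / (64 * t + 1) ^ 2)
        = (Y ^ 2 / (64 * t + 1) ^ 2) * (n / X) * (Y * Y) := by
      field_simp
    rw [h4]
    have h5 : (1 / 6 : ℝ) ≤ n / X := by
      rw [le_div_iff₀ hXpos]; linarith
    have h6 : (64 : ℝ) ≤ Y ^ 2 / (64 * t + 1) ^ 2 := by
      rw [le_div_iff₀ (by positivity)]
      calc (64 : ℝ) * (64 * t + 1) ^ 2 = (8 * (64 * (t : ℝ) + 1)) ^ 2 := by ring
        _ ≤ Y ^ 2 := pow_le_pow_left₀ (by positivity) hYbig 2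
    have h7 : (64 : ℝ) * (1 / 6) * (Y * Y) ≤ (Y ^ 2 / (64 * t + 1) ^ 2) * (n / X) * (Y * Y) := by
      refine mul_le_mul_of_nonneg_right ?_ (by positivity)
      exact mul_le_mul h6 h5 (by norm_num) (by positivity)
    refine le_trans ?_ h7
    nlinarith
  have hnY : (n : ℝ) ^ ((1 : ℝ) / 100000) ≤ Y := by
    rw [Real.rpow_def_of_pos hnpos, hY]
    refine Real.exp_le_exp.mpr ?_
    rw [hLval] at hlt1
    linarith
  set e : ℝ := 3 * Real.exp (-(2 * LL * ((64 * t : ℕ) : ℝ))) with he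
  have heX : e = 3 / X ^ 2 := by
    have : Real.exp (-(2 * LL * ((64 * t : ℕ) : ℝ))) = (X ^ 2)⁻¹ := by
      rw [hX, hd, ← Real.exp_nat_mul, ← Real.exp_neg]
      congr 1
      push_cast
      ring
    rw [he, this]
    rfl
  have hNe : (n : ℝ) * e ≤ 1 := by
    rw [heX]
    have h1 : (n : ℝ) ≤ X := by linarith
    have h2 : (3 : ℝ) ≤ X := by linarith
    calc (n : ℝ) * (3 / X ^ 2) ≤ X * (3 / X ^ 2) :=
          mul_le_mul_of_nonneg_right h1 (by positivity)
      _ = 3 / X := by field_simp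
      _ ≤ 1 := by
          rw [div_le_one hXpos]; exact h2
  have hqe : e < q := by
    have h1 : (n : ℝ) * e < n * q := by linarith
    exact lt_of_mul_lt_mul_left h1 hnpos.le
  have hn0 : 0 < n := by exact_mod_cast hnpos
  obtain ⟨ω, hω1, hω2⟩ := exists_omega hC (64 * t) n (33 * t) hn0
    (by rw [hd]; exact hnX) (by omega) (by push_cast; ring) hqe
  refine ⟨thr (1 / 32) ω, ?_, hω1, ?_⟩
  · intro i j hij
    unfold thr at hij ⊢
    rw [ip_comm]; exact hij
  · refine le_trans ?_ hω2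
    rw [Real.rpow_add hnpos]
    have e2 : (n : ℝ) ^ (2 : ℝ) = (n : ℝ) ^ 2 := by
      rw [← Real.rpow_natCast]; norm_num
    rw [e2]
    have e3 : (n : ℝ) ^ 3 * (q - e) = (n : ℝ) ^ 2 * (n * q - n * e) := by ring
    have e4 : (n : ℝ) ^ 2 * (n : ℝ) ^ ((1 : ℝ) / 100000) ≤ (n : ℝ) ^ 2 * (n * q - n * e) := by
      refine mul_le_mul_of_nonneg_left ?_ (by positivity)
      linarith
    rw [← e3] at e4
    exact e4

end Run7.h970
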