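import Pool.Agent.Run7.h970.NumR

set_option autoImplicit false

/-!
# The Ramsey host
-/

namespace Run7.h970

open Finset

/-- For every constant `C` there is a symmetric relation on `N` points without the configuration,
such that among any `n` points two are related, and `C n ^ 2 ≤ N`. -/
theorem ramsey_host : ∃ M : ℕ, ∀ C : ℝ, ∃ (N n : ℕ) (R : Fin N → Fin N → Prop),
    (∀ i j, R i j → R j i) ∧ ¬ Conf M R ∧ 2 ≤ n ∧ C * (n : ℝ) ^ 2 ≤ (N : ℝ) ∧
    ∀ κ : Fin n → Fin N, Function.Injective κ → ∃ i j, i ≠ j ∧ R (κ i) (κ j) := by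
  obtain ⟨M, hC⟩ := exists_condR
  refine ⟨M, fun C => ?_⟩
  obtain ⟨w, hw⟩ := exists_nat_gt (max 100 (72 * 120 * 2 ^ 287 * |C|))
  have hw100 : (100 : ℝ) < w := lt_of_le_of_lt (le_max_left _ _) hw
  have hwC : 72 * 120 * 2 ^ 287 * |C| < (w : ℝ) := lt_of_le_of_lt (le_max_right _ _) hw
  have hw1 : 1 ≤ w := by
    have : (0 : ℝ) < w := by linarith
    exact_mod_cast this
  obtain ⟨d, hd⟩ : ∃ d : ℕ, d = 4294967296 * w := ⟨_, rfl⟩
  obtain ⟨m, hm⟩ : ∃ m : ℕ, m = 2147549184 * w := ⟨_, rfl⟩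
  have hmR : (m : ℝ) = 2147549184 * w := by rw [hm]; push_cast; ring
  have hdR : (d : ℝ) = 4294967296 * w := by rw [hd]; push_cast; ring
  have hd1 : 1 ≤ d := by omega
  set X : ℝ := Real.exp (LR * d) with hX
  set Y : ℝ := Real.exp (aR * d) with hY
  have hXpos : 0 < X := Real.exp_pos _
  have hYpos : 0 < Y := Real.exp_pos _
  have hLd : (400 : ℝ) ≤ LR * d := by
    rw [hdR]; unfold LR bR
    norm_num
    linarith
  have hX400 : 400 ≤ X := by
    have := Real.add_one_le_exp (LR * d)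
    linarith
  have hY1 : 1 ≤ Y := by
    refine Real.one_le_exp ?_
    have : 0 ≤ aR := by unfold aR bR; norm_num
    positivity
  let N : ℕ := ⌊X⌋₊
  have hN1 : (N : ℝ) ≤ X := Nat.floor_le hXpos.le
  have hN2 : X - 1 < (N : ℝ) := by
    have := Nat.lt_floor_add_one X
    linarith
  have hN0R : (0 : ℝ) < N := by linarith
  have hN0 : 0 < N := by exact_mod_cast hN0R
  set P : ℝ := ∑ z : Fin d → Bool, gcap (bR * d) z with hP
  have hPc : ((d.choose m : ℕ) : ℝ) ≤ P := by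
    refine P_lower d m ?_ (bR * d) (le_of_eq ?_)
    · have : d - m = 2 * (1073709056 * w) := by omega
      rw [this]; exact even_two_mul _
    · rw [hdR, hmR]; unfold bR; ring
  have hPlow : (2 : ℝ) ^ d / ((d + 1) * Y) ≤ P := by
    refine le_trans ?_ hPc
    have := choose_real w hw1
    rw [← hdR, ← hd, ← hm] at this
    exact this
  have hP0 : 0 < P := lt_of_lt_of_le (by positivity) hPlow
  -- size of the middle binomial
  have hDlow : (4294967296 : ℝ) ^ w ≤ (d.choose w : ℝ) := by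
    have := choose_pow_lower 4294967296 w (by norm_num)
    rw [← hd] at this
    exact_mod_cast this
  have hDexp : Real.exp (22 * w) ≤ (4294967296 : ℝ) ^ w := by
    have h1 : (4294967296 : ℝ) = Real.exp (32 * Real.log 2) := by
      have : (32 : ℝ) * Real.log 2 = Real.log (2 ^ 32) := by
        rw [Real.log_pow]; norm_num
      rw [this, Real.exp_log (by norm_num)]
      norm_num
    rw [h1, ← Real.exp_nat_mul]
    refine Real.exp_le_exp.mpr ?_
    have h2 := Real.log_two_gt_d9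
    nlinarith
  have hXY : X ^ 4 * Y ≤ Real.exp (18.01 * w) := by
    rw [hX, hY, ← Real.exp_nat_mul, ← Real.exp_add]
    refine Real.exp_le_exp.mpr ?_
    rw [hdR]; unfold LR aR bR
    push_cast
    norm_num
    linarith
  have hgrow : 1024 * ((d : ℝ) + 1) * Real.exp (18.01 * w) ≤ Real.exp (22 * w) := by
    have h1 : Real.exp (22 * w) = Real.exp (3.99 * w) * Real.exp (18.01 * w) := by
      rw [← Real.exp_add]; congr 1; ring
    rw [h1]
    refine mul_le_mul_of_nonneg_right ?_ (Real.exp_pos _).le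
    have h2 : Real.exp (99 + w) ≤ Real.exp (3.99 * (w : ℝ)) := by
      refine Real.exp_le_exp.mpr ?_
      linarith
    refine le_trans ?_ h2
    rw [Real.exp_add]
    have h3 : (2 : ℝ) ^ 99 ≤ Real.exp 99 := by
      have : Real.exp 99 = (Real.exp 1) ^ 99 := by
        rw [← Real.exp_nat_mul]; norm_num
      rw [this]
      refine pow_le_pow_left₀ (by norm_num) ?_ 99
      have := Real.add_one_le_exp (1 : ℝ)
      linarith
    have h4 : (w : ℝ) ≤ Real.exp w := by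
      have := Real.add_one_le_exp (w : ℝ)
      linarith
    calc 1024 * ((d : ℝ) + 1) ≤ 2 ^ 99 * w := by
          rw [hdR]; norm_num; linarith
      _ ≤ Real.exp 99 * Real.exp w := by gcongr
  have hPD : 1024 * (N : ℝ) ^ 4 * 2 ^ d ≤ P * (d.choose w : ℝ) := by
    calc 1024 * (N : ℝ) ^ 4 * 2 ^ d ≤ 1024 * X ^ 4 * 2 ^ d := by gcongr
      _ = (1024 * ((d : ℝ) + 1) * (X ^ 4 * Y)) * (2 ^ d / ((d + 1) * Y)) := by
          field_simp
      _ ≤ (1024 * ((d : ℝ) + 1) * Real.exp (18.01 * w)) * (2 ^ d / ((d + 1) * Y)) := by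
          gcongr
      _ ≤ Real.exp (22 * w) * (2 ^ d / ((d + 1) * Y)) := by gcongr
      _ ≤ (d.choose w : ℝ) * P := by
          refine mul_le_mul (hDexp.trans hDlow) hPlow (by positivity) (by positivity)
      _ = _ := by ring
  let r : ℕ := ⌈2 * (d : ℝ) * 2 ^ d / P⌉₊
  have hr : 2 * (d : ℝ) * 2 ^ d / P ≤ r := Nat.le_ceil _
  have hr2 : (r : ℝ) < 2 * (d : ℝ) * 2 ^ d / P + 1 := Nat.ceil_lt_add_one (by positivity)
  have hdpos : (1 : ℝ) ≤ d := by exact_mod_cast hd1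
  have hr3 : 2 * (d : ℝ) * 2 ^ d / P ≤ 2 * d * ((d + 1) * Y) := by
    rw [div_le_iff₀ hP0]
    rw [div_le_iff₀ (by positivity)] at hPlow
    calc 2 * (d : ℝ) * 2 ^ d ≤ 2 * d * (P * ((d + 1) * Y)) := by gcongr
      _ = _ := by ring
  have hr4 : (r : ℝ) ≤ 3 * ((d : ℝ) + 1) ^ 2 * Y := by
    have h1 : (1 : ℝ) ≤ ((d : ℝ) + 1) ^ 2 * Y := by
      have : (1 : ℝ) ≤ ((d : ℝ) + 1) ^ 2 := by nlinarith
      nlinarith
    have h2 : 2 * (d : ℝ) * ((d + 1) * Y) ≤ 2 * (((d : ℝ) + 1) ^ 2 * Y) := by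
      have : (0 : ℝ) ≤ (d + 1) * Y := by positivity
      nlinarith
    linarith
  have hrpos : 1 ≤ r := by
    have h1 : (0 : ℝ) < r := lt_of_lt_of_le (by positivity) hr
    exact_mod_cast h1
  have hconf : 3 * Real.exp (-(2 * LR * d)) ≤ 1 / 4 := by
    have h1 : Real.exp (-(2 * LR * d)) = 1 / X ^ 2 := by
      rw [hX, ← Real.exp_nat_mul, one_div, ← Real.exp_neg]
      congr 1
      push_cast
      ring
    rw [h1]
    have h2 : (12 : ℝ) ≤ X ^ 2 := by nlinarith
    rw [mul_one_div, div_le_div_iff₀ (by positivity) (by norm_num)]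
    linarith
  obtain ⟨ω, hω1, hω2⟩ := exists_host hC (by unfold bR; norm_num) d w N r hd1 (by omega)
    (by rw [hdR]; unfold bR; nlinarith [sq_nonneg (w : ℝ)]) hN0 hN1 P hP hP0 hPD hr hconf
  refine ⟨N, 2 * r, thr bR ω, ?_, hω1, by omega, ?_, hω2⟩
  · intro i j hij
    unfold thr at hij ⊢
    rw [ip_comm]; exact hij
  · -- the size estimate
    have hXN : X / 2 ≤ (N : ℝ) := by linarith
    refine le_trans ?_ hXN
    have hXY2 : Y ^ 2 * Real.exp ((w : ℝ) / 2 ^ 31) ≤ X := by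
      rw [hX, hY, ← Real.exp_nat_mul, ← Real.exp_add]
      refine Real.exp_le_exp.mpr ?_
      rw [hdR]; unfold LR aR bR
      push_cast
      norm_num
      linarith
    have hexp : ((w : ℝ) / 2 ^ 31) ^ 5 / 120 ≤ Real.exp ((w : ℝ) / 2 ^ 31) := by
      have := Real.pow_div_factorial_le_exp ((w : ℝ) / 2 ^ 31) (by positivity) 5
      simpa [Nat.factorial] using this
    have hn : ((2 * r : ℕ) : ℝ) ^ 2 ≤ 36 * ((d : ℝ) + 1) ^ 4 * Y ^ 2 := by
      push_cast
      calc (2 * (r : ℝ)) ^ 2 ≤ (2 * (3 * ((d : ℝ) + 1) ^ 2 * Y)) ^ 2 := by gcongr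
        _ = _ := by ring
    have hd4 : ((d : ℝ) + 1) ^ 4 ≤ 2 ^ 132 * (w : ℝ) ^ 4 := by
      calc ((d : ℝ) + 1) ^ 4 ≤ (2 ^ 33 * (w : ℝ)) ^ 4 := by
            refine pow_le_pow_left₀ (by positivity) ?_ 4
            rw [hdR]; norm_num; linarith
        _ = _ := by rw [mul_pow, ← pow_mul]
    have hCabs : C ≤ |C| := le_abs_self C
    have hC0 : 0 ≤ |C| := abs_nonneg C
    calc C * ((2 * r : ℕ) : ℝ) ^ 2 ≤ |C| * ((2 * r : ℕ) : ℝ) ^ 2 :=
          mul_le_mul_of_nonneg_right hCabs (by positivity)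
      _ ≤ |C| * (36 * (2 ^ 132 * (w : ℝ) ^ 4) * Y ^ 2) := by
          refine mul_le_mul_of_nonneg_left (hn.trans ?_) hC0
          gcongr
      _ = (72 * 120 * 2 ^ 287 * |C|) * (w : ℝ) ^ 4 / (2 ^ 155 * 120) * Y ^ 2 / 2 := by
          have e : (2 : ℝ) ^ 287 = 2 ^ 132 * 2 ^ 155 := by rw [← pow_add]
          rw [e]
          field_simp
          ring
      _ ≤ (w : ℝ) * (w : ℝ) ^ 4 / (2 ^ 155 * 120) * Y ^ 2 / 2 := by
          gcongr
      _ = (((w : ℝ) / 2 ^ 31) ^ 5 / 120) * Y ^ 2 / 2 := by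
          have e : ((w : ℝ) / 2 ^ 31) ^ 5 / 120 = (w : ℝ) * (w : ℝ) ^ 4 / (2 ^ 155 * 120) := by
            rw [div_pow, ← pow_mul, div_div]
            congr 1
            ring
          rw [e]
      _ ≤ Real.exp ((w : ℝ) / 2 ^ 31) * Y ^ 2 / 2 := by gcongr
      _ ≤ X / 2 := by linarith

end Run7.h970
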