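import Pool.Agent.Run7.h970.RFin

set_option autoImplicit false

/-!
# The sparse graph and the end of the proof
-/

namespace Run7.h970

open Finset

/-- Vertices of the sparse graph. -/
inductive VR (M : ℕ) : Type
  | a (i : Fin M) : VR M
  | b (i : Fin M) : VR M
  | s (p : Fin M × Fin M) : VR M
  | r (q : (Fin M × Fin M) × (Fin M × Fin M)) : VR M

/-- `parR v w`: `w` is one of the (at most two) parents of `v`. -/
def parR {M : ℕ} : VR M → VR M → Prop
  | VR.s p, VR.a k => k = p.1
  | VR.s p, VR.b k => k = p.2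
  | VR.r q, VR.s p => p = q.1 ∨ p = q.2
  | _, _ => False

/-- A rank: parents have smaller rank. -/
def rkR {M : ℕ} : VR M → ℕ
  | VR.a _ => 0
  | VR.b _ => 0
  | VR.s _ => 1
  | VR.r _ => 2

theorem rkR_lt {M : ℕ} (v w : VR M) (h : parR v w) : rkR w < rkR v := by
  cases v <;> cases w <;> simp only [parR, rkR] at h ⊢ <;> omega

/-- The sparse graph. -/
def GR (M : ℕ) : SimpleGraph (VR M) where
  Adj v w := parR v w ∨ parR w v
  symm := ⟨fun v w h => h.symm⟩
  loopless := ⟨fun v h => by
    rcases h with h | h <;> exact absurd (rkR_lt v v h) (lt_irrefl _)⟩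

theorem parR_two {M : ℕ} (v : VR M) : ∃ w1 w2 : VR M, ∀ w, parR v w → w = w1 ∨ w = w2 := by
  cases v with
  | a i => exact ⟨VR.a i, VR.a i, fun w h => by cases w <;> exact h.elim⟩
  | b i => exact ⟨VR.b i, VR.b i, fun w h => by cases w <;> exact h.elim⟩
  | s p =>
    refine ⟨VR.a p.1, VR.b p.2, fun w h => ?_⟩
    cases w with
    | a i => left; rw [show i = p.1 from h]
    | b i => right; rw [show i = p.2 from h]
    | s p => exact h.elim
    | r q => exact h.elim
  | r q =>
    refine ⟨VR.s q.1, VR.s q.2, fun w h => ?_⟩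
    cases w with
    | a i => exact h.elim
    | b i => exact h.elim
    | s p =>
      rcases h with h | h
      · left; rw [h]
      · right; rw [h]
    | r q => exact h.elim

instance {M : ℕ} : Finite (VR M) := by
  let F : VR M → (Fin M ⊕ Fin M) ⊕ ((Fin M × Fin M) ⊕
      ((Fin M × Fin M) × (Fin M × Fin M))) := fun v =>
    match v with
    | VR.a i => Sum.inl (Sum.inl i)
    | VR.b i => Sum.inl (Sum.inr i)
    | VR.s p => Sum.inr (Sum.inl p)
    | VR.r q => Sum.inr (Sum.inr q)
  have hF : Function.Injective F := by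
    intro v w h
    cases v <;> cases w <;> simp [F] at h <;> simp [h]
  exact Finite.of_injective F hF

noncomputable instance {M : ℕ} : Fintype (VR M) := Fintype.ofFinite _

/-- Edges spanned by a set. -/
def spanE {V : Type} (G : SimpleGraph V) (s : Finset V) : Set (Sym2 V) :=
  {e ∈ G.edgeSet | ∀ v ∈ e, v ∈ s}

theorem spanE_two {V : Type} [Fintype V] [DecidableEq V] (G : SimpleGraph V) (s : Finset V)
    (hs : s.card = 2) : (spanE G s).ncard ≤ 1 := by
  obtain ⟨x, y, hxy, rfl⟩ := Finset.card_eq_two.mp hs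
  have hsub : spanE G {x, y} ⊆ {s(x, y)} := by
    intro e he
    obtain ⟨h1, h2⟩ := he
    revert h1 h2
    refine Sym2.ind (fun u v => ?_) e
    intro h1 h2
    have hu := h2 u (Sym2.mem_mk_left u v)
    have hv := h2 v (Sym2.mem_mk_right u v)
    have hne : u ≠ v := (SimpleGraph.mem_edgeSet G).mp h1 |>.ne
    simp only [Finset.mem_insert, Finset.mem_singleton] at hu hv
    rw [Set.mem_singleton_iff]
    rcases hu with rfl | rfl <;> rcases hv with rfl | rfl
    · exact absurd rfl hne
    · rfl
    · exact Sym2.eq_swap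
    · exact absurd rfl hne
  refine (Set.ncard_le_ncard hsub (Set.finite_singleton _)).trans ?_
  rw [Set.ncard_singleton]

theorem spanE_erase {V : Type} [Fintype V] [DecidableEq V] (G : SimpleGraph V) (s : Finset V)
    (v w1 w2 : V) (hv : ∀ w ∈ s, G.Adj v w → w = w1 ∨ w = w2) :
    (spanE G s).ncard ≤ (spanE G (s.erase v)).ncard + 2 := by
  have hsub : spanE G s ⊆ spanE G (s.erase v) ∪ {s(v, w1), s(v, w2)} := by
    intro e he
    obtain ⟨h1, h2⟩ := he
    by_cases hve : v ∈ e
    · right
      obtain ⟨w, rfl⟩ := Sym2.mem_iff_exists.mp hve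
      have hadj : G.Adj v w := (SimpleGraph.mem_edgeSet G).mp h1
      rcases hv w (h2 w (Sym2.mem_mk_right v w)) hadj with h | h
      · left; rw [h]
      · right; rw [h]; rfl
    · left
      refine ⟨h1, fun u hu => ?_⟩
      rw [Finset.mem_erase]
      exact ⟨fun h => hve (h ▸ hu), h2 u hu⟩
  refine (Set.ncard_le_ncard hsub (Set.toFinite _)).trans ((Set.ncard_union_le _ _).trans ?_)
  refine Nat.add_le_add_left ?_ _
  refine (Set.ncard_insert_le _ _).trans ?_
  rw [Set.ncard_singleton]

theorem GR_sparse (M : ℕ) : ∀ (k : ℕ) (s : Finset (VR M)), s.card = k + 2 →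
    (spanE (GR M) s).ncard ≤ 2 * s.card - 3 := by
  classical
  intro k
  induction k with
  | zero =>
    intro s hs
    have := spanE_two (GR M) s (by omega)
    omega
  | succ k ih =>
    intro s hs
    have hne : s.Nonempty := by
      rw [← Finset.card_pos]; omega
    obtain ⟨v, hv, hmax⟩ := Finset.exists_max_image s rkR hne
    obtain ⟨w1, w2, hw⟩ := parR_two v
    have h1 := spanE_erase (GR M) s v w1 w2 (fun w hws hadj => by
      rcases hadj with h | h
      · exact hw w h
      · exact absurd (rkR_lt w v h) (not_lt.mpr (hmax w hws)))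
    have h2 : (s.erase v).card = k + 2 := by
      rw [Finset.card_erase_of_mem hv]; omega
    have h3 := ih (s.erase v) h2
    omega

/-- A copy of the sparse graph gives the configuration. -/
theorem conf_of_copyG {M N : ℕ} (R : Fin N → Fin N → Prop) (F : SimpleGraph (Fin N))
    (hF : ∀ i j, F.Adj i j → R i j) (h : (GR M).IsContained F) : Conf M R := by
  obtain ⟨f⟩ := h
  have hinj : Function.Injective f := f.injective
  have hadj : ∀ u v, (GR M).Adj u v → R (f u) (f v) := by
    intro u v huv
    exact hF _ _ (f.toHom.map_adj huv)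
  refine ⟨fun i => f (VR.a i), fun j => f (VR.b j), fun p => f (VR.s p), fun q => f (VR.r q),
    ?_, ?_, ?_, ?_⟩
  · rintro ((i | i) | i) ((j | j) | j) h <;> simp only [Sum.elim_inl, Sum.elim_inr] at h <;>
      have h' := hinj h <;> simp at h' <;> simp [h']
  · rintro (i | i) (j | j) h <;> simp only [Sum.elim_inl, Sum.elim_inr] at h <;>
      have h' := hinj h <;> simp at h' <;> simp [h']
  · intro p
    exact ⟨hadj _ _ (Or.inl (show p.1 = p.1 from rfl)), hadj _ _ (Or.inl (show p.2 = p.2 from rfl))⟩
  · intro q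
    exact ⟨hadj _ _ (Or.inl (show q.1 = q.1 ∨ q.1 = q.2 from Or.inl rfl)),
      hadj _ _ (Or.inl (show q.2 = q.1 ∨ q.2 = q.2 from Or.inr rfl))⟩

/-- The number of edges of a complete graph. -/
theorem top_edges_le (n : ℕ) : ((⊤ : SimpleGraph (Fin n)).edgeSet.ncard : ℝ) ≤ (n : ℝ) ^ 2 := by
  classical
  have h1 : (⊤ : SimpleGraph (Fin n)).edgeSet.ncard ≤ n ^ 2 := by
    have hsub : (⊤ : SimpleGraph (Fin n)).edgeSet ⊆
        (fun p : Fin n × Fin n => s(p.1, p.2)) '' Set.univ := by
      intro e _
      induction e using Sym2.ind with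
      | _ u v => exact ⟨(u, v), Set.mem_univ _, rfl⟩
    refine (Set.ncard_le_ncard hsub (Set.toFinite _)).trans ((Set.ncard_image_le
      (Set.toFinite _)).trans ?_)
    rw [Set.ncard_univ, Nat.card_eq_fintype_card]
    simp [sq]
  exact_mod_cast h1

end Run7.h970
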