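import Pool.Agent.Run7.h970.Four
import Pool.Agent.Run7.h970.KW

set_option autoImplicit false

/-!
# Random sign vectors: no configuration and small independence number
-/

namespace Run7.h970

open Finset

/-- The relation on sign vectors. -/
def vadj {d : ℕ} (b : ℝ) (x y : Fin d → Bool) : Prop := b * d ≤ ip x y

theorem gcap_le {d : ℕ} (b : ℝ) (x y : Fin d → Bool) (h : ¬ vadj b x y) :
    gcap (b * d) (xn x y) = 0 := by
  by_contra hc
  have := (gcap_sup _ _ hc).1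
  rw [← ip_eq] at this
  exact h this

theorem gcap_le_one {d : ℕ} (a : ℝ) (z : Fin d → Bool) : gcap a z ≤ 1 := by
  classical
  unfold gcap
  split_ifs <;> norm_num

/-- Supersaturation in the form needed for the counting of independent sets. -/
theorem nonnb_small {d w : ℕ} (b : ℝ) (hd : 1 ≤ d) (hb : 0 < b)
    (haw : 4 * (w : ℝ) * d ≤ (b * d) ^ 2) (hw : w ≤ d)
    (P D : ℝ) (hP : P = ∑ z : Fin d → Bool, gcap (b * d) z) (hP0 : 0 < P)
    (hD : D = (d.choose w : ℝ))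
    (S : Finset (Fin d → Bool))
    (hS : 2 * 2 ^ d * Real.sqrt (2 ^ d / (P * D)) < (S.card : ℝ)) :
    ∃ x ∈ S, ((nonnb (vadj b) x S).card : ℝ) ≤ (1 - P / 2 ^ d / 2) * S.card := by
  classical
  have hdR : (0 : ℝ) < d := by exact_mod_cast hd
  have hDpos : 0 < D := by
    rw [hD]; exact_mod_cast Nat.choose_pos hw
  have h2d : (0 : ℝ) < 2 ^ d := by positivity
  have hs0 : 0 ≤ 2 * 2 ^ d * Real.sqrt (2 ^ d / (P * D)) := by positivity
  have hspos : (0 : ℝ) < S.card := lt_of_le_of_lt hs0 hS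
  have hsup := supersat (b * d) (by positivity) haw hw S
  rw [← hP, ← hD] at hsup
  have hsq : Real.sqrt (2 ^ d * P / D) = P * Real.sqrt (2 ^ d / (P * D)) := by
    have h1 : 2 ^ d * P / D = P ^ 2 * (2 ^ d / (P * D)) := by
      field_simp
    rw [h1, Real.sqrt_mul (by positivity), Real.sqrt_sq hP0.le]
  rw [hsq] at hsup
  have hkey : P * (S.card : ℝ) ^ 2 / 2
      ≤ 2 ^ d * ∑ x ∈ S, ∑ y ∈ S, gcap (b * d) (xn x y) := by
    refine le_trans ?_ hsup
    have h2 : P * Real.sqrt (2 ^ d / (P * D)) * (2 ^ d * (S.card : ℝ))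
        = P * (S.card : ℝ) / 2 * (2 * 2 ^ d * Real.sqrt (2 ^ d / (P * D))) := by ring
    rw [h2]
    have h3 : P * (S.card : ℝ) / 2 * (2 * 2 ^ d * Real.sqrt (2 ^ d / (P * D)))
        ≤ P * (S.card : ℝ) / 2 * S.card := mul_le_mul_of_nonneg_left hS.le (by positivity)
    nlinarith
  have hSne : S.Nonempty := by
    rw [← Finset.card_pos]
    exact_mod_cast hspos
  have hsum : ∑ _x ∈ S, (P / 2 ^ d / 2 * (S.card : ℝ))
      ≤ ∑ x ∈ S, ∑ y ∈ S, gcap (b * d) (xn x y) := by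
    rw [Finset.sum_const, nsmul_eq_mul]
    have h4 : (S.card : ℝ) * (P / 2 ^ d / 2 * (S.card : ℝ)) = (P * (S.card : ℝ) ^ 2 / 2) / 2 ^ d := by
      field_simp
    rw [h4, div_le_iff₀ h2d]
    linarith
  obtain ⟨x, hx, hx2⟩ := Finset.exists_le_of_sum_le hSne hsum
  refine ⟨x, hx, ?_⟩
  have h5 : ∑ y ∈ S, gcap (b * d) (xn x y) ≤ (S.card : ℝ) - (nonnb (vadj b) x S).card := by
    have h6 : ∀ y ∈ S, gcap (b * d) (xn x y) ≤ 1 - (if ¬ vadj b x y then (1 : ℝ) else 0) := by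
      intro y _
      by_cases h : vadj b x y
      · rw [if_neg (not_not.mpr h)]
        have := gcap_le_one (b * d) (xn x y)
        linarith
      · rw [if_pos h, gcap_le b x y h]
        linarith
    refine (Finset.sum_le_sum h6).trans (le_of_eq ?_)
    rw [Finset.sum_sub_distrib, Finset.sum_boole]
    have h7 : nonnb (vadj b) x S = S.filter (fun y => ¬ vadj b x y) := by
      ext y; rw [mem_nonnb, Finset.mem_filter]
    rw [h7]
    simp
  linarith

theorem exists_host {M : ℕ} {b s c l L : ℝ} (hC : Cond M b s c l L) (hb1 : b ≤ 1)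
    (d w N r : ℕ) (hd : 1 ≤ d) (hw : w ≤ d) (haw : 4 * (w : ℝ) * d ≤ (b * d) ^ 2)
    (hN0 : 0 < N) (hN : (N : ℝ) ≤ Real.exp (L * d))
    (P : ℝ) (hP : P = ∑ z : Fin d → Bool, gcap (b * d) z) (hP0 : 0 < P)
    (hPD : 1024 * (N : ℝ) ^ 4 * 2 ^ d ≤ P * (d.choose w : ℝ))
    (hr : 2 * (d : ℝ) * 2 ^ d / P ≤ r)
    (hconf : 3 * Real.exp (-(2 * L * d)) ≤ 1 / 4) :
    ∃ ω : Fin N → Fin d → Bool, ¬ Conf M (thr b ω) ∧
      ∀ κ : Fin (2 * r) → Fin N, Function.Injective κ → ∃ i j, i ≠ j ∧ thr b ω (κ i) (κ j) := by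
  classical
  have hdR : (1 : ℝ) ≤ d := by exact_mod_cast hd
  have hNR : (1 : ℝ) ≤ N := by exact_mod_cast hN0
  have h2d : (0 : ℝ) < 2 ^ d := by positivity
  set D : ℝ := (d.choose w : ℝ) with hD
  have hDpos : 0 < D := by
    rw [hD]; exact_mod_cast Nat.choose_pos hw
  have hPle : P ≤ 2 ^ d := by
    rw [hP]
    calc ∑ z : Fin d → Bool, gcap (b * d) z ≤ ∑ _z : Fin d → Bool, (1 : ℝ) :=
          Finset.sum_le_sum (fun z _ => gcap_le_one _ _)
      _ = 2 ^ d := by simp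
  have hb := hC.hb
  set s0 : ℝ := 2 * 2 ^ d * Real.sqrt (2 ^ d / (P * D)) with hs0
  have hs0nn : 0 ≤ s0 := by positivity
  have hsqrt : Real.sqrt (2 ^ d / (P * D)) ≤ 1 / (32 * (N : ℝ) ^ 2) := by
    rw [Real.sqrt_le_left (by positivity)]
    rw [div_le_iff₀ (by positivity), div_pow, one_pow]
    have h1 : 1 / (32 * (N : ℝ) ^ 2) ^ 2 * (P * D) = (P * D) / (1024 * (N : ℝ) ^ 4) := by
      field_simp
      norm_num
    rw [h1, le_div_iff₀ (by positivity)]
    linarith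
  have hs0le : s0 ≤ 2 ^ d / (16 * (N : ℝ) ^ 2) := by
    rw [hs0]
    calc 2 * 2 ^ d * Real.sqrt (2 ^ d / (P * D)) ≤ 2 * 2 ^ d * (1 / (32 * (N : ℝ) ^ 2)) :=
          mul_le_mul_of_nonneg_left hsqrt (by positivity)
      _ = _ := by field_simp; norm_num
  set M0 : ℕ := ⌊s0⌋₊ with hM0
  have hM0le : (M0 : ℝ) ≤ s0 := Nat.floor_le hs0nn
  have hrefl : ∀ x : Fin d → Bool, vadj b x x := by
    intro x
    unfold vadj
    rw [ip_self]
    nlinarith
  set β : ℝ := P / 2 ^ d / 2 with hβ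
  have hβpos : 0 < β := by positivity
  have hβ1 : β ≤ 1 := by
    have : P / 2 ^ d ≤ 1 := by rw [div_le_one h2d]; exact hPle
    rw [hβ]; linarith
  have hss : ∀ S : Finset (Fin d → Bool), M0 < S.card → ∃ x ∈ S,
      ((nonnb (vadj b) x S).card : ℝ) ≤ (1 - β) * S.card := by
    intro S hS
    refine nonnb_small b hd hb haw hw P D hP hP0 hD S ?_
    exact (Nat.floor_lt hs0nn).mp hS
  have hrR : (2 : ℝ) * d ≤ r * (P / 2 ^ d) := by
    rw [div_le_iff₀ hP0] at hr
    rw [mul_div_assoc', le_div_iff₀ h2d]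
    linarith
  have hr' : (1 - β) ^ r * (Fintype.card (Fin d → Bool) : ℝ) < M0 + 1 := by
    rw [card_signs]
    have h1 : (1 - β) ^ r ≤ Real.exp (-(β * r)) := by
      calc (1 - β) ^ r ≤ (Real.exp (-β)) ^ r := by
            refine pow_le_pow_left₀ (by linarith) ?_ r
            have := Real.add_one_le_exp (-β)
            linarith
        _ = _ := by rw [← Real.exp_nat_mul]; congr 1; ring
    have h2 : Real.exp (-(β * r)) ≤ Real.exp (-(d : ℝ)) := by
      refine Real.exp_le_exp.mpr ?_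
      rw [hβ]
      linarith
    have h3 : Real.exp (-(d : ℝ)) * 2 ^ d < 1 := by
      have h4 : Real.exp (-(d : ℝ)) = (Real.exp (-1)) ^ d := by
        rw [← Real.exp_nat_mul]; congr 1; ring
      rw [h4, ← mul_pow]
      refine pow_lt_one₀ (by positivity) ?_ (by omega)
      have h5 := Real.add_one_lt_exp (x := 1) (by norm_num)
      rw [Real.exp_neg]
      rw [inv_mul_lt_iff₀ (Real.exp_pos _)]
      linarith
    have h6 : (0 : ℝ) ≤ M0 := Nat.cast_nonneg _
    calc (1 - β) ^ r * 2 ^ d ≤ Real.exp (-(d : ℝ)) * 2 ^ d :=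
          mul_le_mul_of_nonneg_right (h1.trans h2) h2d.le
      _ < 1 := h3
      _ ≤ _ := by linarith
  have hM0V : M0 ≤ Fintype.card (Fin d → Bool) := by
    have h1 : (M0 : ℝ) ≤ (Fintype.card (Fin d → Bool) : ℝ) := by
      rw [card_signs]
      refine hM0le.trans (hs0le.trans ?_)
      rw [div_le_iff₀ (by positivity)]
      have : (1 : ℝ) ≤ 16 * (N : ℝ) ^ 2 := by nlinarith
      nlinarith
    exact_mod_cast h1
  have hrpos : 1 ≤ r := by
    by_contra hcon
    have : r = 0 := by omega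
    rw [this] at hrR
    simp at hrR
    linarith
  -- the two bad events
  let E1 : Finset (Fin N → Fin d → Bool) := Finset.univ.filter (fun ω => Conf M (thr b ω))
  let E2 : Finset (Fin N → Fin d → Bool) := Finset.univ.filter (fun ω =>
    ∃ κ : Fin (2 * r) → Fin N, Function.Injective κ ∧
      ∀ i j, i ≠ j → ¬ vadj b ((ω ∘ κ) i) ((ω ∘ κ) j))
  set Ω : ℝ := (Fintype.card (Fin d → Bool) : ℝ) ^ (Fintype.card (Fin N)) with hΩ
  have hΩpos : 0 < Ω := by rw [hΩ, card_signs]; positivity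
  have hE1 : (E1.card : ℝ) ≤ 1 / 4 * Ω := by
    refine (conf_bound hC d (I := Fin N) (by simpa using hN) E1
      (fun ω hω => (Finset.mem_filter.mp hω).2)).trans ?_
    exact mul_le_mul_of_nonneg_right hconf hΩpos.le
  have hE2 : (E2.card : ℝ) ≤ 1 / 4 * Ω := by
    have hT := tuples_bound (vadj b) hrefl β hβ1 M0 hss hM0V r (2 * r) (by omega) hr'
      (Finset.univ.filter (fun η : Fin (2 * r) → Fin d → Bool =>
        ∀ i j, i ≠ j → ¬ vadj b (η i) (η j)))
      (fun η hη => (Finset.mem_filter.mp hη).2)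
    have hU := union_bound (J := Fin (2 * r)) (I := Fin N) (A := Fin d → Bool)
      (fun η => ∀ i j, i ≠ j → ¬ vadj b (η i) (η j))
      ((4 * (M0 : ℝ) / 2 ^ d) ^ r) (by
        have h1 : (((Finset.univ.filter (fun η : Fin (2 * r) → Fin d → Bool =>
          ∀ i j, i ≠ j → ¬ vadj b (η i) (η j))).card : ℕ) : ℝ)
            ≤ 2 ^ (2 * r) * ((Fintype.card (Fin d → Bool) : ℝ) ^ r * (M0 : ℝ) ^ (2 * r - r)) := by
          exact_mod_cast hT
        refine h1.trans (le_of_eq ?_)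
        rw [Fintype.card_fin, card_signs]
        have e1 : 2 * r - r = r := by omega
        rw [e1, div_pow, mul_pow]
        have e2 : ((2 : ℝ) ^ d) ^ (2 * r) = (2 ^ d) ^ r * (2 ^ d) ^ r := by
          rw [← pow_add]; congr 1; omega
        have e3 : (2 : ℝ) ^ (2 * r) = 4 ^ r := by
          rw [pow_mul]; norm_num
        rw [e2, e3]
        field_simp) (by positivity) E2 (fun ω hω => (Finset.mem_filter.mp hω).2)
    refine hU.trans (mul_le_mul_of_nonneg_right ?_ hΩpos.le)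
    rw [Fintype.card_fin, Fintype.card_fin, pow_mul, ← mul_pow]
    have h2 : (N : ℝ) ^ 2 * (4 * (M0 : ℝ) / 2 ^ d) ≤ 1 / 4 := by
      have h3 : (M0 : ℝ) ≤ 2 ^ d / (16 * (N : ℝ) ^ 2) := hM0le.trans hs0le
      calc (N : ℝ) ^ 2 * (4 * (M0 : ℝ) / 2 ^ d)
          ≤ (N : ℝ) ^ 2 * (4 * (2 ^ d / (16 * (N : ℝ) ^ 2)) / 2 ^ d) := by gcongr
        _ = 1 / 4 := by field_simp; norm_num
    calc ((N : ℝ) ^ 2 * (4 * (M0 : ℝ) / 2 ^ d)) ^ r ≤ (1 / 4) ^ r :=
          pow_le_pow_left₀ (by positivity) h2 r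
      _ ≤ (1 / 4) ^ 1 := pow_le_pow_of_le_one (by norm_num) (by norm_num) hrpos
      _ = _ := by norm_num
  have hcardall : ((Finset.univ : Finset (Fin N → Fin d → Bool)).card : ℝ) = Ω := by
    rw [Finset.card_univ, Fintype.card_fun]; push_cast; rfl
  have hex : ∃ ω, ω ∉ E1 ∪ E2 := by
    by_contra hcon
    push Not at hcon
    have h1 : (Finset.univ : Finset (Fin N → Fin d → Bool)) ⊆ E1 ∪ E2 := fun ω _ => hcon ω
    have h2 := (Finset.card_le_card h1).trans (Finset.card_union_le _ _)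
    have h3 : Ω ≤ (E1.card : ℝ) + E2.card := by
      rw [← hcardall]; exact_mod_cast h2
    linarith
  obtain ⟨ω, hω⟩ := hex
  rw [Finset.mem_union, not_or] at hω
  refine ⟨ω, fun h => hω.1 (Finset.mem_filter.mpr ⟨Finset.mem_univ _, h⟩), ?_⟩
  intro κ hκ
  by_contra hcon
  push Not at hcon
  exact hω.2 (Finset.mem_filter.mpr ⟨Finset.mem_univ _, κ, hκ, fun i j hij => hcon i j hij⟩)

end Run7.h970
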